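import Pool.Agent.Lib.MP_b5021c_nt.KO.H42.J2B
import Pool.Agent.Lib.MP_b5021c_nt.KO.H67.Ivz

/-!
# MP_b5021c_nt, all `θ`, K = 5 (`j = 2`), leaf (O1-iv): the rows (NBW2) and (IVE2)
-/

namespace Pool.Agent.B5.OOne

open Polynomial Metric
open Pool.Agent.B5.Nr.Sch
open Pool.Agent.B5.KO42

variable {q f : ℤ[X]} {a p : ℝ} {t : ℤ} {k : ℕ}

theorem IvD.w2 (h : IvD q f (C 2 + C t * X ^ k) a p 2) (ht : |t| ≤ 1) (hk : 1 ≤ k) :
    W2 q f t k := by
  refine ⟨h.o.f0, ht, hk, h.eq, h.le, ?_⟩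
  have hlt := h.o.lt
  push_cast at hlt
  exact h.o.loc.qpos (by norm_num) (by linarith)

/-- (IVE2) `V''_0(1/2) ≤ 0` is impossible for `j = 2`, `E = 2 + t z^k`. -/
theorem IvD.ive2 (h : IvD q f (C 2 + C t * X ^ k) a p 2) (ht : |t| ≤ 1) (hk : 1 ≤ k)
    (hv : (1 + 1 / 2 : ℝ) ^ 2 * (aeval (1 / 2 : ℝ) f : ℝ) -
      1 / 2 * aeval (1 / 2 : ℝ) (C 2 + C t * X ^ k : ℤ[X]) ≤ 0) : False := by
  apply (h.w2 ht hk).rowB
  have e : (aeval (1 / 2 : ℝ) (EE t k) : ℝ) = aeval (1 / 2 : ℝ) (C 2 + C t * X ^ k : ℤ[X]) := rfl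
  rw [e]
  have e2 : (1 + 1 / 2 : ℝ) = 3 / 2 := by norm_num
  rw [e2] at hv
  linarith

/-- (NBW2) the zero of `V_B` is not `≤ 2/5`. -/
theorem IvD.nbw2 (h : IvD q f (C 2 + C t * X ^ k) a p 2) (ht : |t| ≤ 1) (hk : 1 ≤ k) {x : ℝ}
    (hx0 : 0 < x) (hx : x ≤ 2 / 5) (hB : (aeval x q : ℝ) + x * aeval x f = 0) : False := by
  have hW := h.w2 ht hk
  have hE := EE_pos ht k (x := x) hx0.le (by linarith)
  have hqx := hW.q_evr x
  have hf : (1 + x) * (aeval x f : ℝ) = x * aeval x (EE t k) := by linarith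
  -- `1/3 < x`
  have hx3 : 1 / 3 < x := by
    by_contra hcon
    push Not at hcon
    have hlt := h.o.lt
    push_cast at hlt
    have h1 := h.o.loc.qpos hx0.le (by linarith)
    have h2 : (0 : ℝ) < aeval x f := by
      have h3 : 0 < (1 + x) * (aeval x f : ℝ) := by rw [hf]; exact mul_pos hx0 hE
      exact pos_of_mul_pos_right h3 (by linarith)
    have := mul_pos hx0 h2
    linarith
  -- the value of `W`
  have hw : x * wr f t k x = 1 - x - x ^ 2 := by
    have h1 := hW.x_NW x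
    rw [wr, ← mul_div_assoc, h1, div_eq_iff hE.ne']
    linear_combination (-2) * hf
  have w3 := hW.w3
  have n3 := hW.wr_nonneg (x := 1 / 3) (by norm_num) (by norm_num)
  have wpos : 0 < wr f t k x := by
    have : 0 < x * wr f t k x := by rw [hw]; nlinarith
    exact pos_of_mul_pos_right this hx0.le
  have hm0 := hW.m_pos hx0.le (by linarith) wpos
  have hm3 := hW.m_le
  obtain ⟨s, hs, hv⟩ := hW.go hm0
  have v3 := hv (1 / 3) (by norm_num) (by norm_num)
  have vx := hv x hx0 (by linarith)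
  obtain ⟨m, hm⟩ : ∃ m, m = (NW f t k).coeff 0 := ⟨_, rfl⟩
  rw [← hm] at hm0 hm3 v3 vx
  have hcase : m = 1 ∨ m = 2 ∨ m = 3 := by omega
  rcases hcase with h1 | h1 | h1
  · -- `W(0) = 1/2`
    rw [h1] at vx
    simp only [Int.cast_one] at vx
    have ux : 9 / 10 ≤ (wr f t k x - 1 / 2) / (x * (wr f t k x + 1 / 2)) := by
      apply le_v hx0 (by linarith)
      have e1 : 9 / 10 * (x * (wr f t k x + 1 / 2)) * x = 9 / 10 * (x * (1 - x - x ^ 2 + x / 2)) := by
        linear_combination (9 / 10 * x) * hw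
      have e2 : (wr f t k x - 1 / 2) * x = 1 - x - x ^ 2 - x / 2 := by
        linear_combination hw
      have e3 : 9 / 10 * (x * (wr f t k x + 1 / 2)) * x ≤ (wr f t k x - 1 / 2) * x := by
        rw [e1, e2]
        nlinarith [mul_nonneg hx0.le (sub_nonneg.mpr hx), mul_nonneg (mul_nonneg hx0.le hx0.le)
          (sub_nonneg.mpr hx)]
      exact le_of_mul_le_mul_right e3 hx0
    have c0 := hW.NW_coeff0
    rw [← hm, h1, hW.E0, hW.f0] at c0
    have hE1 : (EE t k).coeff 1 = if 1 = k then t else 0 := by rw [EE_coeff]; simp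
    have hk1 : 1 = k := by
      by_contra hne
      rw [if_neg hne] at hE1
      omega
    rw [if_pos hk1] at hE1
    have hE2 : (EE t k).coeff 2 = 0 := by rw [EE_coeff, ← hk1]; simp
    have ht1 := _root_.abs_le.mp hW.t1
    have c1 := hW.NW_coeff 0
    simp only [zero_add] at c1
    rw [hW.E0, hE1, hE2] at c1
    rw [hE1] at c0
    obtain ⟨g, hg⟩ : ∃ g : ℤ, (NW f t k).coeff 1 = -1 - 2 * g := ⟨f.coeff 2, by omega⟩
    rw [hg, ← hm, h1, hE1] at hs
    have z1 := hs.z5 (by push_cast; norm_num)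
    have z1' : s ((0 : ℝ) : ℂ) = (((-2 - 4 * g - t) / 4 : ℝ) : ℂ) := by
      rw [Complex.ofReal_zero, z1]
      congr 1
      push_cast
      ring
    have z2 := hs.abs_le (by norm_num) z1'
    have hlow : (3 : ℝ) / 4 < (-2 - 4 * g - t) / 4 := by
      by_contra hcon
      push Not at hcon
      refine dead hs (x := 0) (y := x) le_rfl hx0 (by linarith) z1' vx
        (al := 3 / 4) (be := 9 / 10) hcon ux ?_
      nlinarith
    have h5 : 5 < -4 * g - t := by
      have : (5 : ℝ) < -4 * g - t := by linarith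
      exact_mod_cast this
    have h6 : -4 * g - t ≤ 6 := by
      have : -4 * (g : ℝ) - t ≤ 6 := by linarith [z2.2]
      exact_mod_cast this
    omega
  · -- `W(0) = 1`
    rw [h1] at v3 vx
    simp only [Int.cast_ofNat] at v3 vx
    refine dead hs (by norm_num) hx3 (by linarith) v3 vx (al := 0) (be := 1 / 10) ?_ ?_ ?_
    · exact v_le (by norm_num) (by linarith) (by linarith)
    · apply le_v hx0 (by linarith)
      have e1 : 1 / 10 * (x * (wr f t k x + 2 / 2)) * x = 1 / 10 * (x * (1 - x ^ 2)) := by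
        linear_combination (1 / 10 * x) * hw
      have e2 : (wr f t k x - 2 / 2) * x = 1 - 2 * x - x ^ 2 := by
        linear_combination hw
      have e3 : 1 / 10 * (x * (wr f t k x + 2 / 2)) * x ≤ (wr f t k x - 2 / 2) * x := by
        rw [e1, e2]
        nlinarith [mul_nonneg hx0.le (sub_nonneg.mpr hx), mul_nonneg (mul_nonneg hx0.le hx0.le)
          (sub_nonneg.mpr hx)]
      exact le_of_mul_le_mul_right e3 hx0
    · nlinarith
  · -- `W(0) = 3/2`
    rw [h1] at v3 vx
    simp only [Int.cast_ofNat] at v3 vx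
    refine dead hs (by norm_num) hx3 (by linarith) v3 vx (al := -(3 / 5)) (be := -(1 / 2)) ?_ ?_ ?_
    · exact v_le (by norm_num) (by linarith) (by linarith)
    · apply le_v hx0 (by linarith)
      have e1 : -(1 / 2) * (x * (wr f t k x + 3 / 2)) * x =
          -(1 / 2) * (x * (1 - x - x ^ 2 + 3 / 2 * x)) := by
        linear_combination (-(1 / 2) * x) * hw
      have e2 : (wr f t k x - 3 / 2) * x = 1 - x - x ^ 2 - 3 / 2 * x := by
        linear_combination hw
      have e3 : -(1 / 2) * (x * (wr f t k x + 3 / 2)) * x ≤ (wr f t k x - 3 / 2) * x := by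
        rw [e1, e2]
        nlinarith [mul_nonneg hx0.le (sub_nonneg.mpr hx), mul_nonneg (mul_nonneg hx0.le hx0.le)
          (sub_nonneg.mpr hx)]
      exact le_of_mul_le_mul_right e3 hx0
    · nlinarith

end Pool.Agent.B5.OOne
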