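import Pool.Agent.Lib.MP_b5021c_nt.IfaceOC
import Pool.Agent.Lib.MP_b5021c_nt.KO.H52.Kern

/-!
# Board b5, K ODD, (O4), length four with a killer, one variable: row K4bS of IfaceOC.lean
-/

namespace Pool.Agent.B5.OC.H42

open scoped LaurentPolynomial
open Polynomial
open Pool.Agent.B5
open Pool.Agent.B5.O4U (abs_aeval_le)
open Pool.Agent.B5.O4X (Tp)

/-- A polynomial which is a Laurent monomial. -/
theorem tl_mono {p : ℤ[X]} {n m : ℤ}
    (h : (toLaurent p : RO ℤ) = LaurentPolynomial.C n * LaurentPolynomial.T m) :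
    ∃ k : ℕ, p = C n * X ^ k := by
  rcases m with k | k
  · refine ⟨k, toLaurent_injective ?_⟩
    rw [h, toLaurent_C_mul_X_pow]
    rfl
  · have h1 : X ^ (k + 1) * p = C n := by
      apply toLaurent_injective
      rw [map_mul, h, toLaurent_X_pow, toLaurent_C, ← mul_assoc,
        mul_comm (LaurentPolynomial.T _) (LaurentPolynomial.C n), mul_assoc,
        ← LaurentPolynomial.T_add]
      have : ((k + 1 : ℕ) : ℤ) + Int.negSucc k = 0 := by
        rw [Int.negSucc_eq]; push_cast; ring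
      rw [this, LaurentPolynomial.T_zero, mul_one]
    have h2 := congrArg (fun P => P.coeff 0) h1
    simp only [mul_coeff_zero, coeff_X_pow, coeff_C_zero] at h2
    have h3 : n = 0 := by simpa using h2.symm
    subst h3
    refine ⟨0, ?_⟩
    rw [map_zero] at h1 ⊢
    rw [zero_mul]
    exact (mul_eq_zero.mp h1).resolve_left (pow_ne_zero _ X_ne_zero)

/-- The first coefficients of `f`. -/
theorem k4_coef {q f : ℤ[X]} {x y : ℝ} (h : Tp 3 q f x y) (f0 : f.coeff 0 = 1)
    (hq : q = (1 - X - X ^ 2) * f - X * (f + 2)) (hf : ∀ k, 1 ≤ k → |f.coeff k| ≤ 1) :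
    f.coeff 1 = 1 ∧ f.coeff 2 = -1 ∧ f.coeff 3 = -1 := by
  have hx : x = 1 / 4 := by have := h.hx; push_cast at this; linarith
  have hy : y = 1 / 3 := by have := h.hy; push_cast at this; linarith
  have hk : ∀ k, |f.coeff k| ≤ 1 := by
    intro k
    rcases Nat.eq_zero_or_pos k with h0 | h0
    · rw [h0, f0]; norm_num
    · exact hf k h0
  have e : ∀ (G : ℤ[X]) (t : ℝ), (aeval t G : ℝ) = t * aeval t G.divX + G.coeff 0 := by
    intro G t
    conv_lhs => rw [← X_mul_divX_add G]
    rw [map_add, map_mul, aeval_X, O4X.aC]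
  have e1 : ∀ t : ℝ, (aeval t f : ℝ) = t * aeval t f.divX + 1 := fun t => by
    rw [e f t, f0]; push_cast; ring
  have e2 : ∀ t : ℝ, (aeval t f.divX : ℝ) = t * aeval t f.divX.divX + f.coeff 1 := fun t => by
    rw [e f.divX t, coeff_divX]
  have e3 : ∀ t : ℝ, (aeval t f.divX.divX : ℝ) = t * aeval t f.divX.divX.divX + f.coeff 2 :=
    fun t => by rw [e f.divX.divX t, coeff_divX, coeff_divX]
  have e4 : ∀ t : ℝ, (aeval t f.divX.divX.divX : ℝ) =
      t * aeval t f.divX.divX.divX.divX + f.coeff 3 :=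
    fun t => by rw [e f.divX.divX.divX t, coeff_divX, coeff_divX, coeff_divX]
  have eq : ∀ t : ℝ, (aeval t q : ℝ) = (1 - t - t ^ 2) * aeval t f - t * (aeval t f + 2) := by
    intro t
    rw [hq]
    simp only [map_sub, map_mul, map_one, aeval_X, map_pow, map_add, map_ofNat]
  have hI := h.I
  have hII := h.II
  rw [eq, hx] at hI
  rw [eq, hy] at hII
  have b2 := abs_aeval_le (G := f.divX.divX) (fun k => by
    rw [coeff_divX, coeff_divX]; exact hk _) (x := 1 / 4) (by norm_num) (by norm_num)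
  have b3 := abs_aeval_le (G := f.divX.divX.divX) (fun k => by
    rw [coeff_divX, coeff_divX, coeff_divX]; exact hk _) (x := 1 / 3) (by norm_num) (by norm_num)
  have b4 := abs_aeval_le (G := f.divX.divX.divX.divX) (fun k => by
    rw [coeff_divX, coeff_divX, coeff_divX, coeff_divX]; exact hk _) (x := 1 / 3) (by norm_num)
    (by norm_num)
  norm_num at b2 b3 b4
  have k1 := abs_le.mp (hk 1)
  have k2 := abs_le.mp (hk 2)
  have k3 := abs_le.mp (hk 3)
  have c1 : f.coeff 1 = 1 := by
    by_contra hc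
    have h1 : f.coeff 1 ≤ 0 := by omega
    have h2 : ((f.coeff 1 : ℤ) : ℝ) ≤ 0 := by exact_mod_cast h1
    have h3 := e1 (1 / 4)
    have h4 := e2 (1 / 4)
    have h5 := (abs_le.mp b2).2
    nlinarith
  have c2 : f.coeff 2 = -1 := by
    by_contra hc
    have h1 : 0 ≤ f.coeff 2 := by omega
    have h2 : (0 : ℝ) ≤ ((f.coeff 2 : ℤ) : ℝ) := by exact_mod_cast h1
    have h3 := e1 (1 / 3)
    have h4 := e2 (1 / 3)
    have h5 := e3 (1 / 3)
    have h6 := (abs_le.mp b3).1
    rw [c1] at h4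
    push_cast at h4
    nlinarith
  have c3 : f.coeff 3 = -1 := by
    by_contra hc
    have h1 : 0 ≤ f.coeff 3 := by omega
    have h2 : (0 : ℝ) ≤ ((f.coeff 3 : ℤ) : ℝ) := by exact_mod_cast h1
    have h3 := e1 (1 / 3)
    have h4 := e2 (1 / 3)
    have h5 := e3 (1 / 3)
    have h6 := e4 (1 / 3)
    have h7 := (abs_le.mp b4).1
    rw [c1] at h4
    rw [c2] at h5
    push_cast at h4 h5
    nlinarith
  exact ⟨c1, c2, c3⟩

/-- The inequality on the circle: `n ≥ -1` and `n ≠ 0`. -/
theorem k4_fej {q f h : ℤ[X]} {n : ℤ} (f0 : f.coeff 0 = 1) (f1 : f.coeff 1 = 1)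
    (f2 : f.coeff 2 = -1) (f3 : f.coeff 3 = -1) (hn : n ≤ 0)
    (hq : q = (1 - X - X ^ 2) * f - X * (f + 2)) (hh : h = q + C (2 - n) * X)
    (hle : ∀ z : ℂ, ‖z‖ = 1 → ‖(aeval z h : ℂ)‖ ≤ ‖(aeval z q : ℂ)‖) : n = -1 := by
  obtain ⟨G, hG⟩ : ∃ G : ℤ[X], G = C 2 * (C 2 * f + X * f - X - f.divX) + C (2 + n) := ⟨_, rfl⟩
  have hre : ∀ z : ℂ, ‖z‖ = 1 → 0 ≤ (aeval z G : ℂ).re := by
    intro z hz
    have hc := Krn.conj_of_norm hz
    have h1 := hle z hz
    have h2 : (aeval z h : ℂ) = aeval z q + (2 - n) * z := by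
      rw [hh]
      simp only [map_add, map_sub, map_mul, aeval_X, eq_intCast, map_ofNat, map_intCast]
    have h3 : ‖(aeval z h : ℂ)‖ ^ 2 ≤ ‖(aeval z q : ℂ)‖ ^ 2 :=
      pow_le_pow_left₀ (norm_nonneg _) h1 2
    have h4 : ‖(aeval z q : ℂ) + (2 - n) * z‖ ^ 2 = ‖(aeval z q : ℂ)‖ ^ 2 +
        2 * (2 - n) * ((aeval z q : ℂ) * (starRingEnd ℂ) z).re + (2 - n) ^ 2 := by
      rw [← Complex.normSq_eq_norm_sq, Complex.normSq_add, Complex.normSq_mul,
        Complex.normSq_eq_norm_sq z, hz, map_mul, ← Complex.normSq_eq_norm_sq]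
      have e1 : (starRingEnd ℂ) ((2 : ℂ) - n) = ((2 - n : ℝ) : ℂ) := by
        have : ((2 : ℂ) - n) = ((2 - n : ℝ) : ℂ) := by push_cast; ring
        rw [this, Complex.conj_ofReal]
      have e2 : Complex.normSq ((2 : ℂ) - n) = (2 - n) ^ 2 := by
        have : ((2 : ℂ) - n) = ((2 - n : ℝ) : ℂ) := by push_cast; ring
        rw [this, Complex.normSq_ofReal]; ring
      have e3 : ((aeval z q : ℂ) * (((2 - n : ℝ) : ℂ) * (starRingEnd ℂ) z)).re =
          (2 - n) * ((aeval z q : ℂ) * (starRingEnd ℂ) z).re := by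
        rw [← mul_assoc, mul_comm (aeval z q : ℂ), mul_assoc, Complex.re_ofReal_mul]
      rw [e1, e2, e3]
      ring
    rw [h2, h4] at h3
    have hn' : (n : ℝ) ≤ 0 := by exact_mod_cast hn
    have h5 : 2 * ((aeval z q : ℂ) * (starRingEnd ℂ) z).re + (2 - n) ≤ 0 := by
      by_contra hcon
      push Not at hcon
      nlinarith
    have hs : (aeval z f : ℂ) = z * aeval z f.divX + 1 := by
      rw [Krn.ae_split f z, f0]; simp
    have h6 : (aeval z q : ℂ) * (starRingEnd ℂ) z = (starRingEnd ℂ) z + aeval z f.divX -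
        2 * aeval z f - z * aeval z f - 2 := by
      rw [hq]
      simp only [map_sub, map_mul, map_one, aeval_X, map_pow, map_add]
      rw [map_ofNat]
      linear_combination (-2 * (aeval z f : ℂ) - z * aeval z f - 2 + aeval z f.divX) * hc +
        (starRingEnd ℂ) z * hs
    have h7 : (aeval z G : ℂ) = 2 * (2 * aeval z f + z * aeval z f - z - aeval z f.divX) +
        (2 + n) := by
      rw [hG]
      simp only [map_add, map_sub, map_mul, aeval_X, eq_intCast, map_ofNat, map_intCast]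
    rw [h6] at h5
    rw [h7]
    simp only [Complex.add_re, Complex.sub_re, Complex.mul_re, Complex.conj_re, Complex.re_ofNat,
      Complex.im_ofNat, zero_mul, sub_zero, Complex.intCast_re] at h5 ⊢
    linarith
  have hG0 : G.coeff 0 = 4 + n := by
    rw [hG]
    simp [coeff_divX, f0, f1]
    ring
  have hG1 : G.coeff 1 = 6 := by
    rw [hG]
    simp only [coeff_add, coeff_C_mul, coeff_sub, coeff_divX, coeff_X_mul, coeff_C, coeff_X]
    norm_num [f0, f1, f2]
  have hG2 : G.coeff 2 = 0 := by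
    rw [hG]
    simp only [coeff_add, coeff_C_mul, coeff_sub, coeff_divX, coeff_X_mul, coeff_C, coeff_X]
    norm_num [f1, f2, f3]
  have t1 := Krn.kern hre (x := 0) (y := 0) (by simp) (by simp) (γ := 1) (δ := -(1 / 2)) (ε := 0)
    (al := 0) (be := 0) (fun c _ hc2 => by linarith)
  have t2 := Krn.kern hre (x := 0) (y := 0) (by simp) (by simp) (γ := 17 / 4) (δ := -3) (ε := 1)
    (al := 0) (be := 0) (fun c _ _ => by nlinarith [sq_nonneg (2 * c - 3 / 2)])
  rw [hG0, hG1, hG2] at t1 t2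
  push_cast at t1 t2
  have h1 : (-1 : ℝ) ≤ n := by linarith
  have h2 : -1 ≤ n := by exact_mod_cast h1
  have h3 : n ≠ 0 := by
    rintro rfl
    push_cast at t2
    linarith
  omega

/-- `f` is not a binomial. -/
theorem k4_ne {f : ℤ[X]} (hB : ¬ Bnm 3 (f + 2) f) {k : ℕ} {r : ℤ} (hk : 1 ≤ k) :
    f ≠ 1 + C r * X ^ k := by
  intro h
  refine hB ⟨k, r, r, hk, ?_, h⟩
  rw [h]
  simp only [Nat.cast_ofNat, map_ofNat]
  ring

/-- A pair `(f + 2, g)`: `g = f`, or `g = 1`. -/
theorem k4_cn {f g : ℤ[X]} (hB : ¬ Bnm 3 (f + 2) f) (h : BPR.Cn 3 (f + 2) g) : g = f ∨ g = 1 := by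
  by_cases hg : g = 1
  · exact Or.inr hg
  left
  rcases h.1 hg with ⟨k, t, r, hk, hp, -⟩ | ⟨s, M, F, hs, hF, hp, hg'⟩
  · exfalso
    refine k4_ne hB (k := k) (r := t) hk ?_
    have h1 : f = C ((3 : ℕ) : ℤ) + C t * X ^ k - 2 := by rw [← hp]; ring
    rw [h1]
    simp only [Nat.cast_ofNat, map_ofNat]
    ring
  · have hM := hF.1
    have hs0 : s = 0 := by omega
    subst hs0
    have h1 : f = C ((3 : ℕ) : ℤ) + C (((0 : ℕ) : ℤ) + 1) * F - 2 := by rw [← hp]; ring
    rw [hg', h1]
    simp only [Nat.cast_ofNat, map_ofNat, Nat.cast_zero, zero_add, map_one]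
    ring

/-- A polynomial with a root of unity trick: `F (1 - s X^i) = s X^i` is impossible, `i ≥ 1`. -/
theorem k4_geo {F : ℤ[X]} {s : ℤ} (hs : s = 1 ∨ s = -1) {i : ℕ} (hi : 1 ≤ i)
    (h : F = C s * X ^ i * (1 + F)) : False := by
  obtain ⟨z, hz⟩ := IsAlgClosed.exists_pow_nat_eq ((s : ℂ)) (n := i) (by omega)
  have h1 := congrArg (fun P => (aeval z P : ℂ)) h
  simp only [map_mul, map_add, map_one, map_pow, aeval_X, eq_intCast, map_intCast, hz] at h1
  have h2 : (s : ℂ) * s = 1 := by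
    rcases hs with rfl | rfl <;> norm_num
  rw [h2] at h1
  have h3 : (0 : ℂ) = 1 := by linear_combination h1
  exact zero_ne_one h3

/-- ROW K4bS. -/
theorem k4b : K4bS := by
  intro q f h n m x y hT f0 hq hf hx hB hh0 hle hcase
  obtain ⟨f1, f2, f3⟩ := k4_coef hT f0 hq hf
  have hf1 : f ≠ 1 := by
    intro h1
    refine k4_ne hB (k := 1) (r := 0) le_rfl ?_
    rw [h1]; simp
  rcases hcase with ⟨h1, h2⟩ | ⟨h0, h1, h2, h3⟩
  · -- load B
    rw [← map_add] at h1
    obtain ⟨k, hk⟩ := tl_mono h1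
    have c0 := congrArg (fun P => P.coeff 0) hk
    simp only [coeff_add, mul_coeff_zero, coeff_X_zero, zero_mul, coeff_sub, coeff_one_zero,
      coeff_X_pow, coeff_C_zero, f0] at c0
    have hk0 : k = 0 := by
      by_contra hk0
      rw [if_neg (by omega : ¬ (0 = 2)), if_neg (by omega : ¬ (0 = k))] at c0
      norm_num at c0
    subst hk0
    have hn : n = 1 := by
      norm_num at c0
      exact c0.symm
    rw [hn, pow_zero, mul_one, map_one] at hk
    have hg : (1 : ℤ[X]) + X * f = X * h + (1 - X - X ^ 2) * f := by linear_combination -hk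
    have hc := h2 _ hg (by simp)
    rcases k4_cn hB hc with h4 | h4
    · have h5 := congrArg (fun P => P.eval 1) h4
      simp at h5
    · have h5 : X * f = 0 := by linear_combination h4
      rcases mul_eq_zero.mp h5 with h6 | h6
      · exact X_ne_zero h6
      · rw [h6] at f0
        simp at f0
  · -- load A
    have h1' : (toLaurent (f * (1 - 2 * X - X ^ 2) - h) : RO ℤ) =
        LaurentPolynomial.C n * LaurentPolynomial.T m := by
      rw [← h2, map_sub]; ring
    obtain ⟨k, hk⟩ := tl_mono h1'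
    obtain ⟨n', k', hk', hk1⟩ : ∃ (n' : ℤ) (k' : ℕ), 1 ≤ k' ∧
        f * (1 - 2 * X - X ^ 2) - h = C n' * X ^ k' := by
      rcases Nat.eq_zero_or_pos k with h4 | h4
      · subst h4
        have c0 := congrArg (fun P => P.coeff 0) hk
        simp only [mul_coeff_zero, coeff_sub, coeff_one_zero, coeff_X_zero, mul_zero,
          coeff_X_pow, coeff_C_zero, f0, h0] at c0
        norm_num at c0
        exact ⟨0, 1, le_rfl, by rw [hk, ← c0]; simp⟩
      · exact ⟨n, k, h4, hk⟩
    have hh : h = f * (1 - 2 * X - X ^ 2) - C n' * X ^ k' := by linear_combination -hk1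
    -- `V''_T`
    have hV : (1 - X - X ^ 2) * f - h = X * f + C n' * X ^ k' := by rw [hh]; ring
    have hq1 : q.coeff 1 = f.coeff 1 - 4 := by
      rw [hq]
      have : (1 - X - X ^ 2) * f - X * (f + 2) = f - X * f - X * (X * f) - X * (f + 2) := by ring
      rw [this]
      simp only [coeff_sub, coeff_X_mul, coeff_add, f0, f1]
      simp
    have hh1 : h.coeff 1 = f.coeff 1 - 2 - (if k' = 1 then n' else 0) := by
      rw [hh]
      have : f * (1 - 2 * X - X ^ 2) - C n' * X ^ k' = f - 2 * (X * f) - X * (X * f) -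
        C n' * X ^ k' := by ring
      rw [this]
      simp only [coeff_sub, coeff_X_mul, coeff_C_mul, coeff_X_pow, f1]
      have e2 : (2 * (X * f) : ℤ[X]).coeff 1 = 2 := by
        rw [show (2 : ℤ[X]) = C 2 by simp, coeff_C_mul, coeff_X_mul, f0]; norm_num
      rw [e2]
      simp [eq_comm]
    have hn'1 : k' = 1 → n' ≤ 0 := by
      intro hk2
      rw [hh1, hq1, if_pos hk2] at h1
      omega
    -- `k' ≥ 2` gives `n' = 0`
    have hz : 2 ≤ k' → n' = 0 := by
      intro hk2
      obtain ⟨l, rfl⟩ := Nat.exists_eq_add_of_le' (by omega : 1 ≤ k')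
      have hl : 1 ≤ l := by omega
      have hc := h3 (f + C n' * X ^ l) 1 1 (Or.inl rfl) (by
        simp only [coeff_add, f0, coeff_C_mul, coeff_X_pow]
        rw [if_neg (by omega)]
        ring) (by
        rw [hV, map_one, pow_succ]
        ring)
      rcases k4_cn hB hc with h4 | h4
      · have h5 : C n' * X ^ l = (0 : ℤ[X]) := by linear_combination h4
        rcases mul_eq_zero.mp h5 with h6 | h6
        · exact C_eq_zero.mp h6
        · exact absurd h6 (pow_ne_zero _ X_ne_zero)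
      · exfalso
        refine k4_ne hB (k := l) (r := -n') hl ?_
        rw [map_neg]
        linear_combination h4
    -- the form `h = q + (2 - n) X`
    obtain ⟨n1, hn1, hhq, hV1⟩ : ∃ n1 : ℤ, n1 ≤ 0 ∧ h = q + C (2 - n1) * X ∧
        (1 - X - X ^ 2) * f - h = X * (f + C n1) := by
      rcases Nat.lt_or_ge k' 2 with h4 | h4
      · have hk2 : k' = 1 := by omega
        subst hk2
        refine ⟨n', hn'1 rfl, ?_, ?_⟩
        · rw [hh, hq, map_sub]
          simp only [map_ofNat]
          ring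
        · rw [hV]; ring
      · have h5 := hz h4
        rw [h5] at hh hV
        refine ⟨0, le_rfl, ?_, ?_⟩
        · rw [hh, hq, sub_zero, map_zero]
          simp only [map_ofNat]
          ring
        · rw [hV, map_zero]; ring
    have hn := k4_fej f0 f1 f2 f3 hn1 hq hhq hle
    subst hn
    -- `V''_T = X F`, `F = f - 1`
    have hF0 : f - 1 ≠ 0 := sub_ne_zero.mpr hf1
    obtain ⟨F', hF', i, hi⟩ : ∃ F' : ℤ[X], F'.coeff 0 ≠ 0 ∧ ∃ i : ℕ, f - 1 = X ^ i * F' := by
      obtain ⟨F', h4, h5⟩ := exists_eq_pow_rootMultiplicity_mul_and_not_dvd (f - 1) hF0 0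
      rw [map_zero, sub_zero] at h4 h5
      refine ⟨F', ?_, _, h4⟩
      intro h6
      exact h5 (X_dvd_iff.mpr h6)
    have hi1 : 1 ≤ i := by
      by_contra hcon
      have hi0 : i = 0 := by omega
      rw [hi0, pow_zero, one_mul] at hi
      apply hF'
      rw [← hi]
      simp [f0]
    have hci : f.coeff i = F'.coeff 0 := by
      have h4 : f = 1 + X ^ i * F' := by linear_combination hi
      rw [h4, coeff_add, coeff_one, if_neg (by omega), coeff_X_pow_mul', if_pos le_rfl, zero_add,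
        Nat.sub_self]
    have hs : F'.coeff 0 = 1 ∨ F'.coeff 0 = -1 := by
      have h4 := abs_le.mp (hf i hi1)
      rw [hci] at h4
      omega
    obtain ⟨s, hs'⟩ : ∃ s, s = F'.coeff 0 := ⟨_, rfl⟩
    rw [← hs'] at hs
    have hss : s * s = 1 := by rcases hs with h4 | h4 <;> rw [h4] <;> norm_num
    have hCs : (C s * C s : ℤ[X]) = 1 := by rw [← map_mul, hss, map_one]
    have hc := h3 (C s * F') s (i + 1) hs (by
      rw [coeff_C_mul, ← hs', hss]) (by
      rw [hV1, map_neg, map_one]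
      have : f + -1 = X ^ i * F' := by rw [← hi]; ring
      rw [this, pow_succ]
      linear_combination (X ^ i * X * F') * hCs)
    rcases k4_cn hB hc with h4 | h4
    · refine k4_geo (F := f - 1) hs hi1 ?_
      rw [add_sub_cancel, hi, ← h4]
      linear_combination -(X ^ i * F') * hCs
    · refine k4_ne hB (k := i) (r := s) hi1 ?_
      have h5 : F' = C s := by
        linear_combination C s * h4 - F' * hCs
      linear_combination hi + X ^ i * h5

end Pool.Agent.B5.OC.H42
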