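import Pool.Agent.Lib.MP_b5021c_nt.W.H80.Win

/-!
# MP_b5021c_nt, all `θ`, K ODD, (O4), l = 3, pure beta: the row RAT and the end of case (B)
-/

namespace Pool.Agent.B5.O4C

open Polynomial
open Pool.Agent.B5.Nr.Sch

/-- The value of the Schur function of a ray at `x`. -/
noncomputable def sg (Q f : ℤ[X]) (a x : ℝ) : ℝ :=
  aeval x f * ((a - x) / (aeval x Q * (1 - a * x)))

theorem aeval_eval (P : ℤ[X]) (x : ℝ) :
    (aeval x P : ℝ) = (P.map (Int.castRingHom ℝ)).eval x := by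
  rw [eval_map]; rfl

/-- The factor is positive. -/
theorem fac_pos {Q f : ℤ[X]} {a : ℝ} (h : Loc Q f a) {x : ℝ} (hx0 : 0 ≤ x) (hxa : x < a) :
    0 < (aeval x Q : ℝ) ∧ 0 < (a - x) / (aeval x Q * (1 - a * x)) := by
  obtain ⟨s, hs, hsp, s0, s1, s2, hneg⟩ := h.sp
  have ha1 := h.a1
  have e : (aeval x Q : ℝ) = (x - a) * s.eval x := by
    rw [aeval_eval, hs, eval_mul]; simp
  have h1 := hneg x hx0 (by linarith)
  have h2 : 0 < (aeval x Q : ℝ) := by
    rw [e]; exact mul_pos_of_neg_of_neg (by linarith) h1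
  have h3 : 0 < 1 - a * x := by nlinarith [h.a0]
  exact ⟨h2, div_pos (by linarith) (mul_pos h2 h3)⟩

/-- Schwarz-Pick for the Schur function. -/
theorem sg_pick {Q f : ℤ[X]} {a : ℝ} (h : Loc Q f a) {x : ℝ} (hx0 : 0 < x) (hxa : x < a) :
    |sg Q f a x| ≤ 1 ∧ |a * f.coeff 0 - sg Q f a x| ≤ x * (1 - a * f.coeff 0 * sg Q f a x) ∧
      |a * (f.coeff 0 : ℝ)| ≤ 1 := by
  obtain ⟨s, hs, hsp, s0, s1, s2, hneg⟩ := h.sp
  have ha := h.a0
  have ha1 := h.a1
  set F : ℝ[X] := f.map (Int.castRingHom ℝ) with hF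
  set R : ℝ[X] := s * (1 - C a * X) with hR
  have e : (aeval x Q : ℝ) = (x - a) * s.eval x := by
    rw [aeval_eval, hs, eval_mul]; simp
  have h1 := hneg x hx0.le (by linarith)
  have h3 : 0 < 1 - a * x := by nlinarith
  have eR : R.eval x = s.eval x * (1 - a * x) := by rw [hR, eval_mul]; simp
  have hsg : F.eval x / R.eval x = -sg Q f a x := by
    rw [sg, e, eR, aeval_eval f, ← hF]
    have h2 : s.eval x ≠ 0 := h1.ne
    have h4 : x - a ≠ 0 := by linarith
    have h5 : (a - x) / ((x - a) * s.eval x * (1 - a * x)) = -(1 / (s.eval x * (1 - a * x))) := by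
      field_simp
      ring
    rw [h5]
    ring
  have hx : |x| ≤ 1 := by rw [abs_of_pos hx0]; linarith
  have h4 := hsp.ratio hx
  rw [hsg, abs_neg] at h4
  refine ⟨h4, ?_⟩
  have h0 : F.coeff 0 = (-(a * f.coeff 0)) * R.coeff 0 := by
    have r0 : R.coeff 0 = -a⁻¹ := by
      have hRX : R = s - C a * (X * s) := by rw [hR]; ring
      rw [hRX, coeff_sub, coeff_C_mul, coeff_X_mul_zero, mul_zero, sub_zero, s0]
    rw [hF, coeff_map, r0]
    simp
    field_simp
  have h5 := hsp.pick h0 hx0.le (by linarith)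
  rw [hsg] at h5
  have h6 : |a * f.coeff 0 - sg Q f a x| = |(-sg Q f a x) - -(a * f.coeff 0)| := by
    congr 1; ring
  rw [h6]
  refine ⟨h5.trans (le_of_eq (by ring)), ?_⟩
  obtain ⟨h7, h8⟩ := hsp.coeff_le
  rw [h0, abs_mul, abs_neg] at h8
  exact le_of_mul_le_mul_right (by rw [one_mul]; exact h8) (abs_pos.mpr h7)

/-- The second step, `f(0) = 1`; `g = n a - (1 - a²)`, `n = f_1 - q_1`. -/
theorem sg_step {Q f : ℤ[X]} {a : ℝ} (h : Loc Q f a) (hu : f.coeff 0 = 1) {x : ℝ} (hx0 : 0 < x)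
    (hxa : x < a) {g : ℝ} (hg : g = ((f.coeff 1 - Q.coeff 1 : ℤ) : ℝ) * a - (1 - a ^ 2)) :
    sg Q f a x * ((1 - a) * (1 + a * x ^ 2) + x * g) ≤ (1 - a) * (a + x ^ 2) + x * g ∧
    (1 + a) * (a - x ^ 2) + x * g ≤ sg Q f a x * ((1 + a) * (1 - a * x ^ 2) - x * g) ∧
    |g| ≤ 1 - a ^ 2 := by
  obtain ⟨s, hs, hsp, s0, s1, s2, hneg⟩ := h.sp
  have ha := h.a0
  have ha1 := h.a1
  set F : ℝ[X] := f.map (Int.castRingHom ℝ) with hF
  set R : ℝ[X] := s * (1 - C a * X) with hR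
  have e : (aeval x Q : ℝ) = (x - a) * s.eval x := by
    rw [aeval_eval, hs, eval_mul]; simp
  have h1 := hneg x hx0.le (by linarith)
  have h3 : 0 < 1 - a * x := by nlinarith
  have eR : R.eval x = s.eval x * (1 - a * x) := by rw [hR, eval_mul]; simp
  have hsg : F.eval x / R.eval x = -sg Q f a x := by
    rw [sg, e, eR, aeval_eval f, ← hF]
    have h2 : s.eval x ≠ 0 := h1.ne
    have h4 : x - a ≠ 0 := by linarith
    have h5 : (a - x) / ((x - a) * s.eval x * (1 - a * x)) = -(1 / (s.eval x * (1 - a * x))) := by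
      field_simp
      ring
    rw [h5]
    ring
  set n : ℤ := f.coeff 1 - Q.coeff 1 with hn
  have hRX : R = s - C a * (X * s) := by rw [hR]; ring
  have r0 : R.coeff 0 = -a⁻¹ := by
    rw [hRX, coeff_sub, coeff_C_mul, coeff_X_mul_zero, mul_zero, sub_zero, s0]
  have r1c : R.coeff 1 = s.coeff 1 - a * s.coeff 0 := by
    rw [hRX, coeff_sub, coeff_C_mul, coeff_X_mul]
  have f0 : F.coeff 0 = 1 := by rw [hF, coeff_map, hu]; simp
  have f1 : F.coeff 1 = f.coeff 1 := by rw [hF, coeff_map]; rfl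
  have hg0 : F.coeff 0 = -a * R.coeff 0 := by
    rw [f0, r0]; field_simp
  obtain ⟨F1, hF1⟩ := exists_quot F R hg0
  have hsp1 := hsp.step (g := -a) (by rw [abs_neg, abs_of_pos ha]; exact ha1) hF1
  set R1 : ℝ[X] := R - C (-a) * F with hR1
  have F10 : F1.coeff 0 = n - (a⁻¹ - a) := by
    have := congrArg (fun q => q.coeff 1) hF1
    simp only [coeff_X_mul, coeff_sub, coeff_C_mul] at this
    rw [this, f1, r1c, s1, s0, hn]
    push_cast
    field_simp
    ring
  have R10 : R1.coeff 0 = -(a⁻¹ - a) := by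
    rw [hR1, coeff_sub, coeff_C_mul, r0, f0]; ring
  have hXi : 0 < a⁻¹ - a := by
    have : 1 < a⁻¹ := (one_lt_inv₀ ha).mpr ha1
    linarith
  have hx : |x| ≤ 1 := by rw [abs_of_pos hx0]; linarith
  have hgam : F1.coeff 0 = (-(g / (1 - a ^ 2))) * R1.coeff 0 := by
    have h5 : 1 - a ^ 2 ≠ 0 := by nlinarith
    rw [F10, R10, hg]
    field_simp
  have h5 := hsp1.pick hgam hx0.le (by linarith)
  have hRne := (hsp.ev hx).1
  set σ := sg Q f a x with hσ
  have hσ1 := (sg_pick h hx0 hxa).1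
  rw [← hσ] at hσ1
  have h1aσ : 0 < 1 - a * σ := by
    have := abs_le.mp hσ1
    nlinarith
  have hval := SP.step_val hF1 hRne hx0.ne' (by rw [hsg]; linarith)
  rw [hsg] at hval
  rw [hval] at h5
  have h6 : ((-σ - -a) / (x * (1 - -a * -σ))) = -((σ - a) / (x * (1 - a * σ))) := by
    have e1 : -a * -σ = a * σ := by ring
    have e2 : -σ - -a = -(σ - a) := by ring
    rw [e1, e2, neg_div]
  rw [h6] at h5
  set τ := (σ - a) / (x * (1 - a * σ)) with hτ
  have hτe : σ - a = τ * (x * (1 - a * σ)) := by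
    rw [hτ, div_mul_cancel₀ _ (by positivity)]
  have ha2 : 0 < 1 - a ^ 2 := by nlinarith
  set γ := g / (1 - a ^ 2) with hγ
  have hγe : g = γ * (1 - a ^ 2) := by rw [hγ]; field_simp
  have h7 : |γ - τ| ≤ x * (1 - γ * τ) := by
    have e1 : -τ - -γ = γ - τ := by ring
    rw [e1] at h5
    refine h5.trans (le_of_eq ?_)
    ring
  have h8 := abs_le.mp h7
  have hxd : 0 < x * (1 - a * σ) := by positivity
  rw [hγe]
  have q1 : (γ - τ) * (x * (1 - a * σ)) = γ * (x * (1 - a * σ)) - (σ - a) := by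
    rw [hτe]; ring
  have q2 : x * (1 - γ * τ) * (x * (1 - a * σ)) = x * (x * (1 - a * σ) - γ * (σ - a)) := by
    rw [hτe]; ring
  have k1 : (σ - a) - γ * (x * (1 - a * σ)) ≤ x * ((x * (1 - a * σ)) - γ * (σ - a)) := by
    have := mul_le_mul_of_nonneg_right h8.1 hxd.le
    rw [q1, neg_mul, q2] at this
    linarith
  have k2 : γ * (x * (1 - a * σ)) - (σ - a) ≤ x * ((x * (1 - a * σ)) - γ * (σ - a)) := by
    have := mul_le_mul_of_nonneg_right h8.2 hxd.le
    rw [q1, q2] at this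
    exact this
  refine ⟨?_, ?_, ?_⟩
  · have := mul_le_mul_of_nonneg_left k1 (by linarith : (0 : ℝ) ≤ 1 - a)
    linear_combination this
  · have := mul_le_mul_of_nonneg_left k2 (by linarith : (0 : ℝ) ≤ 1 + a)
    linear_combination this
  · obtain ⟨h9, h10⟩ := hsp1.coeff_le
    rw [hgam, abs_mul, abs_neg] at h10
    have h11 : |γ| ≤ 1 := le_of_mul_le_mul_right (by rw [one_mul]; exact h10) (abs_pos.mpr h9)
    rw [abs_mul, abs_of_pos ha2]
    nlinarith

/-- **RAT**: `f_R(x) ≥ (1 - x) f(x)`, `x = 1/(N + 1)`. -/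
theorem rat {q f fR : ℤ[X]} {a : ℝ} {N : ℕ} (hS : Loc q f a) (hR : Loc q fR a) {x : ℝ}
    (hx : x * (N + 1) = 1) (hx0 : 0 < x) (hxa : x < a) (f0 : f.coeff 0 = 1)
    (f1 : f.coeff 1 - q.coeff 1 = N + 1)
    (hRn : 2 ≤ fR.coeff 0 ∨ (fR.coeff 0 = 1 ∧ (N : ℤ) + 2 ≤ fR.coeff 1 - q.coeff 1)) :
    (1 - x) * aeval x f ≤ (aeval x fR : ℝ) := by
  have ha := hS.a0
  have ha1 := hS.a1
  obtain ⟨hq, hfac⟩ := fac_pos hS hx0.le hxa
  suffices h : (1 - x) * sg q f a x ≤ sg q fR a x by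
    unfold sg at h
    rw [← mul_assoc] at h
    exact le_of_mul_le_mul_right h hfac
  have h1 := (sg_step hS f0 hx0 hxa rfl).1
  have e1 : x * ((((f.coeff 1 - q.coeff 1 : ℤ) : ℝ)) * a - (1 - a ^ 2)) =
      a - x * (1 - a ^ 2) := by
    rw [f1]
    push_cast
    linear_combination a * hx
  rw [e1] at h1
  set σ := sg q f a x with hσ
  set τ := sg q fR a x with hτ
  have hx1 : x < 1 := by linarith
  set nS : ℝ := a + (1 - a) * (1 - x) * (a - x) with hnS
  set dS : ℝ := a + (1 - a) * (1 - x) * (1 - a * x) with hdS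
  have h2 : σ * dS ≤ nS := by
    rw [hnS, hdS]; linear_combination h1
  have p1 : 0 < (1 - a) * (1 - x) := mul_pos (by linarith) (by linarith)
  have p2 : 0 < (1 - a) * (1 - x) * (a - x) := mul_pos p1 (by linarith)
  have hnS0 : 0 < nS := by rw [hnS]; linarith
  have hnS1 : nS ≤ 2 * a - x := by
    have : (1 - a) * (1 - x) * (a - x) ≤ 1 * (a - x) := by
      apply mul_le_mul_of_nonneg_right _ (by linarith)
      nlinarith [mul_pos hx0 ha]
    rw [hnS]; linarith
  have hdS0 : 1 - x ≤ dS := by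
    have : dS - (1 - x) = a * x * (x + a * (1 - x)) := by rw [hdS]; ring
    have h3 : 0 ≤ a * x * (x + a * (1 - x)) := by
      have : 0 ≤ 1 - x := by linarith
      positivity
    linarith
  have hdS1 : 0 < dS := by linarith
  rcases hRn with hu | ⟨hu, hn⟩
  · obtain ⟨h3, h4, h5⟩ := sg_pick hR hx0 hxa
    rw [← hτ] at h3 h4
    set v : ℝ := a * (fR.coeff 0 : ℝ) with hv
    have hv2 : 2 * a ≤ v := by
      have : (2 : ℝ) ≤ (fR.coeff 0 : ℝ) := by exact_mod_cast hu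
      rw [hv]; nlinarith
    have hv1 : v ≤ 1 := (abs_le.mp h5).2
    have h6 : v - x ≤ τ * (1 - v * x) := by
      have := (abs_le.mp h4).2
      linear_combination this
    have hvx : 0 < 1 - v * x := by nlinarith
    have h7 : (1 - x) * nS * (1 - v * x) ≤ (v - x) * dS := by
      have a1 : (1 - x) * nS * (1 - v * x) ≤ (1 - x) * nS * 1 := by
        apply mul_le_mul_of_nonneg_left _ (mul_nonneg (by linarith) hnS0.le)
        nlinarith
      have a2 : (1 - x) * nS ≤ dS * (v - x) :=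
        mul_le_mul hdS0 (by linarith) hnS0.le hdS1.le
      linarith
    have h8 : (1 - x) * σ * (dS * (1 - v * x)) ≤ τ * (dS * (1 - v * x)) := by
      calc (1 - x) * σ * (dS * (1 - v * x)) = (1 - x) * (1 - v * x) * (σ * dS) := by ring
        _ ≤ (1 - x) * (1 - v * x) * nS :=
            mul_le_mul_of_nonneg_left h2 (mul_nonneg (by linarith) hvx.le)
        _ = (1 - x) * nS * (1 - v * x) := by ring
        _ ≤ (v - x) * dS := h7
        _ ≤ τ * (1 - v * x) * dS := mul_le_mul_of_nonneg_right h6 hdS1.le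
        _ = τ * (dS * (1 - v * x)) := by ring
    exact le_of_mul_le_mul_right h8 (mul_pos hdS1 hvx)
  · obtain ⟨-, h3, h4⟩ := sg_step hR hu hx0 hxa rfl
    rw [← hτ] at h3
    set g : ℝ := (((fR.coeff 1 - q.coeff 1 : ℤ) : ℝ)) * a - (1 - a ^ 2) with hg
    have hgx : (1 + x) * a - x * (1 - a ^ 2) ≤ x * g := by
      have h5 : (N : ℝ) + 2 ≤ ((fR.coeff 1 - q.coeff 1 : ℤ) : ℝ) := by exact_mod_cast hn
      have h6 : x * ((N + 2) * a) ≤ x * (((fR.coeff 1 - q.coeff 1 : ℤ) : ℝ) * a) :=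
        mul_le_mul_of_nonneg_left (mul_le_mul_of_nonneg_right h5 ha.le) hx0.le
      have h7 : x * ((N + 2) * a) = (1 + x) * a := by linear_combination a * hx
      rw [hg, mul_sub]
      linarith
    have hg1 : g ≤ 1 - a ^ 2 := (abs_le.mp h4).2
    set nR : ℝ := (1 + a) * (a - x ^ 2) + x * g with hnR
    set dR : ℝ := (1 + a) * (1 - a * x ^ 2) - x * g with hdR
    have hdR0 : 0 < dR := by
      have a1 : x * g ≤ x * (1 - a ^ 2) := mul_le_mul_of_nonneg_left hg1 hx0.le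
      have a2 : (1 + a) * (1 - a * x ^ 2) - x * (1 - a ^ 2) =
          (1 + a) * ((1 - x) * (1 + a * x)) := by ring
      have a3 : 0 < (1 + a) * ((1 - x) * (1 + a * x)) := by
        have : 0 < 1 - x := by linarith
        positivity
      rw [hdR]; linarith
    have hnR1 : (1 + x) * nS ≤ nR := by
      have a1 : (1 + x) * ((1 + a) * (a - x) + a) ≤ nR := by
        rw [hnR]; nlinarith
      have a2 : nS ≤ (1 + a) * (a - x) + a := by nlinarith
      have a3 := mul_le_mul_of_nonneg_left a2 (by linarith : (0 : ℝ) ≤ 1 + x)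
      linarith
    have hdR1 : dR ≤ 1 + x := by
      have a1 : dR ≤ (1 + x) * (1 - a * x * (1 + a)) := by
        rw [hdR]; nlinarith
      have a2 : 0 ≤ (1 + x) * (a * x * (1 + a)) := by positivity
      linarith
    have h7 : (1 - x) * nS * dR ≤ nR * dS := by
      have a1 : (1 - x) * nS * dR ≤ (1 - x) * nS * (1 + x) :=
        mul_le_mul_of_nonneg_left hdR1 (mul_nonneg (by linarith) hnS0.le)
      have a2 : (1 + x) * nS * (1 - x) ≤ nR * dS :=
        mul_le_mul hnR1 hdS0 (by linarith) (by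
          have : 0 ≤ (1 + x) * nS := by positivity
          linarith)
      linarith
    have h8 : (1 - x) * σ * (dS * dR) ≤ τ * (dS * dR) := by
      calc (1 - x) * σ * (dS * dR) = (1 - x) * dR * (σ * dS) := by ring
        _ ≤ (1 - x) * dR * nS :=
            mul_le_mul_of_nonneg_left h2 (mul_nonneg (by linarith) hdR0.le)
        _ = (1 - x) * nS * dR := by ring
        _ ≤ nR * dS := h7
        _ ≤ τ * dR * dS := mul_le_mul_of_nonneg_right h3 hdS1.le
        _ = τ * (dS * dR) := by ring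
    exact le_of_mul_le_mul_right h8 (mul_pos hdS1 hdR0)

/-- Positivity on `[0, 1)`. -/
theorem pos_of_open {P : ℤ[X]} (h0 : 0 < P.coeff 0) (h : ∀ z : ℂ, ‖z‖ < 1 → aeval z P ≠ 0)
    {x : ℝ} (hx0 : 0 ≤ x) (hx1 : x < 1) : 0 < (aeval x P : ℝ) := by
  by_contra hn
  push Not at hn
  have hc : ContinuousOn (fun y : ℝ => (aeval y P : ℝ)) (Set.Icc 0 x) :=
    (Polynomial.continuous_aeval P).continuousOn
  have h1 : (0 : ℝ) ∈ Set.Icc (aeval x P : ℝ) (aeval (0 : ℝ) P : ℝ) := by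
    refine ⟨hn, ?_⟩
    have h2 : (aeval (0 : ℝ) P : ℝ) = (P.coeff 0 : ℝ) := by
      rw [aeval_eval, ← coeff_zero_eq_eval_zero, coeff_map]
      simp
    rw [h2]
    exact_mod_cast h0.le
  obtain ⟨y, hy, hy0⟩ := intermediate_value_Icc' hx0 hc h1
  refine h (y : ℂ) ?_ ?_
  · rw [Complex.norm_real, Real.norm_of_nonneg hy.1]
    linarith [hy.2]
  · have h3 : (aeval (y : ℂ) P : ℂ) = ((aeval y P : ℝ) : ℂ) := by
      rw [aeval_eq_sum_range, aeval_eq_sum_range]
      simp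
    rw [h3]
    simp only at hy0
    rw [hy0]
    simp

/-- The value at `x` of `(1 - X²) f = c (1 - X^k)`, `V = c (N + t X^k)`: `V(x)/f(x)` times
`(1 - x^k)`. -/
theorem val_of {c f V : ℤ[X]} {N k : ℕ} {t : ℤ} (hk : 2 ≤ k) (hc0 : 0 < c.coeff 0)
    (hc : ∀ z : ℂ, ‖z‖ < 1 → aeval z c ≠ 0) (hf : (1 - X ^ 2) * f = c * (1 - X ^ k))
    (hV : V = c * (C (N : ℤ) + C t * X ^ k)) (ht : |t| ≤ N) {x : ℝ} (hx0 : 0 < x) (hx1 : x < 1) :
    0 < (aeval x f : ℝ) ∧ (1 - x ^ 2) * N * aeval x f ≤ (aeval x V : ℝ) ∧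
      (1 - x ^ 2) * (aeval x V : ℝ) ≤ (1 - x ^ 2) * N * (1 + x ^ 2) * aeval x f := by
  have hcx := pos_of_open hc0 hc hx0.le hx1
  have e1 : (1 - x ^ 2) * (aeval x f : ℝ) = aeval x c * (1 - x ^ k) := by
    have := congrArg (fun P => (aeval x P : ℝ)) hf
    simpa using this
  have e2 : (aeval x V : ℝ) = aeval x c * (N + t * x ^ k) := by
    rw [hV]
    simp
  have hxk : x ^ k ≤ x ^ 2 := pow_le_pow_of_le_one hx0.le hx1.le hk
  have hxk0 : 0 < x ^ k := pow_pos hx0 k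
  have hx2 : x ^ 2 < 1 := by nlinarith
  have hf0 : 0 < (aeval x f : ℝ) := by
    have : 0 < (1 - x ^ 2) * (aeval x f : ℝ) := by
      rw [e1]; exact mul_pos hcx (by linarith)
    exact pos_of_mul_pos_right this (by linarith)
  have htr := abs_le.mp (by exact_mod_cast ht : |(t : ℝ)| ≤ N)
  have hN0 : (0 : ℝ) ≤ N := Nat.cast_nonneg N
  refine ⟨hf0, ?_, ?_⟩
  · have h1 : (1 - x ^ 2) * N * aeval x f = aeval x c * (N * (1 - x ^ k)) := by
      linear_combination (N : ℝ) * e1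
    rw [h1, e2]
    apply mul_le_mul_of_nonneg_left _ hcx.le
    nlinarith
  · have h1 : (1 - x ^ 2) * N * (1 + x ^ 2) * aeval x f =
        aeval x c * (N * (1 + x ^ 2) * (1 - x ^ k)) := by
      linear_combination (N * (1 + x ^ 2) : ℝ) * e1
    rw [h1, e2]
    have h2 : (1 - x ^ 2) * ((N : ℝ) + t * x ^ k) ≤ N * (1 + x ^ 2) * (1 - x ^ k) := by
      have a1 : (t : ℝ) * x ^ k ≤ N * x ^ k := mul_le_mul_of_nonneg_right htr.2 hxk0.le
      have a2 : (1 - x ^ 2) * ((N : ℝ) + t * x ^ k) ≤ (1 - x ^ 2) * (N + N * x ^ k) :=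
        mul_le_mul_of_nonneg_left (by linarith) (by linarith)
      have a3 : N * (1 + x ^ 2) * (1 - x ^ k) - (1 - x ^ 2) * (N + N * x ^ k) =
          2 * N * (x ^ 2 - x ^ k) := by ring
      have a4 : 0 ≤ 2 * N * (x ^ 2 - x ^ k) := by
        apply mul_nonneg (by linarith) (by linarith)
      linarith
    calc (1 - x ^ 2) * (aeval x c * (N + t * x ^ k)) =
          aeval x c * ((1 - x ^ 2) * (N + t * x ^ k)) := by ring
      _ ≤ aeval x c * (N * (1 + x ^ 2) * (1 - x ^ k)) := mul_le_mul_of_nonneg_left h2 hcx.le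

/-- **End of case (B)** (B-type ray `R` in pure beta). `E = (f - q)/z`, `V2 = E - f - z f_R`. -/
theorem betaB {q f fR E c : ℤ[X]} {a : ℝ} {N k : ℕ} {t : ℤ} (hN : 2 ≤ N) (hS : Loc q f a)
    (hR : Loc q fR a) (hth : 1 < ((N : ℝ) + 1) * a) (f0 : f.coeff 0 = 1) (hE : f - q = X * E)
    (hE0 : E.coeff 0 = N + 1) (hk : 2 ≤ k) (hc0 : 0 < c.coeff 0)
    (hc : ∀ z : ℂ, ‖z‖ < 1 → aeval z c ≠ 0) (hf : (1 - X ^ 2) * f = c * (1 - X ^ k))
    (hV : E - f - X * fR = c * (C (N : ℤ) + C t * X ^ k)) (ht : |t| ≤ N)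
    (hRn : (2 ≤ fR.coeff 0 ∨ (fR.coeff 0 = 1 ∧ (N : ℤ) + 2 ≤ fR.coeff 1 - q.coeff 1)) ∨
      (∃ (ER c3 : ℤ[X]) (k3 : ℕ) (t3 : ℤ), fR - q = X * ER ∧ 2 ≤ k3 ∧ 0 < c3.coeff 0 ∧
        (∀ z : ℂ, ‖z‖ < 1 → aeval z c3 ≠ 0) ∧ (1 - X ^ 2) * f = c3 * (1 - X ^ k3) ∧
        ER - (1 + X) * f = c3 * (C (N : ℤ) + C t3 * X ^ k3) ∧ |t3| ≤ N)) : False := by
  have hNr : (2 : ℝ) ≤ N := by exact_mod_cast hN
  obtain ⟨x, hx⟩ : ∃ x : ℝ, x * (N + 1) = 1 := ⟨1 / (N + 1), by field_simp⟩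
  have hx0 : 0 < x := by
    by_contra h
    push Not at h
    nlinarith
  have hx3 : x ≤ 1 / 3 := by nlinarith
  have hxa : x < a := by
    have : x * (((N : ℝ) + 1) * a) = a := by linear_combination a * hx
    nlinarith
  have hq := (fac_pos hS hx0.le hxa).1
  have eq : (aeval x f : ℝ) - aeval x q = x * aeval x E := by
    have := congrArg (fun P => (aeval x P : ℝ)) hE
    simpa using this
  have eV : (aeval x (E - f - X * fR) : ℝ) = aeval x E - aeval x f - x * aeval x fR := by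
    simp
  obtain ⟨hf0, v1, v2⟩ := val_of hk hc0 hc hf hV ht hx0 (by linarith)
  rw [eV] at v1 v2
  have f1 : f.coeff 1 - q.coeff 1 = N + 1 := by
    rw [← coeff_sub, hE, coeff_X_mul, hE0]
  have hxN : x * N = 1 - x := by linarith
  have hx2 : 0 < 1 - x ^ 2 := by nlinarith
  -- `r < 1 - x`
  have hlt : (aeval x fR : ℝ) < (1 - x) * aeval x f := by
    have h1 : 0 < (aeval x f : ℝ) - x * aeval x E := by linarith
    have h2 : x * ((1 - x ^ 2) * N * aeval x f) ≤
        x * (aeval x E - aeval x f - x * aeval x fR) := mul_le_mul_of_nonneg_left v1 hx0.le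
    have h3 : x * ((1 - x ^ 2) * N * aeval x f) = (1 - x ^ 2) * (1 - x) * aeval x f := by
      linear_combination ((1 - x ^ 2) * aeval x f) * hxN
    have h4 : x ^ 2 * (aeval x fR : ℝ) < x ^ 2 * ((1 - x) * aeval x f) := by nlinarith
    exact lt_of_mul_lt_mul_left h4 (by positivity)
  rcases hRn with h | ⟨ER, c3, k3, t3, hER, hk3, hc30, hc3, hf3, hV3, ht3⟩
  · have := rat hS hR hx hx0 hxa f0 f1 h
    linarith
  · have eR : (aeval x fR : ℝ) - aeval x q = x * aeval x ER := by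
      have := congrArg (fun P => (aeval x P : ℝ)) hER
      simpa using this
    have eV3 : (aeval x (ER - (1 + X) * f) : ℝ) = aeval x ER - (1 + x) * aeval x f := by
      simp
    obtain ⟨-, w1, -⟩ := val_of hk3 hc30 hc3 hf3 hV3 ht3 hx0 (by linarith)
    rw [eV3] at w1
    -- `(1 + x²) (f_R - f) = x (V3 - V2)`
    have h1 : (1 + x ^ 2) * (aeval x fR - aeval x f) =
        x * ((aeval x ER - (1 + x) * aeval x f) -
          (aeval x E - aeval x f - x * aeval x fR) : ℝ) := by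
      linear_combination eR - eq
    have v2' : (aeval x E - aeval x f - x * aeval x fR : ℝ) ≤ N * (1 + x ^ 2) * aeval x f := by
      have : (1 - x ^ 2) * (aeval x E - aeval x f - x * aeval x fR : ℝ) ≤
          (1 - x ^ 2) * (N * (1 + x ^ 2) * aeval x f) := by linarith
      exact le_of_mul_le_mul_left this hx2
    have h2 : x * ((1 - x ^ 2) * N * aeval x f - N * (1 + x ^ 2) * aeval x f) ≤
        (1 + x ^ 2) * ((aeval x fR : ℝ) - aeval x f) := by
      rw [h1]
      apply mul_le_mul_of_nonneg_left _ hx0.le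
      linarith
    have h3 : x * ((1 - x ^ 2) * N * aeval x f - N * (1 + x ^ 2) * aeval x f) =
        -(2 * x ^ 2 * (1 - x)) * aeval x f := by
      linear_combination (-2 * x ^ 2 * aeval x f) * hxN
    have h4 : 0 < (1 + x ^ 2) * ((1 - x) * (aeval x f : ℝ) - aeval x fR) :=
      mul_pos (by positivity) (by linarith)
    have h5 : 0 ≤ (aeval x f : ℝ) * (x * (1 - 2 * x + 3 * x ^ 2)) := by
      apply mul_nonneg hf0.le
      apply mul_nonneg hx0.le
      nlinarith [sq_nonneg (1 - x)]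
    nlinarith

end Pool.Agent.B5.O4C
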