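import Pool.Agent.Lib.MP_b5021c_nt.E.H02.DtiE

/-!
# Board b5, row TK_DT: `G` and `d` are coprime (abstract form)

`W` is in `DD`, its face without the port `p` is `G - d Pr`, and `W_0 = G_0 - d_0` is of class `P`
without zeros on the circle. Then `G` and `d` have no common irreducible factor.
-/

set_option linter.unusedSectionVars false

namespace Pool.Agent.B5.H42.Dt

open scoped LaurentPolynomial
open AddMonoidAlgebra Pool.Agent.B5.H02

section

variable {O : Type} [CommRing O] [IsDomain O] [IsPrincipalIdealRing O] [Coef O] {P : Type}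
  [Fintype P] [DecidableEq P] {K : Type} [AddCommGroup K] [Module.Free ℤ K] [Module.Finite ℤ K]

variable {phi : K →+ (P → ℤ)} {W G d Pr : AO O K} {p : P} {lam : K →+ ℤ}

/-- `G` and `d` are coprime. -/
theorem coprime (hB4 : B4S) (hMin : MinS) (hC0 : Coeff0S) (hWW : WWfS) (hTh : ThinS)
    (hC3 : C3S) (hC4 : C4S) (hPr : PrimS) (hE1 : E1S) (hMV : MVS) (hM1 : M1S) (hA1 : A1S)
    (hEv : EvRS) (hinj : Function.Injective phi) (hbin : ∀ a ∈ supp W, Bin phi a)
    (hirr : Irreducible W) (hWst : Stable W) (hface : gpart (co phi p) 0 W = G - d * Pr)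
    (hGl : Pos lam G) (hdl : Pos lam d) (hGb : ∀ a ∈ supp G, Bin phi a)
    (hW0 : W.coeff 0 = G.coeff 0 - d.coeff 0) {θ : ℝ} (hP : ClassP θ (W.coeff 0))
    (hz : ∀ z : Circle, evR z (W.coeff 0) ≠ 0)
    (hle : ∀ z : Circle, ‖evR z (d.coeff 0)‖ ≤ ‖evR z (W.coeff 0)‖)
    (hne : ∃ z : Circle, ‖evR z (d.coeff 0)‖ ≠ ‖evR z (W.coeff 0)‖)
    (hd0 : d.coeff 0 ≠ 0) {a0 : K} (ha0 : a0 ∈ supp W) (hp0 : phi a0 p = 1) (hst : Stable G) :
    ∀ f : AO O K, Irreducible f → f ∣ G → f ∣ d → False := by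
  classical
  rintro f hf ⟨k1, hk1⟩ ⟨k2, hk2⟩
  obtain ⟨b, hs1, hs2, hpos⟩ := hB4 O K _ f k1 hst hk1
  have hmm : (mon b * mon (-b) : AO O K) = 1 := by
    rw [H96.mon_mul_mon, add_neg_cancel, H96.mon_zero]
  set g : AO O K := mon b * f with hg
  set H1 : AO O K := mon (-b) * k1 with hH1
  set H2 : AO O K := mon (-b) * k2 with hH2
  have hgf : Irreducible g := (irreducible_isUnit_mul (H96.mon_isUnit b)).mpr hf
  have e1 : G = g * H1 := by
    rw [hk1, hg, hH1]
    linear_combination (-(f * k1)) * hmm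
  have e2 : d = g * H2 := by
    rw [hk2, hg, hH2]
    linear_combination (-(f * k2)) * hmm
  have hg0 : g.coeff 0 ≠ 0 := hs1.1
  have hH10 : H1.coeff 0 ≠ 0 := hs2.1
  obtain ⟨hpg, hpH⟩ := (hpos lam).2 hGl
  have c1 : G.coeff 0 = g.coeff 0 * H1.coeff 0 := by
    rw [e1]
    exact (hC0 O K g H1 lam hpg hpH).1
  have hH2ne : H2 ≠ 0 := by
    intro h0
    rw [e2, h0, mul_zero] at hd0
    exact hd0 rfl
  have hnH2 : ∀ a ∈ supp H2, 0 ≤ lam a := by
    refine hMin O K H2 g hH2ne hg0 lam 0 ?_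
    intro a ha
    rw [mul_comm, ← e2] at ha
    exact nn_of_pos' hdl a ha
  have c2 : d.coeff 0 = g.coeff 0 * H2.coeff 0 := by
    rw [e2]
    exact coeff_zero_mul lam g H2 hpg hnH2
  have cQ : W.coeff 0 = g.coeff 0 * (H1.coeff 0 - H2.coeff 0) := by
    rw [mul_sub, ← c1, ← c2, hW0]
  have hzg : ∀ z : Circle, evR z (g.coeff 0) ≠ 0 := by
    intro z h0
    apply hz z
    rw [cQ, map_mul, h0, zero_mul]
  have hzq : ∀ z : Circle, evR z (H1.coeff 0 - H2.coeff 0) ≠ 0 := by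
    intro z h0
    apply hz z
    rw [cQ, map_mul, h0, mul_zero]
  rw [cQ] at hP
  rcases (hE1 O).2 θ _ _ hP with ⟨_, h2⟩ | ⟨h1, _⟩
  · -- the common factor is of class `P`
    obtain ⟨hq0, hqM⟩ := (hMV O).1 1 _ h2
    have hqu : IsUnit (H1.coeff 0 - H2.coeff 0) := hM1 O _ hq0 hqM hzq
    have hnA : ∀ z : Circle, ‖evR z (d.coeff 0)‖ =
        ‖evR z (W.coeff 0)‖ * ‖evR z (H2.coeff 0)‖ := by
      intro z
      rw [c2, cQ, map_mul, norm_mul, map_mul, norm_mul, (hEv O).2.1 z _ hqu, mul_one]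
    have hH2n : ∀ z : Circle, ‖evR z (H2.coeff 0)‖ ≤ 1 := by
      intro z
      have h3 := hle z
      rw [hnA z] at h3
      have h4 : 0 < ‖evR z (W.coeff 0)‖ := norm_pos_iff.mpr (hz z)
      by_contra hcon
      push Not at hcon
      nlinarith
    have hH20 : H2.coeff 0 ≠ 0 := by
      intro h0
      rw [h0, mul_zero] at c2
      exact hd0 c2
    have hu := hA1 O (H2.coeff 0) hH20 hH2n
    obtain ⟨z, hz1⟩ := hne
    apply hz1
    rw [hnA z, (hEv O).2.1 z _ hu, mul_one]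
  · -- the common factor is a unit times `1 - e w^b`
    obtain ⟨-, hgM⟩ := (hMV O).1 1 _ h1
    have hgu : IsUnit (g.coeff 0) := hM1 O _ hg0 hgM hzg
    have hwd : Wdep g := by
      by_contra hn
      apply hgf.not_isUnit
      have h3 : ∀ a, a ≠ 0 → g.coeff a = 0 := by
        intro a ha
        by_contra hne
        exact hn ⟨a, hne, 0, hg0, ha⟩
      have h4 : g = cst (g.coeff 0) := by
        apply AddMonoidAlgebra.ext
        apply Finsupp.ext
        intro a
        rw [cst, coeff_single, Finsupp.single_apply]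
        by_cases h0 : (0 : K) = a
        · rw [if_pos h0, ← h0]
        · rw [if_neg h0]
          exact h3 a (Ne.symm h0)
      rw [h4]
      exact H96.cst_isUnit hgu
    have hww : ∀ a ∈ supp g, WW phi ∅ Finset.univ a := by
      refine (hWW O P K phi ∅ Finset.univ g H1 ?_ hg0 hH10).1
      intro a ha
      rw [← e1] at ha
      exact ⟨fun j _ => hGb a ha j, Or.inl (fun i hi => absurd hi (Finset.notMem_empty _)),
        fun j _ hj => absurd (Finset.mem_univ j) hj⟩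
    have hthin : Thin (supp g) := hTh P K phi ∅ Finset.univ (supp g) hinj hww
    obtain ⟨-, b', hb0, hbu, hsg⟩ := hC4 O K g hgf hs1 hwd hthin hgM
    have hfull : FullAt lam g := by
      rw [binom' g b' hb0 hsg]
      refine H96.edge_full hEv hb0 hgu hbu ?_
      refine hpg b' (Finsupp.mem_support_iff.mpr ?_) hb0
      exact hbu.ne_zero
    have hNp : Nn (co phi p) W := by
      intro a ha
      have h3 : phi a p = 0 ∨ phi a p = 1 := hbin a (Finsupp.mem_support_iff.mp ha) p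
      change 0 ≤ phi a p
      omega
    have h3 := (hC3 O K W g (co phi p) lam hirr hWst hNp hfull ((hPr O K g g).2.1 hgf hwd) hwd
      ⟨H1 - H2 * Pr, by rw [hface, e1, e2]; ring⟩).2 a0 ha0
    have h4 : phi a0 p = 0 := h3
    rw [hp0] at h4
    exact one_ne_zero h4

/-- The element `G - t d` is irreducible. -/
theorem irr_Ft (hB4 : B4S) (hMin : MinS) (hC0 : Coeff0S) (hWW : WWfS) (hTh : ThinS)
    (hC3 : C3S) (hC4 : C4S) (hPr : PrimS) (hE1 : E1S) (hMV : MVS) (hM1 : M1S) (hA1 : A1S)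
    (hEv : EvRS) (hinj : Function.Injective phi) (hbin : ∀ a ∈ supp W, Bin phi a)
    (hirr : Irreducible W) (hWst : Stable W) (hface : gpart (co phi p) 0 W = G - d * Pr)
    (hGl : Pos lam G) (hdl : Pos lam d) (hGb : ∀ a ∈ supp G, Bin phi a)
    (hW0 : W.coeff 0 = G.coeff 0 - d.coeff 0) {θ : ℝ} (hP : ClassP θ (W.coeff 0))
    (hz : ∀ z : Circle, evR z (W.coeff 0) ≠ 0)
    (hle : ∀ z : Circle, ‖evR z (d.coeff 0)‖ ≤ ‖evR z (W.coeff 0)‖)
    (hne : ∃ z : Circle, ‖evR z (d.coeff 0)‖ ≠ ‖evR z (W.coeff 0)‖)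
    (hd0 : d.coeff 0 ≠ 0) {a0 : K} (ha0 : a0 ∈ supp W) (hp0 : phi a0 p = 1) (hst : Stable G) :
    Irreducible (Ft G d) := by
  refine Ft_irr ?_ ?_ (coprime hB4 hMin hC0 hWW hTh hC3 hC4 hPr hE1 hMV hM1 hA1 hEv hinj hbin
    hirr hWst hface hGl hdl hGb hW0 hP hz hle hne hd0 ha0 hp0 hst)
  · intro h
    have := hst.1
    rw [h] at this
    exact this rfl
  · intro h
    rw [h] at hd0
    exact hd0 rfl

end

end Pool.Agent.B5.H42.Dt
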