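import Pool.Agent.Lib.MP_b5021c_nt.E.H02.Dti

/-!
# Board b5, row TK_DT: from `G - t d` to an element of `DD` (abstract end of AM_DTI)
-/

set_option linter.unusedSectionVars false

namespace Pool.Agent.B5.H42.Dt

open scoped LaurentPolynomial
open AddMonoidAlgebra Pool.Agent.B5.H02

section

variable {O : Type} [CommRing O] [IsDomain O] [IsPrincipalIdealRing O] [Coef O] {P : Type}
  [Fintype P] [DecidableEq P] {K : Type} [AddCommGroup K] [Module.Free ℤ K] [Module.Finite ℤ K]

/-- From `G - t d` (stable, irreducible, not unitary) to `DD`: the rank is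
`rk (supp G ∪ supp d) + 2`, the constant coefficient is `G_0`. -/
theorem dtx_irr (hCo : ComplS) (hCI : ComplIrrS) (hSh : SharpS) (hRW : ResWDS) (hRSt : ResStS)
    {phi : K →+ (P → ℤ)} (hinj : Function.Injective phi) {G d : AO O K}
    (hFst : Stable (Ft G d)) (hFirr : Irreducible (Ft G d)) (hnu : ¬ Unitary (Ft G d))
    (hd0 : d.coeff 0 ≠ 0) (hGb : ∀ a ∈ supp G, Bin phi a) (hdb : ∀ a ∈ supp d, Bin phi a) :
    ∃ (P' L' : Type) (_ : Fintype P') (_ : DecidableEq P') (_ : AddCommGroup L')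
      (_ : Module.Free ℤ L') (_ : Module.Finite ℤ L') (phi' : L' →+ (P' → ℤ)) (D' : AO O L'),
      DD phi' D' ∧ Module.finrank ℤ L' = rk (supp G ∪ supp d) + 2 ∧
        D'.coeff 0 = G.coeff 0 := by
  classical
  have hFc0 : (Ft G d).coeff 0 = G.coeff 0 := by
    have h1 := Ft_coeff G d 0 0
    rw [if_pos rfl] at h1
    exact h1
  have hFne : Ft G d ≠ 0 := hFirr.ne_zero
  have hcirr : Irreducible (compl (Ft G d)) := by
    refine hCI O (K × ℤ) (Ft G d) hFne ?_
    intro f hf h1 h3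
    apply hnu
    have h4 : Associated f (Ft G d) := hf.associated_of_dvd hFirr h1
    have h5 : Associated f (sharp (Ft G d)) :=
      hf.associated_of_dvd ((hSh O (K × ℤ) (Ft G d)).2.2.1 hFirr) h3
    exact h5.symm.trans h4
  obtain ⟨hcst, hcun, hcc0, hcs, hcrk⟩ := hCo O (K × ℤ) (Ft G d) hFst
  have hcne : compl (Ft G d) ≠ 0 := hcirr.ne_zero
  obtain ⟨K', hsat, hmem, hfr, hirr', hun', hrk'⟩ := hRW O ((K × ℤ) × ℤ) (compl (Ft G d)) hcne
  have hrank : rk (supp (compl (Ft G d))) = rk (supp G ∪ supp d) + 2 := by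
    rw [hcrk, rk_Ft G d hd0]
  have hFbin : ∀ x ∈ supp (Ft G d), Bin phi x.1 ∧ (x.2 = 0 ∨ x.2 = 1) := by
    intro x hx
    rcases (Ft_supp G d x).mp hx with ⟨h1, h3⟩ | ⟨h1, h3⟩
    · exact ⟨hGb _ h3, Or.inl h1⟩
    · exact ⟨hdb _ h3, Or.inr h1⟩
  refine ⟨Option (Option P), K', inferInstance, inferInstance, inferInstance, inferInstance,
    inferInstance, (psi phi).comp (incl K'), res K' (compl (Ft G d)), ?_, ?_, ?_⟩
  · refine ⟨?_, ?_, (hRSt O _ _ K' hsat hmem).1 hcst, hun' hcun, hirr' hcirr, ?_⟩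
    · intro x y hxy
      exact Subtype.ext (psi_inj phi hinj hxy)
    · intro a ha
      have ha' : (a : (K × ℤ) × ℤ) ∈ supp (compl (Ft G d)) := ha
      intro o
      change psi phi (a : (K × ℤ) × ℤ) o = 0 ∨ psi phi (a : (K × ℤ) × ℤ) o = 1
      rcases hcs _ ha' with ⟨h1, h3⟩ | ⟨h1, h3⟩
      · obtain ⟨h4, h5⟩ := hFbin _ h3
        rcases o with _ | _ | q
        · rw [psi_none, h1]
          exact Or.inl rfl
        · rw [psi_some_none, h1]
          omega
        · rw [psi_some_some, h1]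
          have := h4 q
          omega
      · obtain ⟨h4, h5⟩ := hFbin _ h3
        rcases o with _ | _ | q
        · rw [psi_none, h1]
          exact Or.inr rfl
        · rw [psi_some_none, h1]
          have h6 : (-(a : (K × ℤ) × ℤ).1).2 = -(a : (K × ℤ) × ℤ).1.2 := rfl
          rw [h6] at h5
          omega
        · rw [psi_some_some, h1]
          have h6 := h4 q
          have h7 : phi (-(a : (K × ℤ) × ℤ).1).1 q = -phi (a : (K × ℤ) × ℤ).1.1 q := by
            have h8 : (-(a : (K × ℤ) × ℤ).1).1 = -((a : (K × ℤ) × ℤ).1.1) := rfl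
            rw [h8, map_neg]
            rfl
          rw [h7] at h6
          omega
    · rw [hrk', hfr]
  · rw [hfr]
    exact hrank
  · change (compl (Ft G d)).coeff 0 = _
    rw [hcc0, hFc0]

/-- The same from the coprimality of `G` and `d`. -/
theorem dtx (hCo : ComplS) (hCI : ComplIrrS) (hSh : SharpS) (hRW : ResWDS) (hRSt : ResStS)
    {phi : K →+ (P → ℤ)} (hinj : Function.Injective phi) {G d : AO O K}
    (hFst : Stable (Ft G d))
    (hcop : ∀ f : AO O K, Irreducible f → f ∣ G → f ∣ d → False) (hnu : ¬ Unitary (Ft G d))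
    (hG0 : G.coeff 0 ≠ 0) (hd0 : d.coeff 0 ≠ 0) (hGb : ∀ a ∈ supp G, Bin phi a)
    (hdb : ∀ a ∈ supp d, Bin phi a) :
    ∃ (P' L' : Type) (_ : Fintype P') (_ : DecidableEq P') (_ : AddCommGroup L')
      (_ : Module.Free ℤ L') (_ : Module.Finite ℤ L') (phi' : L' →+ (P' → ℤ)) (D' : AO O L'),
      DD phi' D' ∧ Module.finrank ℤ L' = rk (supp G ∪ supp d) + 2 ∧
        D'.coeff 0 = G.coeff 0 := by
  refine dtx_irr hCo hCI hSh hRW hRSt hinj hFst (Ft_irr ?_ ?_ hcop) hnu hd0 hGb hdb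
  · intro h
    rw [h] at hG0
    exact hG0 rfl
  · intro h
    rw [h] at hd0
    exact hd0 rfl

end

end Pool.Agent.B5.H42.Dt
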