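import Pool.Agent.Lib.MP_b5021c_nt.KO.H42.DtCore
import Pool.Agent.Lib.MP_b5021c_nt.KO.H42.DtCop
import Pool.Agent.Lib.MP_b5021c_nt.KO.H42.Dtx

/-!
# Board b5, row TK_DT: the abstract glue

`W` in `DD`, its face without the port `p` is `G - c E ∏ (1 - t_j) Y`; `G` and `E` are killed by
`nu`, the `t_j` are not; the pointwise inequality; then `G - t c E` gives an element of `DD` with
constant coefficient `G_0` and rank `rk (supp G ∪ supp (c E)) + 2`.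
-/

set_option linter.unusedSectionVars false

namespace Pool.Agent.B5.H42.Dt

open scoped LaurentPolynomial
open AddMonoidAlgebra Pool.Agent.B5.H02

section

variable {O : Type} [CommRing O] [IsDomain O] [IsPrincipalIdealRing O] [Coef O] {P : Type}
  [Fintype P] [DecidableEq P] {K : Type} [AddCommGroup K] [Module.Free ℤ K] [Module.Finite ℤ K]
  {ι : Type} [Fintype ι] [Nonempty ι]

/-- **The glue of TK_DT over `W`.** -/
theorem dtg (hFa : FaceS) (hEv : EvRS) (hCo : ComplS) (hCI : ComplIrrS) (hSh : SharpS)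
    (hU : UnitAS) (hDe : DensS) (hB4 : B4S) (hMin : MinS) (hC0 : Coeff0S) (hWW : WWfS)
    (hTh : ThinS) (hC3 : C3S) (hC4 : C4S) (hPr : PrimS) (hE1 : E1S) (hMV : MVS) (hM1 : M1S)
    (hA1 : A1S) (hRW : ResWDS) (hRSt : ResStS)
    {phi : K →+ (P → ℤ)} {W G E Y : AO O K} {c : RO O} {R : ι → K} {e : ι → (RO O)ˣ}
    {nu lam : K →+ ℤ} {p : P} (q : ι → K →+ ℤ)
    (hinj : Function.Injective phi) (hbin : ∀ a ∈ supp W, Bin phi a)
    (hirr : Irreducible W) (hWst : Stable W)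
    (hface : gpart (co phi p) 0 W = G - cst c * (E * Pd R e) * Y)
    (hGl : Pos lam G) (hdl : Pos lam (cst c * E)) (hGb : ∀ a ∈ supp G, Bin phi a)
    (hdb : ∀ a ∈ supp (cst c * E), Bin phi a)
    (hW0 : W.coeff 0 = G.coeff 0 - (cst c * E).coeff 0) {θ : ℝ} (hP : ClassP θ (W.coeff 0))
    (hz : ∀ z : Circle, evR z (W.coeff 0) ≠ 0)
    (hle : ∀ z : Circle, ‖evR z ((cst c * E).coeff 0)‖ ≤ ‖evR z (W.coeff 0)‖)
    (hne : ∃ z : Circle, ‖evR z ((cst c * E).coeff 0)‖ ≠ ‖evR z (W.coeff 0)‖)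
    (hG0 : G.coeff 0 ≠ 0) (hd0 : (cst c * E).coeff 0 ≠ 0) {a0 : K} (ha0 : a0 ∈ supp W)
    (hp0 : phi a0 p = 1) (hnu : ∀ j, nu (R j) ≠ 0) (hGnu : ∀ a ∈ supp G, nu a = 0)
    (hEnu : ∀ a ∈ supp E, nu a = 0)
    (hpw : ∀ (z : Circle) (u : AddChar K Circle),
      ‖ev z u (cst c * (E * Pd R e))‖ ≤ 2 * ‖ev z u G‖)
    (heq : ∀ (z : Circle) (u : AddChar K Circle),
      ‖ev z u (cst c * (E * Pd R e))‖ = 2 * ‖ev z u G‖ →
        ev z u (cst c * (E * Pd R e)) = 2 * ev z u G)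
    (hq1 : ∀ j, q j (R j) = 1) (hq0 : ∀ j i, j ≠ i → q j (R i) = 0)
    (hqE : ∀ j, ∀ a ∈ supp E, q j a = 0)
    (hzf : ∀ z : Circle, evR z (G.coeff 0) ≠ 0 → ∀ (u : AddChar K Circle) (s : ℂ), ‖s‖ < 1 →
      (sl u lam (spec z G)).eval s ≠ 0) :
    ∃ (P' L' : Type) (_ : Fintype P') (_ : DecidableEq P') (_ : AddCommGroup L')
      (_ : Module.Free ℤ L') (_ : Module.Finite ℤ L') (phi' : L' →+ (P' → ℤ)) (D' : AO O L'),
      DD phi' D' ∧ Module.finrank ℤ L' = rk (supp G ∪ supp (cst c * E)) + 2 ∧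
        D'.coeff 0 = G.coeff 0 := by
  classical
  have hle' := core1 hEv hnu hGnu hEnu hpw
  have hFst : Stable (Ft G (cst c * E)) := core3 hGl hdl hG0 hle' hzf
  have hGst : Stable G := G_stable hFa hFst
  have hne0 : G.coeff 0 ≠ (cst c * E).coeff 0 := by
    intro h
    apply hz 1
    rw [hW0, h, sub_self, map_zero]
  have hnun := core2 hU hEv hSh hDe hnu hGnu hEnu hpw heq q hq1 hq0 hqE hd0 hne0 hG0
  refine dtx hCo hCI hSh hRW hRSt hinj hFst ?_ hnun hG0 hd0 hGb hdb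
  exact coprime (Pr := Pd R e * Y) hB4 hMin hC0 hWW hTh hC3 hC4 hPr hE1 hMV hM1 hA1 hEv hinj hbin
    hirr hWst (by rw [hface]; ring) hGl hdl hGb hW0 hP hz hle hne hd0 ha0 hp0 hGst

/-- The same with the other sign: the face is `G + c E ∏ (1 - t_j) Y`, `W_0 = G_0 + (c E)_0`; the
pointwise inequality (with the equality clause) is for `c E ∏ (1 - t_j)`. -/
theorem dtg_neg (hFa : FaceS) (hEv : EvRS) (hCo : ComplS) (hCI : ComplIrrS) (hSh : SharpS)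
    (hU : UnitAS) (hDe : DensS) (hB4 : B4S) (hMin : MinS) (hC0 : Coeff0S) (hWW : WWfS)
    (hTh : ThinS) (hC3 : C3S) (hC4 : C4S) (hPr : PrimS) (hE1 : E1S) (hMV : MVS) (hM1 : M1S)
    (hA1 : A1S) (hRW : ResWDS) (hRSt : ResStS)
    {phi : K →+ (P → ℤ)} {W G E Y : AO O K} {c : RO O} {R : ι → K} {e : ι → (RO O)ˣ}
    {nu lam : K →+ ℤ} {p : P} (q : ι → K →+ ℤ)
    (hinj : Function.Injective phi) (hbin : ∀ a ∈ supp W, Bin phi a)
    (hirr : Irreducible W) (hWst : Stable W)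
    (hface : gpart (co phi p) 0 W = G + cst c * (E * Pd R e) * Y)
    (hGl : Pos lam G) (hdl : Pos lam (cst c * E)) (hGb : ∀ a ∈ supp G, Bin phi a)
    (hdb : ∀ a ∈ supp (cst c * E), Bin phi a)
    (hW0 : W.coeff 0 = G.coeff 0 + (cst c * E).coeff 0) {θ : ℝ} (hP : ClassP θ (W.coeff 0))
    (hz : ∀ z : Circle, evR z (W.coeff 0) ≠ 0)
    (hle : ∀ z : Circle, ‖evR z ((cst c * E).coeff 0)‖ ≤ ‖evR z (W.coeff 0)‖)
    (hne : ∃ z : Circle, ‖evR z ((cst c * E).coeff 0)‖ ≠ ‖evR z (W.coeff 0)‖)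
    (hG0 : G.coeff 0 ≠ 0) (hneq : G.coeff 0 ≠ (cst c * E).coeff 0)
    (hd0 : (cst c * E).coeff 0 ≠ 0) {a0 : K} (ha0 : a0 ∈ supp W)
    (hp0 : phi a0 p = 1) (hnu : ∀ j, nu (R j) ≠ 0) (hGnu : ∀ a ∈ supp G, nu a = 0)
    (hEnu : ∀ a ∈ supp E, nu a = 0)
    (hpw : ∀ (z : Circle) (u : AddChar K Circle),
      ‖ev z u (cst c * (E * Pd R e))‖ ≤ 2 * ‖ev z u G‖)
    (heq : ∀ (z : Circle) (u : AddChar K Circle),
      ‖ev z u (cst c * (E * Pd R e))‖ = 2 * ‖ev z u G‖ →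
        ev z u (cst c * (E * Pd R e)) = 2 * ev z u G)
    (hq1 : ∀ j, q j (R j) = 1) (hq0 : ∀ j i, j ≠ i → q j (R i) = 0)
    (hqE : ∀ j, ∀ a ∈ supp E, q j a = 0)
    (hzf : ∀ z : Circle, evR z (G.coeff 0) ≠ 0 → ∀ (u : AddChar K Circle) (s : ℂ), ‖s‖ < 1 →
      (sl u lam (spec z G)).eval s ≠ 0) :
    ∃ (P' L' : Type) (_ : Fintype P') (_ : DecidableEq P') (_ : AddCommGroup L')
      (_ : Module.Free ℤ L') (_ : Module.Finite ℤ L') (phi' : L' →+ (P' → ℤ)) (D' : AO O L'),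
      DD phi' D' ∧ Module.finrank ℤ L' = rk (supp G ∪ supp (cst c * E)) + 2 ∧
        D'.coeff 0 = G.coeff 0 := by
  classical
  have hle' := core1 hEv hnu hGnu hEnu hpw
  have hFst : Stable (Ft G (cst c * E)) := core3 hGl hdl hG0 hle' hzf
  have hGst : Stable G := G_stable hFa hFst
  have hnun := core2 hU hEv hSh hDe hnu hGnu hEnu hpw heq q hq1 hq0 hqE hd0 hneq hG0
  refine dtx hCo hCI hSh hRW hRSt hinj hFst ?_ hnun hG0 hd0 hGb hdb
  intro f hf h1 h2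
  have hs : ∀ a : K, (-(cst c * E) : AO O K).coeff a = -((cst c * E).coeff a) := by
    intro a
    rw [coeff_neg, Finsupp.neg_apply]
  refine coprime (Pr := Pd R e * Y) (W := W) (G := G) (d := -(cst c * E)) hB4 hMin hC0 hWW hTh hC3
    hC4 hPr hE1 hMV hM1 hA1 hEv hinj hbin hirr hWst (by rw [hface]; ring) hGl ?_ hGb
    (by rw [hs, hW0]; ring) hP hz ?_ ?_ ?_ ha0 hp0 hGst f hf h1 ((dvd_neg).mpr h2)
  · intro a ha h0
    refine hdl a ?_ h0
    rw [Finsupp.mem_support_iff] at ha ⊢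
    rw [hs, neg_ne_zero] at ha
    exact ha
  · intro z
    rw [hs, map_neg, norm_neg]
    exact hle z
  · obtain ⟨z, hz1⟩ := hne
    refine ⟨z, ?_⟩
    rw [hs, map_neg, norm_neg]
    exact hz1
  · rw [hs]
    exact neg_ne_zero.mpr hd0

end

end Pool.Agent.B5.H42.Dt
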