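import Pool.Agent.Lib.MP_b5021c_nt.KO.H50.Onez

/-!
# MP_b5021c_nt, K ODD, PURE BETA, row BE_CLS, (5.3) (i): `N = 3`, three parallel rays of type B
-/

namespace Pool.Agent.B5.O4Q

open Polynomial Metric Complex Filter Topology
open Pool.Agent.B5.Nr.Sch (SP aeval_map_real circ aeval_re exists_quot)
open Pool.Agent.B5.H39.Cara (re_nonneg_of_circle)
open Pool.Agent.B5.O4P (circle_le aeval0)

variable {q f E e M : ℝ[X]} {T : Set ℂ}

/-- `U = X E - (1 - 3/4 X) f` has exactly one zero in the closed disc. -/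
theorem CH.three_U (h : CH q f E e M T) (hE0 : 0 < E.coeff 0) :
    0 < (X * E - (1 - C (3 / 4) * X) * f).eval 1 ∧ ∃ (ζ : ℝ) (W : ℝ[X]), 0 < ζ ∧ ζ < 1 ∧
      X * E - (1 - C (3 / 4) * X) * f = (X - C ζ) * W ∧
        ∀ z : ℂ, ‖z‖ ≤ 1 → (aeval z W : ℂ) ≠ 0 := by
  obtain ⟨U, hU⟩ : ∃ U : ℝ[X], U = X * E - (1 - C (3 / 4) * X) * f := ⟨_, rfl⟩
  have hUz : ∀ z : ℂ, (aeval z U : ℂ) = z * aeval z E - (1 - 3 / 4 * z) * aeval z f := by
    intro z
    rw [hU]; simp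
  have hb : ∀ z : ℂ, ‖z‖ = 1 → 9 / 4 * ‖(aeval z f : ℂ)‖ ≤ ‖(aeval z U : ℂ)‖ := by
    intro z hz
    have h1 := h.base hz
    have h2 : (aeval z q : ℂ) - 3 / 4 * z * aeval z f = -aeval z U := by
      rw [hUz, h.qe]; ring
    rwa [h2, norm_neg] at h1
  have hUne : ∀ z : ℂ, ‖z‖ = 1 → (aeval z U : ℂ) ≠ 0 := by
    intro z hz h0
    have h1 := hb z hz
    rw [h0, norm_zero] at h1
    have h2 : (aeval z f : ℂ) = 0 := by
      rw [← norm_eq_zero]
      have := norm_nonneg (aeval z f : ℂ)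
      linarith
    rw [hUz, h2, mul_zero, sub_zero] at h0
    exact mul_ne_zero (z_ne hz) (h.Ec hz.le) h0
  have hEp : ∀ x : ℝ, 0 ≤ x → x ≤ 1 → 0 < E.eval x := by
    intro x hx0 hx1
    have h1 := h.spE.sign hx0 hx1
    rw [← coeff_zero_eq_eval_zero] at h1
    exact (mul_pos_iff_of_pos_left hE0).mp h1
  have hU1 : 0 < U.eval 1 := by
    have h1 := (h.spE.ev (x := 1) (by simp)).2
    rw [eval_mul, eval_C, abs_mul, abs_of_pos (hEp 1 zero_le_one le_rfl),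
      abs_of_pos (by norm_num : (0 : ℝ) < 1 / 2)] at h1
    have h2 : U.eval 1 = E.eval 1 - 1 / 4 * f.eval 1 := by
      rw [hU]
      simp only [eval_sub, eval_mul, eval_X, eval_one, eval_C]
      ring
    have h3 := le_abs_self (f.eval 1)
    have h4 := hEp 1 zero_le_one le_rfl
    rw [h2]; linarith
  rw [← hU]
  refine ⟨hU1, ?_⟩
  refine onez (F := U) (G := X * E) (Gh := E) (ζ := 0) le_rfl zero_lt_one (by simp)
    (fun z hz => h.Ec hz) (fun z hz => ?_) (by simpa using hEp 1 zero_le_one le_rfl) ?_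
  · have e1 : (aeval z (X * E) : ℂ) = aeval z U + (1 - 3 / 4 * z) * aeval z f := by
      rw [hUz]; simp
    have e2 : ((aeval z U : ℂ) * (starRingEnd ℂ) (aeval z (X * E))).re =
        ‖(aeval z U : ℂ)‖ ^ 2 +
          ((aeval z U : ℂ) * (starRingEnd ℂ) ((1 - 3 / 4 * z) * aeval z f)).re := by
      rw [e1, map_add, mul_add, add_re, mul_conj, normSq_eq_norm_sq, ofReal_re]
    have e3 : -(7 / 9 * ‖(aeval z U : ℂ)‖ ^ 2) ≤
        ((aeval z U : ℂ) * (starRingEnd ℂ) ((1 - 3 / 4 * z) * aeval z f)).re := by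
      have h1 := abs_re_le_norm ((aeval z U : ℂ) * (starRingEnd ℂ) ((1 - 3 / 4 * z) * aeval z f))
      rw [norm_mul, norm_conj, norm_mul] at h1
      have h2 : ‖(1 : ℂ) - 3 / 4 * z‖ ≤ 7 / 4 := by
        calc ‖(1 : ℂ) - 3 / 4 * z‖ ≤ ‖(1 : ℂ)‖ + ‖3 / 4 * z‖ := norm_sub_le _ _
          _ = 7 / 4 := by rw [norm_mul, hz]; norm_num
      have h3 := hb z hz
      have h4 : ‖(1 : ℂ) - 3 / 4 * z‖ * ‖(aeval z f : ℂ)‖ ≤ 7 / 9 * ‖(aeval z U : ℂ)‖ := by
        calc ‖(1 : ℂ) - 3 / 4 * z‖ * ‖(aeval z f : ℂ)‖ ≤ 7 / 4 * ‖(aeval z f : ℂ)‖ :=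
              mul_le_mul_of_nonneg_right h2 (norm_nonneg _)
          _ ≤ _ := by linarith
      have h5 : ‖(aeval z U : ℂ)‖ * (‖(1 : ℂ) - 3 / 4 * z‖ * ‖(aeval z f : ℂ)‖) ≤
          ‖(aeval z U : ℂ)‖ * (7 / 9 * ‖(aeval z U : ℂ)‖) :=
        mul_le_mul_of_nonneg_left h4 (norm_nonneg _)
      have h6 := neg_abs_le ((aeval z U : ℂ) * (starRingEnd ℂ) ((1 - 3 / 4 * z) * aeval z f)).re
      linarith
    rw [e2]
    have h1 : 0 < ‖(aeval z U : ℂ)‖ := norm_pos_iff.mpr (hUne z hz)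
    nlinarith
  · rw [hU]
    have : X * E - (1 - C (3 / 4) * X) * f = X * E - f + C (3 / 4) * (X * f) := by ring
    rw [this, coeff_add, coeff_sub, coeff_X_mul_zero, coeff_C_mul, coeff_X_mul_zero, h.f0]
    norm_num

/-- (5.3) (i). -/
theorem CH.three_B (h : CH q f E e M T) (hE0 : E.coeff 0 = 4) (hM0 : M.coeff 0 = 3)
    (hq : 0 < q.eval (1 / 4)) (hM : M.eval (5 / 8) ≤ 0) : False := by
  obtain ⟨hU1, ζ, W, hζ0, hζ1, hUW, hW⟩ := h.three_U (by rw [hE0]; norm_num)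
  obtain ⟨U, hU⟩ : ∃ U : ℝ[X], U = X * E - (1 - C (3 / 4) * X) * f := ⟨_, rfl⟩
  rw [← hU] at hU1 hUW
  have hUz : ∀ z : ℂ, (aeval z U : ℂ) = z * aeval z E - (1 - 3 / 4 * z) * aeval z f := by
    intro z
    rw [hU]; simp
  have hb : ∀ z : ℂ, ‖z‖ = 1 → 9 / 4 * ‖(aeval z f : ℂ)‖ ≤ ‖(aeval z U : ℂ)‖ := by
    intro z hz
    have h1 := h.base hz
    have h2 : (aeval z q : ℂ) - 3 / 4 * z * aeval z f = -aeval z U := by
      rw [hUz, h.qe]; ring
    rwa [h2, norm_neg] at h1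
  have hUne : ∀ z : ℂ, ‖z‖ = 1 → (aeval z U : ℂ) ≠ 0 := by
    intro z hz h0
    have h1 := hb z hz
    rw [h0, norm_zero] at h1
    have h2 : (aeval z f : ℂ) = 0 := by
      rw [← norm_eq_zero]
      have := norm_nonneg (aeval z f : ℂ)
      linarith
    rw [hUz, h2, mul_zero, sub_zero] at h0
    exact mul_ne_zero (z_ne hz) (h.Ec hz.le) h0
  have hs : ∀ z : ℂ, ‖z‖ ≤ 1 → (1 : ℂ) - ((4 / 25 : ℝ) : ℂ) * z ≠ 0 := fun z hz =>
    one_sub_ne (by norm_num) (by norm_num) hz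
  -- `F = -(1 - s z) Q_rho`
  obtain ⟨F, hF⟩ : ∃ F : ℝ[X], F = (1 - C (4 / 25) * X) * U - C 2 * f * (X - C (4 / 25)) :=
    ⟨_, rfl⟩
  have hFz : ∀ z : ℂ, (aeval z F : ℂ) = (1 - ((4 / 25 : ℝ) : ℂ) * z) * aeval z U -
      2 * aeval z f * (z - ((4 / 25 : ℝ) : ℂ)) := by
    intro z
    rw [hF]; simp
  have hU0 : U.coeff 0 = -1 := by
    have : X * E - (1 - C (3 / 4) * X) * f = X * E - f + C (3 / 4) * (X * f) := by ring
    rw [hU, this, coeff_add, coeff_sub, coeff_X_mul_zero, coeff_C_mul, coeff_X_mul_zero, h.f0]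
    norm_num
  have hF0 : F.coeff 0 = -(17 / 25) := by
    have : (1 - C (4 / 25) * X) * U - C 2 * f * (X - C (4 / 25)) =
        U - C (4 / 25) * (X * U) - C 2 * (X * f) + C (8 / 25) * f := by
      rw [show (C (8 / 25) : ℝ[X]) = C 2 * C (4 / 25) by rw [← C_mul]; norm_num]
      ring
    rw [hF, this, coeff_add, coeff_sub, coeff_sub, coeff_C_mul, coeff_C_mul, coeff_C_mul,
      coeff_X_mul_zero, coeff_X_mul_zero, h.f0, hU0]
    norm_num
  obtain ⟨ζ', Fh, hz0, hz1, hFF, hFh⟩ := onez (F := F) (G := (1 - C (4 / 25) * X) * U)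
    (Gh := (1 - C (4 / 25) * X) * W) (ζ := ζ) hζ0.le hζ1 (by rw [hUW]; ring)
    (fun z hz => by
      have : (aeval z ((1 - C (4 / 25) * X) * W) : ℂ) =
          (1 - ((4 / 25 : ℝ) : ℂ) * z) * aeval z W := by simp
      rw [this]
      exact mul_ne_zero (hs z hz) (hW z hz)) (fun z hz => by
      obtain ⟨G, hG⟩ : ∃ G : ℂ, G = (1 - ((4 / 25 : ℝ) : ℂ) * z) * aeval z U := ⟨_, rfl⟩
      have e0 : (aeval z ((1 - C (4 / 25) * X) * U) : ℂ) = G := by rw [hG]; simp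
      obtain ⟨v, hv⟩ : ∃ v : ℂ, v = 2 * aeval z f * (z - ((4 / 25 : ℝ) : ℂ)) := ⟨_, rfl⟩
      have e1 : (aeval z F : ℂ) = G - v := by rw [hFz, hG, hv]
      have hcirc : ‖z - ((4 / 25 : ℝ) : ℂ)‖ = ‖(1 : ℂ) - ((4 / 25 : ℝ) : ℂ) * z‖ :=
        circ _ _ hz
      have e2 : ‖v‖ ≤ 8 / 9 * ‖G‖ := by
        have h1 := hb z hz
        rw [hv, hG, norm_mul, norm_mul, norm_mul, hcirc]
        have h2 : ‖(2 : ℂ)‖ = 2 := by simp
        rw [h2]
        nlinarith [norm_nonneg ((1 : ℂ) - ((4 / 25 : ℝ) : ℂ) * z)]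
      have hG0 : 0 < ‖G‖ := by
        rw [norm_pos_iff, hG]
        exact mul_ne_zero (hs z hz.le) (hUne z hz)
      rw [e0, e1, sub_mul, sub_re, mul_conj, normSq_eq_norm_sq, ofReal_re]
      have h3 := (le_abs_self _).trans (abs_re_le_norm (v * (starRingEnd ℂ) G))
      rw [norm_mul, norm_conj] at h3
      nlinarith) (by
      rw [eval_mul]
      refine mul_pos ?_ hU1
      simp; norm_num) (by rw [hF0]; norm_num)
  have hFhz : ∀ z : ℂ, (aeval z F : ℂ) = (z - ζ') * aeval z Fh := by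
    intro z
    rw [hFF]; simp
  obtain ⟨R, hR⟩ : ∃ R : ℝ[X], R = (1 - C ζ' * X) * Fh := ⟨_, rfl⟩
  have hRz : ∀ z : ℂ, (aeval z R : ℂ) = (1 - ζ' * z) * aeval z Fh := by
    intro z
    rw [hR]; simp
  obtain ⟨Fs, hFs⟩ : ∃ Fs : ℝ[X], Fs = F + (1 - C (4 / 25) * X) * M := ⟨_, rfl⟩
  have hFsz : ∀ z : ℂ, (aeval z Fs : ℂ) = aeval z F + (1 - ((4 / 25 : ℝ) : ℂ) * z) * aeval z M := by
    intro z
    rw [hFs]; simp
  have sp : SP Fs R := by
    refine SP.of_circle (fun z hz => ?_) (fun z hz => ?_)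
    · rw [hRz]
      exact mul_ne_zero (one_sub_ne hz0.le hz1 hz) (hFh z hz)
    · have h1 : ‖(aeval z R : ℂ)‖ = ‖(aeval z F : ℂ)‖ := by
        rw [hRz, hFhz, norm_mul, norm_mul, circ _ _ hz]
      rw [h1]
      refine circle_le (φ := fun z => ‖(aeval z Fs : ℂ)‖) (ψ := fun z => ‖(aeval z F : ℂ)‖)
        (cont_aeval Fs).norm.continuousOn (cont_aeval F).norm.continuousOn h.hT
        (fun z hz hzT => ?_) hz
      have hz0' := z_ne hz
      have hsz := hs z hz.le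
      obtain ⟨rho, hrho⟩ : ∃ rho : ℂ, rho = 7 / 4 - 2 * (z - ((4 / 25 : ℝ) : ℂ)) /
        (z * (1 - ((4 / 25 : ℝ) : ℂ) * z)) := ⟨_, rfl⟩
      have hr : ‖rho - 7 / 4‖ < 9 / 4 := by
        have : rho - 7 / 4 = -(2 * (z - ((4 / 25 : ℝ) : ℂ)) /
          (z * (1 - ((4 / 25 : ℝ) : ℂ) * z))) := by rw [hrho]; ring
        rw [this, norm_neg, norm_div, norm_mul, norm_mul, hz, one_mul, circ _ _ hz,
          mul_div_assoc, div_self (norm_ne_zero_iff.mpr hsz)]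
        norm_num
      have hQ : (aeval z q : ℂ) + z * aeval z f * (1 - rho) =
          -(aeval z F : ℂ) / (1 - ((4 / 25 : ℝ) : ℂ) * z) := by
        have hk : 2 * (z - ((4 / 25 : ℝ) : ℂ)) / (z * (1 - ((4 / 25 : ℝ) : ℂ) * z)) *
            (z * (1 - ((4 / 25 : ℝ) : ℂ) * z)) = 2 * (z - ((4 / 25 : ℝ) : ℂ)) :=
          div_mul_cancel₀ _ (mul_ne_zero hz0' hsz)
        rw [eq_div_iff hsz, hFz, hUz, h.qe, hrho]
        linear_combination (aeval z f : ℂ) * hk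
      have h2 := half' (X := (aeval z q : ℂ) + z * aeval z f * (1 - rho)) (e := aeval z M)
        fun t ht => by
          have h3 := h.H z hz hzT rho 0 t hr (by norm_num) ht
          rw [mul_zero, sub_zero] at h3
          exact h3
      have h4 : (aeval z q : ℂ) + z * aeval z f * (1 - rho) - aeval z M =
          -(aeval z Fs : ℂ) / (1 - ((4 / 25 : ℝ) : ℂ) * z) := by
        rw [hQ, hFsz]
        field_simp
        ring
      rw [h4, hQ, norm_div, norm_div, norm_neg, norm_neg] at h2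
      exact (div_le_div_iff_of_pos_right (norm_pos_iff.mpr hsz)).mp h2
  -- the numbers
  have cF : F.coeff 0 = -ζ' * Fh.coeff 0 := by
    have : (X - C ζ') * Fh = X * Fh - C ζ' * Fh := by ring
    rw [hFF, this, coeff_sub, coeff_X_mul_zero, coeff_C_mul]; ring
  have cR : R.coeff 0 = Fh.coeff 0 := by
    have : (1 - C ζ' * X) * Fh = Fh - C ζ' * (X * Fh) := by ring
    rw [hR, this, coeff_sub, coeff_C_mul, coeff_X_mul_zero]; ring
  have cFs : Fs.coeff 0 = 58 / 25 := by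
    have : F + (1 - C (4 / 25) * X) * M = F + M - C (4 / 25) * (X * M) := by ring
    rw [hFs, this, coeff_sub, coeff_add, coeff_C_mul, coeff_X_mul_zero, hF0, hM0]; norm_num
  have hFh0 : ζ' * Fh.coeff 0 = 17 / 25 := by linarith
  have hFhp : 0 < Fh.coeff 0 := by
    by_contra hcon
    push Not at hcon
    nlinarith
  have hFhx : ∀ x : ℝ, 0 ≤ x → x ≤ 1 → 0 < Fh.eval x := by
    intro x hx0 hx1
    have h1 := sp.sign hx0 hx1
    rw [← coeff_zero_eq_eval_zero, cR] at h1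
    have h2 : R.eval x = (1 - ζ' * x) * Fh.eval x := by rw [hR]; simp
    rw [h2] at h1
    have h3 := (mul_pos_iff_of_pos_left hFhp).mp h1
    exact (mul_pos_iff_of_pos_left (by nlinarith)).mp h3
  have hFx : ∀ x : ℝ, F.eval x = (x - ζ') * Fh.eval x := by
    intro x
    rw [hFF]; simp
  -- `ζ' > 1/4`
  have hz4 : 1 / 4 < ζ' := by
    have h1 : F.eval (1 / 4) = -(24 / 25 * q.eval (1 / 4)) := by
      rw [hF, hU, h.hE]
      simp
      ring
    have h2 := hFx (1 / 4)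
    have h3 := hFhx (1 / 4) (by norm_num) (by norm_num)
    by_contra hcon
    push Not at hcon
    nlinarith [mul_nonneg (sub_nonneg.mpr hcon) h3.le]
  -- Schwarz-Pick
  have hRx : R.eval (5 / 8) = (1 - ζ' * (5 / 8)) * Fh.eval (5 / 8) := by rw [hR]; simp
  have hFsx : Fs.eval (5 / 8) = F.eval (5 / 8) + 9 / 10 * M.eval (5 / 8) := by
    rw [hFs]; simp; norm_num
  have hpick := sp.pick (g := 58 / 17 * ζ') (x := 5 / 8) (by rw [cFs, cR]; linarith)
    (by norm_num) (by norm_num)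
  have hg1 : 58 / 17 * ζ' ≤ 1 := by
    have h1 := sp.coeff_le.2
    rw [cFs, cR, abs_of_pos (by norm_num), abs_of_pos hFhp] at h1
    nlinarith
  obtain ⟨r, hr⟩ : ∃ r, r = Fs.eval (5 / 8) / R.eval (5 / 8) := ⟨_, rfl⟩
  rw [← hr] at hpick
  have hd : 0 < 1 - ζ' * (5 / 8) := by linarith
  have hf5 := hFhx (5 / 8) (by norm_num) (by norm_num)
  have hr1 : r * (1 - ζ' * (5 / 8)) ≤ 5 / 8 - ζ' := by
    have h1 : r * R.eval (5 / 8) = Fs.eval (5 / 8) := by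
      rw [hr, div_mul_cancel₀]
      rw [hRx]
      exact (mul_pos hd hf5).ne'
    rw [hRx, hFsx, hFx] at h1
    have h2 : (r * (1 - ζ' * (5 / 8)) - (5 / 8 - ζ')) * Fh.eval (5 / 8) ≤ 0 := by
      linarith
    by_contra hcon
    push Not at hcon
    linarith [mul_pos (sub_pos.mpr hcon) hf5]
  have h5 := (abs_le.mp hpick).1
  -- `g - t ≤ r (1 - t g)`
  have h6 : 58 / 17 * ζ' - 5 / 8 ≤ r * (1 - 5 / 8 * (58 / 17 * ζ')) := by linarith
  have h7 : 0 < 1 - 5 / 8 * (58 / 17 * ζ') := by linarith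
  have h8 : (58 / 17 * ζ' - 5 / 8) * (1 - ζ' * (5 / 8)) ≤
      (5 / 8 - ζ') * (1 - 5 / 8 * (58 / 17 * ζ')) := by
    calc (58 / 17 * ζ' - 5 / 8) * (1 - ζ' * (5 / 8)) ≤
        r * (1 - 5 / 8 * (58 / 17 * ζ')) * (1 - ζ' * (5 / 8)) :=
          mul_le_mul_of_nonneg_right h6 hd.le
      _ = r * (1 - ζ' * (5 / 8)) * (1 - 5 / 8 * (58 / 17 * ζ')) := by ring
      _ ≤ _ := mul_le_mul_of_nonneg_right hr1 h7.le
  nlinarith

end Pool.Agent.B5.O4Q
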