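import Pool.Agent.Lib.MP_b5021c_nt.KO.H42.Mpa
import Pool.Agent.Lib.MP_b5021c_nt.KO.H89.PowG
import Pool.Agent.Lib.MP_b5021c_nt.KO.H89.PowS
import Pool.Agent.Lib.MP_b5021c_nt.IfaceBE

/-!
# Board b5, K ODD, PURE BETA, rows BE_TRA and BE_PAR
-/

namespace Pool.Agent.B5.O4Q

open scoped LaurentPolynomial
open Complex Polynomial
open Pool.Agent.B5.PowR (ma ma_zero ma_single ma_update face_multi half_disc)
open Pool.Agent.B5.H52.T00 (evR_pl)

/-! ## The half plane -/

/-- `x = t / (1 + t)`. -/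
theorem moeb {t : ℂ} (ht : -(1 / 2) < t.re) : ‖t / (1 + t)‖ < 1 ∧ 1 + t ≠ 0 ∧
    1 - t / (1 + t) = (1 + t)⁻¹ := by
  have h1 : (1 + t) ≠ 0 := by
    intro h0
    have := congrArg Complex.re h0
    simp at this
    linarith
  refine ⟨?_, h1, by field_simp; ring⟩
  rw [norm_div, div_lt_one (norm_pos_iff.mpr h1), ← abs_of_nonneg (norm_nonneg t),
    ← abs_of_nonneg (norm_nonneg (1 + t)), ← sq_lt_sq, ← Complex.normSq_eq_norm_sq,
    ← Complex.normSq_eq_norm_sq, Complex.normSq_apply, Complex.normSq_apply]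
  simp only [Complex.add_re, Complex.one_re, Complex.add_im, Complex.one_im]
  nlinarith

/-- `t_k t_l` has every direction. -/
theorem bil {V A B M' c : ℂ} (hM : M' ≠ 0)
    (h : ∀ x y t : ℂ, -(1 / 2) < x.re → -(1 / 2) < y.re → -(1 / 2) < t.re →
      V + A * x + B * y + c * (x * y) + M' * t ≠ 0) : c = 0 := by
  by_contra hc
  obtain ⟨w0, hw0⟩ := IsAlgClosed.exists_pow_nat_eq (-(c / M')⁻¹) (n := 2) (by norm_num)
  obtain ⟨w, hw, hwr⟩ : ∃ w : ℂ, w ^ 2 = -(c / M')⁻¹ ∧ 0 ≤ w.re := by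
    rcases le_or_gt 0 w0.re with h1 | h1
    · exact ⟨w0, hw0, h1⟩
    · exact ⟨-w0, by rw [neg_sq, hw0], by simp; linarith⟩
  obtain ⟨al, hal⟩ : ∃ al : ℝ, al = (V / M').re := ⟨_, rfl⟩
  obtain ⟨be, hbe⟩ : ∃ be : ℝ, be = ((A + B) / M' * w).re := ⟨_, rfl⟩
  have key : ∀ R : ℝ, 0 ≤ R → 1 / 2 ≤ al + be * R - R ^ 2 := by
    intro R hR
    have h1 : -(1 / 2) < ((R : ℂ) * w).re := by
      rw [Complex.re_ofReal_mul]
      have := mul_nonneg hR hwr
      linarith
    obtain ⟨W, hW⟩ : ∃ W, W = (V + A * ((R : ℂ) * w) + B * ((R : ℂ) * w) +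
      c * (((R : ℂ) * w) * ((R : ℂ) * w))) / M' := ⟨_, rfl⟩
    have h2 : ¬ -(1 / 2) < (-W).re := by
      intro h3
      apply h _ _ _ h1 h1 h3
      rw [hW]
      field_simp
      ring
    have h3 : W = V / M' + ((A + B) / M' * w) * (R : ℂ) - (R : ℂ) ^ 2 := by
      have h4 : c / M' * w ^ 2 = -1 := by
        rw [hw]
        have : c / M' ≠ 0 := div_ne_zero hc hM
        field_simp
      have h5 : W = V / M' + ((A + B) / M' * w) * (R : ℂ) + (R : ℂ) ^ 2 * (c / M' * w ^ 2) := by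
        rw [hW]; field_simp; ring
      rw [h5, h4]; ring
    have h4 : W.re = al + be * R - R ^ 2 := by
      rw [h3, Complex.sub_re, Complex.add_re, Complex.re_mul_ofReal, ← hal, ← hbe,
        ← Complex.ofReal_pow, Complex.ofReal_re]
    rw [Complex.neg_re] at h2
    linarith
  have h1 := key (|al| + |be| + 1) (by positivity)
  have h2 := le_abs_self al
  have h3 := le_abs_self be
  have h4 := abs_nonneg al
  have h5 := abs_nonneg be
  nlinarith [mul_nonneg h4 h5, mul_le_mul_of_nonneg_right h3 (by positivity : 0 ≤ |al| + |be| + 1)]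

section

variable {s : ℕ}

/-- TRANSITIVITY at one point. -/
theorem tra_pt (a : Finset (Fin s) → ℂ) (h : ∀ x : Fin s → ℂ, (∀ i, ‖x i‖ < 1) → ma a x ≠ 0)
    {i k l : Fin s} (hik : i ≠ k) (hil : i ≠ l) (hkl : k ≠ l)
    (h1 : ma a (fun m => if m ∈ ({i, k} : Finset (Fin s)) then 1 else 0) = 0)
    (h2 : ma a (fun m => if m ∈ ({i, l} : Finset (Fin s)) then 1 else 0) = 0)
    (hm : ma a (Pi.single i 1) ≠ 0) :
    ma a (fun m => if m ∈ ({k, l} : Finset (Fin s)) then 1 else 0) = 0 := by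
  refine bil (V := ma a 0) (A := ma a (Pi.single k 1)) (B := ma a (Pi.single l 1)) hm ?_
  intro x y t hx hy ht hcon
  obtain ⟨x1, x2, x3⟩ := moeb hx
  obtain ⟨y1, y2, y3⟩ := moeb hy
  obtain ⟨t1, t2, t3⟩ := moeb ht
  obtain ⟨X0, hX0⟩ : ∃ X0 : Fin s → ℂ, X0 = fun m => if m = k then x / (1 + x) else
    if m = l then y / (1 + y) else 0 := ⟨_, rfl⟩
  have hX1 : ∀ m, ‖X0 m‖ < 1 := by
    intro m
    rw [hX0]
    by_cases hm1 : m = k
    · simp only [hm1, if_true]; exact x1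
    · by_cases hm2 : m = l
      · simp only [hm2, if_true, if_neg hkl.symm]; exact y1
      · simp [hm1, hm2]
  have hXk : X0 k = x / (1 + x) := by rw [hX0]; simp
  have hXl : X0 l = y / (1 + y) := by rw [hX0]; simp [hkl.symm]
  have hXi : X0 i = 0 := by rw [hX0]; simp [hik, hil]
  have hXo : ∀ m, m ≠ k → m ≠ l → X0 m = 0 := by
    intro m hm1 hm2
    rw [hX0]; simp [hm1, hm2]
  apply h (Function.update X0 i (t / (1 + t))) (by
    intro m
    by_cases hmi : m = i
    · rw [hmi, Function.update_self]; exact t1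
    · rw [Function.update_of_ne hmi]; exact hX1 m)
  rw [ma_update]
  have e1 : Function.update X0 i 0 = X0 := by
    rw [← hXi, Function.update_eq_self]
  have e2 := par1 a h i {k, l} (by simp [hik, hil]) (by
    intro m hm
    rw [Finset.mem_insert, Finset.mem_singleton] at hm
    rcases hm with rfl | rfl
    · exact h1
    · exact h2) X0 hX1 (by
    intro m hm
    rw [Finset.mem_insert, Finset.mem_singleton, not_or] at hm
    exact hXo m hm.1 hm.2)
  rw [e1, e2, ma_two a hkl X0 hXo, Finset.prod_pair hkl, hXk, hXl, x3, y3]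
  linear_combination (norm := skip) ((1 + x)⁻¹ * (1 + y)⁻¹ * (1 + t)⁻¹) * hcon
  field_simp
  ring

/-- The inequality for a pairwise parallel set, at one point. -/
theorem par_pt (a : Finset (Fin s) → ℂ) {b : ℂ} (hb : b ≠ 0)
    (h : ∀ (x : Fin s → ℂ) (y0 y1 : ℂ), (∀ i, ‖x i‖ < 1) → ‖y0‖ < 1 → ‖y1‖ < 1 →
      ma a x + b * (∏ i, (1 - x i)) * (1 - (1 - y0) * (1 - y1)) ≠ 0)
    (Q : Finset (Fin s))
    (hQ : ∀ i ∈ Q, ∀ k ∈ Q, i ≠ k →
      ma a (fun l => if l ∈ ({i, k} : Finset (Fin s)) then 1 else 0) = 0)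
    {i0 : Fin s} (hi0 : i0 ∈ Q) (hm : ma a (Pi.single i0 1) ≠ 0) (rho : ℂ) (t : Fin s → ℂ)
    (hr : ‖rho - 7 / 4‖ < 9 / 4) (ht : ∀ i, -(1 / 2) < (t i).re) :
    ma a 0 + b * (1 - rho) + ∑ i ∈ Q, ma a (Pi.single i 1) * t i ≠ 0 := by
  have h0 : ∀ x : Fin s → ℂ, (∀ i, ‖x i‖ < 1) → ma a x ≠ 0 := by
    intro x hx hc
    apply h x 0 0 hx (by simp) (by simp)
    rw [hc]; ring
  obtain ⟨x0, hx0⟩ : ∃ x0 : Fin s → ℂ, x0 = fun m => t m / (1 + t m) := ⟨_, rfl⟩
  have hx1 : ∀ m, ‖x0 m‖ < 1 := fun m => by rw [hx0]; exact (moeb (ht m)).1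
  have hxt : ∀ m, x0 m / (1 - x0 m) = t m := by
    intro m
    obtain ⟨-, u2, u3⟩ := moeb (ht m)
    rw [hx0]
    simp only
    rw [u3]; field_simp
  have hx1' : ∀ m, 1 - x0 m ≠ 0 := by
    intro m h1
    have := hx1 m
    rw [← sub_eq_zero.mp h1, norm_one] at this
    exact lt_irrefl _ this
  obtain ⟨c, hc⟩ : ∃ c, c = ∏ m ∈ Q.erase i0, (1 - x0 m) := ⟨_, rfl⟩
  have hc0 : c ≠ 0 := by
    rw [hc, Finset.prod_ne_zero_iff]
    exact fun m _ => hx1' m
  obtain ⟨W, hW⟩ : ∃ W, W = ma a 0 + ∑ m ∈ Q.erase i0, ma a (Pi.single m 1) * t m := ⟨_, rfl⟩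
  -- the slice
  have hsl : ∀ v : ℂ, ‖v‖ < 1 → ma a (fun m => if m = i0 then v else if m ∈ Q then x0 m else 0) =
      c * ((1 - v) * W + v * ma a (Pi.single i0 1)) := by
    intro v hv
    obtain ⟨y, hy⟩ : ∃ y : Fin s → ℂ, y = fun m => if m = i0 then v else
      if m ∈ Q then x0 m else 0 := ⟨_, rfl⟩
    have hyi : y i0 = v := by rw [hy]; simp
    have hyo : ∀ m ∈ Q.erase i0, y m = x0 m := by
      intro m hm
      rw [Finset.mem_erase] at hm
      rw [hy]; simp [hm.1, hm.2]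
    have h1 := par2 a h0 Q hQ y (by
      intro m
      rw [hy]
      by_cases hm : m = i0
      · simp only [hm, if_true]; exact hv
      · by_cases hm2 : m ∈ Q
        · simp only [hm, if_false, hm2, if_true]; exact hx1 m
        · simp [hm, hm2]) (by
      intro m hmQ
      rw [hy]
      have : m ≠ i0 := fun hh => hmQ (by rw [hh]; exact hi0)
      simp [this, hmQ])
    rw [← Finset.mul_prod_erase Q _ hi0, ← Finset.add_sum_erase Q _ hi0, hyi,
      Finset.prod_congr rfl (fun m hm => by rw [hyo m hm]), ← hc,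
      Finset.sum_congr rfl (fun m hm => by rw [hyo m hm, hxt m])] at h1
    rw [← hy, h1, hW]
    have hv1 : 1 - v ≠ 0 := by
      intro h2
      rw [← sub_eq_zero.mp h2, norm_one] at hv
      exact lt_irrefl _ hv
    field_simp
    ring
  have hd := half_disc (W + b) (ma a (Pi.single i0 1) - W - b) b (x0 i0) hb (hx1 i0) (by
    intro v y0 y1 hv hy0 hy1 hcon
    apply h (fun m => if m = i0 then v else if m ∈ Q then x0 m else 0) y0 y1 (by
      intro m
      by_cases hm : m = i0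
      · simp only [hm, if_true]; exact hv
      · by_cases hm2 : m ∈ Q
        · simp only [hm, if_false, hm2, if_true]; exact hx1 m
        · simp [hm, hm2]) hy0 hy1
    have hp : ∏ m, (1 - (if m = i0 then v else if m ∈ Q then x0 m else 0)) = (1 - v) * c := by
      rw [← Finset.mul_prod_erase _ _ (Finset.mem_univ i0)]
      congr 1
      · simp
      · rw [hc]
        symm
        apply Finset.prod_subset_one_on_sdiff (Finset.erase_subset_erase _ (Finset.subset_univ _))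
        · intro m hm
          simp only [Finset.mem_sdiff, Finset.mem_erase, Finset.mem_univ, and_true, not_and] at hm
          simp [hm.1, hm.2 hm.1]
        · intro m hm
          rw [Finset.mem_erase] at hm
          simp [hm.1, hm.2]
    rw [hsl v hv, hp]
    linear_combination c * hcon) (by
    have : W + b + (ma a (Pi.single i0 1) - W - b) = ma a (Pi.single i0 1) := by ring
    rw [this]; exact hm)
  intro hcon
  rw [← Finset.add_sum_erase Q _ hi0] at hcon
  have h2 : W + b * (1 - rho) + ma a (Pi.single i0 1) * t i0 = 0 := by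
    rw [hW]; linear_combination hcon
  have h3 : t i0 * (1 - x0 i0) = x0 i0 := by
    rw [← hxt i0]; field_simp [hx1' i0]
  have h4 : W + b + (ma a (Pi.single i0 1) - W - b) * x0 i0 - 7 / 4 * (b * (1 - x0 i0)) =
      b * (1 - x0 i0) * (rho - 7 / 4) := by
    linear_combination (1 - x0 i0) * h2 - ma a (Pi.single i0 1) * h3
  rw [h4, norm_mul, norm_mul] at hd
  have h5 : 0 < ‖b‖ * ‖1 - x0 i0‖ := mul_pos (norm_pos_iff.mpr hb) (norm_pos_iff.mpr (hx1' i0))
  nlinarith

end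

/-! ## The rows -/

section

variable {P L : Type} [Fintype P] [DecidableEq P] [AddCommGroup L] [Module.Free ℤ L]
  [Module.Finite ℤ L] {phi : L →+ (P → ℤ)} {D : AO ℤ L} {q f : ℤ[X]} {a : ℝ} {j s : ℕ}
  {S : Fin 3 → L} {es : Fin 3 → (RO ℤ)ˣ} {T : Fin s → L} {lam : Fin s → (RO ℤ)ˣ}

/-- The coefficients of the face of the `T i`. -/
noncomputable def fa (D : AO ℤ L) (T : Fin s → L) (lam : Fin s → (RO ℤ)ˣ) (z : Circle) :
    Finset (Fin s) → ℂ :=
  fun J => (∏ i ∈ J, evR z (lam i : RO ℤ)) * evR z (D.coeff (∑ i ∈ J, T i))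

theorem ma_ind (b : Finset (Fin s) → ℂ) (K : Finset (Fin s)) :
    ma b (fun m => if m ∈ K then 1 else 0) = ∑ J ∈ K.powerset, b J := by
  unfold ma
  symm
  apply Finset.sum_subset_zero_on_sdiff (Finset.subset_univ _)
  · intro J hJ
    rw [Finset.mem_sdiff, Finset.mem_powerset] at hJ
    obtain ⟨m, hm1, hm2⟩ := Finset.not_subset.mp hJ.2
    rw [Finset.prod_eq_zero hm1 (by simp [hm2]), mul_zero]
  · intro J hJ
    rw [Finset.mem_powerset] at hJ
    rw [Finset.prod_eq_one (fun m hm => by simp [hJ hm]), mul_one]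

theorem fa_zero (D : AO ℤ L) (T : Fin s → L) (lam : Fin s → (RO ℤ)ˣ) (z : Circle) :
    ma (fa D T lam z) 0 = evR z (D.coeff 0) := by
  rw [ma_zero]; simp [fa]

theorem fa_one (D : AO ℤ L) (T : Fin s → L) (lam : Fin s → (RO ℤ)ˣ) (z : Circle) (i : Fin s) :
    ma (fa D T lam z) (Pi.single i 1) = evR z (bm D (T i) (lam i)) := by
  rw [ma_single]; simp [fa, bm]

theorem fa_two (D : AO ℤ L) (T : Fin s → L) (lam : Fin s → (RO ℤ)ˣ) (z : Circle) {i k : Fin s}
    (h : i ≠ k) : ma (fa D T lam z) (fun m => if m ∈ ({i, k} : Finset (Fin s)) then 1 else 0) =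
      evR z (bmm D (T i) (T k) (lam i) (lam k)) := by
  have h0 : ({k} : Finset (Fin s)) = insert k ∅ := rfl
  rw [ma_ind, Finset.sum_powerset_insert (by simpa using h), h0, Finset.sum_powerset_insert (by simp),
    Finset.sum_powerset_insert (by simp), Finset.powerset_empty]
  simp only [fa, bmm, Finset.prod_empty, Finset.sum_empty, insert_empty_eq, Finset.prod_singleton,
    Finset.sum_singleton, Finset.prod_pair h, Finset.sum_pair h, map_add, map_mul]
  ring

/-- The face of `S 0`, `S 1` and the `T i`. -/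
theorem fa_ne (hF : FcmS) (h : Be phi D q f a j s S es T lam) (z : Circle) (x : Fin s → ℂ)
    (y0 y1 : ℂ) (hx : ∀ i, ‖x i‖ < 1) (hy0 : ‖y0‖ < 1) (hy1 : ‖y1‖ < 1) :
    ma (fa D T lam z) x + (z : ℂ) * aeval (z : ℂ) f * (∏ i, (1 - x i)) *
      (1 - (1 - y0) * (1 - y1)) ≠ 0 := by
  have hD : DD phi D := h.ko.min.fp.dd
  have h2 : 2 ≤ Module.finrank ℤ L := by
    have := h.ko.rk; have := h.ko.j2; omega
  intro hcon
  refine face_multi hF hD h2 (S 0) (S 1) T (ld (es 0) 1) (ld (es 1) 1) lam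
    (hD.bin _ (h.rS 0).1) (hD.bin _ (h.rS 1).1) (fun i => hD.bin _ (h.rT i).1) (h.rS 0).2.1
    (h.rS 1).2.1 (fun i => (h.rT i).2.1) (h.dSS 0 1 (by decide)) (fun i p => h.dST 0 i p)
    (fun i p => h.dST 1 i p) h.dTT z x y0 y1 hx hy0 hy1 ?_
  rw [← hcon]
  have hprod : ∏ i, (1 - x i) = ∑ J : Finset (Fin s), (-1) ^ J.card * ∏ i ∈ J, x i := by
    rw [Finset.prod_sub, ← Finset.powerset_univ]
    simp
  rw [hprod, ma, Finset.mul_sum, Finset.sum_mul, ← Finset.sum_add_distrib]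
  apply Finset.sum_congr rfl
  intro J _
  have g0 := congrArg (evR z) (h.psi {0} J (by decide) (by decide))
  have g1 := congrArg (evR z) (h.psi {1} J (by decide) (by decide))
  have g01 := congrArg (evR z) (h.psi {0, 1} J (by decide) (by decide))
  have n01 : (0 : Fin 3) ≠ 1 := by decide
  simp only [sST, Finset.sum_singleton, Finset.prod_singleton, Finset.card_singleton,
    Finset.sum_pair n01, Finset.prod_pair n01, Finset.card_pair n01, map_mul, map_neg, map_pow,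
    map_one, map_prod, evR_pl, aeval_X, pow_add, pow_one] at g0 g1 g01
  simp only [fa]
  linear_combination (y0 * ∏ i ∈ J, x i) * g0 + (y1 * ∏ i ∈ J, x i) * g1 +
    (y0 * y1 * ∏ i ∈ J, x i) * g01

theorem bm_ne (h : Be phi D q f a j s S es T lam) (i : Fin s) : bm D (T i) (lam i) ≠ 0 := by
  obtain ⟨-, g, e, hR, hl⟩ := h.tT i
  intro h0
  obtain ⟨z, hz1, hz2⟩ := hR.ne
  apply hz2
  obtain ⟨w, rfl⟩ : ∃ w : Circle, (w : ℂ) = z :=
    ⟨⟨z, by simpa [Submonoid.unitSphere] using hz1⟩, rfl⟩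
  have hn : ∀ u : (RO ℤ)ˣ, ‖evR w (u : RO ℤ)‖ = 1 := fun u => H36.norm_evR_unit w _ u.isUnit
  have h1 := congrArg (evR w) h0
  simp only [bm, map_add, map_mul, map_zero, hR.D0, evR_pl] at h1
  have h2 : ‖evR w (lam i : RO ℤ) * evR w (D.coeff (T i))‖ = ‖(aeval (w : ℂ) q : ℂ)‖ := by
    rw [show evR w (lam i : RO ℤ) * evR w (D.coeff (T i)) = -(aeval (w : ℂ) q : ℂ) by
      linear_combination h1, norm_neg]
  have h3 := congrArg (fun p => ‖evR w p‖) hR.DS
  simp only [map_mul, norm_mul, hn, evR_pl, one_mul] at h3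
  rw [norm_mul, hn, one_mul] at h2
  rw [← h3, h2]

end

/-- ROW BE_TRA. -/
theorem bTra (hF : FcmS) (hZ : ZfinS) : BeTraS := by
  intro P L _ _ _ _ _ phi D q f a j s S es T lam h i k l hik hil hkl h1 h2
  by_contra h3
  have hio : Infinite (Set.Ioc (-Real.pi) Real.pi) :=
    Set.infinite_coe_iff.mpr (Set.Ioc_infinite (by linarith [Real.pi_pos]))
  have hinf : Infinite Circle := Infinite.of_injective _ Circle.argEquiv.symm.injective
  have hfin := (hZ ℤ _ (bm_ne h i)).union (hZ ℤ _ h3)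
  obtain ⟨z, hz⟩ := hfin.infinite_compl.nonempty
  simp only [Set.mem_compl_iff, Set.mem_union, Set.mem_ofPred_eq, not_or] at hz
  apply hz.2
  rw [← fa_two D T lam z hkl]
  refine tra_pt (fa D T lam z) ?_ hik hil hkl ?_ ?_ ?_
  · intro x hx hc
    apply fa_ne hF h z x 0 0 hx (by simp) (by simp)
    rw [hc]; ring
  · rw [fa_two D T lam z hik, h1, map_zero]
  · rw [fa_two D T lam z hil, h2, map_zero]
  · rw [fa_one]; exact hz.1

/-- ROW BE_PAR. -/
theorem bPar (hF : FcmS) (hZ : ZfinS) : BeParS := by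
  intro P L _ _ _ _ _ phi D q f a j s S es T lam h Q hQ hP
  obtain ⟨i0, hi0⟩ := hQ
  have hf0 : (toLaurent f : RO ℤ) ≠ 0 := by
    rw [Ne, Polynomial.toLaurent_eq_zero]
    intro h0
    have := h.f0
    rw [h0] at this
    simp at this
  refine ((hZ ℤ _ (bm_ne h i0)).union (hZ ℤ _ hf0)).subset ?_
  intro z hz
  by_contra hcon
  simp only [Set.mem_union, Set.mem_ofPred_eq, not_or] at hcon
  apply hz
  intro rho t hr ht
  rw [evR_pl] at hcon
  have hz0 : (z : ℂ) ≠ 0 := Circle.coe_ne_zero z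
  have h1 := par_pt (fa D T lam z) (b := (z : ℂ) * aeval (z : ℂ) f) (mul_ne_zero hz0 hcon.2)
    (fun x y0 y1 hx hy0 hy1 => fa_ne hF h z x y0 y1 hx hy0 hy1) Q
    (fun i hi k hk hik => by rw [fa_two D T lam z hik, hP i hi k hk hik, map_zero]) hi0
    (by rw [fa_one]; exact hcon.1) rho t hr ht
  rw [fa_zero, h.ko.D0, evR_pl] at h1
  simp only [fa_one] at h1
  exact h1

end Pool.Agent.B5.O4Q
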