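import Pool.Agent.Lib.MP_b5021c_nt.KO.H39.Mulp
import Pool.Agent.Lib.MP_b5021c_nt.W.H1.Car

/-!
# MP_b5021c_nt, all `θ`, K ODD, (O4), l = 3, pure beta: the row CER

`V` is the hat of the apex of the double closing, `E = V + (1 + X) f`, `G = f / V`; on the circle
`Re (1 + 2 (c - κ) G) ≥ 0` for all `c = (1 + w) ^ 2`, `κ = 1/z - z`. With `x = 1/(N+1)` and
`1/t - t = N - 1` the two inequalities `G(x) > 1/(N - x)` and `G(t) ≤ 1/(N - t²)` are
contradictory: mean over the circle with the multiplier `c = 7/4 + 9/4 b`, `b` of modulus one.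
-/

namespace Pool.Agent.B5.O4C

open Polynomial Metric Complex Filter Topology
open Pool.Agent.B5.Nr.Car (Cara)

/-- The cardioid `(1 + w)²` has the disc `|c - 7/4| ≤ 9/4` in its convex hull. -/
theorem disc {A G : ℂ} (h : ∀ w : ℂ, ‖w‖ = 1 → 0 ≤ (A + 2 * ((1 + w) ^ 2 * G)).re) :
    9 / 2 * ‖G‖ ≤ (A + 7 / 2 * G).re := by
  rcases eq_or_ne G 0 with h0 | h0
  · have := h 1 (by simp)
    rw [h0] at this ⊢
    simpa using this
  set u : ℂ := -(starRingEnd ℂ) G with hu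
  have hG : (0 : ℝ) < ‖G‖ := norm_pos_iff.mpr h0
  set p : ℝ := arg u with hp
  have hu0 : ‖u‖ = ‖G‖ := by rw [hu, norm_neg, RCLike.norm_conj]
  have hup : u = ‖G‖ * exp (p * I) := by
    rw [hp, ← hu0, norm_mul_exp_arg_mul_I]
  have hGp : G = -(‖G‖ * exp (-(p * I))) := by
    have h1 : (starRingEnd ℂ) u = -G := by rw [hu, map_neg, Complex.conj_conj]
    rw [← neg_eq_iff_eq_neg, ← h1, hup, map_mul, conj_ofReal, ← exp_conj, map_mul, conj_ofReal, conj_I]
    congr 2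
    ring
  have hpb := arg_mem_Ioc u
  rw [← hp] at hpb
  have hcos : 1 / 2 ≤ Real.cos (p / 3) := by
    rw [← Real.cos_pi_div_three, ← Real.cos_abs (p / 3)]
    refine Real.cos_le_cos_of_nonneg_of_le_pi (abs_nonneg _) ?_ ?_
    · have := Real.pi_pos; linarith
    · rw [abs_le]
      constructor
      · linarith [hpb.1]
      · linarith [hpb.2]
  have hcos1 : Real.cos (p / 3) ≤ 1 := Real.cos_le_one _
  have h3 : Real.cos p = 4 * Real.cos (p / 3) ^ 3 - 3 * Real.cos (p / 3) := by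
    rw [← Real.cos_three_mul]
    congr 1
    ring
  set s : ℝ := Real.cos (p / 3) with hs
  have hw := h (exp ((2 * p / 3 : ℝ) * I)) (by rw [norm_exp_ofReal_mul_I])
  have e1 : ((1 + exp ((2 * p / 3 : ℝ) * I)) ^ 2 * G).re = -(‖G‖ * (4 * s ^ 3)) := by
    have e2 : 1 + exp ((2 * p / 3 : ℝ) * I) = 2 * (s : ℂ) * exp ((p / 3 : ℝ) * I) := by
      rw [hs, ofReal_cos, two_cos]
      rw [add_mul, ← exp_add, ← exp_add, add_comm]
      congr 1
      · congr 1
        push_cast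
        ring
      · rw [show ((-((p / 3 : ℝ) : ℂ) * I + ((p / 3 : ℝ) : ℂ) * I)) = 0 by ring, exp_zero]
    rw [e2]
    nth_rw 1 [hGp]
    have e3 : (2 * (s : ℂ) * exp ((p / 3 : ℝ) * I)) ^ 2 * -(‖G‖ * exp (-(p * I))) =
        ((-(‖G‖ * (4 * s ^ 2)) : ℝ) : ℂ) * exp ((-(p / 3) : ℝ) * I) := by
      rw [mul_pow, ← exp_nat_mul]
      have : exp (((2 : ℕ) : ℂ) * ((p / 3 : ℝ) * I)) * exp (-(p * I)) = exp ((-(p / 3) : ℝ) * I) := by
        rw [← exp_add]
        congr 1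
        push_cast
        ring
      rw [← this]
      push_cast
      ring
    rw [e3, re_ofReal_mul, exp_ofReal_mul_I_re, Real.cos_neg, ← hs]
    ring
  have e4 : G.re = -(‖G‖ * Real.cos p) := by
    nth_rw 1 [hGp]
    rw [neg_re, re_ofReal_mul]
    rw [show -((p : ℂ) * I) = ((-p : ℝ) : ℂ) * I by push_cast; ring, exp_ofReal_mul_I_re,
      Real.cos_neg]
  have e5 : (A + 2 * ((1 + exp ((2 * p / 3 : ℝ) * I)) ^ 2 * G)).re = A.re - 8 * s ^ 3 * ‖G‖ := by
    rw [add_re, show (2 : ℂ) = ((2 : ℝ) : ℂ) by norm_num, re_ofReal_mul, e1]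
    ring
  rw [e5] at hw
  have e6 : (A + 7 / 2 * G).re = A.re - 7 / 2 * (Real.cos p) * ‖G‖ := by
    rw [add_re, show (7 / 2 : ℂ) = ((7 / 2 : ℝ) : ℂ) by norm_num, re_ofReal_mul, e4]
    ring
  rw [e6, h3]
  have e7 : 0 ≤ 8 * s ^ 3 - 7 / 2 * (4 * s ^ 3 - 3 * s) - 9 / 2 := by
    have : 8 * s ^ 3 - 7 / 2 * (4 * s ^ 3 - 3 * s) - 9 / 2 =
      3 / 2 * ((1 - s) * ((2 * s - 1) * (2 * s + 3))) := by ring
    rw [this]
    have a1 : 0 ≤ 1 - s := by linarith
    have a2 : 0 ≤ 2 * s - 1 := by linarith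
    have a3 : 0 ≤ 2 * s + 3 := by linarith
    positivity
  nlinarith [mul_nonneg e7 hG.le]

theorem conj_inv {z : ℂ} (hz : ‖z‖ = 1) (x : ℝ) :
    (starRingEnd ℂ) (z / (1 - x * z)) = 1 / (z - x) := by
  have h1 : z * (starRingEnd ℂ) z = 1 := by
    rw [mul_conj, normSq_eq_norm_sq, hz]; simp
  have hz0 : z ≠ 0 := by
    intro h; rw [h] at hz; simp at hz
  have h2 : (starRingEnd ℂ) z = 1 / z := by
    field_simp
    rw [mul_comm]
    exact h1
  rw [map_div₀, map_sub, map_one, map_mul, conj_ofReal, h2]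
  field_simp

/-- Reflection of the two real poles. -/
theorem hstar {V f : ℂ[X]} (hV : ∀ z : ℂ, ‖z‖ ≤ 1 → V.eval z ≠ 0) {x t g0 gx gt r1 r2 : ℝ}
    (hx0 : 0 < x) (hx1 : x < 1) (ht0 : 0 < t) (ht1 : t < 1)
    (h0 : f.eval 0 = g0 * V.eval 0) (hx : f.eval (x : ℂ) = gx * V.eval (x : ℂ))
    (ht : f.eval (t : ℂ) = gt * V.eval (t : ℂ)) {k : ℂ → ℂ}
    (hk : DifferentiableOn ℂ k (closedBall 0 1))
    (hc : ∀ z : ℂ, ‖z‖ = 1 → 0 ≤ (1 + 2 * ((k z + r1 / (z - x) + r2 / (z - t)) *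
      (f.eval z / V.eval z))).re) :
    0 ≤ (1 + 2 * (k 0 * g0 + r1 * ((gx - g0) / x) + r2 * ((gt - g0) / t))).re := by
  have hquo : ∀ P : ℂ[X], DifferentiableOn ℂ (fun z => P.eval z / V.eval z) (closedBall 0 1) := by
    intro P
    exact P.differentiable.differentiableOn.div V.differentiable.differentiableOn
        (fun z h => hV z (by simpa using h))
  have hkern : ∀ y : ℝ, 0 < y → y < 1 →
      DifferentiableOn ℂ (fun z : ℂ => z / (1 - y * z)) (closedBall 0 1) := by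
    intro y hy0 hy1
    refine DifferentiableOn.div differentiableOn_id (by fun_prop) ?_
    intro z hz h
    have hz1 : ‖z‖ ≤ 1 := by simpa using hz
    have h1 : (y : ℂ) * z = 1 := by linear_combination -h
    have h2 : ‖(y : ℂ) * z‖ = 1 := by rw [h1]; simp
    rw [norm_mul, norm_real, Real.norm_of_nonneg hy0.le] at h2
    nlinarith [norm_nonneg z]
  have hP : ∀ y g : ℝ, f.eval (y : ℂ) = g * V.eval (y : ℂ) →
      ∃ P : ℂ[X], ∀ z : ℂ, (z - y) * P.eval z = f.eval z - g * V.eval z := by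
    intro y g h
    have h1 : (X - C (y : ℂ)) ∣ f - C (g : ℂ) * V := by
      rw [dvd_iff_isRoot, IsRoot, eval_sub, eval_mul, eval_C, h, sub_self]
    obtain ⟨P, hP⟩ := h1
    refine ⟨P, fun z => ?_⟩
    have := congrArg (fun Q => Polynomial.eval z Q) hP
    simp only [eval_sub, eval_mul, eval_C, eval_X] at this
    exact this.symm
  obtain ⟨P1, hP1⟩ := hP x gx hx
  obtain ⟨P2, hP2⟩ := hP t gt ht
  set H : ℂ → ℂ := fun z => 1 + 2 * (k z * (f.eval z / V.eval z) +
    r1 * (P1.eval z / V.eval z + gx * (z / (1 - x * z))) +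
    r2 * (P2.eval z / V.eval z + gt * (z / (1 - t * z)))) with hH
  have hHd : DiffContOnCl ℂ H (ball 0 1) := by
    refine DifferentiableOn.diffContOnCl ?_
    rw [closure_ball (0 : ℂ) one_ne_zero]
    exact (((hk.mul (hquo f)).add (((hquo P1).add ((hkern x hx0 hx1).const_mul (gx : ℂ))).const_mul
      (r1 : ℂ))).add (((hquo P2).add ((hkern t ht0 ht1).const_mul (gt : ℂ))).const_mul
      (r2 : ℂ))).const_mul 2 |>.const_add 1
  have hcirc : ∀ z : ℂ, ‖z‖ = 1 → 0 ≤ (H z).re := by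
    intro z hz
    have hVz := hV z hz.le
    have hne : ∀ y : ℝ, 0 < y → y < 1 → z - y ≠ 0 := by
      intro y hy0 hy1 h
      rw [sub_eq_zero.mp h, norm_real, Real.norm_of_nonneg hy0.le] at hz
      linarith
    have key : ∀ (y g : ℝ) (P : ℂ[X]), 0 < y → y < 1 →
        (z - y) * P.eval z = f.eval z - g * V.eval z →
        P.eval z / V.eval z + g * (z / (1 - y * z)) = f.eval z / V.eval z / (z - y) -
          g * (1 / (z - y) - z / (1 - y * z)) := by
      intro y g P hy0 hy1 hP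
      have hy := hne y hy0 hy1
      have : P.eval z = (f.eval z - g * V.eval z) / (z - y) := by
        rw [← hP]; field_simp
      rw [this]
      field_simp
      ring
    have hre : ∀ y g r : ℝ, 0 < y → y < 1 →
        ((r : ℂ) * (g * (1 / (z - y) - z / (1 - y * z)))).re = 0 := by
      intro y g r hy0 hy1
      rw [re_ofReal_mul, re_ofReal_mul, sub_re, ← conj_inv hz y, conj_re, sub_self, mul_zero,
        mul_zero]
    have e : H z = (1 + 2 * ((k z + r1 / (z - x) + r2 / (z - t)) *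
      (f.eval z / V.eval z))) - 2 * ((r1 : ℂ) * (gx * (1 / (z - x) - z / (1 - x * z)))) -
        2 * ((r2 : ℂ) * (gt * (1 / (z - t) - z / (1 - t * z)))) := by
      simp only [hH]
      rw [key x gx P1 hx0 hx1 (hP1 z), key t gt P2 ht0 ht1 (hP2 z)]
      ring
    rw [e, sub_re, sub_re]
    have h2 : ∀ w : ℂ, (2 * w).re = 2 * w.re := fun w => by simp
    rw [h2 ((r1 : ℂ) * _), h2 ((r2 : ℂ) * _), hre x gx r1 hx0 hx1, hre t gt r2 ht0 ht1]
    have := hc z hz
    linarith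
  have hfin := Pool.Agent.B5.H39.Cara.re_nonneg_of_circle hHd hcirc 0 (by simp)
  have hV0 := hV 0 (by simp)
  have k1 : ∀ (y g : ℝ) (P : ℂ[X]), 0 < y →
      (∀ z : ℂ, (z - y) * P.eval z = f.eval z - g * V.eval z) →
      P.eval 0 / V.eval 0 = (g - g0) / y := by
    intro y g P hy hP
    have h1 := hP 0
    rw [h0] at h1
    have hy' : (y : ℂ) ≠ 0 := by exact_mod_cast hy.ne'
    field_simp
    linear_combination -h1
  have e0 : H 0 = 1 + 2 * (k 0 * g0 + r1 * ((gx - g0) / x) + r2 * ((gt - g0) / t)) := by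
    simp only [hH]
    rw [k1 x gx P1 hx0 hP1, k1 t gt P2 ht0 hP2, h0, mul_div_assoc, div_self hV0]
    ring
  rw [e0] at hfin
  exact hfin

/-- The numerator of the third Blaschke factor of the multiplier. -/
noncomputable def Nm {K : Type*} [Field K] (d z : K) : K := 2 * z ^ 2 + (1 + d) * z + 2 * d

/-- The denominator of the third Blaschke factor of the multiplier. -/
noncomputable def Dn {K : Type*} [Field K] (d z : K) : K := 2 + (1 + d) * z + 2 * d * z ^ 2

/-- The constant term of the multiplier. -/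
noncomputable def K0 (x t d : ℝ) : ℝ := 7 / 4 + (1 / x - x + 1 / t - t + 1 / 2 * (1 / d - d))

/-- `-` the residue of the multiplier at `x`, divided by `x`. -/
noncomputable def Ax (x t d : ℝ) : ℝ :=
  (1 - x ^ 2) * (1 - t * x) * Nm d x / (x ^ 2 * (t - x) * Dn d x)

/-- The residue of the multiplier at `t`, divided by `t`. -/
noncomputable def Bt (x t d : ℝ) : ℝ :=
  (1 - t ^ 2) * (1 - t * x) * Nm d t / (t ^ 2 * (t - x) * Dn d t)

theorem Dn_ne {d : ℝ} (hd0 : 0 ≤ d) (hd1 : d < 1 / 3) {z : ℂ} (hz : ‖z‖ ≤ 1) :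
    Dn (d : ℂ) z ≠ 0 := by
  intro h
  have h1 : ((1 + d : ℝ) : ℂ) * z + ((2 * d : ℝ) : ℂ) * z ^ 2 = -2 := by
    unfold Dn at h
    push_cast
    linear_combination h
  have h2 : ‖((1 + d : ℝ) : ℂ) * z + ((2 * d : ℝ) : ℂ) * z ^ 2‖ ≤ (1 + d) + 2 * d := by
    refine (norm_add_le _ _).trans ?_
    rw [norm_mul, norm_mul, norm_real, norm_real, Real.norm_of_nonneg (by linarith),
      Real.norm_of_nonneg (by linarith), norm_pow]
    have h3 : ‖z‖ ^ 2 ≤ 1 := pow_le_one₀ (norm_nonneg _) hz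
    nlinarith [norm_nonneg z]
  rw [h1, norm_neg] at h2
  norm_num at h2
  linarith

theorem kernel {V f : ℂ[X]} (hV : ∀ z : ℂ, ‖z‖ ≤ 1 → V.eval z ≠ 0) {x t g0 gx gt : ℝ}
    (hx0 : 0 < x) (hx1 : x ≤ 1 / 3) (hxt : x < t) (ht1 : t < 1)
    (h0 : f.eval 0 = g0 * V.eval 0) (hx : f.eval (x : ℂ) = gx * V.eval (x : ℂ))
    (ht : f.eval (t : ℂ) = gt * V.eval (t : ℂ))
    (hc : ∀ z : ℂ, ‖z‖ = 1 → 9 / 2 * ‖f.eval z / V.eval z‖ ≤
      (1 + 2 * ((7 / 4 - (1 / z - z)) * (f.eval z / V.eval z))).re) :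
    0 ≤ 1 + 2 * (K0 x t (4 / 9 * x * t) * g0 - 9 / 4 * Ax x t (4 / 9 * x * t) * gx +
      9 / 4 * Bt x t (4 / 9 * x * t) * gt) := by
  set d : ℝ := 4 / 9 * x * t with hd
  have ht0 : 0 < t := hx0.trans hxt
  have hd0 : 0 < d := by positivity
  have hd1 : d < 1 / 3 := by
    rw [hd]; nlinarith
  have hDx : 0 < Dn d x := by unfold Dn; positivity
  have hDt : 0 < Dn d t := by unfold Dn; positivity
  have htx : 0 < t - x := by linarith
  set Rx : ℝ := -(x * Ax x t d) with hRx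
  set Rt : ℝ := t * Bt x t d with hRt
  set l0 : ℝ := 2 * (4 / 9 * (K0 x t d - 7 / 4) - Ax x t d + Bt x t d) with hl0
  set l1 : ℝ := 2 * (x * t) - 2 * d * (4 / 9 + Rx + Rt) with hl1
  have eRx : Rx * (x * (x - t) * Dn d x) = (1 - x ^ 2) * (1 - t * x) * Nm d x := by
    rw [hRx, Ax]
    have := htx.ne'
    have := hDx.ne'
    field_simp
    ring
  have eRt : Rt * (t * (t - x) * Dn d t) = (1 - t ^ 2) * (1 - t * x) * Nm d t := by
    rw [hRt, Bt]
    have := htx.ne'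
    have := hDt.ne'
    field_simp
  have el0 : l0 * (x * t) = (1 + d) - 2 * d * (x + t) - 4 / 9 * (x * t) * (1 + d) +
      8 / 9 * (x + t) + 2 * t * Rx + 2 * x * Rt := by
    have e1 : 4 / 9 * (K0 x t d - 7 / 4) * (x * t) =
        4 / 9 * (t - x ^ 2 * t + x - t ^ 2 * x) + 1 / 2 * (1 - d ^ 2) := by
      have e2 : 4 / 9 * (x * t) = d := by rw [hd]; ring
      have e3 : (1 / d - d) * d = 1 - d ^ 2 := by field_simp
      rw [K0]
      have e4 : 4 / 9 * (7 / 4 + (1 / x - x + 1 / t - t + 1 / 2 * (1 / d - d)) - 7 / 4) * (x * t) =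
        4 / 9 * ((1 / x * x) * t - x ^ 2 * t + (1 / t * t) * x - t ^ 2 * x) +
          1 / 2 * ((1 / d - d) * (4 / 9 * (x * t))) := by ring
      rw [e4, e2, e3, one_div_mul_cancel hx0.ne', one_div_mul_cancel ht0.ne']
      ring
    rw [hl0, hRx, hRt]
    have e5 : d = 4 / 9 * (x * t) := by rw [hd]; ring
    linear_combination 2 * e1 + (-1 - d + 2 * (x + t)) * e5
  have PI : ∀ z : ℂ, (1 - x * z) * (1 - t * z) * Nm (d : ℂ) z =
      4 / 9 * ((z - x) * (z - t) * Dn (d : ℂ) z) + Rx * (z * (z - t) * Dn (d : ℂ) z) +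
        Rt * (z * (z - x) * Dn (d : ℂ) z) + (l0 + l1 * z) * (z * (z - x) * (z - t)) := by
    intro z
    have cx : (x : ℂ) ≠ 0 := by exact_mod_cast hx0.ne'
    have ct : (t : ℂ) ≠ 0 := by exact_mod_cast ht0.ne'
    have ctx : (x : ℂ) - t ≠ 0 := by
      have : x - t ≠ 0 := by linarith
      exact_mod_cast this
    have c1 : (Rx : ℂ) * (x * (x - t) * Dn (d : ℂ) x) =
        (1 - x ^ 2) * (1 - t * x) * Nm (d : ℂ) x := by
      have := congrArg (fun r : ℝ => (r : ℂ)) eRx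
      simp only [Dn, Nm] at this ⊢
      push_cast at this
      exact this
    have c2 : (Rt : ℂ) * (t * (t - x) * Dn (d : ℂ) t) =
        (1 - t ^ 2) * (1 - t * x) * Nm (d : ℂ) t := by
      have := congrArg (fun r : ℝ => (r : ℂ)) eRt
      simp only [Dn, Nm] at this ⊢
      push_cast at this
      exact this
    have c3 : (l0 : ℂ) * (x * t) = (1 + d) - 2 * d * (x + t) - 4 / 9 * (x * t) * (1 + d) +
      8 / 9 * (x + t) + 2 * t * Rx + 2 * x * Rt := by
      have := congrArg (fun r : ℝ => (r : ℂ)) el0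
      push_cast at this
      exact this
    have c4 : (l1 : ℂ) = 2 * (x * t) - 2 * d * (4 / 9 + Rx + Rt) := by
      rw [hl1]; push_cast; ring
    have c5 : (d : ℂ) = 4 / 9 * x * t := by rw [hd]; push_cast; ring
    have hne : (x : ℂ) ^ 2 * t ^ 2 * (x - t) ≠ 0 := by
      refine mul_ne_zero (mul_ne_zero (pow_ne_zero _ cx) (pow_ne_zero _ ct)) ctx
    apply mul_left_cancel₀ hne
    unfold Nm Dn at *
    rw [c4]
    rw [c5] at c1 c2 c3 ⊢
    linear_combination (-(z ^ 2 * t ^ 2 * (z - t))) * c1 + (z ^ 2 * x ^ 2 * (z - x)) * c2 -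
      (x * t * (x - t) * z * (z - x) * (z - t)) * c3
  have hb : ∀ z : ℂ, ‖z‖ = 1 → ∃ b : ℂ, ‖b‖ = 1 ∧
      (7 / 4 + z + 9 / 4 * ((l0 + l1 * z) / Dn (d : ℂ) z)) + ((9 / 4 * Rx : ℝ) : ℂ) / (z - x) +
        ((9 / 4 * Rt : ℝ) : ℂ) / (z - t) = (7 / 4 - (1 / z - z)) + 9 / 4 * b := by
    intro z hz
    have hz0 : z ≠ 0 := by intro h; rw [h] at hz; simp at hz
    have hne : ∀ y : ℝ, 0 < y → y < 1 → z - y ≠ 0 := by
      intro y hy0 hy1 h
      rw [sub_eq_zero.mp h, norm_real, Real.norm_of_nonneg hy0.le] at hz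
      linarith
    have hne1 : ∀ y : ℝ, 0 < y → y < 1 → 1 - y * z ≠ 0 := by
      intro y hy0 hy1 h
      have h1 : (y : ℂ) * z = 1 := by linear_combination -h
      have h2 : ‖(y : ℂ) * z‖ = 1 := by rw [h1]; simp
      rw [norm_mul, norm_real, Real.norm_of_nonneg hy0.le, hz] at h2
      linarith
    have hx1' : x < 1 := by linarith
    have n1 := hne x hx0 hx1'
    have n2 := hne t ht0 ht1
    have n3 := Dn_ne hd0.le hd1 hz.le
    have hfac : ∀ y : ℝ, 0 < y → y < 1 → ‖(1 - y * z) / (z - y)‖ = 1 := by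
      intro y hy0 hy1
      have h1 : ‖z / (1 - y * z)‖ = ‖1 / (z - y)‖ := by
        rw [← conj_inv hz y, RCLike.norm_conj]
      rw [norm_div, norm_div, hz, norm_one] at h1
      have h2 : ‖z - y‖ ≠ 0 := norm_ne_zero_iff.mpr (hne y hy0 hy1)
      have h3 : ‖1 - y * z‖ ≠ 0 := norm_ne_zero_iff.mpr (hne1 y hy0 hy1)
      rw [norm_div]
      field_simp at h1 ⊢
      exact h1.symm
    have hNm : ‖Nm (d : ℂ) z‖ = ‖Dn (d : ℂ) z‖ := by
      have h1 : z * (starRingEnd ℂ) z = 1 := by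
        rw [mul_conj, normSq_eq_norm_sq, hz]; simp
      have h2 : Nm (d : ℂ) z = z ^ 2 * (starRingEnd ℂ) (Dn (d : ℂ) z) := by
        unfold Nm Dn
        simp only [map_add, map_mul, map_one, map_pow, conj_ofReal, map_ofNat]
        linear_combination (-(1 + (d : ℂ)) * z - 2 * d * (z * (starRingEnd ℂ) z + 1)) * h1
      rw [h2, norm_mul, norm_pow, hz, RCLike.norm_conj]
      simp
    refine ⟨1 / z * ((1 - x * z) / (z - x)) * ((1 - t * z) / (z - t)) *
      (Nm (d : ℂ) z / Dn (d : ℂ) z), ?_, ?_⟩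
    · rw [norm_mul, norm_mul, norm_mul, hfac x hx0 hx1', hfac t ht0 ht1, norm_div, norm_div, hNm,
        hz, norm_one, div_self (norm_ne_zero_iff.mpr n3)]
      norm_num
    · have h1 := PI z
      have h2 : 1 / z * ((1 - x * z) / (z - x)) * ((1 - t * z) / (z - t)) *
          (Nm (d : ℂ) z / Dn (d : ℂ) z) = 4 / 9 / z + Rx / (z - x) + Rt / (z - t) +
            (l0 + l1 * z) / Dn (d : ℂ) z := by
        have h3 : 1 / z * ((1 - x * z) / (z - x)) * ((1 - t * z) / (z - t)) *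
          (Nm (d : ℂ) z / Dn (d : ℂ) z) = ((1 - x * z) * (1 - t * z) * Nm (d : ℂ) z) /
            (z * (z - x) * (z - t) * Dn (d : ℂ) z) := by
          field_simp
        rw [h3, h1]
        field_simp
      rw [h2]
      push_cast
      ring
  have hk : DifferentiableOn ℂ
      (fun z : ℂ => 7 / 4 + z + 9 / 4 * ((l0 + l1 * z) / Dn (d : ℂ) z)) (closedBall 0 1) := by
    have h1 : DifferentiableOn ℂ (fun z : ℂ => (l0 + l1 * z) / Dn (d : ℂ) z)
        (closedBall 0 1) := by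
      refine DifferentiableOn.div (by fun_prop) (by unfold Dn; fun_prop) ?_
      intro z hz
      exact Dn_ne hd0.le hd1 (by simpa using hz)
    exact ((differentiableOn_const _).add differentiableOn_id).add (h1.const_mul (9 / 4))
  have h1 := hstar hV hx0 (by linarith) ht0 ht1 h0 hx ht hk (r1 := 9 / 4 * Rx)
    (r2 := 9 / 4 * Rt) (by
      intro z hz
      obtain ⟨b, hb1, hb2⟩ := hb z hz
      rw [hb2]
      have h2 := hc z hz
      have h3 : (b * (f.eval z / V.eval z)).re ≥ -‖f.eval z / V.eval z‖ := by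
        have := abs_re_le_norm (b * (f.eval z / V.eval z))
        rw [norm_mul, hb1, one_mul] at this
        exact (abs_le.mp this).1
      have h4 : 1 + 2 * ((7 / 4 - (1 / z - z) + 9 / 4 * b) * (f.eval z / V.eval z)) =
          (1 + 2 * ((7 / 4 - (1 / z - z)) * (f.eval z / V.eval z))) +
            ((9 / 2 : ℝ) : ℂ) * (b * (f.eval z / V.eval z)) := by
        push_cast
        ring
      rw [h4, add_re, re_ofReal_mul]
      linarith)
  have hD0 : Dn (d : ℂ) 0 = 2 := by unfold Dn; ring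
  have h2 : (1 + 2 * ((7 / 4 + (0 : ℂ) + 9 / 4 * ((l0 + l1 * 0) / Dn (d : ℂ) 0)) * g0 +
      ((9 / 4 * Rx : ℝ) : ℂ) * ((gx - g0) / x) + ((9 / 4 * Rt : ℝ) : ℂ) * ((gt - g0) / t))) =
      ((1 + 2 * ((7 / 4 + 9 / 8 * l0) * g0 + 9 / 4 * Rx * ((gx - g0) / x) +
        9 / 4 * Rt * ((gt - g0) / t)) : ℝ) : ℂ) := by
    rw [hD0]
    push_cast
    ring
  rw [h2, ofReal_re] at h1
  have h3 : 9 / 4 * Rx * ((gx - g0) / x) = -(9 / 4 * Ax x t d * (gx - g0)) := by
    rw [hRx]; field_simp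
  have h4 : 9 / 4 * Rt * ((gt - g0) / t) = 9 / 4 * Bt x t d * (gt - g0) := by
    rw [hRt]; field_simp
  rw [h3, h4, hl0] at h1
  linarith

theorem pos20 {t : ℝ} (h0 : 0 < t) (h1 : t < 5 / 8) :
    0 < 2916 + 52488 * t + 391473 * t ^ 2 + 1427220 * t ^ 3 + 2024595 * t ^ 4 - 2007342 * t ^ 5 - 8555400 * t ^ 6 - 1184859 * t ^ 7 + 15137136 * t ^ 8 + 3777785 * t ^ 9 - 12655265 * t ^ 10 + 6062534 * t ^ 11 + 3330491 * t ^ 12 - 12618980 * t ^ 13 + 7597410 * t ^ 14 + 3675241 * t ^ 15 - 6297554 * t ^ 16 + 3136881 * t ^ 17 - 781786 * t ^ 18 + 99576 * t ^ 19 - 5184 * t ^ 20 := by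
  have hu : 0 < 5 / 8 - t := by linarith
  have h2 : 5 ^ 20 * (2916 + 52488 * t + 391473 * t ^ 2 + 1427220 * t ^ 3 + 2024595 * t ^ 4 - 2007342 * t ^ 5 - 8555400 * t ^ 6 - 1184859 * t ^ 7 + 15137136 * t ^ 8 + 3777785 * t ^ 9 - 12655265 * t ^ 10 + 6062534 * t ^ 11 + 3330491 * t ^ 12 - 12618980 * t ^ 13 + 7597410 * t ^ 14 + 3675241 * t ^ 15 - 6297554 * t ^ 16 + 3136881 * t ^ 17 - 781786 * t ^ 18 + 99576 * t ^ 19 - 5184 * t ^ 20) =
      3361919107433565782016 * t ^ 0 * (5 / 8 - t) ^ 20 + 105059972107298930688000 * t ^ 1 * (5 / 8 - t) ^ 19 + 1533678605318863202549760 * t ^ 2 * (5 / 8 - t) ^ 18 + 13875274164126667946065920 * t ^ 3 * (5 / 8 - t) ^ 17 + 87097619591870266831011840 * t ^ 4 * (5 / 8 - t) ^ 16 + 402696401455656837310316544 * t ^ 5 * (5 / 8 - t) ^ 15 + 1421603018589113125385011200 * t ^ 6 * (5 / 8 - t) ^ 14 + 3921470775287977190338068480 * t ^ 7 * (5 / 8 - t) ^ 13 + 8582094549710470805779906560 * t ^ 8 * (5 / 8 - t)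 ^ 12 + 15047210663439829599329976320 * t ^ 9 * (5 / 8 - t) ^ 11 + 21256239230282836534976577536 * t ^ 10 * (5 / 8 - t) ^ 10 + 24244540901938617024669286400 * t ^ 11 * (5 / 8 - t) ^ 9 + 22301424329828165836529991680 * t ^ 12 * (5 / 8 - t) ^ 8 + 16467406187645036399018639360 * t ^ 13 * (5 / 8 - t) ^ 7 + 9676233983987912077667205120 * t ^ 14 * (5 / 8 - t) ^ 6 + 4461641184164512763007893504 * t ^ 15 * (5 / 8 - t) ^ 5 + 1579760803095362958102323200 * t ^ 16 * (5 / 8 - t) ^ 4 + 415157646811716191543912960 * t ^ 17 * (5 / 8 - t) ^ 3 + 76476566522778031732558720 * t ^ 18 * (5 / 8 - t) ^ 2 + 8849938625916037494280640 * t ^ 19 * (5 / 8 - t) ^ 1 + 486890878175310191210496 * t ^ 20 * (5 / 8 - t) ^ 0 := by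
    ring
  have h3 : 0 < 3361919107433565782016 * t ^ 0 * (5 / 8 - t) ^ 20 + 105059972107298930688000 * t ^ 1 * (5 / 8 - t) ^ 19 + 1533678605318863202549760 * t ^ 2 * (5 / 8 - t) ^ 18 + 13875274164126667946065920 * t ^ 3 * (5 / 8 - t) ^ 17 + 87097619591870266831011840 * t ^ 4 * (5 / 8 - t) ^ 16 + 402696401455656837310316544 * t ^ 5 * (5 / 8 - t) ^ 15 + 1421603018589113125385011200 * t ^ 6 * (5 / 8 - t) ^ 14 + 3921470775287977190338068480 * t ^ 7 * (5 / 8 - t) ^ 13 + 8582094549710470805779906560 * t ^ 8 * (5 / 8 - t) ^ 12 + 15047210663439829599329976320 * t ^ 9 * (5 / 8 - t) ^ 11 + 21256239230282836534976577536 * t ^ 10 * (5 / 8 - t) ^ 10 + 24244540901938617024669286400 * t ^ 11 * (5 / 8 - t) ^ 9 + 22301424329828165836529991680 * t ^ 12 * (5 / 8 - t) ^ 8 + 16467406187645036399018639360 * t ^ 13 * (5 / 8 - t) ^ 7 + 9676233983987912077667205120 * t ^ 14 * (5 / 8 - t) ^ 6 + 4461641184164512763007893504 * t ^ 15 * (5 / 8 - t)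 ^ 5 + 1579760803095362958102323200 * t ^ 16 * (5 / 8 - t) ^ 4 + 415157646811716191543912960 * t ^ 17 * (5 / 8 - t) ^ 3 + 76476566522778031732558720 * t ^ 18 * (5 / 8 - t) ^ 2 + 8849938625916037494280640 * t ^ 19 * (5 / 8 - t) ^ 1 + 486890878175310191210496 * t ^ 20 * (5 / 8 - t) ^ 0 := by
    positivity
  rw [← h2] at h3
  exact (mul_pos_iff_of_pos_left (by norm_num)).mp h3

/-- The value of the certificate as a rational function of `t`. -/
theorem hfin {t D E F2 d1 d2 m1 : ℝ} (ht0 : 0 < t) (hD : 0 < D) (hE : 0 < E) (hF : 0 < F2)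
    (hd1 : 0 < d1) (hd2 : 0 < d2) (hm1 : 0 < m1)
    (eD : D = 1 + 2 * t - t ^ 2) (eE : E = 1 + t - t ^ 2) (eF : F2 = 2 - t)
    (e1 : d1 = 18 + 117 * t + 198 * t ^ 2 - 50 * t ^ 3 - 182 * t ^ 4 + 113 * t ^ 5 - 18 * t ^ 6)
    (e2 : d2 = 18 + 45 * t - 5 * t ^ 3 + 8 * t ^ 4)
    (e3 : m1 = 1 + 3 * t - t ^ 2 - 3 * t ^ 3 + t ^ 4) :
   1 + 2 * ((7 / 4 + (D / t - t / D + 1 / t - t + 1 / 2 * (9 * D / (4 * t ^ 2) -
      4 * t ^ 2 / (9 * D)))) * (t / E) -
      9 / 4 * (E * (1 + 3 * t - t ^ 2) *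
      (1 + 2 * t - 2 * t ^ 2) * (9 + 44 * t + 11 * t ^ 2 - 8 * t ^ 3) *
      D ^ 2 / (t ^ 2 * F2 * d1 * m1)) +
      9 / 4 * ((1 + 2 * t - 2 * t ^ 2) *
      (9 + 44 * t + 31 * t ^ 2 - 18 * t ^ 3) / (t ^ 2 * F2 * (1 + t) * d2))) =
      -((2916 + 52488 * t + 391473 * t ^ 2 + 1427220 * t ^ 3 + 2024595 * t ^ 4 - 2007342 * t ^ 5 - 8555400 * t ^ 6 - 1184859 * t ^ 7 + 15137136 * t ^ 8 + 3777785 * t ^ 9 - 12655265 * t ^ 10 + 6062534 * t ^ 11 + 3330491 * t ^ 12 - 12618980 * t ^ 13 + 7597410 * t ^ 14 + 3675241 * t ^ 15 - 6297554 * t ^ 16 + 3136881 * t ^ 17 - 781786 * t ^ 18 + 99576 * t ^ 19 - 5184 * t ^ 20) /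
        (36 * (F2 * D * E * (1 + t) * d1 * d2 * m1))) := by
  field_simp
  subst eD eE eF e1 e2 e3
  ring

theorem tA {x t D N : ℝ} (ht0 : 0 < t) (hD : 0 < D) (ex : x = t / D) (eN : N = (D - t) / t) :
    Ax x t (4 / 9 * x * t) / (N - x) =
    D ^ 2 * (D ^ 2 - t ^ 2) * (D - t ^ 2) * (18 * t + 9 * D + 4 * t ^ 2 + 8 * t * D) /
      (t * (D - 1) * (18 * D ^ 3 + 9 * t * D ^ 2 + 4 * t ^ 3 * D + 8 * t ^ 4) *
        (D * (D - t) - t ^ 2)) := by
  have e1 : 1 - x ^ 2 = (D ^ 2 - t ^ 2) / D ^ 2 := by rw [ex]; field_simp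
  have e2 : 1 - t * x = (D - t ^ 2) / D := by rw [ex]; field_simp
  have e3 : t - x = t * (D - 1) / D := by rw [ex]; field_simp
  have e4 : 2 * x ^ 2 + (1 + (4 / 9 * x * t)) * x + 2 * (4 / 9 * x * t) =
    t * (18 * t + 9 * D + 4 * t ^ 2 + 8 * t * D) / (9 * D ^ 2) := by rw [ex]; field_simp; ring
  have e5 : 2 + (1 + (4 / 9 * x * t)) * x + 2 * (4 / 9 * x * t) * x ^ 2 =
    (18 * D ^ 3 + 9 * t * D ^ 2 + 4 * t ^ 3 * D + 8 * t ^ 4) / (9 * D ^ 3) := by
      rw [ex]; field_simp; ring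
  have e6 : N - x = (D * (D - t) - t ^ 2) / (t * D) := by rw [ex, eN]; field_simp
  unfold Ax Nm Dn
  rw [e1, e2, e3, e4, e5, e6, ex]
  field_simp

theorem tB {x t D N : ℝ} (ht0 : 0 < t) (ht1 : t < 1) (hD : 0 < D) (ex : x = t / D)
    (eN : N = (1 + t - t ^ 2) / t) :
    Bt x t (4 / 9 * x * t) / (N - t ^ 2) =
    (D - t ^ 2) * (18 * t * D + 9 * D + 4 * t ^ 2 + 8 * t) /
      (t * (D - 1) * (18 * D + 9 * t * D + 4 * t ^ 3 + 8 * t ^ 4) * (1 + t)) := by
  have e2 : 1 - t * x = (D - t ^ 2) / D := by rw [ex]; field_simp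
  have e3 : t - x = t * (D - 1) / D := by rw [ex]; field_simp
  have e4 : 2 * t ^ 2 + (1 + (4 / 9 * x * t)) * t + 2 * (4 / 9 * x * t) =
    t * (18 * t * D + 9 * D + 4 * t ^ 2 + 8 * t) / (9 * D) := by rw [ex]; field_simp; ring
  have e5 : 2 + (1 + (4 / 9 * x * t)) * t + 2 * (4 / 9 * x * t) * t ^ 2 =
    (18 * D + 9 * t * D + 4 * t ^ 3 + 8 * t ^ 4) / (9 * D) := by
      rw [ex]; field_simp; ring
  have e6 : N - t ^ 2 = (1 + t) * (1 - t ^ 2) / t := by rw [eN]; field_simp; ring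
  have h1 : 0 < 1 - t ^ 2 := by nlinarith
  unfold Bt Nm Dn
  rw [e2, e3, e4, e5, e6]
  field_simp

/-- The certificate is negative. -/
theorem Fneg {x t N : ℝ} (ht0 : 0 < t) (ht1 : t < 5 / 8) (hN : t ^ 2 + (N - 1) * t = 1)
    (hx : x * (N + 1) = 1) : 1 + 2 * (K0 x t (4 / 9 * x * t) / N -
      9 / 4 * (Ax x t (4 / 9 * x * t) / (N - x)) +
      9 / 4 * (Bt x t (4 / 9 * x * t) / (N - t ^ 2))) < 0 := by
  set D : ℝ := 1 + 2 * t - t ^ 2 with eD
  have hD : 0 < D := by rw [eD]; nlinarith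
  have hE : 0 < 1 + t - t ^ 2 := by nlinarith
  have h2t : 0 < 2 - t := by linarith
  have hd1 : 0 < 18 + 117 * t + 198 * t ^ 2 - 50 * t ^ 3 - 182 * t ^ 4 + 113 * t ^ 5 -
      18 * t ^ 6 := by
    have a1 : 0 < t ^ 2 * (198 - 50 * t - 182 * t ^ 2) := by
      apply mul_pos (by positivity); nlinarith
    have a2 : 0 < t ^ 5 * (113 - 18 * t) := by
      apply mul_pos (by positivity); linarith
    nlinarith
  have hd2 : 0 < 18 + 45 * t - 5 * t ^ 3 + 8 * t ^ 4 := by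
    have a1 : 0 < t * (45 - 5 * t ^ 2) := by
      apply mul_pos ht0; nlinarith
    have a2 : 0 < 8 * t ^ 4 := by positivity
    nlinarith
  have hm1 : 0 < 1 + 3 * t - t ^ 2 - 3 * t ^ 3 + t ^ 4 := by
    have a1 : 0 < t * (3 - t - 3 * t ^ 2) := by
      apply mul_pos ht0; nlinarith
    have a2 : 0 < t ^ 4 := by positivity
    nlinarith
  have eN : N = (1 + t - t ^ 2) / t := by
    field_simp
    linarith
  have eN' : N = (D - t) / t := by
    rw [eN, eD]; congr 1; ring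
  have eN1 : N + 1 = D / t := by
    rw [eN, eD]; field_simp; ring
  have ex : x = t / D := by
    rw [eN1] at hx
    field_simp at hx ⊢
    linarith
  have eK : K0 x t (4 / 9 * x * t) / N = (7 / 4 + (D / t - t / D + 1 / t - t + 1 / 2 *
      (9 * D / (4 * t ^ 2) - 4 * t ^ 2 / (9 * D)))) * (t / (1 + t - t ^ 2)) := by
    rw [K0, ex, eN]
    field_simp
  have eA : Ax x t (4 / 9 * x * t) / (N - x) = (1 + t - t ^ 2) * (1 + 3 * t - t ^ 2) *
      (1 + 2 * t - 2 * t ^ 2) * (9 + 44 * t + 11 * t ^ 2 - 8 * t ^ 3) *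
      D ^ 2 / (t ^ 2 * (2 - t) *
        (18 + 117 * t + 198 * t ^ 2 - 50 * t ^ 3 - 182 * t ^ 4 + 113 * t ^ 5 - 18 * t ^ 6) *
        (1 + 3 * t - t ^ 2 - 3 * t ^ 3 + t ^ 4)) := by
    rw [tA ht0 hD ex eN']
    congr 1
    · rw [eD]; ring
    · rw [eD]; ring
  have eB : Bt x t (4 / 9 * x * t) / (N - t ^ 2) = (1 + 2 * t - 2 * t ^ 2) *
      (9 + 44 * t + 31 * t ^ 2 - 18 * t ^ 3) / (t ^ 2 * (2 - t) * (1 + t) *
        (18 + 45 * t - 5 * t ^ 3 + 8 * t ^ 4)) := by
    rw [tB ht0 (by linarith) hD ex eN]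
    congr 1
    · rw [eD]; ring
    · rw [eD]; ring
  have hP := pos20 ht0 ht1
  rw [eK, eA, eB, hfin ht0 hD hE h2t hd1 hd2 hm1 eD rfl rfl rfl rfl rfl, neg_lt_zero]
  positivity

/-- No simple zero on the circle. -/
theorem no_simple {V f V1 : ℂ[X]} {z0 : ℂ} (hz0 : ‖z0‖ = 1) (hV : V = (X - C z0) * V1)
    (hV1 : V1.eval z0 ≠ 0) (hf : f.eval z0 ≠ 0)
    (hc : ∀ z : ℂ, ‖z‖ = 1 → ∀ w : ℂ, ‖w‖ = 1 → 0 ≤ ‖V.eval z‖ ^ 2 +
      2 * (((1 + w) ^ 2 - (1 / z - z)) * f.eval z * (starRingEnd ℂ) (V.eval z)).re) : False := by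
  have hz0' : z0 ≠ 0 := by intro h; rw [h] at hz0; simp at hz0
  set zz : ℝ → ℂ := fun τ => z0 * exp (τ * I) with hzz
  set U : ℝ → ℂ := fun τ => I * z0 * exp ((τ / 2 : ℝ) * I) * V1.eval (zz τ) with hU
  have hzn : ∀ τ : ℝ, ‖zz τ‖ = 1 := by
    intro τ
    rw [hzz]
    simp only [norm_mul, hz0, norm_exp_ofReal_mul_I, mul_one]
  have hVU : ∀ τ : ℝ, V.eval (zz τ) = ((2 * Real.sin (τ / 2) : ℝ) : ℂ) * U τ := by
    intro τ
    have h1 : exp (τ * I) - 1 = ((2 * Real.sin (τ / 2) : ℝ) : ℂ) * (I * exp ((τ / 2 : ℝ) * I)) := by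
      have h2 : ((2 * Real.sin (τ / 2) : ℝ) : ℂ) = (exp (-((τ / 2 : ℝ) : ℂ) * I) -
          exp (((τ / 2 : ℝ) : ℂ) * I)) * I := by
        rw [← two_sin]; push_cast; ring
      rw [h2]
      have h3 : exp (-((τ / 2 : ℝ) : ℂ) * I) * exp (((τ / 2 : ℝ) : ℂ) * I) = 1 := by
        rw [← exp_add]; simp
      have h4 : exp (((τ / 2 : ℝ) : ℂ) * I) * exp (((τ / 2 : ℝ) : ℂ) * I) = exp (τ * I) := by
        rw [← exp_add]; congr 1; push_cast; ring
      have h5 := I_mul_I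
      linear_combination (-1 : ℂ) * h4 + (1 : ℂ) * h3 +
        (-(exp (-((τ / 2 : ℝ) : ℂ) * I) - exp (((τ / 2 : ℝ) : ℂ) * I)) *
          exp (((τ / 2 : ℝ) : ℂ) * I)) * h5
    rw [hV, eval_mul, eval_sub, eval_X, eval_C, hU]
    have h2 : zz τ - z0 = z0 * (exp (τ * I) - 1) := by rw [hzz]; ring
    rw [h2, h1]
    ring
  have key : ∀ w : ℂ, ‖w‖ = 1 → (((1 + w) ^ 2 - (1 / z0 - z0)) * (f.eval z0 *
      (starRingEnd ℂ) (I * z0 * V1.eval z0))).re = 0 := by
    intro w hw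
    set g : ℝ → ℝ := fun τ => 2 * Real.sin (τ / 2) * ‖U τ‖ ^ 2 +
      2 * (((1 + w) ^ 2 - (1 / zz τ - zz τ)) * f.eval (zz τ) * (starRingEnd ℂ) (U τ)).re with hg
    have hgc : Continuous g := by
      have c1 : Continuous zz := by rw [hzz]; fun_prop
      have c2 : Continuous U := by
        rw [hU]
        exact (by fun_prop : Continuous fun τ : ℝ => I * z0 * exp ((τ / 2 : ℝ) * I)).mul
          (V1.continuous.comp c1)
      have c3 : Continuous fun τ => 1 / zz τ := by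
        simp only [one_div]
        refine c1.inv₀ fun τ h => ?_
        have := hzn τ
        rw [h] at this
        simp at this
      have c4 : Continuous fun τ => ((1 + w) ^ 2 - (1 / zz τ - zz τ)) * f.eval (zz τ) *
          (starRingEnd ℂ) (U τ) :=
        ((continuous_const.sub (c3.sub c1)).mul (f.continuous.comp c1)).mul
          (continuous_conj.comp c2)
      exact (by fun_prop : Continuous fun τ : ℝ => 2 * Real.sin (τ / 2)).mul (c2.norm.pow 2) |>.add
        (continuous_const.mul (continuous_re.comp c4))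
    have hineq : ∀ τ : ℝ, 0 ≤ (2 * Real.sin (τ / 2)) * g τ := by
      intro τ
      have h1 := hc (zz τ) (hzn τ) w hw
      rw [hVU τ, norm_mul, norm_real, mul_pow, Real.norm_eq_abs, sq_abs, map_mul, conj_ofReal] at h1
      have h2 : (((1 + w) ^ 2 - (1 / zz τ - zz τ)) * f.eval (zz τ) *
          (((2 * Real.sin (τ / 2) : ℝ) : ℂ) * (starRingEnd ℂ) (U τ))).re =
          (2 * Real.sin (τ / 2)) * (((1 + w) ^ 2 - (1 / zz τ - zz τ)) * f.eval (zz τ) *
            (starRingEnd ℂ) (U τ)).re := by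
        rw [← re_ofReal_mul]
        congr 1
        ring
      rw [h2] at h1
      rw [hg]
      simp only
      nlinarith
    have h0 : g 0 = 2 * (((1 + w) ^ 2 - (1 / z0 - z0)) * (f.eval z0 *
      (starRingEnd ℂ) (I * z0 * V1.eval z0))).re := by
      rw [hg, hU, hzz]
      simp
      ring_nf
    have hpos : 0 ≤ g 0 := by
      have ht : Tendsto g (𝓝[>] 0) (𝓝 (g 0)) := hgc.continuousAt.tendsto.mono_left nhdsWithin_le_nhds
      refine ge_of_tendsto ht ?_
      have : Set.Ioo (0 : ℝ) 1 ∈ 𝓝[>] (0 : ℝ) := Ioo_mem_nhdsGT one_pos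
      filter_upwards [this] with τ hτ
      have hs : 0 < Real.sin (τ / 2) := by
        apply Real.sin_pos_of_pos_of_lt_pi
        · linarith [hτ.1]
        · have := Real.pi_gt_three; linarith [hτ.2]
      have := hineq τ
      exact nonneg_of_mul_nonneg_right this (by positivity)
    have hneg : g 0 ≤ 0 := by
      have ht : Tendsto g (𝓝[<] 0) (𝓝 (g 0)) := hgc.continuousAt.tendsto.mono_left nhdsWithin_le_nhds
      refine le_of_tendsto ht ?_
      have : Set.Ioo (-1 : ℝ) 0 ∈ 𝓝[<] (0 : ℝ) := Ioo_mem_nhdsLT (by norm_num)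
      filter_upwards [this] with τ hτ
      have hs : 0 < Real.sin (-τ / 2) := by
        apply Real.sin_pos_of_pos_of_lt_pi
        · linarith [hτ.2]
        · have := Real.pi_gt_three; linarith [hτ.1]
      have h1 := hineq τ
      have h2 : Real.sin (τ / 2) = -Real.sin (-τ / 2) := by
        rw [← Real.sin_neg]; congr 1; ring
      rw [h2] at h1
      by_contra h3
      push Not at h3
      nlinarith [mul_pos hs h3]
    linarith
  set u : ℂ := f.eval z0 * (starRingEnd ℂ) (I * z0 * V1.eval z0) with hu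
  have hu0 : u ≠ 0 := by
    rw [hu]
    refine mul_ne_zero hf ?_
    intro h
    have h1 : I * z0 * V1.eval z0 = 0 := by simpa using h
    exact mul_ne_zero (mul_ne_zero I_ne_zero hz0') hV1 h1
  have k1 := key 1 (by simp)
  have k2 := key (-1) (by simp)
  have k3 := key I (by simp)
  have e1 : ((4 : ℂ) * u).re = 0 := by
    have : (4 : ℂ) * u = ((1 + 1) ^ 2 - (1 / z0 - z0)) * u - ((1 + -1) ^ 2 - (1 / z0 - z0)) * u := by
      ring
    rw [this, sub_re, k1, k2, sub_self]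
  have e2 : (2 * I * u).re = 0 := by
    have : 2 * I * u = ((1 + I) ^ 2 - (1 / z0 - z0)) * u - ((1 + -1) ^ 2 - (1 / z0 - z0)) * u := by
      have h5 := I_mul_I
      linear_combination (-u) * h5
    rw [this, sub_re, k3, k2, sub_self]
  apply hu0
  apply Complex.ext
  · simpa using e1
  · simpa using e2

/-- No zero in the closed disc. -/
theorem zfree {E V f : ℂ[X]} (hE : ∀ z : ℂ, ‖z‖ ≤ 1 → E.eval z ≠ 0)
    (hV : ∀ z : ℂ, E.eval z = V.eval z + (1 + z) * f.eval z)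
    (hle : ∀ z : ℂ, ‖z‖ = 1 → ‖(1 + z) * f.eval z‖ ≤ ‖E.eval z‖)
    (h0 : 0 < (V.eval 0 / E.eval 0).re)
    (hc : ∀ z : ℂ, ‖z‖ = 1 → ∀ w : ℂ, ‖w‖ = 1 → 0 ≤ ‖V.eval z‖ ^ 2 +
      2 * (((1 + w) ^ 2 - (1 / z - z)) * f.eval z * (starRingEnd ℂ) (V.eval z)).re) :
    ∀ z : ℂ, ‖z‖ ≤ 1 → V.eval z ≠ 0 := by
  have hd : DifferentiableOn ℂ (fun z => V.eval z / E.eval z) (closedBall 0 1) :=
    V.differentiable.differentiableOn.div E.differentiable.differentiableOn
        (fun z h => hE z (by simpa using h))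
  have hC : Cara (fun z => V.eval z / E.eval z) := by
    refine ⟨hd.mono ball_subset_closedBall, ?_⟩
    refine Pool.Agent.B5.H39.Cara.re_nonneg_of_circle
      (h := fun z => V.eval z / E.eval z) ?_ ?_
    · refine DifferentiableOn.diffContOnCl ?_
      rw [closure_ball (0 : ℂ) one_ne_zero]
      exact hd
    · intro z hz
      have h1 : V.eval z / E.eval z = 1 - (1 + z) * f.eval z / E.eval z := by
        have := hE z hz.le
        have h2 : V.eval z = E.eval z - (1 + z) * f.eval z := by rw [hV z]; ring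
        rw [h2]
        field_simp
      rw [h1, sub_re, one_re]
      have h2 : ((1 + z) * f.eval z / E.eval z).re ≤ 1 := by
        refine (re_le_norm _).trans ?_
        rw [norm_div, div_le_one (norm_pos_iff.mpr (hE z hz.le))]
        exact hle z hz
      linarith
  have hlow : ∀ z : ℂ, ‖z‖ < 1 →
      (1 - ‖z‖) / (1 + ‖z‖) * (V.eval 0 / E.eval 0).re ≤ (V.eval z / E.eval z).re :=
    fun z hz => hC.har hz
  intro z0 hz0 hV0
  rcases lt_or_eq_of_le hz0 with h | h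
  · have h1 := hlow z0 h
    rw [hV0, zero_div, zero_re] at h1
    have h2 : 0 < (1 - ‖z0‖) / (1 + ‖z0‖) :=
      div_pos (by linarith) (by linarith [norm_nonneg z0])
    nlinarith [mul_pos h2 h0]
  · obtain ⟨V1, hV1⟩ : (X - C z0) ∣ V := by rw [dvd_iff_isRoot]; exact hV0
    by_cases h1 : V1.eval z0 = 0
    · -- a double zero
      obtain ⟨V2, hV2⟩ : (X - C z0) ∣ V1 := by rw [dvd_iff_isRoot]; exact h1
      set g : ℝ → ℝ := fun r => (1 - r) * ‖V2.eval (r * z0) / E.eval (r * z0)‖ with hg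
      have hEv := hE z0 h.le
      have hgc : ContinuousAt g 1 := by
        have c1 : ContinuousAt (fun r : ℝ => (r : ℂ) * z0) 1 := by fun_prop
        have c2 : ContinuousAt (fun r : ℝ => V2.eval ((r : ℂ) * z0)) 1 :=
          (V2.continuous.continuousAt).comp c1
        have c3 : ContinuousAt (fun r : ℝ => E.eval ((r : ℂ) * z0)) 1 :=
          (E.continuous.continuousAt).comp c1
        exact (by fun_prop : ContinuousAt (fun r : ℝ => 1 - r) 1).mul
          ((c2.div c3 (by simpa using hEv)).norm)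
      have h2 : (V.eval 0 / E.eval 0).re / 2 ≤ g 1 := by
        have ht : Tendsto g (𝓝[<] 1) (𝓝 (g 1)) := hgc.tendsto.mono_left nhdsWithin_le_nhds
        refine ge_of_tendsto ht ?_
        have : Set.Ioo (0 : ℝ) 1 ∈ 𝓝[<] (1 : ℝ) := Ioo_mem_nhdsLT (by norm_num)
        filter_upwards [this] with r hr
        have hn : ‖(r : ℂ) * z0‖ = r := by
          rw [norm_mul, norm_real, Real.norm_of_nonneg hr.1.le, h, mul_one]
        have h3 := hlow (r * z0) (by rw [hn]; exact hr.2)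
        rw [hn] at h3
        have h4 : V.eval (r * z0) / E.eval (r * z0) =
            (((1 - r) ^ 2 : ℝ) : ℂ) * z0 ^ 2 * (V2.eval (r * z0) / E.eval (r * z0)) := by
          rw [hV1, hV2]
          simp only [eval_mul, eval_sub, eval_X, eval_C]
          push_cast
          ring
        have h5 : (V.eval (r * z0) / E.eval (r * z0)).re ≤
            (1 - r) ^ 2 * ‖V2.eval (r * z0) / E.eval (r * z0)‖ := by
          rw [h4]
          refine (re_le_norm _).trans ?_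
          rw [norm_mul, norm_mul, norm_real,
            Real.norm_of_nonneg (by positivity : (0 : ℝ) ≤ (1 - r) ^ 2), norm_pow, h]
          simp
        have h6 : (1 - r) / (1 + r) * (V.eval 0 / E.eval 0).re ≤
          (1 - r) ^ 2 * ‖V2.eval (r * z0) / E.eval (r * z0)‖ := h3.trans h5
        have h7 : (1 - r) * ((V.eval 0 / E.eval 0).re / 2) ≤
            (1 - r) / (1 + r) * (V.eval 0 / E.eval 0).re := by
          have h8 : 1 / 2 ≤ 1 / (1 + r) := by
            apply one_div_le_one_div_of_le (by linarith [hr.1]) (by linarith [hr.2])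
          have h9 : (1 - r) / (1 + r) = (1 - r) * (1 / (1 + r)) := by ring
          rw [h9]
          nlinarith [mul_pos (sub_pos.mpr hr.2) h0, hr.2]
        have h10 : (1 - r) * ((V.eval 0 / E.eval 0).re / 2) ≤ (1 - r) * g r := by
          rw [hg]; simp only; nlinarith
        exact le_of_mul_le_mul_left h10 (by linarith [hr.2])
      have h3 : g 1 = 0 := by rw [hg]; simp
      linarith
    · have hf : f.eval z0 ≠ 0 := by
        intro hf
        have h2 := hV z0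
        rw [hV0, hf, mul_zero, add_zero] at h2
        exact hE z0 h.le h2
      exact no_simple h hV1 h1 hf hc

theorem aeval_mapC (P : ℤ[X]) (z : ℂ) : (P.map (Int.castRingHom ℂ)).eval z = aeval z P := by
  rw [eval_map, aeval_def]
  rfl

theorem aeval_reC (P : ℤ[X]) (x : ℝ) : (aeval (x : ℂ) P : ℂ) = ((aeval x P : ℝ) : ℂ) := by
  rw [aeval_eq_sum_range, aeval_eq_sum_range]
  simp

/-- A polynomial without zeros in the closed disc and with positive constant term is positive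
on `[0, 1]`. -/
theorem pos_of_zfree {P : ℤ[X]} (h0 : 0 < P.coeff 0) (h : ∀ z : ℂ, ‖z‖ ≤ 1 → aeval z P ≠ 0)
    {x : ℝ} (hx0 : 0 ≤ x) (hx1 : x ≤ 1) : 0 < (aeval x P : ℝ) := by
  by_contra hn
  push Not at hn
  have hc : ContinuousOn (fun y : ℝ => (aeval y P : ℝ)) (Set.Icc 0 x) :=
    (Polynomial.continuous_aeval P).continuousOn
  have h1 : (0 : ℝ) ∈ Set.Icc (aeval x P : ℝ) (aeval (0 : ℝ) P : ℝ) := by
    refine ⟨hn, ?_⟩
    have h2 : (aeval (0 : ℝ) P : ℝ) = (P.coeff 0 : ℝ) := by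
      rw [aeval_def, ← eval_map, ← coeff_zero_eq_eval_zero, coeff_map]
      simp
    rw [h2]
    exact_mod_cast h0.le
  obtain ⟨y, hy, hy0⟩ := intermediate_value_Icc' hx0 hc h1
  refine h (y : ℂ) ?_ ?_
  · rw [norm_real, Real.norm_of_nonneg hy.1]
    linarith [hy.2]
  · rw [aeval_reC]
    simp only at hy0
    rw [hy0]
    simp

/-- **Row CER.** -/
theorem cer {V f : ℤ[X]} {N : ℕ} (hN : 2 ≤ N) {x t : ℝ} (hx : x * (N + 1) = 1) (ht0 : 0 < t)
    (ht : t ^ 2 + (N - 1) * t = 1) (v0 : V.coeff 0 = N) (f0 : f.coeff 0 = 1)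
    (hE : ∀ z : ℂ, ‖z‖ ≤ 1 → aeval z V + (1 + z) * aeval z f ≠ 0)
    (hle : ∀ z : ℂ, ‖z‖ = 1 → ‖(1 + z) * aeval z f‖ ≤ ‖aeval z V + (1 + z) * aeval z f‖)
    (hq : x * aeval x V < (1 - x - x ^ 2) * aeval x f)
    (hW : (1 + t) * (1 - t ^ 2) * aeval t f ≤ t * aeval t V)
    (hc : ∀ z : ℂ, ‖z‖ = 1 → ∀ w : ℂ, ‖w‖ = 1 → 0 ≤ ‖aeval z V‖ ^ 2 +
      2 * (((1 + w) ^ 2 - (1 / z - z)) * aeval z f * (starRingEnd ℂ) (aeval z V)).re) :
    False := by
  have hNr : (2 : ℝ) ≤ N := by exact_mod_cast hN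
  have hx0 : 0 < x := by
    by_contra h
    push Not at h
    nlinarith
  have hx1 : x ≤ 1 / 3 := by nlinarith
  have ht1 : t < 5 / 8 := by
    by_contra h
    push Not at h
    nlinarith
  have hxt : x < t := by
    by_contra h
    push Not at h
    have h1 : (N - 1 : ℝ) * t ≤ (N - 1) * x := mul_le_mul_of_nonneg_left h (by linarith)
    have h2 : t ^ 2 ≤ x ^ 2 := pow_le_pow_left₀ ht0.le h 2
    have h3 : (N - 1 : ℝ) * x = 1 - 2 * x := by linarith
    nlinarith
  set V' : ℂ[X] := V.map (Int.castRingHom ℂ) with hV'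
  set f' : ℂ[X] := f.map (Int.castRingHom ℂ) with hf'
  have eV : ∀ z : ℂ, V'.eval z = aeval z V := aeval_mapC V
  have ef : ∀ z : ℂ, f'.eval z = aeval z f := aeval_mapC f
  have hV0 : V'.eval 0 = N := by
    rw [← coeff_zero_eq_eval_zero, hV', coeff_map, v0]
    simp
  have hf0 : f'.eval 0 = 1 := by
    rw [← coeff_zero_eq_eval_zero, hf', coeff_map, f0]
    simp
  have hzf : ∀ z : ℂ, ‖z‖ ≤ 1 → V'.eval z ≠ 0 := by
    refine zfree (E := V' + (1 + X) * f') (f := f') ?_ ?_ ?_ ?_ ?_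
    · intro z hz
      have := hE z hz
      simp only [eval_add, eval_mul, eval_one, eval_X, eV, ef]
      exact this
    · intro z
      simp only [eval_add, eval_mul, eval_one, eval_X]
    · intro z hz
      simp only [eval_add, eval_mul, eval_one, eval_X, eV, ef]
      exact hle z hz
    · simp only [eval_add, eval_mul, eval_one, eval_X, hV0, hf0]
      have : ((N : ℂ) / (N + (1 + 0) * 1)) = ((N / (N + 1) : ℝ) : ℂ) := by
        push_cast; ring
      rw [this, ofReal_re]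
      positivity
    · intro z hz w hw
      rw [eV, ef]
      exact hc z hz w hw
  have hVpos : ∀ y : ℝ, 0 ≤ y → y ≤ 1 → 0 < (aeval y V : ℝ) := fun y h1 h2 =>
    pos_of_zfree (by rw [v0]; exact_mod_cast (by omega : 0 < N))
      (fun z hz => by rw [← eV]; exact hzf z hz) h1 h2
  have hVx := hVpos x hx0.le (by linarith)
  have hVt := hVpos t ht0.le (by linarith)
  have hN0 : (N : ℝ) ≠ 0 := by positivity
  have h1 := kernel hzf (x := x) (t := t) (g0 := 1 / N) (gx := aeval x f / aeval x V)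
    (gt := aeval t f / aeval t V) (f := f') hx0 hx1 hxt (by linarith) (by
      have hN0' : (N : ℂ) ≠ 0 := by exact_mod_cast hN0
      rw [hV0, hf0]
      push_cast
      field_simp) (by
      rw [eV, ef, aeval_reC, aeval_reC]
      have : ((aeval x V : ℝ) : ℂ) ≠ 0 := by exact_mod_cast hVx.ne'
      push_cast
      field_simp) (by
      rw [eV, ef, aeval_reC, aeval_reC]
      have : ((aeval t V : ℝ) : ℂ) ≠ 0 := by exact_mod_cast hVt.ne'
      push_cast
      field_simp) (by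
      intro z hz
      have h2 : ∀ w : ℂ, ‖w‖ = 1 → 0 ≤ (1 - 2 * ((1 / z - z) * (f'.eval z / V'.eval z)) +
          2 * ((1 + w) ^ 2 * (f'.eval z / V'.eval z))).re := by
        intro w hw
        have h3 := hc z hz w hw
        rw [← eV, ← ef] at h3
        have hVz := hzf z hz.le
        have h4 : (starRingEnd ℂ) (V'.eval z) ≠ 0 := by
          intro h; exact hVz (by simpa using h)
        have h5 : 1 - 2 * ((1 / z - z) * (f'.eval z / V'.eval z)) +
          2 * ((1 + w) ^ 2 * (f'.eval z / V'.eval z)) = (((‖V'.eval z‖ ^ 2)⁻¹ : ℝ) : ℂ) *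
            ((‖V'.eval z‖ ^ 2 : ℝ) + 2 * (((1 + w) ^ 2 - (1 / z - z)) * f'.eval z *
              (starRingEnd ℂ) (V'.eval z))) := by
          have h6 : ((‖V'.eval z‖ ^ 2 : ℝ) : ℂ) = V'.eval z * (starRingEnd ℂ) (V'.eval z) := by
            rw [mul_conj, normSq_eq_norm_sq]
          rw [ofReal_inv, h6, mul_inv]
          field_simp
          ring
        rw [h5, re_ofReal_mul, add_re, ofReal_re]
        refine mul_nonneg (by positivity) ?_
        have h7 : (2 * (((1 + w) ^ 2 - (1 / z - z)) * f'.eval z *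
              (starRingEnd ℂ) (V'.eval z))).re = 2 * (((1 + w) ^ 2 - (1 / z - z)) * f'.eval z *
              (starRingEnd ℂ) (V'.eval z)).re := by simp
        rw [h7]
        exact h3
      have h3 := disc h2
      refine h3.trans (le_of_eq ?_)
      congr 1
      ring)
  have hgx : 1 / (N - x) < aeval x f / aeval x V := by
    have h2 : 1 - x - x ^ 2 = x * (N - x) := by linarith
    rw [h2, mul_assoc] at hq
    have h3 : aeval x V < (N - x) * aeval x f := lt_of_mul_lt_mul_left hq hx0.le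
    rw [div_lt_div_iff₀ (by linarith) hVx]
    linarith
  have hgt : aeval t f / aeval t V ≤ 1 / (N - t ^ 2) := by
    have h2 : 1 - t ^ 2 = (N - 1) * t := by linarith
    have h3 : (1 + t) * (N - 1) = N - t ^ 2 := by linarith
    have h4 : (1 + t) * (1 - t ^ 2) * aeval t f = t * ((N - t ^ 2) * aeval t f) := by
      rw [h2, ← h3]; ring
    rw [h4] at hW
    have h5 : (N - t ^ 2) * aeval t f ≤ aeval t V := le_of_mul_le_mul_left hW ht0
    rw [div_le_div_iff₀ hVt (by nlinarith)]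
    linarith
  have hF := Fneg ht0 ht1 ht hx
  set d : ℝ := 4 / 9 * x * t with hd
  have hd0 : 0 < d := by positivity
  have htx : 0 < t - x := by linarith
  have hA : 0 < Ax x t d := by
    unfold Ax Nm Dn
    have a1 : 0 < 1 - x ^ 2 := by nlinarith
    have a2 : 0 < 1 - t * x := by nlinarith
    positivity
  have hB : 0 < Bt x t d := by
    unfold Bt Nm Dn
    have a1 : 0 < 1 - t ^ 2 := by nlinarith
    have a2 : 0 < 1 - t * x := by nlinarith
    positivity
  have h2 : Ax x t d / (N - x) ≤ Ax x t d * (aeval x f / aeval x V) := by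
    rw [div_eq_mul_one_div]
    exact mul_le_mul_of_nonneg_left hgx.le hA.le
  have h3 : Bt x t d * (aeval t f / aeval t V) ≤ Bt x t d / (N - t ^ 2) := by
    rw [div_eq_mul_one_div (Bt x t d)]
    exact mul_le_mul_of_nonneg_left hgt hB.le
  have h4 : K0 x t d * (1 / N) = K0 x t d / N := by ring
  rw [h4] at h1
  linarith

end Pool.Agent.B5.O4C
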