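import Pool.Agent.Lib.MP_b5021c_nt.KO.H42.Rat

/-!
# MP_b5021c_nt, all `θ`, K ODD, (O4), l = 3, pure beta, case (B): `r = -1`, `k` even
-/

namespace Pool.Agent.B5.O4C

open Polynomial Complex Filter Topology

/-- `(1 - X²) f = c (1 + r X^k)`: `r = -1` and `k` is even. -/
theorem cpm {c f V : ℤ[X]} {N k : ℕ} {t r : ℤ}
    (hf : (1 - X ^ 2) * f = c * (1 + C r * X ^ k)) (hV : V = c * (C (N : ℤ) + C t * X ^ k))
    (nd1 : V.eval 1 = 0 → (derivative V).eval 1 ≠ 0)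
    (nd2 : V.eval (-1) = 0 → (derivative V).eval (-1) ≠ 0)
    (h1 : c.eval 1 = 0 → f.eval 1 = 0) (h2 : c.eval (-1) = 0 → f.eval (-1) = 0) :
    r = -1 ∧ Even k := by
  have key : ∀ s : ℤ, s ^ 2 = 1 → (V.eval s = 0 → (derivative V).eval s ≠ 0) →
      (c.eval s = 0 → f.eval s = 0) → 1 + r * s ^ k = 0 := by
    intro s hs nd h
    have e0 := congrArg (fun P => P.eval s) hf
    simp only [eval_mul, eval_sub, eval_one, eval_pow, eval_X, eval_add, eval_C, hs, sub_self,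
      zero_mul] at e0
    by_cases hc : c.eval s = 0
    · have e1 := congrArg (fun P => (derivative P).eval s) hf
      simp only [derivative_mul, eval_add, eval_mul, h hc, hc, zero_mul, add_zero, mul_zero,
        eval_sub, eval_one, eval_pow, eval_X, hs, sub_self, eval_C] at e1
      have hV0 : V.eval s = 0 := by rw [hV, eval_mul, hc, zero_mul]
      have hd := nd hV0
      rw [hV, derivative_mul, eval_add, eval_mul, eval_mul, hc, zero_mul, add_zero] at hd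
      have hc' : (derivative c).eval s ≠ 0 := fun h0 => hd (by rw [h0, zero_mul])
      rcases mul_eq_zero.mp e1.symm with h3 | h3
      · exact absurd h3 hc'
      · exact h3
    · rcases mul_eq_zero.mp e0.symm with h3 | h3
      · exact absurd h3 hc
      · exact h3
  have k1 := key 1 (by norm_num) nd1 h1
  rw [one_pow, mul_one] at k1
  have hr' : r = -1 := by linarith
  refine ⟨hr', ?_⟩
  have k2 := key (-1) (by norm_num) nd2 h2
  rw [hr'] at k2
  rcases Nat.even_or_odd k with h | h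
  · exact h
  · rw [h.neg_one_pow] at k2
    norm_num at k2

/-- `f(-1) = 0`: at `z = -1` the inequality of the face `{S_0, S_1, R}` reads
`Re (Y f(-1) / W_0(-1)) ≥ 0`. -/
theorem f_neg_one {q f fR E : ℤ[X]} (hE : f - q = X * E) (hE1 : E.eval (-1) ≠ 0)
    (hV : (E - f - X * fR).eval (-1) = 0)
    (hc : ∀ z : ℂ, ‖z‖ = 1 → ∀ w : ℂ, ‖w‖ = 1 → 1 / 2 * ‖aeval z q + z * aeval z fR‖ ^ 2 ≤
      (((aeval z q + z * aeval z f) - z * aeval z f * (1 + w) ^ 2) *
        (starRingEnd ℂ) (aeval z q + z * aeval z fR)).re) : f.eval (-1) = 0 := by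
  have e1 : f.eval (-1) - q.eval (-1) = -1 * E.eval (-1) := by
    have := congrArg (fun P => P.eval (-1)) hE
    simpa using this
  simp only [eval_sub, eval_mul, eval_X] at hV
  have hae : ∀ P : ℤ[X], (aeval (-1 : ℂ) P : ℂ) = (((P.eval (-1) : ℤ) : ℝ) : ℂ) := by
    intro P
    have h1 : (-1 : ℂ) = algebraMap ℤ ℂ (-1) := by simp
    rw [h1, aeval_algebraMap_apply]
    simp
  set A : ℤ := f.eval (-1) with hA
  set B : ℤ := E.eval (-1) with hB
  have eq : q.eval (-1) = A + B := by linarith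
  have eR : fR.eval (-1) = A - B := by linarith
  have key : ∀ w : ℂ, ‖w‖ = 1 → 0 ≤ (A : ℝ) * (B : ℝ) * ((1 + w) ^ 2).re := by
    intro w hw
    have h := hc (-1) (by simp) w hw
    rw [hae q, hae fR, hae f, eq, eR, ← hA] at h
    have e2 : (((A + B : ℤ) : ℝ) : ℂ) + -1 * (((A - B : ℤ) : ℝ) : ℂ) = ((2 * B : ℝ) : ℂ) := by
      push_cast; ring
    have e3 : ((((A + B : ℤ) : ℝ) : ℂ) + -1 * ((A : ℝ) : ℂ) - -1 * ((A : ℝ) : ℂ) * (1 + w) ^ 2) *
        (starRingEnd ℂ) ((2 * B : ℝ) : ℂ) =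
        ((2 * B ^ 2 : ℝ) : ℂ) + ((2 * (A * B) : ℝ) : ℂ) * (1 + w) ^ 2 := by
      rw [conj_ofReal]; push_cast; ring
    rw [e2, e3, norm_real, Real.norm_eq_abs, sq_abs, add_re, ofReal_re, re_ofReal_mul] at h
    nlinarith
  have k1 := key 1 (by simp)
  have k2 := key (exp ((2 * Real.pi / 3 : ℝ) * I)) (by rw [norm_exp_ofReal_mul_I])
  have e4 : ((1 + exp ((2 * Real.pi / 3 : ℝ) * I)) ^ 2).re = -(1 / 2) := by
    have h1 : exp ((2 * Real.pi / 3 : ℝ) * I) = -(1 / 2) + (Real.sqrt 3 / 2 : ℝ) * I := by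
      rw [exp_mul_I, ← ofReal_cos, ← ofReal_sin]
      have h2 : (2 * Real.pi / 3 : ℝ) = Real.pi - Real.pi / 3 := by ring
      rw [h2, Real.cos_pi_sub, Real.sin_pi_sub, Real.cos_pi_div_three, Real.sin_pi_div_three]
      push_cast
      ring
    rw [h1]
    have h3 : (1 + (-(1 / 2) + ((Real.sqrt 3 / 2 : ℝ) : ℂ) * I)) ^ 2 =
        ((1 / 4 - (Real.sqrt 3 / 2) ^ 2 : ℝ) : ℂ) + ((Real.sqrt 3 / 2 : ℝ) : ℂ) * I := by
      push_cast
      have h5 := I_mul_I
      linear_combination ((Real.sqrt 3 / 2 : ℂ) ^ 2) * h5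
    rw [h3, add_re, ofReal_re, re_ofReal_mul, I_re, mul_zero, add_zero, div_pow,
      Real.sq_sqrt (by norm_num)]
    norm_num
  rw [e4] at k2
  have e5 : ((1 + (1 : ℂ)) ^ 2).re = 4 := by norm_num
  rw [e5] at k1
  have h6 : (A : ℝ) * B = 0 := by linarith
  rcases mul_eq_zero.mp h6 with h7 | h7
  · exact_mod_cast h7
  · exact absurd (by exact_mod_cast h7) hE1

/-- `f(1) = 0`, if `W_R = q + z f_R` has a simple zero at `1`. -/
theorem f_one {q f fR : ℤ[X]} (hW : (q + X * fR).eval 1 = 0)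
    (hW1 : (derivative (q + X * fR)).eval 1 ≠ 0)
    (hc : ∀ z : ℂ, ‖z‖ = 1 → ∀ w : ℂ, ‖w‖ = 1 → 1 / 2 * ‖aeval z q + z * aeval z fR‖ ^ 2 ≤
      (((aeval z q + z * aeval z f) - z * aeval z f * (1 + w) ^ 2) *
        (starRingEnd ℂ) (aeval z q + z * aeval z fR)).re) : f.eval 1 = 0 := by
  obtain ⟨W1, hW1e⟩ : (X - C 1) ∣ q + X * fR := by rw [dvd_iff_isRoot]; exact hW
  have hW1v : W1.eval 1 ≠ 0 := by
    rw [hW1e, derivative_mul] at hW1
    simpa using hW1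
  set zz : ℝ → ℂ := fun τ => exp (τ * I) with hzz
  have hzn : ∀ τ : ℝ, ‖zz τ‖ = 1 := by
    intro τ
    rw [hzz]
    simp only [norm_exp_ofReal_mul_I]
  set U : ℝ → ℂ := fun τ => I * exp ((τ / 2 : ℝ) * I) * aeval (zz τ) W1 with hU
  have hWU : ∀ τ : ℝ, aeval (zz τ) q + zz τ * aeval (zz τ) fR =
      ((2 * Real.sin (τ / 2) : ℝ) : ℂ) * U τ := by
    intro τ
    have h0 : aeval (zz τ) q + zz τ * aeval (zz τ) fR = (zz τ - 1) * aeval (zz τ) W1 := by
      have := congrArg (fun P => (aeval (zz τ) P : ℂ)) hW1e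
      simpa using this
    have h1 : exp (τ * I) - 1 = ((2 * Real.sin (τ / 2) : ℝ) : ℂ) *
        (I * exp ((τ / 2 : ℝ) * I)) := by
      have h2 : ((2 * Real.sin (τ / 2) : ℝ) : ℂ) = (exp (-((τ / 2 : ℝ) : ℂ) * I) -
          exp (((τ / 2 : ℝ) : ℂ) * I)) * I := by
        rw [← two_sin]; push_cast; ring
      rw [h2]
      have h3 : exp (-((τ / 2 : ℝ) : ℂ) * I) * exp (((τ / 2 : ℝ) : ℂ) * I) = 1 := by
        rw [← exp_add]; simp
      have h4 : exp (((τ / 2 : ℝ) : ℂ) * I) * exp (((τ / 2 : ℝ) : ℂ) * I) = exp (τ * I) := by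
        rw [← exp_add]; congr 1; push_cast; ring
      have h5 := I_mul_I
      linear_combination (-1 : ℂ) * h4 + (1 : ℂ) * h3 +
        (-(exp (-((τ / 2 : ℝ) : ℂ) * I) - exp (((τ / 2 : ℝ) : ℂ) * I)) *
          exp (((τ / 2 : ℝ) : ℂ) * I)) * h5
    have h6 : zz τ - 1 = exp (τ * I) - 1 := rfl
    rw [h0, h6, h1, hU]
    ring
  have hae : ∀ P : ℤ[X], (aeval (1 : ℂ) P : ℂ) = (((P.eval 1 : ℤ) : ℝ) : ℂ) := by
    intro P
    have h1 : (1 : ℂ) = algebraMap ℤ ℂ 1 := by simp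
    rw [h1, aeval_algebraMap_apply]
    simp
  have key : ∀ w : ℂ, ‖w‖ = 1 → (((aeval (1 : ℂ) q + 1 * aeval (1 : ℂ) f) -
      1 * aeval (1 : ℂ) f * (1 + w) ^ 2) * (starRingEnd ℂ) (I * aeval (1 : ℂ) W1)).re = 0 := by
    intro w hw
    set g : ℝ → ℝ := fun τ => (((aeval (zz τ) q + zz τ * aeval (zz τ) f) -
      zz τ * aeval (zz τ) f * (1 + w) ^ 2) * (starRingEnd ℂ) (U τ)).re with hg
    have hgc : Continuous g := by
      have c1 : Continuous zz := by rw [hzz]; fun_prop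
      have c0 : ∀ P : ℤ[X], Continuous fun τ => (aeval (zz τ) P : ℂ) := fun P =>
        (Polynomial.continuous_aeval P).comp c1
      have c2 : Continuous U := by
        rw [hU]
        exact (by fun_prop : Continuous fun τ : ℝ => I * exp ((τ / 2 : ℝ) * I)).mul (c0 W1)
      exact continuous_re.comp ((((c0 q).add (c1.mul (c0 f))).sub
        ((c1.mul (c0 f)).mul continuous_const)).mul (continuous_conj.comp c2))
    have hineq : ∀ τ : ℝ, 0 ≤ (2 * Real.sin (τ / 2)) * g τ := by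
      intro τ
      have h1 := hc (zz τ) (hzn τ) w hw
      rw [hWU τ, map_mul, conj_ofReal] at h1
      have h2 : (((aeval (zz τ) q + zz τ * aeval (zz τ) f) - zz τ * aeval (zz τ) f *
          (1 + w) ^ 2) * (((2 * Real.sin (τ / 2) : ℝ) : ℂ) * (starRingEnd ℂ) (U τ))).re =
          (2 * Real.sin (τ / 2)) * g τ := by
        rw [hg]
        simp only
        rw [← re_ofReal_mul]
        congr 1
        ring
      rw [h2] at h1
      have h3 : 0 ≤ 1 / 2 * ‖((2 * Real.sin (τ / 2) : ℝ) : ℂ) * U τ‖ ^ 2 := by positivity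
      linarith
    have h0 : g 0 = (((aeval (1 : ℂ) q + 1 * aeval (1 : ℂ) f) -
      1 * aeval (1 : ℂ) f * (1 + w) ^ 2) * (starRingEnd ℂ) (I * aeval (1 : ℂ) W1)).re := by
      rw [hg, hU, hzz]
      simp
    have hpos : 0 ≤ g 0 := by
      have ht : Tendsto g (𝓝[>] 0) (𝓝 (g 0)) := hgc.continuousAt.tendsto.mono_left nhdsWithin_le_nhds
      refine ge_of_tendsto ht ?_
      have : Set.Ioo (0 : ℝ) 1 ∈ 𝓝[>] (0 : ℝ) := Ioo_mem_nhdsGT one_pos
      filter_upwards [this] with τ hτ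
      have hs : 0 < Real.sin (τ / 2) := by
        apply Real.sin_pos_of_pos_of_lt_pi
        · linarith [hτ.1]
        · have := Real.pi_gt_three; linarith [hτ.2]
      have := hineq τ
      exact nonneg_of_mul_nonneg_right this (by positivity)
    have hneg : g 0 ≤ 0 := by
      have ht : Tendsto g (𝓝[<] 0) (𝓝 (g 0)) := hgc.continuousAt.tendsto.mono_left nhdsWithin_le_nhds
      refine le_of_tendsto ht ?_
      have : Set.Ioo (-1 : ℝ) 0 ∈ 𝓝[<] (0 : ℝ) := Ioo_mem_nhdsLT (by norm_num)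
      filter_upwards [this] with τ hτ
      have hs : 0 < Real.sin (-τ / 2) := by
        apply Real.sin_pos_of_pos_of_lt_pi
        · linarith [hτ.2]
        · have := Real.pi_gt_three; linarith [hτ.1]
      have h1 := hineq τ
      have h2 : Real.sin (τ / 2) = -Real.sin (-τ / 2) := by
        rw [← Real.sin_neg]; congr 1; ring
      rw [h2] at h1
      by_contra h3
      push Not at h3
      nlinarith [mul_pos hs h3]
    linarith
  have k2 := key (-1) (by simp)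
  have k3 := key I (by simp)
  have e1 : (starRingEnd ℂ) (I * aeval (1 : ℂ) W1) = -I * (((W1.eval 1 : ℤ) : ℝ) : ℂ) := by
    rw [hae W1, map_mul, conj_I, conj_ofReal]
  rw [e1] at k2 k3
  have e2 : (1 * aeval (1 : ℂ) f * (1 + I) ^ 2 * (-I * (((W1.eval 1 : ℤ) : ℝ) : ℂ))).re = 0 := by
    have h1 : 1 * aeval (1 : ℂ) f * (1 + I) ^ 2 * (-I * (((W1.eval 1 : ℤ) : ℝ) : ℂ)) =
        ((aeval (1 : ℂ) q + 1 * aeval (1 : ℂ) f) - 1 * aeval (1 : ℂ) f * (1 + -1) ^ 2) *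
          (-I * (((W1.eval 1 : ℤ) : ℝ) : ℂ)) -
        ((aeval (1 : ℂ) q + 1 * aeval (1 : ℂ) f) - 1 * aeval (1 : ℂ) f * (1 + I) ^ 2) *
          (-I * (((W1.eval 1 : ℤ) : ℝ) : ℂ)) := by ring
    rw [h1, sub_re, k2, k3, sub_self]
  rw [hae f] at e2
  have e3 : 1 * (((f.eval 1 : ℤ) : ℝ) : ℂ) * (1 + I) ^ 2 * (-I * (((W1.eval 1 : ℤ) : ℝ) : ℂ)) =
      ((2 * ((f.eval 1 : ℤ) : ℝ) * ((W1.eval 1 : ℤ) : ℝ) : ℝ) : ℂ) := by
    have h5 := I_mul_I
    rw [ofReal_mul, ofReal_mul, ofReal_ofNat]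
    linear_combination (-((((f.eval 1 : ℤ) : ℝ) : ℂ) * (((W1.eval 1 : ℤ) : ℝ) : ℂ)) * (2 + I)) * h5
  rw [e3, ofReal_re] at e2
  have h4 : ((W1.eval 1 : ℤ) : ℝ) ≠ 0 := by exact_mod_cast hW1v
  have h5 : ((f.eval 1 : ℤ) : ℝ) = 0 := by
    rcases mul_eq_zero.mp e2 with h | h
    · linarith
    · exact absurd h h4
  exact_mod_cast h5

end Pool.Agent.B5.O4C
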