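import Pool.Agent.Lib.MP_b5021c_nt.KO.H95.Vis
import Pool.Agent.Lib.MP_b5021c_nt.E.H02.DtiD
import Pool.Agent.Lib.MP_b5021c_nt.B.H42.Sle
import Pool.Agent.Lib.MP_b5021c_nt.UF.H83.Rouche

/-!
# Board b5, row TK_DT: the analytic core

`core1`: from `|c E ∏ (1 - t_j)| ≤ 2 |G|` on the torus to `|c E| ≤ |G|` (rotation along `nu`, Visser).
`core2`: `G - t c E` is not unitary. `core3`: `G - t d` is stable if `|d| ≤ |G|` on the torus (Rouche).
-/

set_option linter.unusedSectionVars false

namespace Pool.Agent.B5.H42.Dt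

open scoped LaurentPolynomial
open AddMonoidAlgebra Pool.Agent.B5.H02

section

variable {O : Type} [CommRing O] [Coef O] {K : Type} [AddCommGroup K]

/-- Two characters which agree on the support. -/
theorem ev_congr {z : Circle} {u v : AddChar K Circle} {G : AO O K}
    (h : ∀ a ∈ supp G, v a = u a) : ev z v G = ev z u G := by
  refine H83.eq_of_single (ev z v : AO O K →+* ℂ).toAddMonoidHom
    (ev z u : AO O K →+* ℂ).toAddMonoidHom G (fun a ha => ?_)
  change ev z v (single a (G.coeff a)) = ev z u (single a (G.coeff a))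
  rw [H59.ev_single z v a _, H59.ev_single z u a _, h a ha]

theorem ev_twist {z : Circle} {u : AddChar K Circle} {G : AO O K} {nu : K →+ ℤ}
    (h : ∀ a ∈ supp G, nu a = 0) (s : Circle) : ev z (twist u nu s) G = ev z u G := by
  refine ev_congr fun a ha => ?_
  change u a * s ^ (nu a) = u a
  rw [h a ha, zpow_zero, mul_one]

/-- The product of the factors of the killers. -/
noncomputable def Pd {ι : Type} [Fintype ι] (R : ι → K) (e : ι → (RO O)ˣ) : AO O K :=
  ∏ j, (1 - single (R j) (((e j)⁻¹ : (RO O)ˣ) : RO O))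

theorem ev_Pd {ι : Type} [Fintype ι] (z : Circle) (u : AddChar K Circle) (R : ι → K)
    (e : ι → (RO O)ˣ) : ev z u (Pd R e) =
      ∏ j, (1 - evR z (((e j)⁻¹ : (RO O)ˣ) : RO O) * ((u (R j) : Circle) : ℂ)) := by
  unfold Pd
  rw [map_prod]
  refine Finset.prod_congr rfl fun j _ => ?_
  rw [map_sub, map_one, H59.ev_single z u (R j) _]

end

section

variable {O : Type} [CommRing O] [IsDomain O] [IsPrincipalIdealRing O] [Coef O] {K : Type}
  [AddCommGroup K] [Module.Free ℤ K] [Module.Finite ℤ K] {ι : Type} [Fintype ι]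

theorem norm_t (hEv : EvRS) (z : Circle) (u : AddChar K Circle) (R : ι → K) (e : ι → (RO O)ˣ)
    (j : ι) : ‖evR z (((e j)⁻¹ : (RO O)ˣ) : RO O) * ((u (R j) : Circle) : ℂ)‖ = 1 := by
  rw [norm_mul, Circle.norm_coe, mul_one, (hEv O).2.1 z _ ((e j)⁻¹).isUnit]

/-- `|d P| ≤ 2 |G|` on the torus gives `|d| ≤ |G|`. -/
theorem core1 (hEv : EvRS) [Nonempty ι] {G E : AO O K} {c : RO O} {R : ι → K} {e : ι → (RO O)ˣ}
    {nu : K →+ ℤ} (hnu : ∀ j, nu (R j) ≠ 0) (hG : ∀ a ∈ supp G, nu a = 0)
    (hE : ∀ a ∈ supp E, nu a = 0)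
    (hpw : ∀ (z : Circle) (u : AddChar K Circle),
      ‖ev z u (cst c * (E * Pd R e))‖ ≤ 2 * ‖ev z u G‖) :
    ∀ (z : Circle) (u : AddChar K Circle), ‖ev z u (cst c * E)‖ ≤ ‖ev z u G‖ := by
  classical
  intro z u
  obtain ⟨s, hs, h2⟩ := KO.H95.visser (Finset.univ : Finset ι) Finset.univ_nonempty
    (fun j => evR z (((e j)⁻¹ : (RO O)ˣ) : RO O) * ((u (R j) : Circle) : ℂ))
    (fun j => nu (R j)) (fun j _ => norm_t hEv z u R e j) (fun j _ => hnu j)
  let σ : Circle := ⟨s, mem_sphere_zero_iff_norm.mpr hs⟩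
  have hσ : (σ : ℂ) = s := rfl
  have h1 := hpw z (twist u nu σ)
  rw [ev_twist hG, ← mul_assoc, map_mul, norm_mul, map_mul (ev z (twist u nu σ)), ev_twist hE,
    ev_Pd] at h1
  have h3 : ev z (twist u nu σ) (cst c : AO O K) = ev z u (cst c) := by
    unfold cst
    rw [H59.ev_single, H59.ev_single, AddChar.map_zero_eq_one, AddChar.map_zero_eq_one]
  have h4 : (∏ j, (1 - evR z (((e j)⁻¹ : (RO O)ˣ) : RO O) *
      ((twist u nu σ (R j) : Circle) : ℂ))) = ∏ j ∈ (Finset.univ : Finset ι),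
      (1 - evR z (((e j)⁻¹ : (RO O)ˣ) : RO O) * ((u (R j) : Circle) : ℂ) * s ^ nu (R j)) := by
    refine Finset.prod_congr rfl fun j _ => ?_
    rw [twist_coe, hσ, mul_assoc]
  rw [h3, h4, ← map_mul (ev z u)] at h1
  have h5 := norm_nonneg (ev z u (cst c * E))
  nlinarith

/-- The first half of `Ft_unitary`: a unitary `G - t d` has `|G| = |d|` on the torus. -/
theorem Ft_norm (hU : UnitAS) (hEv : EvRS) (hSh : SharpS) {G d : AO O K} (hG0 : G.coeff 0 ≠ 0)
    (hd0 : d.coeff 0 ≠ 0) (hun : Unitary (Ft G d)) :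
    ∀ (z : Circle) (u : AddChar K Circle), ‖ev z u G‖ = ‖ev z u d‖ := by
  classical
  obtain ⟨v, hv⟩ := hun
  obtain ⟨⟨b, k⟩, c, hc, hvs⟩ := (hU O (K × ℤ) (v : AO O (K × ℤ))).1 v.isUnit
  have hco : ∀ (a : K) (n : ℤ), (Ft G d).coeff (a, n) =
      c * rsh ((Ft G d).coeff (b - a, k - n)) := by
    intro a n
    have h1 : (Ft G d).coeff (a, n) = (sharp (Ft G d) * (v : AO O (K × ℤ))).coeff (a, n) := by
      rw [hv]
    rw [h1, hvs, coeff_mul_single_apply, sharp_coeff', mul_comm]
    congr 3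
    ext
    · simp [sub_eq_add_neg]
    · simp [sub_eq_add_neg]
  have hk : k = 1 := by
    have h1 := hco 0 0
    rw [Ft_coeff, if_pos rfl] at h1
    have h2 : (Ft G d).coeff (b - 0, k - 0) ≠ 0 := by
      intro h3
      rw [h3, map_zero (rsh : RO O →+* RO O), mul_zero] at h1
      exact hG0 h1
    have h3 := hco 0 1
    rw [Ft_coeff, if_neg one_ne_zero, if_pos rfl] at h3
    have h4 : (Ft G d).coeff (b - 0, k - 1) ≠ 0 := by
      intro h5
      rw [h5, map_zero (rsh : RO O →+* RO O), mul_zero] at h3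
      exact hd0 (neg_eq_zero.mp h3)
    rcases (Ft_supp G d _).mp h2 with ⟨h5, _⟩ | ⟨h5, _⟩
    · have h6 : k - 0 = 0 := h5
      rcases (Ft_supp G d _).mp h4 with ⟨h7, _⟩ | ⟨h7, _⟩
      · have h8 : k - 1 = 0 := h7
        omega
      · have h8 : k - 1 = 1 := h7
        omega
    · have h6 : k - 0 = 1 := h5
      omega
  have hGd : G = single b (-c) * sharp d := by
    apply AddMonoidAlgebra.ext
    apply Finsupp.ext
    intro a
    have h1 := hco a 0
    rw [Ft_coeff, if_pos rfl, hk, Ft_coeff, if_neg (by norm_num), if_pos (by norm_num)] at h1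
    rw [h1, coeff_single_mul_apply, sharp_coeff', map_neg]
    have h2 : -(-b + a) = b - a := by abel
    rw [h2]
    ring
  intro z u
  rw [hGd, map_mul, norm_mul, (hSh O K d).1 z u, RCLike.norm_conj]
  have h1 : ev z u (single b (-c) : AO O K) = evR z (-c) * ((u b : Circle) : ℂ) :=
    H59.ev_single z u b (-c)
  rw [h1, norm_mul, Circle.norm_coe, mul_one, (hEv O).2.1 z (-c) hc.neg, one_mul]

/-- An element of the circle with a given power. -/
theorem exists_zpow (x : Circle) {n : ℤ} (hn : n ≠ 0) : ∃ s : Circle, s ^ n = x := by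
  have key : ∀ (y : Circle) (m : ℕ), m ≠ 0 → ∃ s : Circle, s ^ m = y := by
    intro y m hm
    obtain ⟨w, hw⟩ := IsAlgClosed.exists_pow_nat_eq (y : ℂ) (Nat.pos_of_ne_zero hm)
    have hw1 : ‖w‖ = 1 := by
      have h1 : ‖w‖ ^ m = 1 := by rw [← norm_pow, hw, Circle.norm_coe]
      exact (pow_eq_one_iff_of_nonneg (norm_nonneg w) hm).1 h1
    obtain ⟨s, hs⟩ : ∃ s : Circle, (s : ℂ) = w := ⟨⟨w, mem_sphere_zero_iff_norm.mpr hw1⟩, rfl⟩
    refine ⟨s, ?_⟩
    apply Circle.ext
    rw [Circle.coe_pow, hs, hw]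
  rcases le_or_gt 0 n with h | h
  · obtain ⟨s, hs⟩ := key x n.toNat (by omega)
    refine ⟨s, ?_⟩
    conv_lhs => rw [← Int.toNat_of_nonneg h]
    rw [zpow_natCast, hs]
  · obtain ⟨s, hs⟩ := key x⁻¹ (-n).toNat (by omega)
    refine ⟨s, ?_⟩
    have h1 : n = -(((-n).toNat : ℕ) : ℤ) := by omega
    rw [h1, zpow_neg, zpow_natCast, hs, inv_inv]

/-- `G - t c E` is not unitary. -/
theorem core2 (hU : UnitAS) (hEv : EvRS) (hSh : SharpS) (hDe : DensS) [Nonempty ι] {G E : AO O K}
    {c : RO O} {R : ι → K} {e : ι → (RO O)ˣ} {nu : K →+ ℤ} (hnu : ∀ j, nu (R j) ≠ 0)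
    (hG : ∀ a ∈ supp G, nu a = 0) (hE : ∀ a ∈ supp E, nu a = 0)
    (hpw : ∀ (z : Circle) (u : AddChar K Circle),
      ‖ev z u (cst c * (E * Pd R e))‖ ≤ 2 * ‖ev z u G‖)
    (heq : ∀ (z : Circle) (u : AddChar K Circle),
      ‖ev z u (cst c * (E * Pd R e))‖ = 2 * ‖ev z u G‖ →
        ev z u (cst c * (E * Pd R e)) = 2 * ev z u G)
    (q : ι → K →+ ℤ) (hq1 : ∀ j, q j (R j) = 1) (hq0 : ∀ j i, j ≠ i → q j (R i) = 0)
    (hqE : ∀ j, ∀ a ∈ supp E, q j a = 0) (hd0 : (cst c * E).coeff 0 ≠ 0)
    (hne : G.coeff 0 ≠ (cst c * E).coeff 0) (hG0 : G.coeff 0 ≠ 0) :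
    ¬ Unitary (Ft G (cst c * E)) := by
  classical
  intro hun
  have hnorm := Ft_norm hU hEv hSh hG0 hd0 hun
  have hcst : ∀ (z : Circle) (u v : AddChar K Circle), ev z u (cst c : AO O K) = ev z v (cst c) := by
    intro z u v
    unfold cst
    rw [H59.ev_single, H59.ev_single, AddChar.map_zero_eq_one, AddChar.map_zero_eq_one]
  obtain ⟨i⟩ := (inferInstance : Nonempty ι)
  by_cases hone : ∀ j : ι, j = i
  · -- one factor
    apply hne
    have hun : (Finset.univ : Finset ι) = {i} := by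
      ext j
      simp [hone j]
    have h1 : G - cst c * E = 0 := by
      refine (hDe O K).2 (G - cst c * E) ?_
      have h2 : {z : Circle | ¬ ∀ u : AddChar K Circle, ev z u (G - cst c * E) = 0} = ∅ := by
        ext z
        simp only [Set.mem_ofPred_eq, Set.mem_empty_iff_false, iff_false, not_not]
        intro u
        have ht := norm_t hEv z u R e i
        let τ : Circle := ⟨_, mem_sphere_zero_iff_norm.mpr ht⟩
        have hτ : (τ : ℂ) = evR z (((e i)⁻¹ : (RO O)ˣ) : RO O) * ((u (R i) : Circle) : ℂ) := rfl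
        obtain ⟨s, hs⟩ := exists_zpow (-τ⁻¹) (hnu i)
        have hPd : ev z (twist u nu s) (Pd R e) = 2 := by
          rw [ev_Pd, hun, Finset.prod_singleton, twist_coe, ← mul_assoc, ← hτ, ← Circle.coe_zpow,
            hs]
          have h3 : (τ : ℂ) * ((-τ⁻¹ : Circle) : ℂ) = -1 := by
            rw [Circle.coe_neg, Circle.coe_inv, mul_neg, mul_inv_cancel₀ (Circle.coe_ne_zero _)]
          rw [h3]
          norm_num
        have hdv : ev z (twist u nu s) (cst c * (E * Pd R e)) = ev z u (cst c * E) * 2 := by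
          rw [← mul_assoc, map_mul, hPd, map_mul, ev_twist hE, hcst z (twist u nu s) u, ← map_mul]
        have h4 := heq z (twist u nu s) (by
          rw [hdv, norm_mul, ev_twist hG, ← hnorm z u, Complex.norm_ofNat]
          ring)
        rw [hdv, ev_twist hG] at h4
        rw [map_sub]
        linear_combination (-1 / 2 : ℂ) * h4
      rw [h2]
      exact Set.finite_empty
    rw [sub_eq_zero.mp h1]
  · -- at least two factors
    push Not at hone
    obtain ⟨i', hi'⟩ := hone
    apply hd0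
    have h1 : cst c * E = 0 := by
      refine (hDe O K).2 (cst c * E) ?_
      have h2 : {z : Circle | ¬ ∀ u : AddChar K Circle, ev z u (cst c * E) = 0} = ∅ := by
        ext z
        simp only [Set.mem_ofPred_eq, Set.mem_empty_iff_false, iff_false, not_not]
        intro u
        let τ : ι → Circle := fun j => ⟨_, mem_sphere_zero_iff_norm.mpr (norm_t hEv z u R e j)⟩
        have hτ : ∀ j, (τ j : ℂ) =
          evR z (((e j)⁻¹ : (RO O)ˣ) : RO O) * ((u (R j) : Circle) : ℂ) := fun j => rfl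
        let v : AddChar K Circle :=
          { toFun := fun a => u a * ∏ j, (-(τ j)⁻¹) ^ (q j a)
            map_zero_eq_one' := by simp
            map_add_eq_mul' := fun a b => by
              rw [AddChar.map_add_eq_mul]
              simp only [map_add, zpow_add, Finset.prod_mul_distrib]
              exact mul_mul_mul_comm _ _ _ _ }
        have hv : ∀ a, v a = u a * ∏ j, (-(τ j)⁻¹) ^ (q j a) := fun a => rfl
        have hvR : ∀ j, v (R j) = u (R j) * -(τ j)⁻¹ := by
          intro j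
          rw [hv, Finset.prod_eq_single j]
          · rw [hq1, zpow_one]
          · intro l _ hl
            rw [hq0 l j hl, zpow_zero]
          · intro h
            exact absurd (Finset.mem_univ j) h
        have hvE : ev z v E = ev z u E := by
          refine ev_congr fun a ha => ?_
          rw [hv, Finset.prod_eq_one, mul_one]
          intro j _
          rw [hqE j a ha, zpow_zero]
        have hPd : ev z v (Pd R e) = 2 ^ (Fintype.card ι) := by
          rw [ev_Pd, ← Finset.card_univ, ← Finset.prod_const]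
          refine Finset.prod_congr rfl fun j _ => ?_
          rw [hvR, Circle.coe_mul, ← mul_assoc, ← hτ, Circle.coe_neg, Circle.coe_inv, mul_neg,
            mul_inv_cancel₀ (Circle.coe_ne_zero _)]
          norm_num
        have h3 := hpw z v
        rw [hnorm z v, ← mul_assoc, map_mul, hPd, norm_mul, norm_pow, Complex.norm_ofNat] at h3
        have h4 : ev z v (cst c * E) = ev z u (cst c * E) := by
          rw [map_mul, map_mul, hvE, hcst z v u]
        rw [h4] at h3
        have h5 : (4 : ℝ) ≤ 2 ^ (Fintype.card ι) := by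
          have h6 : 2 ≤ Fintype.card ι := Fintype.one_lt_card_iff.mpr ⟨i', i, hi'⟩
          calc (4 : ℝ) = 2 ^ 2 := by norm_num
            _ ≤ 2 ^ (Fintype.card ι) := pow_le_pow_right₀ (by norm_num) h6
        have h7 := norm_nonneg (ev z u (cst c * E))
        have h8 : ‖ev z u (cst c * E)‖ * 4 ≤ ‖ev z u (cst c * E)‖ * 2 ^ (Fintype.card ι) :=
          mul_le_mul_of_nonneg_left h5 h7
        rw [← norm_eq_zero]
        linarith
      rw [h2]
      exact Set.finite_empty
    rw [h1]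
    rfl

/-- **Rouche.**  `G - t d` is stable. -/
theorem core3 {lam : K →+ ℤ} {G d : AO O K} (hG : Pos lam G) (hd : Pos lam d)
    (hG0 : G.coeff 0 ≠ 0)
    (hle : ∀ (z : Circle) (u : AddChar K Circle), ‖ev z u d‖ ≤ ‖ev z u G‖)
    (hzf : ∀ z : Circle, evR z (G.coeff 0) ≠ 0 → ∀ (u : AddChar K Circle) (s : ℂ), ‖s‖ < 1 →
      (sl u lam (spec z G)).eval s ≠ 0) : Stable (Ft G d) := by
  classical
  have h0 : (Ft G d).coeff 0 = G.coeff 0 := by
    have h1 := Ft_coeff G d 0 0
    rw [if_pos rfl] at h1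
    exact h1
  refine ⟨by rw [h0]; exact hG0, lt lam, Ft_pos hG hd, ?_⟩
  intro z hz v s hs
  rw [h0] at hz
  rw [sl_Ft v lam z G d (nn_of_pos' hd) s]
  set u : AddChar K Circle := v.compAddMonoidHom (AddMonoidHom.inl K ℤ) with hu
  set τ : ℂ := ((v ((0 : K), (1 : ℤ)) : Circle) : ℂ) with hτ
  set pG : Polynomial ℂ := sl u lam (spec z G) with hpG
  set pd : Polynomial ℂ := sl u lam (spec z d) with hpd
  have hnn : ∀ H : AO O K, Pos lam H → ∀ a ∈ (spec z H).coeff.support, 0 ≤ lam a := by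
    intro H hH a ha
    have h1 : (spec z H).coeff a ≠ 0 := Finsupp.mem_support_iff.mp ha
    have h2 : (spec z H).coeff a = evR z (H.coeff a) := spec_coeff z H a
    refine nn_of_pos' hH a ?_
    intro h3
    apply h1
    rw [h2, h3, map_zero]
  have hval : ∀ H : AO O K, Pos lam H → ∀ w : Circle,
      (sl u lam (spec z H)).eval (w : ℂ) = ev z (twist u lam w) H := by
    intro H hH w
    exact (sle K u lam (spec z H) (hnn H hH)).1 w
  have hpG0 : pG.eval 0 ≠ 0 := by
    rw [hpG, sl_eval_zero _ _ _ _ hG]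
    exact hz
  set f : Polynomial ℂ := -(Polynomial.C τ * Polynomial.X * pd) with hf
  have hf0 : f.eval 0 = 0 := by
    rw [hf]
    simp
  have hne1 : pG ≠ 0 := by
    intro h
    rw [h, Polynomial.eval_zero] at hpG0
    exact hpG0 rfl
  have hne2 : pG + f ≠ 0 := by
    intro h
    have h1 := congrArg (Polynomial.eval 0) h
    rw [Polynomial.eval_add, hf0, add_zero, Polynomial.eval_zero] at h1
    exact hpG0 h1
  have hr := Krein.rouche pG.natDegree pG f rfl hne1 hne2 (by
    intro w hw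
    have h1 : pG.eval w = ev z (twist u lam ⟨w, mem_sphere_zero_iff_norm.mpr hw⟩) G :=
      hval G hG ⟨w, mem_sphere_zero_iff_norm.mpr hw⟩
    have h2 : pd.eval w = ev z (twist u lam ⟨w, mem_sphere_zero_iff_norm.mpr hw⟩) d :=
      hval d hd ⟨w, mem_sphere_zero_iff_norm.mpr hw⟩
    rw [hf, Polynomial.eval_neg, norm_neg, Polynomial.eval_mul, Polynomial.eval_mul,
      Polynomial.eval_C, Polynomial.eval_X, norm_mul, norm_mul, hw, mul_one, hτ, Circle.norm_coe,
      one_mul, h1, h2]
    exact hle z _)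
  have hnz : Krein.nz pG = 0 := by
    unfold Krein.nz
    rw [Multiset.card_eq_zero, Multiset.filter_eq_nil]
    intro a ha hna
    exact hzf z hz u a hna ((Polynomial.mem_roots hne1).mp ha)
  rw [hnz] at hr
  have hnz2 : Krein.nz (pG + f) = 0 := Nat.le_zero.mp hr
  unfold Krein.nz at hnz2
  rw [Multiset.card_eq_zero, Multiset.filter_eq_nil] at hnz2
  intro hcon
  refine hnz2 s ?_ hs
  rw [Polynomial.mem_roots hne2, Polynomial.IsRoot.def, Polynomial.eval_add, hf,
    Polynomial.eval_neg, Polynomial.eval_mul, Polynomial.eval_mul, Polynomial.eval_C,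
    Polynomial.eval_X]
  linear_combination hcon

end

end Pool.Agent.B5.H42.Dt
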