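import Mathlib

/-!
# MP_b5021c_nt, all `θ`, K ODD, (O4), l = 3, pure beta: the one-point lemmas for the faces

`s = x / (1 - x)`, `Re s > -1/2` for `x` in the open disc.
-/

namespace Pool.Agent.B5.O4F

open Complex Filter Topology

/-- `x = s / (1 + s)` is in the open disc. -/
theorem sx {s : ℂ} (hs : -(1 / 2) < s.re) : 1 + s ≠ 0 ∧ ‖s / (1 + s)‖ < 1 ∧
    1 - s / (1 + s) = 1 / (1 + s) := by
  have h1 : 1 + s ≠ 0 := by
    intro h
    have := congrArg Complex.re h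
    simp at this
    linarith
  refine ⟨h1, ?_, ?_⟩
  · rw [norm_div, div_lt_one (norm_pos_iff.mpr h1)]
    have h2 : ‖s‖ ^ 2 < ‖1 + s‖ ^ 2 := by
      rw [← normSq_eq_norm_sq, ← normSq_eq_norm_sq, normSq_apply, normSq_apply]
      simp only [add_re, one_re, add_im, one_im]
      nlinarith
    exact lt_of_pow_lt_pow_left₀ 2 (norm_nonneg _) h2
  · field_simp
    ring

/-- One variable in the half plane. -/
theorem half {X e : ℂ} (h : ∀ s : ℂ, -(1 / 2) < s.re → X + e * s ≠ 0) :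
    ‖e‖ ^ 2 ≤ 2 * (X * (starRingEnd ℂ) e).re := by
  by_contra hn
  push Not at hn
  have he : e ≠ 0 := by
    intro h0
    rw [h0] at hn
    simp at hn
  have hp : 0 < ‖e‖ ^ 2 := by positivity
  refine h (-X / e) ?_ (by field_simp; ring)
  have h1 : -X / e = ((-(‖e‖ ^ 2)⁻¹ : ℝ) : ℂ) * (X * (starRingEnd ℂ) e) := by
    have h2 : ((‖e‖ ^ 2 : ℝ) : ℂ) = e * (starRingEnd ℂ) e := by
      rw [mul_conj, normSq_eq_norm_sq]
    have h3 : (starRingEnd ℂ) e ≠ 0 := by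
      intro h0; exact he (by simpa using congrArg (starRingEnd ℂ) h0)
    rw [ofReal_neg, ofReal_inv, h2]
    field_simp
  rw [h1, re_ofReal_mul]
  have h2 : (‖e‖ ^ 2)⁻¹ * (X * (starRingEnd ℂ) e).re < 1 / 2 := by
    rw [inv_mul_lt_iff₀ hp]
    linarith
  linarith

/-- Passage to the boundary `y₀ = y₁ = -w`. -/
theorem lim_y {Φ : ℂ → ℝ} (hΦ : Continuous Φ)
    (h : ∀ y0 y1 : ℂ, ‖y0‖ < 1 → ‖y1‖ < 1 → 0 ≤ Φ ((1 - y0) * (1 - y1))) {w : ℂ} (hw : ‖w‖ = 1) :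
    0 ≤ Φ ((1 + w) ^ 2) := by
  have hc : Continuous fun r : ℝ => Φ ((1 + r * w) ^ 2) := by fun_prop
  have ht : Tendsto (fun r : ℝ => Φ ((1 + r * w) ^ 2)) (𝓝[<] 1) (𝓝 (Φ ((1 + w) ^ 2))) := by
    have := (hc.tendsto 1).mono_left (nhdsWithin_le_nhds (s := Set.Iio 1))
    simpa using this
  refine ge_of_tendsto ht ?_
  have : Set.Ioo (-1 : ℝ) 1 ∈ 𝓝[<] (1 : ℝ) := Ioo_mem_nhdsLT (by norm_num)
  filter_upwards [this] with r hr
  have h1 : ‖-((r : ℂ) * w)‖ < 1 := by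
    rw [norm_neg, norm_mul, hw, mul_one, norm_real]
    exact abs_lt.mpr ⟨hr.1, hr.2⟩
  have h2 := h (-(r * w)) (-(r * w)) h1 h1
  have h3 : (1 - -((r : ℂ) * w)) * (1 - -((r : ℂ) * w)) = (1 + r * w) ^ 2 := by ring
  rwa [h3] at h2

/-- **FACE1.** One ray: `Re (V / e) ≥ 1/2`. -/
theorem face1 {V e f κ : ℂ} (h : ∀ s y0 y1 : ℂ, -(1 / 2) < s.re → ‖y0‖ < 1 → ‖y1‖ < 1 →
    V + f * ((1 - y0) * (1 - y1) - κ) + e * s ≠ 0) {w : ℂ} (hw : ‖w‖ = 1) :
    0 ≤ ((2 * V - e + 2 * (((1 + w) ^ 2 - κ) * f)) * (starRingEnd ℂ) e).re := by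
  refine lim_y (Φ := fun ρ => ((2 * V - e + 2 * ((ρ - κ) * f)) * (starRingEnd ℂ) e).re)
    (by fun_prop) ?_ hw
  intro y0 y1 h0 h1
  have h2 := half (X := V + f * ((1 - y0) * (1 - y1) - κ)) (e := e) fun s hs => h s y0 y1 hs h0 h1
  have h3 : ((2 * V - e + 2 * (((1 - y0) * (1 - y1) - κ) * f)) * (starRingEnd ℂ) e).re =
      2 * ((V + f * ((1 - y0) * (1 - y1) - κ)) * (starRingEnd ℂ) e).re - ‖e‖ ^ 2 := by
    have h4 : (2 * V - e + 2 * (((1 - y0) * (1 - y1) - κ) * f)) * (starRingEnd ℂ) e =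
        ((2 : ℝ) : ℂ) * ((V + f * ((1 - y0) * (1 - y1) - κ)) * (starRingEnd ℂ) e) -
          ((‖e‖ ^ 2 : ℝ) : ℂ) := by
      have h2 : ((‖e‖ ^ 2 : ℝ) : ℂ) = e * (starRingEnd ℂ) e := by
        rw [mul_conj, normSq_eq_norm_sq]
      rw [h2]
      push_cast
      ring
    rw [h4, sub_re, re_ofReal_mul, ofReal_re]
  rw [h3]
  linarith

/-- **FACE2 (i).** A pair with `A = 0`: the ratio is nonnegative. -/
theorem face2_ratio {X e1 e2 : ℂ} (h : ∀ s1 s2 : ℂ, -(1 / 2) < s1.re → -(1 / 2) < s2.re →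
    X + e1 * s1 + e2 * s2 ≠ 0) : (e1 * (starRingEnd ℂ) e2).im = 0 ∧
      0 ≤ (e1 * (starRingEnd ℂ) e2).re := by
  have key : ∀ s1 : ℂ, 0 ≤ s1.re → ‖e2‖ ^ 2 ≤ 2 * (X * (starRingEnd ℂ) e2).re +
      2 * ((e1 * (starRingEnd ℂ) e2) * s1).re := by
    intro s1 hs1
    have h1 := half (X := X + e1 * s1) (e := e2) fun s hs => h s1 s (by linarith) hs
    have h2 : ((X + e1 * s1) * (starRingEnd ℂ) e2).re = (X * (starRingEnd ℂ) e2).re +
        ((e1 * (starRingEnd ℂ) e2) * s1).re := by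
      rw [← add_re]; congr 1; ring
    rw [h2] at h1
    linarith
  set p : ℂ := e1 * (starRingEnd ℂ) e2 with hp
  set C : ℝ := 2 * (X * (starRingEnd ℂ) e2).re - ‖e2‖ ^ 2 with hC
  have k1 : ∀ t : ℝ, 0 ≤ C - 2 * p.im * t := by
    intro t
    have := key (t * I) (by simp)
    have h2 : (p * (t * I)).re = -(p.im * t) := by
      simp [mul_re]
    rw [h2] at this
    linarith
  have k2 : ∀ t : ℝ, 0 ≤ t → 0 ≤ C + 2 * p.re * t := by
    intro t ht
    have := key (t : ℂ) (by simpa using ht)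
    have h2 : (p * (t : ℂ)).re = p.re * t := by
      simp [mul_re]
    rw [h2] at this
    linarith
  constructor
  · by_contra hn
    have := k1 ((C + 1) / (2 * p.im))
    have h2 : 2 * p.im * ((C + 1) / (2 * p.im)) = C + 1 := by field_simp
    rw [h2] at this
    linarith
  · by_contra hn
    push Not at hn
    have hC0 : 0 ≤ C := by simpa using k2 0 le_rfl
    have := k2 ((C + 1) / (-(2 * p.re))) (by
      apply div_nonneg <;> linarith)
    have h2 : 2 * p.re * ((C + 1) / (-(2 * p.re))) = -(C + 1) := by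
      have : p.re ≠ 0 := hn.ne
      field_simp
    rw [h2] at this
    linarith

/-- **FACE2 (ii).** A pair with `A = 0` and equal `e`: `Re (V / c) ≥ 1`. -/
theorem face2 {V c f κ : ℂ} (h : ∀ s1 s2 y0 y1 : ℂ, -(1 / 2) < s1.re → -(1 / 2) < s2.re →
    ‖y0‖ < 1 → ‖y1‖ < 1 → V + f * ((1 - y0) * (1 - y1) - κ) + c * s1 + c * s2 ≠ 0) {w : ℂ}
    (hw : ‖w‖ = 1) :
    0 ≤ ((2 * V - 2 * c + 2 * (((1 + w) ^ 2 - κ) * f)) * (starRingEnd ℂ) c).re := by
  have h1 := face1 (V := V) (e := 2 * c) (f := f) (κ := κ) (fun s y0 y1 hs h0 h1 => by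
    have := h s s y0 y1 hs hs h0 h1
    intro h2
    exact this (by linear_combination h2)) hw
  have h2 : (2 * V - 2 * c + 2 * (((1 + w) ^ 2 - κ) * f)) * (starRingEnd ℂ) (2 * c) =
      ((2 : ℝ) : ℂ) * ((2 * V - 2 * c + 2 * (((1 + w) ^ 2 - κ) * f)) * (starRingEnd ℂ) c) := by
    rw [map_mul, map_ofNat]
    push_cast
    ring
  rw [h2, re_ofReal_mul] at h1
  linarith

/-- Passage to the boundary of the two half planes. -/
theorem lim_s {Φ : ℂ → ℂ → ℝ} (hΦ : Continuous fun p : ℂ × ℂ => Φ p.1 p.2)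
    (h : ∀ s t : ℂ, -(1 / 2) < s.re → -(1 / 2) < t.re → 0 ≤ Φ s t) {s t : ℂ}
    (hs : -(1 / 2) ≤ s.re) (ht : -(1 / 2) ≤ t.re) : 0 ≤ Φ s t := by
  have hc : Continuous fun r : ℝ => Φ (s + r) (t + r) :=
    hΦ.comp (by fun_prop : Continuous fun r : ℝ => ((s + r, t + r) : ℂ × ℂ))
  have hlim : Tendsto (fun r : ℝ => Φ (s + r) (t + r)) (𝓝[>] 0) (𝓝 (Φ s t)) := by
    have := (hc.tendsto 0).mono_left (nhdsWithin_le_nhds (s := Set.Ioi 0))
    simpa using this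
  refine ge_of_tendsto hlim ?_
  filter_upwards [self_mem_nhdsWithin] with r hr
  have hr' : (0 : ℝ) < r := hr
  refine h _ _ ?_ ?_
  · rw [add_re, ofReal_re]; linarith
  · rw [add_re, ofReal_re]; linarith

/-- **TRIPLE.** Three rays with `e = 2`. -/
theorem triple_pt {V f κ B : ℂ} {a b c : ℝ} (ha : a ≤ 1) (hb : b ≤ 1) (hc : c ≤ 1)
    (hB : B = 0 ∨ (a = 1 ∧ b = 1 ∧ (B = 1 ∨ ‖B - 1‖ = 1)))
    (h : ∀ s1 s2 s3 y0 y1 : ℂ, -(1 / 2) < s1.re → -(1 / 2) < s2.re → -(1 / 2) < s3.re →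
      ‖y0‖ < 1 → ‖y1‖ < 1 → V + f * ((1 - y0) * (1 - y1) - κ) + 2 * s1 + 2 * s2 + 2 * s3 +
        a * (s1 * s2) + b * (s1 * s3) + c * (s2 * s3) + B * (s1 * s2 * s3) ≠ 0) {w : ℂ}
    (hw : ‖w‖ = 1) : 9 / 4 ≤ (V + ((1 + w) ^ 2 - κ) * f).re := by
  have key : ∀ y0 y1 : ℂ, ‖y0‖ < 1 → ‖y1‖ < 1 → ∀ s2 s3 : ℂ, -(1 / 2) ≤ s2.re →
      -(1 / 2) ≤ s3.re → 0 ≤ 2 * ((V + f * ((1 - y0) * (1 - y1) - κ) + 2 * s2 + 2 * s3 +
        c * (s2 * s3)) * (starRingEnd ℂ) (2 + a * s2 + b * s3 + B * (s2 * s3))).re -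
          ‖2 + a * s2 + b * s3 + B * (s2 * s3)‖ ^ 2 := by
    intro y0 y1 h0 h1 s2 s3 hs2 hs3
    refine lim_s (Φ := fun s2 s3 => 2 * ((V + f * ((1 - y0) * (1 - y1) - κ) + 2 * s2 + 2 * s3 +
        c * (s2 * s3)) * (starRingEnd ℂ) (2 + a * s2 + b * s3 + B * (s2 * s3))).re -
          ‖2 + a * s2 + b * s3 + B * (s2 * s3)‖ ^ 2) (by fun_prop) ?_ hs2 hs3
    intro s2 s3 hs2 hs3
    have h2 := half (X := V + f * ((1 - y0) * (1 - y1) - κ) + 2 * s2 + 2 * s3 +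
        c * (s2 * s3)) (e := 2 + a * s2 + b * s3 + B * (s2 * s3)) fun s hs h3 =>
          h s s2 s3 y0 y1 hs hs2 hs3 h0 h1 (by linear_combination h3)
    linarith
  suffices hS : ∃ η r : ℝ, 1 ≤ r ∧
      2 + a * (-(1 / 2) : ℂ) + b * (-(1 / 2) + η * I) + B * (-(1 / 2) * (-(1 / 2) + η * I)) =
        (r : ℂ) by
    obtain ⟨η, r, hr, hrr⟩ := hS
    have h2 := lim_y (Φ := fun ρ => (V + (ρ - κ) * f).re - 9 / 4) (by fun_prop) (fun y0 y1 h0 h1 => by
      have h3 := key y0 y1 h0 h1 (-(1 / 2)) (-(1 / 2) + η * I) (by simp)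
        (by simp)
      rw [hrr, conj_ofReal, norm_real, Real.norm_of_nonneg (by linarith)] at h3
      have h4 : ((V + f * ((1 - y0) * (1 - y1) - κ) + 2 * (-(1 / 2)) + 2 * (-(1 / 2) + η * I) +
        c * (-(1 / 2) * (-(1 / 2) + η * I))) * (r : ℂ)).re =
          r * ((V + ((1 - y0) * (1 - y1) - κ) * f).re - 2 + c / 4) := by
        have h5 : (V + f * ((1 - y0) * (1 - y1) - κ) + 2 * (-(1 / 2)) + 2 * (-(1 / 2) + η * I) +
          c * (-(1 / 2) * (-(1 / 2) + η * I))) * (r : ℂ) =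
            ((r : ℝ) : ℂ) * (V + ((1 - y0) * (1 - y1) - κ) * f + ((-2 + c / 4 : ℝ) : ℂ) +
              ((2 * η - c * η / 2 : ℝ) : ℂ) * I) := by
          push_cast
          ring
        rw [h5, re_ofReal_mul, add_re, add_re, ofReal_re, re_ofReal_mul, I_re, mul_zero]
        ring
      rw [h4] at h3
      have h5 : 0 ≤ r * (2 * ((V + ((1 - y0) * (1 - y1) - κ) * f).re - 2 + c / 4) - r) := by
        linarith
      have h6 : 0 ≤ 2 * ((V + ((1 - y0) * (1 - y1) - κ) * f).re - 2 + c / 4) - r :=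
        nonneg_of_mul_nonneg_right h5 (by linarith)
      linarith) hw
    linarith
  rcases hB with hB | ⟨ha1, hb1, hB⟩
  · refine ⟨0, 2 - a / 2 - b / 2, by linarith, ?_⟩
    rw [hB]
    push_cast
    ring
  · rcases hB with hB | hB
    · refine ⟨0, 5 / 4, by norm_num, ?_⟩
      rw [hB, ha1, hb1]
      push_cast
      ring
    · set m : ℂ := 1 - B with hm
      have hBm : B = 1 - m := by rw [hm]; ring
      have hm1 : m.re ^ 2 + m.im ^ 2 = 1 := by
        have h1 : ‖m‖ = 1 := by rw [hm, ← hB, norm_sub_rev]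
        have h2 := normSq_eq_norm_sq m
        rw [h1, normSq_apply] at h2
        nlinarith
      by_cases hd : 1 + m.re = 0
      · have him : m.im = 0 := by
          have : m.re = -1 := by linarith
          rw [this] at hm1
          nlinarith
        have hmm : m = -1 := by
          apply Complex.ext
          · simp; linarith
          · simp [him]
        refine ⟨0, 3 / 2, by norm_num, ?_⟩
        rw [hBm, hmm, ha1, hb1]
        push_cast
        ring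
      · refine ⟨m.im / (2 * (1 + m.re)), 1, le_rfl, ?_⟩
        rw [hBm, ha1, hb1]
        have hη : m.im / (2 * (1 + m.re)) * (1 + m.re) = m.im / 2 := by field_simp
        set η : ℝ := m.im / (2 * (1 + m.re)) with hηd
        have hη2 : η * m.im = (1 - m.re) / 2 := by
          have h1 : η * m.im * (1 + m.re) = (1 - m.re) / 2 * (1 + m.re) := by
            have : η * m.im * (1 + m.re) = (η * (1 + m.re)) * m.im := by ring
            rw [this, hη]
            nlinarith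
          exact mul_right_cancel₀ hd h1
        apply Complex.ext
        · simp
          linarith
        · simp
          linarith

end Pool.Agent.B5.O4F
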