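import Pool.Agent.Lib.MP_b5021c_nt.KO.H42.Cer

/-!
# Board b5: inequalities which hold on the cardioid `(1 + w)²` hold on the disc `|t - 7/4| ≤ 9/4`

For complex `A0, A1, B` the inequality `|A1 - t B| ≤ |A0 - t B|` is affine in `t`; if it holds for
all `t = (1 + w)²`, `|w| = 1`, it holds on the convex hull of this curve, which contains the disc
`|t - 7/4| ≤ 9/4`, and so the disc `|t| ≤ 1/2`.
-/

namespace Pool.Agent.B5.H42.Hul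

open Complex

/-- The affine form. -/
theorem aff {A G : ℂ} (h : ∀ w : ℂ, ‖w‖ = 1 → 0 ≤ (A + 2 * ((1 + w) ^ 2 * G)).re) {t : ℂ}
    (ht : ‖t - 7 / 4‖ ≤ 9 / 4) : 0 ≤ (A + 2 * (t * G)).re := by
  have h1 := O4C.disc h
  have h2 : (A + 2 * (t * G)).re = (A + 7 / 2 * G).re + 2 * ((t - 7 / 4) * G).re := by
    have : A + 2 * (t * G) = (A + 7 / 2 * G) + (2 : ℝ) * ((t - 7 / 4) * G) := by
      push_cast; ring
    rw [this, add_re, re_ofReal_mul]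
  have h3 : -‖(t - 7 / 4) * G‖ ≤ ((t - 7 / 4) * G).re := by
    have := abs_re_le_norm ((t - 7 / 4) * G)
    rw [abs_le] at this
    exact this.1
  rw [norm_mul] at h3
  have h4 : ‖t - 7 / 4‖ * ‖G‖ ≤ 9 / 4 * ‖G‖ :=
    mul_le_mul_of_nonneg_right ht (norm_nonneg _)
  rw [h2]
  linarith

/-- Difference of squares of `|A0 - t B|` and `|A1 - t B|`. -/
theorem diff (A0 A1 B t : ℂ) : ‖A0 - t * B‖ ^ 2 - ‖A1 - t * B‖ ^ 2 =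
    (((‖A0‖ ^ 2 - ‖A1‖ ^ 2 : ℝ) : ℂ) + 2 * (t * (-(B * (starRingEnd ℂ) (A0 - A1))))).re := by
  rw [← normSq_eq_norm_sq, ← normSq_eq_norm_sq, ← normSq_eq_norm_sq, ← normSq_eq_norm_sq]
  simp only [normSq_apply, sub_re, sub_im, mul_re, mul_im, add_re, neg_re, neg_im, ofReal_re,
    conj_re, conj_im, re_ofNat, im_ofNat]
  ring

/-- **Hull lemma.**  From the cardioid to the disc `|t - 7/4| ≤ 9/4`. -/
theorem hull {A0 A1 B : ℂ}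
    (h : ∀ w : ℂ, ‖w‖ = 1 → ‖A1 - (1 + w) ^ 2 * B‖ ≤ ‖A0 - (1 + w) ^ 2 * B‖) {t : ℂ}
    (ht : ‖t - 7 / 4‖ ≤ 9 / 4) : ‖A1 - t * B‖ ≤ ‖A0 - t * B‖ := by
  have h1 : ∀ w : ℂ, ‖w‖ = 1 → 0 ≤ (((‖A0‖ ^ 2 - ‖A1‖ ^ 2 : ℝ) : ℂ) +
      2 * ((1 + w) ^ 2 * (-(B * (starRingEnd ℂ) (A0 - A1))))).re := by
    intro w hw
    rw [← diff]
    have := h w hw
    have h0 := norm_nonneg (A1 - (1 + w) ^ 2 * B)
    nlinarith
  have h2 := aff h1 ht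
  rw [← diff] at h2
  exact le_of_sq_le_sq (by linarith) (norm_nonneg _)

/-- The disc `|t| ≤ 1/2`. -/
theorem hull' {A0 A1 B : ℂ}
    (h : ∀ w : ℂ, ‖w‖ = 1 → ‖A1 - (1 + w) ^ 2 * B‖ ≤ ‖A0 - (1 + w) ^ 2 * B‖) {t : ℂ}
    (ht : ‖t‖ ≤ 1 / 2) : ‖A1 - t * B‖ ≤ ‖A0 - t * B‖ := by
  refine hull h ?_
  have h1 : ‖t - 7 / 4‖ ≤ ‖t‖ + ‖(7 / 4 : ℂ)‖ := norm_sub_le _ _
  have h2 : ‖(7 / 4 : ℂ)‖ = 7 / 4 := by norm_num
  linarith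

/-- `t = 0`. -/
theorem hull0 {A0 A1 B : ℂ}
    (h : ∀ w : ℂ, ‖w‖ = 1 → ‖A1 - (1 + w) ^ 2 * B‖ ≤ ‖A0 - (1 + w) ^ 2 * B‖) :
    ‖A1‖ ≤ ‖A0‖ := by
  have := hull' h (t := 0) (by norm_num)
  simpa using this

/-- In the open disc `|t - 7/4| < 9/4` equality forces `A0 = A1` or `B = 0` (and `|A0| = |A1|`). -/
theorem hull_eq {A0 A1 B : ℂ}
    (h : ∀ w : ℂ, ‖w‖ = 1 → ‖A1 - (1 + w) ^ 2 * B‖ ≤ ‖A0 - (1 + w) ^ 2 * B‖) {t : ℂ}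
    (ht : ‖t - 7 / 4‖ < 9 / 4) (he : ‖A1 - t * B‖ = ‖A0 - t * B‖) : A0 = A1 ∨ B = 0 := by
  have h1 : ∀ w : ℂ, ‖w‖ = 1 → 0 ≤ (((‖A0‖ ^ 2 - ‖A1‖ ^ 2 : ℝ) : ℂ) +
      2 * ((1 + w) ^ 2 * (-(B * (starRingEnd ℂ) (A0 - A1))))).re := by
    intro w hw
    rw [← diff]
    have := h w hw
    have h0 := norm_nonneg (A1 - (1 + w) ^ 2 * B)
    nlinarith
  have h2 := O4C.disc h1
  have h3 : (((‖A0‖ ^ 2 - ‖A1‖ ^ 2 : ℝ) : ℂ) +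
      2 * (t * (-(B * (starRingEnd ℂ) (A0 - A1))))).re = 0 := by
    rw [← diff, he]; ring
  set G : ℂ := -(B * (starRingEnd ℂ) (A0 - A1)) with hG
  set A : ℂ := ((‖A0‖ ^ 2 - ‖A1‖ ^ 2 : ℝ) : ℂ) with hA
  have h4 : (A + 2 * (t * G)).re = (A + 7 / 2 * G).re + 2 * ((t - 7 / 4) * G).re := by
    have : A + 2 * (t * G) = (A + 7 / 2 * G) + (2 : ℝ) * ((t - 7 / 4) * G) := by
      push_cast; ring
    rw [this, add_re, re_ofReal_mul]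
  have h5 : -‖(t - 7 / 4) * G‖ ≤ ((t - 7 / 4) * G).re := by
    have := abs_re_le_norm ((t - 7 / 4) * G)
    rw [abs_le] at this
    exact this.1
  rw [norm_mul] at h5
  have h6 : (9 / 4 - ‖t - 7 / 4‖) * ‖G‖ ≤ 0 := by
    rw [h3] at h4
    nlinarith
  have h7 : ‖G‖ ≤ 0 := by
    by_contra hc
    push Not at hc
    have : 0 < (9 / 4 - ‖t - 7 / 4‖) * ‖G‖ := mul_pos (by linarith) hc
    linarith
  have h8 : G = 0 := by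
    rw [← norm_eq_zero]
    exact le_antisymm h7 (norm_nonneg _)
  rw [hG, neg_eq_zero, mul_eq_zero] at h8
  rcases h8 with h8 | h8
  · exact Or.inr h8
  · left
    rw [map_eq_zero] at h8
    exact sub_eq_zero.mp h8

end Pool.Agent.B5.H42.Hul
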