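import Pool.Agent.Lib.MP_b5021c_nt.KO.H42.J2W

/-!
# MP_b5021c_nt, all `θ`, K = 5 (`j = 2`), leaf (O1-iv): ROW A and ROW B (finding 3593)
-/

namespace Pool.Agent.B5.KO42

open Polynomial Metric
open Pool.Agent.B5.Nr.Sch (p5)
open Pool.Agent.B5.Nr.Car (Cara)

theorem v_le {v c x al : ℝ} (hx : 0 < x) (hvc : 0 < v + c) (h : v - c ≤ al * (x * (v + c))) :
    (v - c) / (x * (v + c)) ≤ al := (div_le_iff₀ (mul_pos hx hvc)).mpr h

theorem le_v {v c x be : ℝ} (hx : 0 < x) (hvc : 0 < v + c) (h : be * (x * (v + c)) ≤ v - c) :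
    be ≤ (v - c) / (x * (v + c)) := (le_div_iff₀ (mul_pos hx hvc)).mpr h

theorem s_le {u g x al : ℝ} (hx : 0 < x) (hvc : 0 < 1 - g * u)
    (h : u - g ≤ al * (x * (1 - g * u))) :
    (u - g) / (x * (1 - g * u)) ≤ al := (div_le_iff₀ (mul_pos hx hvc)).mpr h

theorem le_s {u g x be : ℝ} (hx : 0 < x) (hvc : 0 < 1 - g * u)
    (h : be * (x * (1 - g * u)) ≤ u - g) :
    be ≤ (u - g) / (x * (1 - g * u)) := (le_div_iff₀ (mul_pos hx hvc)).mpr h

section

variable {q f : ℤ[X]} {t : ℤ} {k : ℕ}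

theorem W2.wr_nonneg (h : W2 q f t k) {x : ℝ} (hx0 : 0 ≤ x) (hx : x < 1) : 0 ≤ wr f t k x := by
  have := h.cara.re (x : ℂ) (by rw [Complex.norm_real, Real.norm_eq_abs, abs_of_nonneg hx0]; exact hx)
  rwa [WW_real, Complex.ofReal_re] at this

theorem W2.E0 (h : W2 q f t k) : (EE t k).coeff 0 = 2 := by
  have hk : (0 : ℕ) ≠ k := by have := h.k1; omega
  rw [EE_coeff]
  simp [hk]

theorem W2.W0 (h : W2 q f t k) : WW f t k 0 = ((((NW f t k).coeff 0 : ℝ) / 2 : ℝ) : ℂ) := by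
  have e : ∀ p : ℤ[X], aeval (0 : ℂ) p = (p.coeff 0 : ℂ) := by
    intro p
    rw [← coeff_zero_eq_aeval_zero']
    rfl
  rw [WW, e, e, h.E0]
  push_cast
  rfl

/-- the upper bound for `W(0)` -/
theorem W2.m_le (h : W2 q f t k) : (NW f t k).coeff 0 ≤ 3 := by
  have h1 := h.cara.lo (x := 0) (y := 1 / 3) le_rfl (by norm_num) (by norm_num)
  rw [Complex.ofReal_zero, h.W0, WW_real, Complex.ofReal_re, Complex.ofReal_re] at h1
  have h2 := h.w3
  have h3 : ((NW f t k).coeff 0 : ℝ) < 4 := by linarith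
  have h4 : (NW f t k).coeff 0 < 4 := by exact_mod_cast h3
  omega

theorem W2.m_pos (h : W2 q f t k) {y : ℝ} (hy0 : 0 ≤ y) (hy : y < 1) (hw : 0 < wr f t k y) :
    0 < (NW f t k).coeff 0 := by
  have h1 := h.cara.up (x := 0) (y := y) le_rfl hy0 hy
  rw [Complex.ofReal_zero, h.W0, WW_real, Complex.ofReal_re, Complex.ofReal_re] at h1
  have h3 : (0 : ℝ) < (NW f t k).coeff 0 := by
    have h4 : 0 < wr f t k y * ((1 + 0) * (1 - y)) := mul_pos hw (by linarith)
    by_contra hcon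
    push Not at hcon
    have : ((NW f t k).coeff 0 : ℝ) / 2 * ((1 - 0) * (1 + y)) ≤ 0 :=
      mul_nonpos_of_nonpos_of_nonneg (by linarith) (by linarith)
    linarith
  exact_mod_cast h3

/-- the first Schur function -/
theorem W2.go (h : W2 q f t k) (hm : 0 < (NW f t k).coeff 0) : ∃ s : ℂ → ℂ, Sd 4 s
      (p5 ((NW f t k).coeff 1 - (NW f t k).coeff 0 / 2 * (EE t k).coeff 1)
        ((NW f t k).coeff 2 - (NW f t k).coeff 0 / 2 * (EE t k).coeff 2)
        ((NW f t k).coeff 3 - (NW f t k).coeff 0 / 2 * (EE t k).coeff 3)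
        ((NW f t k).coeff 4 - (NW f t k).coeff 0 / 2 * (EE t k).coeff 4)
        ((NW f t k).coeff 5 - (NW f t k).coeff 0 / 2 * (EE t k).coeff 5))
      (p5 (2 * (NW f t k).coeff 0)
        ((NW f t k).coeff 1 + (NW f t k).coeff 0 / 2 * (EE t k).coeff 1)
        ((NW f t k).coeff 2 + (NW f t k).coeff 0 / 2 * (EE t k).coeff 2)
        ((NW f t k).coeff 3 + (NW f t k).coeff 0 / 2 * (EE t k).coeff 3)
        ((NW f t k).coeff 4 + (NW f t k).coeff 0 / 2 * (EE t k).coeff 4)) ∧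
      ∀ x : ℝ, 0 < x → x < 1 → s x = (((wr f t k x - (NW f t k).coeff 0 / 2) /
        (x * (wr f t k x + (NW f t k).coeff 0 / 2)) : ℝ) : ℂ) := by
  have hm' : (0 : ℝ) < ((NW f t k).coeff 0 : ℝ) / 2 := by
    have : (0 : ℝ) < ((NW f t k).coeff 0 : ℝ) := by exact_mod_cast hm
    linarith
  obtain ⟨s, hs, hv⟩ := start h.cara hm' h.W0 (N := (NW f t k).map (Int.castRingHom ℝ))
    (E := (EE t k).map (Int.castRingHom ℝ)) (fun z hz => by
      rw [Pool.Agent.B5.Nr.Sch.aeval_map_real, Pool.Agent.B5.Nr.Sch.aeval_map_real, WW,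
        div_mul_cancel₀ _ (EE_ne h.t1 k hz.le)])
  refine ⟨s, ?_, fun x hx0 hx1 => hv x _ hx0 hx1 (WW_real f t k x)⟩
  simp only [coeff_map, eq_intCast] at hs
  have e : ((NW f t k).coeff 0 : ℝ) + (NW f t k).coeff 0 / 2 * (EE t k).coeff 0 =
      2 * (NW f t k).coeff 0 := by
    rw [h.E0]; push_cast; ring
  rw [e] at hs
  exact hs

theorem pbd {p : ℝ} (hp0 : 0 < p) (hp : p ^ 2 + 2 * p = 1) : 0.414 < p ∧ p < 0.4143 := by
  constructor <;> nlinarith

/-- The case `W(0) = 1`: the coefficients. -/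
theorem W2.two (h : W2 q f t k) (hm : (NW f t k).coeff 0 = 2) :
    (EE t k).coeff 1 = 0 ∧ f.coeff 1 = -1 ∧ (NW f t k).coeff 1 = (EE t k).coeff 2 - 2 * f.coeff 2 := by
  have h1 := h.NW_coeff0
  rw [hm, h.E0, h.f0] at h1
  have h2 : (EE t k).coeff 1 = if 1 = k then t else 0 := by
    rw [EE_coeff]; simp
  have h3 := abs_le.mp h.t1
  have h4 : (EE t k).coeff 1 = 0 := by
    split_ifs at h2 <;> omega
  have h5 := h.NW_coeff 0
  rw [h.E0] at h5
  simp only [zero_add] at h5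
  refine ⟨h4, by omega, by omega⟩

/-- **ROW A.** -/
theorem W2.rowA (h : W2 q f t k) {p : ℝ} (hp0 : 0 < p) (hp : p ^ 2 + 2 * p = 1)
    (hB : (aeval p q : ℝ) + p * aeval p f ≤ 0)
    (hV : (3 / 5) * (aeval (3 / 5 : ℝ) (EE t k) : ℝ) < (8 / 5) ^ 2 * aeval (3 / 5 : ℝ) f) :
    False := by
  obtain ⟨hp1, hp2⟩ := pbd hp0 hp
  have w3 := h.w3
  have wb := h.wb hp0 hp hB
  have w35 := h.w35 hV
  have n3 := h.wr_nonneg (x := 1 / 3) (by norm_num) (by norm_num)
  have n35 := h.wr_nonneg (x := 3 / 5) (by norm_num) (by norm_num)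
  have hm0 := h.m_pos hp0.le (by linarith) (by linarith)
  have hm3 := h.m_le
  obtain ⟨s, hs, hv⟩ := h.go hm0
  have v3 := hv (1 / 3) (by norm_num) (by norm_num)
  have vb := hv p hp0 (by linarith)
  have v35 := hv (3 / 5) (by norm_num) (by norm_num)
  obtain ⟨m, hm⟩ : ∃ m, m = (NW f t k).coeff 0 := ⟨_, rfl⟩
  rw [← hm] at hm0 hm3 hs v3 vb v35
  have hcase : m = 1 ∨ m = 2 ∨ m = 3 := by omega
  rcases hcase with h1 | h1 | h1
  · -- `W(0) = 1/2`
    rw [h1] at vb v35
    simp only [Int.cast_one] at vb v35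
    refine dead' hs hp0.le (by linarith) (by norm_num) vb v35 (be := (p + 2) / 3)
      (al := 95 / 237) ?_ ?_ ?_
    · apply le_v hp0 (by linarith)
      have e : (p + 2) / 3 * (p * (wr f t k p + 1 / 2)) = (wr f t k p + 1 / 2) / 3 := by
        linear_combination (wr f t k p + 1 / 2) / 3 * hp
      rw [e]
      linarith
    · apply v_le (by norm_num) (by linarith)
      linarith
    · nlinarith
  · -- `W(0) = 1`
    rw [h1] at v3 vb v35 hs
    simp only [Int.cast_ofNat] at v3 vb v35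
    obtain ⟨e1, -, e3⟩ := h.two (hm.symm.trans h1)
    obtain ⟨r, hr⟩ : ∃ r : ℤ, r = (EE t k).coeff 2 - 2 * f.coeff 2 := ⟨_, rfl⟩
    rw [e1, e3, ← hr] at hs
    have b0 : (2 : ℝ) * ((2 : ℤ) : ℝ) ≠ 0 := by norm_num
    have hs0 := hs.z5 b0
    have hs0' : s ((0 : ℝ) : ℂ) = ((r / 4 : ℝ) : ℂ) := by
      rw [Complex.ofReal_zero, hs0]
      congr 1
      push_cast
      ring
    have u3 : (wr f t k (1 / 3) - 2 / 2) / (1 / 3 * (wr f t k (1 / 3) + 2 / 2)) ≤ 0 :=
      v_le (by norm_num) (by linarith) (by linarith)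
    have ub : 0 ≤ (wr f t k p - 2 / 2) / (p * (wr f t k p + 2 / 2)) :=
      le_v hp0 (by linarith) (by linarith)
    have u35 : (wr f t k (3 / 5) - 2 / 2) / (3 / 5 * (wr f t k (3 / 5) + 2 / 2)) ≤ -(55 / 327) :=
      v_le (by norm_num) (by linarith) (by linarith)
    have hr1 : r ≤ 1 := by
      by_contra hcon
      push Not at hcon
      have h2 : (2 : ℝ) ≤ r := by exact_mod_cast hcon
      refine dead' hs (x := 0) (y := 1 / 3) le_rfl (by norm_num) (by norm_num) hs0' v3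
        (be := 1 / 2) (al := 0) (by linarith) u3 (by norm_num)
    have hr2 : -1 ≤ r := by
      by_contra hcon
      push Not at hcon
      have h2 : (r : ℝ) ≤ -2 := by exact_mod_cast (by omega : r ≤ -2)
      refine dead hs (x := 0) (y := p) le_rfl hp0 (by linarith) hs0' vb
        (al := -(1 / 2)) (be := 0) (by linarith) ub (by linarith)
    -- one step
    obtain ⟨s1, hs1, hv1⟩ := hs.step5 (by
      have h2 : |(r : ℝ)| ≤ 1 := abs_le.mpr ⟨by exact_mod_cast hr2, by exact_mod_cast hr1⟩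
      have e : ((r : ℝ) - ((2 : ℤ) : ℝ) / 2 * ((0 : ℤ) : ℝ)) = r := by push_cast; ring
      rw [e]
      calc |(r : ℝ)| ≤ 1 := h2
        _ < |2 * ((2 : ℤ) : ℝ)| := by norm_num)
    have eg : ((r : ℝ) - ((2 : ℤ) : ℝ) / 2 * ((0 : ℤ) : ℝ)) / (2 * ((2 : ℤ) : ℝ)) = r / 4 := by
      push_cast; ring
    have hv1' : ∀ x v : ℝ, 0 < x → x < 1 → s x = v →
        s1 x = (((v - r / 4) / (x * (1 - r / 4 * v)) : ℝ) : ℂ) := by
      intro x v hx0 hx1 hxv
      have := hv1 x v hx0 hx1 hxv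
      rw [eg] at this
      exact this
    have s3 := hv1' _ _ (by norm_num) (by norm_num) v3
    have sb := hv1' _ _ hp0 (by linarith) vb
    have s35 := hv1' _ _ (by norm_num) (by norm_num) v35
    -- the values are between `-1` and `1`
    have m35 : -1 ≤ (wr f t k (3 / 5) - 2 / 2) / (3 / 5 * (wr f t k (3 / 5) + 2 / 2)) := by
      have := hs.le ((3 / 5 : ℝ) : ℂ) (by rw [Complex.norm_real]; norm_num)
      rw [v35, Complex.norm_real, Real.norm_eq_abs] at this
      exact (abs_le.mp this).1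
    have m3 : -1 ≤ (wr f t k (1 / 3) - 2 / 2) / (1 / 3 * (wr f t k (1 / 3) + 2 / 2)) := by
      have := hs.le ((1 / 3 : ℝ) : ℂ) (by rw [Complex.norm_real]; norm_num)
      rw [v3, Complex.norm_real, Real.norm_eq_abs] at this
      exact (abs_le.mp this).1
    have mb : (wr f t k p - 2 / 2) / (p * (wr f t k p + 2 / 2)) ≤ 1 := by
      have := hs.le (p : ℂ) (by
        rw [Complex.norm_real, Real.norm_eq_abs, abs_of_pos hp0]; linarith)
      rw [vb, Complex.norm_real, Real.norm_eq_abs] at this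
      exact (abs_le.mp this).2
    set a3 := (wr f t k (1 / 3) - 2 / 2) / (1 / 3 * (wr f t k (1 / 3) + 2 / 2)) with ha3
    set ab := (wr f t k p - 2 / 2) / (p * (wr f t k p + 2 / 2)) with hab
    set a35 := (wr f t k (3 / 5) - 2 / 2) / (3 / 5 * (wr f t k (3 / 5) + 2 / 2)) with ha35
    have hrc : r = -1 ∨ r = 0 ∨ r = 1 := by omega
    rcases hrc with hr3 | hr3 | hr3
    · rw [hr3] at sb s35
      simp only [Int.cast_neg, Int.cast_one] at sb s35
      refine dead' hs1 hp0.le (by linarith) (by norm_num) sb s35 (be := 3 / 5)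
        (al := 3 / 20) ?_ ?_ ?_
      · exact le_s hp0 (by linarith) (by nlinarith)
      · exact s_le (by norm_num) (by linarith) (by nlinarith)
      · nlinarith
    · rw [hr3] at sb s35
      simp only [Int.cast_zero] at sb s35
      refine dead' hs1 hp0.le (by linarith) (by norm_num) sb s35 (be := 0)
        (al := -(275 / 981)) ?_ ?_ ?_
      · exact le_s hp0 (by linarith) (by linarith)
      · exact s_le (by norm_num) (by linarith) (by linarith)
      · nlinarith
    · rw [hr3] at sb s3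
      simp only [Int.cast_one] at sb s3
      refine dead hs1 (by norm_num) (by linarith) (by linarith) s3 sb (al := -(3 / 4))
        (be := -(61 / 100)) ?_ ?_ ?_
      · exact s_le (by norm_num) (by linarith) (by linarith)
      · exact le_s hp0 (by linarith) (by nlinarith)
      · nlinarith
  · -- `W(0) = 3/2`
    rw [h1] at v3 vb
    simp only [Int.cast_ofNat] at v3 vb
    refine dead hs (by norm_num) (by linarith) (by linarith) v3 vb (al := -(3 / 5))
      (be := -((p + 2) / 5)) ?_ ?_ ?_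
    · exact v_le (by norm_num) (by linarith) (by linarith)
    · apply le_v hp0 (by linarith)
      have e : -((p + 2) / 5) * (p * (wr f t k p + 3 / 2)) = -(wr f t k p + 3 / 2) / 5 := by
        linear_combination -(wr f t k p + 3 / 2) / 5 * hp
      rw [e]
      linarith
    · nlinarith

end

end Pool.Agent.B5.KO42
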