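import Pool.Agent.Lib.MP_b5021c_nt.KO.H42.J2A

/-!
# MP_b5021c_nt, all `θ`, K = 5 (`j = 2`), leaf (O1-iv): ROW B (finding 3593)
-/

namespace Pool.Agent.B5.KO42

open Polynomial Metric
open Pool.Agent.B5.Nr.Sch (p5)
open Pool.Agent.B5.Nr.Car (Cara)

section

variable {q f : ℤ[X]} {t : ℤ} {k : ℕ}

/-- The values of a Schur function are between `-1` and `1`. -/
theorem Sd.abs_le {n : ℕ} {s : ℂ → ℂ} {A B : ℝ[X]} (h : Sd n s A B) {x v : ℝ} (hx : |x| < 1)
    (hv : s x = v) : -1 ≤ v ∧ v ≤ 1 := by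
  have := h.le (x : ℂ) (by rw [Complex.norm_real, Real.norm_eq_abs]; exact hx)
  rw [hv, Complex.norm_real, Real.norm_eq_abs] at this
  exact _root_.abs_le.mp this

/-- The case `W(0) = 1`. -/
theorem W2.rowB2 (h : W2 q f t k) (w3 : wr f t k (1 / 3) < 1) (w2 : 7 / 6 ≤ wr f t k (1 / 2))
    (hm : (NW f t k).coeff 0 = 2) : False := by
  have n3 := h.wr_nonneg (x := 1 / 3) (by norm_num) (by norm_num)
  obtain ⟨s, hs, hv⟩ := h.go (by omega)
  have v3 := hv (1 / 3) (by norm_num) (by norm_num)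
  have v2 := hv (1 / 2) (by norm_num) (by norm_num)
  rw [hm] at hs v3 v2
  simp only [Int.cast_ofNat] at v3 v2
  obtain ⟨e1, ef1, e3⟩ := h.two hm
  obtain ⟨r, hr⟩ : ∃ r : ℤ, r = (EE t k).coeff 2 - 2 * f.coeff 2 := ⟨_, rfl⟩
  rw [e1, e3, ← hr] at hs
  have b0 : (2 : ℝ) * ((2 : ℤ) : ℝ) ≠ 0 := by norm_num
  have hs0 := hs.z5 b0
  have hs0' : s ((0 : ℝ) : ℂ) = ((r / 4 : ℝ) : ℂ) := by
    rw [Complex.ofReal_zero, hs0]
    congr 1
    push_cast
    ring
  have u3 : (wr f t k (1 / 3) - 2 / 2) / (1 / 3 * (wr f t k (1 / 3) + 2 / 2)) ≤ 0 :=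
    v_le (by norm_num) (by linarith) (by linarith)
  have u2 : 2 / 13 ≤ (wr f t k (1 / 2) - 2 / 2) / (1 / 2 * (wr f t k (1 / 2) + 2 / 2)) :=
    le_v (by norm_num) (by linarith) (by linarith)
  have hr1 : r ≤ 1 := by
    by_contra hcon
    push Not at hcon
    have h2 : (2 : ℝ) ≤ r := by exact_mod_cast hcon
    refine dead' hs (x := 0) (y := 1 / 3) le_rfl (by norm_num) (by norm_num) hs0' v3
      (be := 1 / 2) (al := 0) (by linarith) u3 (by norm_num)
  have hr2 : -1 ≤ r := by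
    by_contra hcon
    push Not at hcon
    have h2 : (r : ℝ) ≤ -2 := by exact_mod_cast (by omega : r ≤ -2)
    refine dead hs (x := 0) (y := 1 / 2) le_rfl (by norm_num) (by norm_num) hs0' v2
      (al := -(1 / 2)) (be := 2 / 13) (by linarith) u2 (by norm_num)
  obtain ⟨s1, hs1, hv1⟩ := hs.step5 (by
    have h2 : |(r : ℝ)| ≤ 1 := _root_.abs_le.mpr ⟨by exact_mod_cast hr2, by exact_mod_cast hr1⟩
    have e : ((r : ℝ) - ((2 : ℤ) : ℝ) / 2 * ((0 : ℤ) : ℝ)) = r := by push_cast; ring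
    rw [e]
    calc |(r : ℝ)| ≤ 1 := h2
      _ < |2 * ((2 : ℤ) : ℝ)| := by norm_num)
  have eg : ((r : ℝ) - ((2 : ℤ) : ℝ) / 2 * ((0 : ℤ) : ℝ)) / (2 * ((2 : ℤ) : ℝ)) = r / 4 := by
    push_cast; ring
  have hv1' : ∀ x v : ℝ, 0 < x → x < 1 → s x = v →
      s1 x = (((v - r / 4) / (x * (1 - r / 4 * v)) : ℝ) : ℂ) := by
    intro x v hx0 hx1 hxv
    have := hv1 x v hx0 hx1 hxv
    rw [eg] at this
    exact this
  have s3 := hv1' _ _ (by norm_num) (by norm_num) v3
  have s2 := hv1' _ _ (by norm_num) (by norm_num) v2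
  have m3 := (hs.abs_le (by rw [abs_of_pos] <;> norm_num) v3).1
  have m2 := (hs.abs_le (by rw [abs_of_pos] <;> norm_num) v2).2
  set a3 := (wr f t k (1 / 3) - 2 / 2) / (1 / 3 * (wr f t k (1 / 3) + 2 / 2)) with ha3
  set a2 := (wr f t k (1 / 2) - 2 / 2) / (1 / 2 * (wr f t k (1 / 2) + 2 / 2)) with ha2
  have hrc : r = -1 ∨ r = 0 ∨ r = 1 := by omega
  rcases hrc with hr3 | hr3 | hr3
  · -- `W_1 = -1/2`
    rw [hr3] at s2 s3
    simp only [Int.cast_neg, Int.cast_one] at s2 s3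
    have p3 : (a3 - -1 / 4) / (1 / 3 * (1 - -1 / 4 * a3)) ≤ 3 / 4 :=
      s_le (by norm_num) (by linarith) (by linarith)
    have p2 : 7 / 9 ≤ (a2 - -1 / 4) / (1 / 2 * (1 - -1 / 4 * a2)) :=
      le_s (by norm_num) (by linarith) (by linarith)
    set b3 := (a3 - -1 / 4) / (1 / 3 * (1 - -1 / 4 * a3)) with hb3
    set b2 := (a2 - -1 / 4) / (1 / 2 * (1 - -1 / 4 * a2)) with hb2
    have q2 := (hs1.abs_le (by rw [abs_of_pos] <;> norm_num) s2).2
    -- `k = 2`
    have hE2 : (EE t k).coeff 2 = if 2 = k then t else 0 := by rw [EE_coeff]; simp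
    have hk : 2 = k := by
      by_contra hne
      rw [if_neg hne] at hE2
      omega
    rw [if_pos hk] at hE2
    have hE3 : (EE t k).coeff 3 = 0 := by rw [EE_coeff, ← hk]; simp
    have hE4 : (EE t k).coeff 4 = 0 := by rw [EE_coeff, ← hk]; simp
    have ht1 := _root_.abs_le.mp h.t1
    have c2 := h.NW_coeff 1
    have c3 := h.NW_coeff 2
    simp only [Nat.reduceAdd] at c2 c3
    rw [e1, hE2, hE3] at c2
    rw [hE2, hE3, hE4] at c3
    rw [hE2] at hr
    -- `N_2 = t + 2 g`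
    obtain ⟨g, hg⟩ : ∃ g : ℤ, (NW f t k).coeff 2 = t + 2 * g := ⟨-f.coeff 3 - f.coeff 2, by omega⟩
    have hg2 : g = -f.coeff 3 - f.coeff 2 := by omega
    rw [hr3, hg, hE2, hE3] at hs1
    have z1 := hs1.z5 (by push_cast; norm_num)
    have z1' : s1 ((0 : ℝ) : ℂ) = (((8 * g - 1) / 15 : ℝ) : ℂ) := by
      rw [Complex.ofReal_zero, z1]
      congr 1
      push_cast
      ring
    have z2 := hs1.abs_le (by norm_num) z1'
    have g2 : g ≤ 2 := by
      have : (g : ℝ) ≤ 2 := by linarith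
      exact_mod_cast this
    have g2' : g ≠ 2 := by
      intro h2
      refine dead' hs1 (x := 0) (y := 1 / 3) le_rfl (by norm_num) (by norm_num) z1' s3
        (be := 1) (al := 3 / 4) (by rw [h2]; norm_num) p3 (by norm_num)
    have g1 : 1 ≤ g := by
      by_contra hcon
      push Not at hcon
      have h2 : (g : ℝ) ≤ 0 := by exact_mod_cast (by omega : g ≤ 0)
      refine dead hs1 (x := 0) (y := 1 / 2) le_rfl (by norm_num) (by norm_num) z1' s2
        (al := -(1 / 15)) (be := 7 / 9) (by linarith) p2 (by norm_num)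
    have g1' : g = 1 := by omega
    rw [g1'] at hs1
    obtain ⟨s4, hs4, hv4⟩ := hs1.step5 (by
      push_cast
      norm_num)
    have y2 := hv4 _ _ (by norm_num) (by norm_num) s2
    have ht : t = 1 ∨ t = -1 := by omega
    -- the last coefficient
    have z4 := hs4.z5 (by push_cast; norm_num)
    obtain ⟨n, hn⟩ : ∃ n : ℤ, n = (NW f t k).coeff 3 := ⟨_, rfl⟩
    rw [← hn] at z4 c3
    have z4' : s4 ((0 : ℝ) : ℂ) = (((15 * (2 * n + t) + 22) / 88 : ℝ) : ℂ) := by
      rw [Complex.ofReal_zero, z4]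
      congr 1
      push_cast
      ring
    have z5 := hs4.abs_le (by norm_num) z4'
    have hlow : (41 : ℝ) / 44 ≤ (15 * (2 * n + t) + 22) / 88 := by
      by_contra hcon
      push Not at hcon
      have e : ((2 : ℝ) * ((2 : ℤ) : ℝ) * (((1 : ℤ) : ℝ)) = 4) := by norm_num
      refine dead hs4 (x := 0) (y := 1 / 2) le_rfl (by norm_num) (by norm_num) z4' y2
        (al := (15 * (2 * n + t) + 22) / 88) (be := 84 / 86) le_rfl ?_ ?_
      · push_cast
        rw [le_div_iff₀ (by norm_num; linarith)]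
        norm_num
        linarith
      · linarith
    have hn1 : (n : ℝ) * 2 + t = 4 := by
      have h1 : (4 : ℝ) - 1 / 2 < n * 2 + t := by linarith [hlow]
      have h2 : (n : ℝ) * 2 + t < 4 + 1 / 2 := by linarith [z5.2]
      have h3 : (3 : ℤ) < n * 2 + t := by
        have : (3 : ℝ) < n * 2 + t := by linarith
        exact_mod_cast this
      have h4 : n * 2 + t < 5 := by
        have : (n : ℝ) * 2 + t < 5 := by linarith
        exact_mod_cast this
      have h5 : n * 2 + t = 4 := by omega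
      exact_mod_cast h5
    have hn2 : n * 2 + t = 4 := by exact_mod_cast hn1
    rcases ht with ht | ht <;> omega
  · rw [hr3] at s2 s3
    simp only [Int.cast_zero] at s2 s3
    refine dead hs1 (by norm_num) (by norm_num) (by norm_num) s3 s2 (al := 0)
      (be := 4 / 13) ?_ ?_ ?_
    · exact s_le (by norm_num) (by linarith) (by linarith)
    · exact le_s (by norm_num) (by linarith) (by linarith)
    · norm_num
  · rw [hr3] at s2 s3
    simp only [Int.cast_one] at s2 s3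
    refine dead hs1 (by norm_num) (by norm_num) (by norm_num) s3 s2 (al := -(3 / 4))
      (be := -(1 / 5)) ?_ ?_ ?_
    · exact s_le (by norm_num) (by linarith) (by linarith)
    · exact le_s (by norm_num) (by linarith) (by linarith)
    · norm_num

/-- The case `W(0) = 1/2`. -/
theorem W2.rowB1 (h : W2 q f t k) (w2 : 7 / 6 ≤ wr f t k (1 / 2))
    (hm : (NW f t k).coeff 0 = 1) : False := by
  obtain ⟨s, hs, hv⟩ := h.go (by omega)
  have v2 := hv (1 / 2) (by norm_num) (by norm_num)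
  rw [hm] at hs v2
  simp only [Int.cast_one] at v2
  have u2 : 4 / 5 ≤ (wr f t k (1 / 2) - 1 / 2) / (1 / 2 * (wr f t k (1 / 2) + 1 / 2)) :=
    le_v (by norm_num) (by linarith) (by linarith)
  -- `k = 1`
  have c0 := h.NW_coeff0
  rw [hm, h.E0, h.f0] at c0
  have hE1 : (EE t k).coeff 1 = if 1 = k then t else 0 := by rw [EE_coeff]; simp
  have hk : 1 = k := by
    by_contra hne
    rw [if_neg hne] at hE1
    omega
  rw [if_pos hk] at hE1
  have hE2 : (EE t k).coeff 2 = 0 := by rw [EE_coeff, ← hk]; simp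
  have hE3 : (EE t k).coeff 3 = 0 := by rw [EE_coeff, ← hk]; simp
  have hE4 : (EE t k).coeff 4 = 0 := by rw [EE_coeff, ← hk]; simp
  have ht1 := _root_.abs_le.mp h.t1
  have c1 := h.NW_coeff 0
  have c2 := h.NW_coeff 1
  have c3 := h.NW_coeff 2
  simp only [Nat.reduceAdd, zero_add] at c1 c2 c3
  rw [h.E0, hE1, hE2] at c1
  rw [hE1, hE2, hE3] at c2
  rw [hE2, hE3, hE4] at c3
  rw [hE1] at c0
  rw [hE1, hE2, hE3] at hs
  obtain ⟨g, hg⟩ : ∃ g : ℤ, (NW f t k).coeff 1 = -1 - 2 * g := ⟨f.coeff 2, by omega⟩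
  have hg2 : g = f.coeff 2 := by omega
  rw [hg] at hs
  have z1 := hs.z5 (by push_cast; norm_num)
  have z1' : s ((0 : ℝ) : ℂ) = (((-2 - 4 * g - t) / 4 : ℝ) : ℂ) := by
    rw [Complex.ofReal_zero, z1]
    congr 1
    push_cast
    ring
  have z2 := hs.abs_le (by norm_num) z1'
  have hlow : (1 : ℝ) / 2 ≤ (-2 - 4 * g - t) / 4 := by
    by_contra hcon
    push Not at hcon
    refine dead hs (x := 0) (y := 1 / 2) le_rfl (by norm_num) (by norm_num) z1' v2
      (al := (-2 - 4 * g - t) / 4) (be := 4 / 5) le_rfl u2 ?_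
    linarith
  have h1 : 4 ≤ -4 * g - t := by
    have : (4 : ℝ) ≤ -4 * g - t := by linarith
    exact_mod_cast this
  have h2 : -4 * g - t ≤ 6 := by
    have : -4 * (g : ℝ) - t ≤ 6 := by linarith [z2.2]
    exact_mod_cast this
  have ht : t = -1 := by omega
  have hg1 : g = -1 := by omega
  -- `N_2` is odd
  obtain ⟨n, hn⟩ : ∃ n : ℤ, (NW f t k).coeff 2 = 3 - 2 * n := ⟨f.coeff 3, by omega⟩
  have hn3 : n = f.coeff 3 := by omega
  -- `N_3` is even
  obtain ⟨l, hl⟩ : ∃ l : ℤ, (NW f t k).coeff 3 = 2 * l := ⟨-(f.coeff 4 + f.coeff 3), by omega⟩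
  rw [hg1, hn, hl, ht] at hs
  obtain ⟨s1, hs1, -⟩ := hs.step5 (by
    push_cast
    norm_num)
  have b1 := sq_le_sq.mpr hs1.le5
  push_cast at b1
  have b2 : ((21 : ℝ) - 16 * n) ^ 2 ≤ 7 ^ 2 := by linarith
  have b3 := abs_le_of_sq_le_sq' b2 (by norm_num)
  have hn1 : n = 1 := by
    have h3 : (14 : ℝ) ≤ 16 * n := by linarith [b3.2]
    have h4 : (16 : ℝ) * n ≤ 28 := by linarith [b3.1]
    have h5 : (14 : ℤ) ≤ 16 * n := by exact_mod_cast h3
    have h6 : 16 * n ≤ (28 : ℤ) := by exact_mod_cast h4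
    omega
  rw [hn1] at hs1
  obtain ⟨s2, hs2, -⟩ := hs1.step5 (by
    push_cast
    norm_num)
  have d1 := sq_le_sq.mpr hs2.le5
  push_cast at d1
  have d2 : ((14 : ℝ) * l - 4) ^ 2 ≤ 3 ^ 2 := by linarith
  have d3 := abs_le_of_sq_le_sq' d2 (by norm_num)
  have h3 : (1 : ℝ) ≤ 14 * l := by linarith [d3.1]
  have h4 : (14 : ℝ) * l ≤ 7 := by linarith [d3.2]
  have h5 : (1 : ℤ) ≤ 14 * l := by exact_mod_cast h3
  have h6 : 14 * l ≤ (7 : ℤ) := by exact_mod_cast h4
  omega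

/-- **ROW B.** -/
theorem W2.rowB (h : W2 q f t k)
    (hV : (3 / 2) ^ 2 * (aeval (1 / 2 : ℝ) f : ℝ) ≤ 1 / 2 * aeval (1 / 2 : ℝ) (EE t k)) :
    False := by
  have w3 := h.w3
  have w2 := h.w2 hV
  have n3 := h.wr_nonneg (x := 1 / 3) (by norm_num) (by norm_num)
  have hm0 := h.m_pos (y := 1 / 2) (by norm_num) (by norm_num) (by linarith)
  have hm3 := h.m_le
  have hcase : (NW f t k).coeff 0 = 1 ∨ (NW f t k).coeff 0 = 2 ∨ (NW f t k).coeff 0 = 3 := by
    omega
  rcases hcase with h1 | h1 | h1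
  · exact h.rowB1 w2 h1
  · exact h.rowB2 w3 w2 h1
  · obtain ⟨s, hs, hv⟩ := h.go hm0
    have v3 := hv (1 / 3) (by norm_num) (by norm_num)
    have v2 := hv (1 / 2) (by norm_num) (by norm_num)
    rw [h1] at hs v3 v2
    simp only [Int.cast_ofNat] at v3 v2
    refine dead hs (by norm_num) (by norm_num) (by norm_num) v3 v2 (al := -(3 / 5))
      (be := -(1 / 4)) ?_ ?_ ?_
    · exact v_le (by norm_num) (by linarith) (by linarith)
    · exact le_v (by norm_num) (by linarith) (by linarith)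
    · norm_num

end

end Pool.Agent.B5.KO42
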