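import Pool.Agent.Lib.MP_b5021c_nt.KO.H42.Sd

/-!
# MP_b5021c_nt, all `θ`, K = 5 (`j = 2`), leaf (O1-iv): the function `W` (finding 3593)

`E = 2 + t z^k`, `W = 1 - 2 (1 + z) f / (z E) + 1/z - z`.
-/

namespace Pool.Agent.B5.KO42

open Polynomial Metric Filter Topology
open Pool.Agent.B5.Nr.Sch (p5 aeval_map_real aeval_re)
open Pool.Agent.B5.Nr.Car (Cara)

/-- A function, holomorphic in the open disc and continuous up to the circle, with nonnegative real
part on the circle. -/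
theorem cara_of_circle {F : ℂ → ℂ} (hF : DiffContOnCl ℂ F (ball 0 1))
    (h : ∀ z : ℂ, ‖z‖ = 1 → 0 ≤ (F z).re) : Cara F := by
  refine ⟨hF.differentiableOn, fun z hz => ?_⟩
  have hmax := Complex.norm_le_of_forall_mem_frontier_norm_le (U := ball (0 : ℂ) 1)
    (f := fun w => Complex.exp (-(F w))) (C := 1) isBounded_ball ?_ ?_ (z := z) ?_
  · rw [Complex.norm_exp, Complex.neg_re] at hmax
    have h3 : -(F z).re ≤ 0 := by
      rw [← Real.exp_le_one_iff]; exact hmax
    linarith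
  · exact ⟨(hF.differentiableOn.neg).cexp, (hF.continuousOn.neg).cexp⟩
  · intro w hw
    rw [frontier_ball (0 : ℂ) one_ne_zero] at hw
    rw [Complex.norm_exp, Complex.neg_re, Real.exp_le_one_iff, neg_nonpos]
    exact h w (by simpa using hw)
  · rw [closure_ball (0 : ℂ) one_ne_zero]
    simpa using hz.le

/-- The polynomial `E`. -/
noncomputable def EE (t : ℤ) (k : ℕ) : ℤ[X] := C 2 + C t * X ^ k

theorem EE_coeff (t : ℤ) {k : ℕ} (i : ℕ) :
    (EE t k).coeff i = (if i = 0 then 2 else 0) + (if i = k then t else 0) := by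
  rw [EE, coeff_add, coeff_C, coeff_C_mul, coeff_X_pow]
  split_ifs <;> simp

theorem EE_ne {t : ℤ} (ht : |t| ≤ 1) (k : ℕ) {z : ℂ} (hz : ‖z‖ ≤ 1) : aeval z (EE t k) ≠ 0 := by
  intro h
  have h1 : (2 : ℂ) = -(t * z ^ k) := by
    rw [EE] at h
    simp only [map_add, map_mul, map_pow, aeval_X, aeval_C] at h
    have e2 : (algebraMap ℤ ℂ) 2 = 2 := by simp
    have e3 : (algebraMap ℤ ℂ) t = t := rfl
    rw [e2, e3] at h
    linear_combination h
  have h2 := congrArg norm h1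
  rw [norm_neg, norm_mul, norm_pow, Complex.norm_intCast] at h2
  have h3 : (|(t : ℝ)| : ℝ) ≤ 1 := by exact_mod_cast ht
  have h4 : ‖z‖ ^ k ≤ 1 := pow_le_one₀ (norm_nonneg _) hz
  have h5 : |(t : ℝ)| * ‖z‖ ^ k ≤ 1 * 1 :=
    mul_le_mul h3 h4 (pow_nonneg (norm_nonneg _) _) zero_le_one
  rw [← h2] at h5
  norm_num at h5

theorem EE_pos {t : ℤ} (ht : |t| ≤ 1) (k : ℕ) {x : ℝ} (hx0 : 0 ≤ x) (hx : x ≤ 1) :
    0 < (aeval x (EE t k) : ℝ) := by
  rw [EE]
  simp only [map_add, map_mul, map_pow, aeval_X, aeval_C]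
  have e2 : (algebraMap ℤ ℝ) 2 = 2 := by simp
  have e3 : (algebraMap ℤ ℝ) t = t := rfl
  rw [e2, e3]
  have h3 : (|(t : ℝ)| : ℝ) ≤ 1 := by exact_mod_cast ht
  have h4 : x ^ k ≤ 1 := pow_le_one₀ hx0 hx
  have h5 : |(t : ℝ) * x ^ k| ≤ 1 := by
    rw [abs_mul, abs_of_nonneg (pow_nonneg hx0 k)]
    calc |(t : ℝ)| * x ^ k ≤ 1 * 1 := mul_le_mul h3 h4 (pow_nonneg hx0 _) zero_le_one
      _ = 1 := one_mul 1
  linarith [(abs_le.mp h5).1]

/-- The data of (O1-iv) for `K = 5`. -/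
structure W2 (q f : ℤ[X]) (t : ℤ) (k : ℕ) : Prop where
  f0 : f.coeff 0 = 1
  t1 : |t| ≤ 1
  k1 : 1 ≤ k
  eq : f - q = X * EE t k
  le : ∀ z : ℂ, ‖z‖ = 1 → ‖(1 + z) * aeval z f‖ ≤ ‖aeval z q + z * aeval z f‖
  u3 : 0 < (aeval (1 / 3 : ℝ) q : ℝ)

/-- The numerator of `W`. -/
noncomputable def NW (f : ℤ[X]) (t : ℤ) (k : ℕ) : ℤ[X] :=
  divX ((1 + X - X ^ 2) * EE t k - 2 * (1 + X) * f)

/-- The function `W`. -/
noncomputable def WW (f : ℤ[X]) (t : ℤ) (k : ℕ) (z : ℂ) : ℂ :=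
  aeval z (NW f t k) / aeval z (EE t k)

section

variable {q f : ℤ[X]} {t : ℤ} {k : ℕ}

theorem W2.X_NW (h : W2 q f t k) :
    X * NW f t k = (1 + X - X ^ 2) * EE t k - 2 * (1 + X) * f := by
  have h2 := X_mul_divX_add ((1 + X - X ^ 2) * EE t k - 2 * (1 + X) * f)
  have h3 : ((1 + X - X ^ 2) * EE t k - 2 * (1 + X) * f).coeff 0 = 0 := by
    have hk : (0 : ℕ) ≠ k := by have := h.k1; omega
    rw [coeff_sub, mul_coeff_zero, mul_coeff_zero, EE_coeff, h.f0]
    simp [hk]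
  rw [h3, C_0, add_zero] at h2
  exact h2

theorem W2.NW_coeff (h : W2 q f t k) (i : ℕ) : (NW f t k).coeff (i + 1) =
    (EE t k).coeff (i + 2) + (EE t k).coeff (i + 1) - (EE t k).coeff i -
      2 * (f.coeff (i + 2) + f.coeff (i + 1)) := by
  have h1 := congrArg (fun p => p.coeff (i + 2)) h.X_NW
  have e : (1 + X - X ^ 2) * EE t k - 2 * (1 + X) * f =
      EE t k + X * EE t k - X * (X * EE t k) - C 2 * f - C 2 * (X * f) := by
    have : (C 2 : ℤ[X]) = 2 := rfl
    rw [this]; ring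
  rw [e] at h1
  simp only [coeff_X_mul, coeff_sub, coeff_add, coeff_C_mul] at h1
  rw [h1]
  ring

theorem W2.NW_coeff0 (h : W2 q f t k) : (NW f t k).coeff 0 =
    (EE t k).coeff 1 + (EE t k).coeff 0 - 2 * (f.coeff 1 + f.coeff 0) := by
  have h1 := congrArg (fun p => p.coeff 1) h.X_NW
  have e : (1 + X - X ^ 2) * EE t k - 2 * (1 + X) * f =
      EE t k + X * EE t k - X * (X * EE t k) - C 2 * f - C 2 * (X * f) := by
    have : (C 2 : ℤ[X]) = 2 := rfl
    rw [this]; ring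
  rw [e] at h1
  simp only [coeff_X_mul, coeff_sub, coeff_add, coeff_C_mul, coeff_X_mul_zero] at h1
  rw [h1]
  ring

theorem W2.z_NW (h : W2 q f t k) (z : ℂ) : z * aeval z (NW f t k) =
    (1 + z - z ^ 2) * aeval z (EE t k) - 2 * (1 + z) * aeval z f := by
  have := congrArg (fun p => aeval z p) h.X_NW
  simpa [map_ofNat] using this

theorem W2.x_NW (h : W2 q f t k) (x : ℝ) : x * aeval x (NW f t k) =
    (1 + x - x ^ 2) * aeval x (EE t k) - 2 * (1 + x) * aeval x f := by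
  have := congrArg (fun p => aeval x p) h.X_NW
  simpa [map_ofNat] using this

theorem W2.q_ev (h : W2 q f t k) (z : ℂ) : aeval z q = aeval z f - z * aeval z (EE t k) := by
  have := congrArg (fun p => aeval z p) h.eq
  simp only [map_sub, map_mul, aeval_X] at this
  linear_combination -this

theorem W2.q_evr (h : W2 q f t k) (x : ℝ) :
    (aeval x q : ℝ) = aeval x f - x * aeval x (EE t k) := by
  have := congrArg (fun p => aeval x p) h.eq
  simp only [map_sub, map_mul, aeval_X] at this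
  linear_combination -this

/-- **`W` has nonnegative real part.** -/
theorem W2.cara (h : W2 q f t k) : Cara (WW f t k) := by
  apply cara_of_circle
  · apply DifferentiableOn.diffContOnCl
    rw [closure_ball (0 : ℂ) one_ne_zero]
    apply DifferentiableOn.div
    · exact (Polynomial.differentiable_aeval _).differentiableOn
    · exact (Polynomial.differentiable_aeval _).differentiableOn
    · intro z hz
      exact EE_ne h.t1 k (by simpa using hz)
  · intro z hz
    have hE := EE_ne h.t1 k hz.le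
    have hz0 : z ≠ 0 := by
      intro h0
      rw [h0, norm_zero] at hz
      exact zero_ne_one hz
    have hww : (starRingEnd ℂ) z * z = 1 := by
      rw [← Complex.normSq_eq_conj_mul_self, Complex.normSq_eq_norm_sq, hz]; simp
    have hinv : z⁻¹ = (starRingEnd ℂ) z := by
      field_simp
      rw [mul_comm]; exact hww.symm
    -- `W = (Q + Y) / (Q - Y) + conj z - z`
    set Y : ℂ := (1 + z) * aeval z f with hY
    set Q : ℂ := aeval z q + z * aeval z f with hQ
    have hQY : Q - Y = -(z * aeval z (EE t k)) := by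
      rw [hQ, hY, h.q_ev z]; ring
    have hQYne : Q - Y ≠ 0 := by
      rw [hQY]; exact neg_ne_zero.mpr (mul_ne_zero hz0 hE)
    have e1 : WW f t k z = (Q + Y) / (Q - Y) + ((starRingEnd ℂ) z - z) := by
      rw [← hinv, WW, div_eq_iff hE]
      have h2 := h.z_NW z
      have h3 : (Q + Y) / (Q - Y) * aeval z (EE t k) = -(Q + Y) / z := by
        rw [hQY]
        field_simp
      rw [add_mul, h3]
      have h4 : z * aeval z (NW f t k) =
          z * (-(Q + Y) / z + (z⁻¹ - z) * aeval z (EE t k)) := by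
        have h5 : z * ((z⁻¹ - z) * aeval z (EE t k)) = (1 - z ^ 2) * aeval z (EE t k) := by
          field_simp
        have h6 : z * (-(Q + Y) / z) = -(Q + Y) := by field_simp
        rw [mul_add z (-(Q + Y) / z), h6, h5, h2, hQ, hY, h.q_ev z]
        ring
      exact mul_left_cancel₀ hz0 h4
    rw [e1, Complex.add_re]
    have e2 : ((starRingEnd ℂ) z - z).re = 0 := by simp
    rw [e2, add_zero, Complex.div_re, ← add_div]
    apply div_nonneg _ (Complex.normSq_nonneg _)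
    have h3 : ‖Y‖ ^ 2 ≤ ‖Q‖ ^ 2 := pow_le_pow_left₀ (norm_nonneg _) (h.le z hz) 2
    rw [Complex.sq_norm, Complex.sq_norm, Complex.normSq_apply, Complex.normSq_apply] at h3
    simp only [Complex.add_re, Complex.add_im, Complex.sub_re, Complex.sub_im]
    nlinarith

/-- the real values -/
noncomputable def wr (f : ℤ[X]) (t : ℤ) (k : ℕ) (x : ℝ) : ℝ :=
  aeval x (NW f t k) / aeval x (EE t k)

theorem aeval_realC (P : ℤ[X]) (x : ℝ) : aeval (x : ℂ) P = ((aeval x P : ℝ) : ℂ) := by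
  have h : (x : ℂ) = algebraMap ℝ ℂ x := rfl
  rw [h, aeval_algebraMap_apply]
  rfl

theorem WW_real (f : ℤ[X]) (t : ℤ) (k : ℕ) (x : ℝ) : WW f t k x = (wr f t k x : ℂ) := by
  rw [WW, wr, aeval_realC, aeval_realC]
  push_cast
  rfl

theorem W2.w3 (h : W2 q f t k) : wr f t k (1 / 3) < 1 := by
  have hE := EE_pos h.t1 k (x := 1 / 3) (by norm_num) (by norm_num)
  have h1 := h.x_NW (1 / 3)
  have h2 := h.u3
  rw [h.q_evr] at h2
  rw [wr, div_lt_one hE]
  nlinarith

/-- `θ_B ≥ mu_2`. -/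
theorem W2.wb (h : W2 q f t k) {p : ℝ} (hp0 : 0 < p) (hp : p ^ 2 + 2 * p = 1)
    (hB : (aeval p q : ℝ) + p * aeval p f ≤ 0) : 1 ≤ wr f t k p := by
  have hE := EE_pos h.t1 k (x := p) hp0.le (by nlinarith)
  have h1 := h.x_NW p
  rw [h.q_evr] at hB
  rw [wr, one_le_div hE]
  have h2 : p * aeval p (EE t k) ≤ p * aeval p (NW f t k) := by
    rw [h1]
    have e : (1 + p - p ^ 2) = 3 * p := by linarith
    rw [e]
    nlinarith
  exact le_of_mul_le_mul_left h2 hp0

/-- `V''_0(3/5) > 0`. -/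
theorem W2.w35 (h : W2 q f t k)
    (hV : (3 / 5) * (aeval (3 / 5 : ℝ) (EE t k) : ℝ) < (8 / 5) ^ 2 * aeval (3 / 5 : ℝ) f) :
    wr f t k (3 / 5) < 49 / 60 := by
  have hE := EE_pos h.t1 k (x := 3 / 5) (by norm_num) (by norm_num)
  have h1 := h.x_NW (3 / 5)
  rw [wr, div_lt_iff₀ hE]
  nlinarith

/-- `V''_0(1/2) ≤ 0`. -/
theorem W2.w2 (h : W2 q f t k)
    (hV : (3 / 2) ^ 2 * (aeval (1 / 2 : ℝ) f : ℝ) ≤ 1 / 2 * aeval (1 / 2 : ℝ) (EE t k)) :
    7 / 6 ≤ wr f t k (1 / 2) := by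
  have hE := EE_pos h.t1 k (x := 1 / 2) (by norm_num) (by norm_num)
  have h1 := h.x_NW (1 / 2)
  rw [wr, le_div_iff₀ hE]
  nlinarith

end

end Pool.Agent.B5.KO42
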