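import Pool.Agent.Lib.MP_b5021c_nt.KO.H89.PowC

/-!
# Board b5, K ODD, PURE BETA, rows BE_TRA, BE_PAR: multi-affine polynomials

`a` multi-affine without zeros in the open polydisc; if the value at `x_i = x_k = 1`, the others zero,
is zero then `x_i = x_k = 1` kills it.
-/

namespace Pool.Agent.B5.O4Q

open Complex Polynomial
open Pool.Agent.B5.PowR (ma ma_zero ma_single ma_update)

variable {s : ℕ}

/-- Affine and without zeros in the disc. -/
theorem aff {A B : ℂ} (h : ∀ t : ℂ, ‖t‖ < 1 → A + B * t ≠ 0) : ‖B‖ ≤ ‖A‖ := by
  by_contra hc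
  push Not at hc
  have hB : B ≠ 0 := by
    intro h0
    rw [h0, norm_zero] at hc
    exact absurd hc (not_lt.mpr (norm_nonneg _))
  refine h (-A / B) ?_ (by field_simp; ring)
  rw [norm_div, norm_neg]
  exact (div_lt_one (norm_pos_iff.mpr hB)).mpr hc

theorem bd1 (a : Finset (Fin s) → ℂ) (h : ∀ x : Fin s → ℂ, (∀ i, ‖x i‖ < 1) → ma a x ≠ 0)
    (x : Fin s → ℂ) (hx : ∀ i, ‖x i‖ < 1) (l : Fin s) :
    ‖ma a x‖ ≤ 2 * ‖ma a (Function.update x l 0)‖ := by
  have h1 : ma a x = ma a (Function.update x l 0) +
      (ma a (Function.update x l 1) - ma a (Function.update x l 0)) * x l := by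
    rw [← ma_update, Function.update_eq_self]
  obtain ⟨A, hA⟩ : ∃ A, A = ma a (Function.update x l 0) := ⟨_, rfl⟩
  obtain ⟨B, hB⟩ : ∃ B, B = ma a (Function.update x l 1) - ma a (Function.update x l 0) := ⟨_, rfl⟩
  have h2 : ‖B‖ ≤ ‖A‖ := by
    apply aff
    intro t ht h0
    refine h (Function.update x l t) ?_ ?_
    · intro i
      by_cases hi : i = l
      · rw [hi, Function.update_self]; exact ht
      · rw [Function.update_of_ne hi]; exact hx i
    · rw [ma_update, ← hB, ← hA, h0]
  rw [← hB, ← hA] at h1
  rw [← hA, h1]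
  calc ‖A + B * x l‖ ≤ ‖A‖ + ‖B‖ * ‖x l‖ := by
        refine (norm_add_le _ _).trans (by rw [norm_mul])
    _ ≤ ‖A‖ + ‖A‖ * 1 := by
        gcongr
        exact (hx l).le
    _ = 2 * ‖A‖ := by ring

theorem bd (a : Finset (Fin s) → ℂ) (h : ∀ x : Fin s → ℂ, (∀ i, ‖x i‖ < 1) → ma a x ≠ 0)
    (x : Fin s → ℂ) (hx : ∀ i, ‖x i‖ < 1) (J : Finset (Fin s)) :
    ‖ma a x‖ ≤ 2 ^ J.card * ‖ma a (fun l => if l ∈ J then 0 else x l)‖ := by
  induction J using Finset.induction_on with
  | empty => simp
  | insert i J hi ih =>
    refine ih.trans ?_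
    have h1 := bd1 a h (fun l => if l ∈ J then 0 else x l) (by
      intro l
      by_cases hl : l ∈ J
      · simp [hl]
      · simp [hl, hx l]) i
    have h2 : Function.update (fun l => if l ∈ J then 0 else x l) i 0 =
        fun l => if l ∈ insert i J then 0 else x l := by
      funext l
      by_cases hl : l = i
      · rw [hl, Function.update_self]; simp
      · rw [Function.update_of_ne hl]; simp [hl]
    rw [h2] at h1
    rw [Finset.card_insert_of_notMem hi, pow_succ, mul_assoc]
    exact mul_le_mul_of_nonneg_left h1 (by positivity)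

theorem ma_cont (a : Finset (Fin s) → ℂ) (X : ℝ → Fin s → ℂ) (hX : ∀ l, Continuous fun r => X r l) :
    Continuous fun r => ma a (X r) := by
  unfold ma
  refine continuous_finsetSum _ fun S _ => continuous_const.mul ?_
  exact continuous_finsetProd _ fun l _ => hX l

/-- THE ZERO LEMMA. -/
theorem zl (a : Finset (Fin s) → ℂ) (h : ∀ x : Fin s → ℂ, (∀ i, ‖x i‖ < 1) → ma a x ≠ 0)
    (K : Finset (Fin s)) (h0 : ma a (fun l => if l ∈ K then 1 else 0) = 0)
    (x : Fin s → ℂ) (hx : ∀ i, ‖x i‖ < 1) : ma a (fun l => if l ∈ K then 1 else x l) = 0 := by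
  have hc1 : Continuous fun r : ℝ => ‖ma a (fun l => if l ∈ K then (r : ℂ) else x l)‖ := by
    refine (ma_cont a _ fun l => ?_).norm
    by_cases hl : l ∈ K
    · simp only [hl, if_true]; exact Complex.continuous_ofReal
    · simp only [hl, if_false]; exact continuous_const
  have hc2 : Continuous fun r : ℝ => 2 ^ (Kᶜ).card *
      ‖ma a (fun l => if l ∈ K then (r : ℂ) else 0)‖ := by
    refine continuous_const.mul (ma_cont a _ fun l => ?_).norm
    by_cases hl : l ∈ K
    · simp only [hl, if_true]; exact Complex.continuous_ofReal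
    · simp only [hl, if_false]; exact continuous_const
  have ht1 := (hc1.tendsto 1).mono_left (nhdsWithin_le_nhds (s := Set.Iio 1))
  have ht2 := (hc2.tendsto 1).mono_left (nhdsWithin_le_nhds (s := Set.Iio 1))
  have h3 := le_of_tendsto_of_tendsto ht1 ht2 (by
    have : Set.Ioo (0:ℝ) 1 ∈ nhdsWithin (1:ℝ) (Set.Iio 1) := Ioo_mem_nhdsLT (by norm_num)
    filter_upwards [this] with r hr
    have h1 := bd a h (fun l => if l ∈ K then (r : ℂ) else x l) (by
      intro l
      by_cases hl : l ∈ K
      · simp only [hl, if_true, Complex.norm_real, Real.norm_of_nonneg hr.1.le]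
        exact hr.2
      · simp only [hl, if_false]; exact hx l) Kᶜ
    have h2 : (fun l => if l ∈ Kᶜ then (0 : ℂ) else (if l ∈ K then (r : ℂ) else x l)) =
        fun l => if l ∈ K then (r : ℂ) else 0 := by
      funext l
      by_cases hl : l ∈ K
      · simp [hl]
      · simp [hl]
    rw [h2] at h1
    exact h1)
  simp only [Complex.ofReal_one] at h3
  rw [h0, norm_zero, mul_zero] at h3
  exact norm_le_zero_iff.mp h3

/-- The closing `x_i = 1` on the parallels of `i`. -/
theorem par1 (a : Finset (Fin s) → ℂ) (h : ∀ x : Fin s → ℂ, (∀ i, ‖x i‖ < 1) → ma a x ≠ 0)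
    (i : Fin s) (J : Finset (Fin s)) (hi : i ∉ J)
    (hJ : ∀ k ∈ J, ma a (fun l => if l ∈ ({i, k} : Finset (Fin s)) then 1 else 0) = 0) :
    ∀ x : Fin s → ℂ, (∀ l, ‖x l‖ < 1) → (∀ l, l ∉ J → x l = 0) →
      ma a (Function.update x i 1) = ma a (Pi.single i 1) * ∏ k ∈ J, (1 - x k) := by
  induction J using Finset.induction_on with
  | empty =>
    intro x _ hx0
    have : x = 0 := funext fun l => hx0 l (by simp)
    rw [this, Finset.prod_empty, mul_one]
    rfl
  | insert k J hk ih =>
    intro x hx hx0
    have hik : i ≠ k := fun h => hi (by rw [h]; exact Finset.mem_insert_self _ _)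
    have ih' := ih (fun h => hi (Finset.mem_insert_of_mem h))
      (fun l hl => hJ l (Finset.mem_insert_of_mem hl)) (Function.update x k 0) (by
        intro l
        by_cases hl : l = k
        · rw [hl, Function.update_self]; simp
        · rw [Function.update_of_ne hl]; exact hx l) (by
        intro l hl
        by_cases hlk : l = k
        · rw [hlk, Function.update_self]
        · rw [Function.update_of_ne hlk]
          exact hx0 l (by simp [hlk, hl]))
    have h1 := ma_update a (Function.update x i 1) k (x k)
    have e1 : Function.update (Function.update x i 1) k (x k) = Function.update x i 1 := by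
      rw [Function.update_comm hik, Function.update_eq_self]
    have e2 : Function.update (Function.update x i 1) k 0 =
        Function.update (Function.update x k 0) i 1 := Function.update_comm hik _ _ _
    have e3 : ma a (Function.update (Function.update x i 1) k 1) = 0 := by
      have h2 := zl a h {i, k} (hJ k (Finset.mem_insert_self _ _)) x hx
      rw [← h2]
      congr 1
      funext l
      by_cases hl : l = k
      · rw [hl, Function.update_self]; simp
      · rw [Function.update_of_ne hl]
        by_cases hl2 : l = i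
        · rw [hl2, Function.update_self]; simp
        · rw [Function.update_of_ne hl2]; simp [hl, hl2]
    rw [e1, e2, e3, ih'] at h1
    have e4 : ∏ l ∈ J, (1 - Function.update x k 0 l) = ∏ l ∈ J, (1 - x l) := by
      apply Finset.prod_congr rfl
      intro l hl
      rw [Function.update_of_ne (by rintro rfl; exact hk hl)]
    rw [e4] at h1
    rw [h1, Finset.prod_insert hk]
    ring

/-- The face of a pairwise parallel set. -/
theorem par2 (a : Finset (Fin s) → ℂ) (h : ∀ x : Fin s → ℂ, (∀ i, ‖x i‖ < 1) → ma a x ≠ 0)
    (Q : Finset (Fin s))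
    (hQ : ∀ i ∈ Q, ∀ k ∈ Q, i ≠ k →
      ma a (fun l => if l ∈ ({i, k} : Finset (Fin s)) then 1 else 0) = 0) :
    ∀ x : Fin s → ℂ, (∀ l, ‖x l‖ < 1) → (∀ l, l ∉ Q → x l = 0) →
      ma a x = (∏ k ∈ Q, (1 - x k)) *
        (ma a 0 + ∑ k ∈ Q, ma a (Pi.single k 1) * (x k / (1 - x k))) := by
  induction Q using Finset.induction_on with
  | empty =>
    intro x _ hx0
    have : x = 0 := funext fun l => hx0 l (by simp)
    rw [this]; simp
  | insert i J hi ih =>
    intro x hx hx0
    have hy1 : ∀ l, ‖Function.update x i 0 l‖ < 1 := by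
      intro l
      by_cases hl : l = i
      · rw [hl, Function.update_self]; simp
      · rw [Function.update_of_ne hl]; exact hx l
    have hy2 : ∀ l, l ∉ J → Function.update x i 0 l = 0 := by
      intro l hl
      by_cases hlk : l = i
      · rw [hlk, Function.update_self]
      · rw [Function.update_of_ne hlk]
        exact hx0 l (by simp [hlk, hl])
    have ih' := ih (fun k hk l hl => hQ k (Finset.mem_insert_of_mem hk) l
      (Finset.mem_insert_of_mem hl)) (Function.update x i 0) hy1 hy2
    have hp := par1 a h i J hi (fun k hk => hQ i (Finset.mem_insert_self _ _) k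
      (Finset.mem_insert_of_mem hk) (fun hh => hi (hh ▸ hk))) (Function.update x i 0) hy1 hy2
    have e0 : Function.update (Function.update x i 0) i 1 = Function.update x i 1 :=
      Function.update_idem _ _ _
    rw [e0] at hp
    have h1 := ma_update a x i (x i)
    rw [Function.update_eq_self, ih', hp] at h1
    have e4 : ∏ l ∈ J, (1 - Function.update x i 0 l) = ∏ l ∈ J, (1 - x l) := by
      apply Finset.prod_congr rfl
      intro l hl
      rw [Function.update_of_ne (by rintro rfl; exact hi hl)]
    have e5 : ∑ k ∈ J, ma a (Pi.single k 1) *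
        (Function.update x i 0 k / (1 - Function.update x i 0 k)) =
        ∑ k ∈ J, ma a (Pi.single k 1) * (x k / (1 - x k)) := by
      apply Finset.sum_congr rfl
      intro l hl
      rw [Function.update_of_ne (by rintro rfl; exact hi hl)]
    rw [e4, e5] at h1
    have hxi : 1 - x i ≠ 0 := by
      intro h0
      have := hx i
      rw [← sub_eq_zero.mp h0, norm_one] at this
      exact lt_irrefl _ this
    rw [h1, Finset.prod_insert hi, Finset.sum_insert hi]
    field_simp
    ring

/-- Two values. -/
theorem ma_two (a : Finset (Fin s) → ℂ) {k l : Fin s} (hkl : k ≠ l) (x : Fin s → ℂ)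
    (hx0 : ∀ m, m ≠ k → m ≠ l → x m = 0) :
    ma a x = (1 - x k) * (1 - x l) * ma a 0 + x k * (1 - x l) * ma a (Pi.single k 1) +
      x l * (1 - x k) * ma a (Pi.single l 1) +
      x k * x l * ma a (fun m => if m ∈ ({k, l} : Finset (Fin s)) then 1 else 0) := by
  have h1 := ma_update a x k (x k)
  rw [Function.update_eq_self] at h1
  have h2 := ma_update a (Function.update x k 0) l (x l)
  have h3 := ma_update a (Function.update x k 1) l (x l)
  have e1 : ∀ v, Function.update (Function.update x k v) l (x l) = Function.update x k v := by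
    intro v
    rw [Function.update_comm hkl, Function.update_eq_self]
  have e2 : Function.update (Function.update x k 0) l 0 = 0 := by
    funext m
    by_cases hm : m = l
    · rw [hm, Function.update_self]; rfl
    · rw [Function.update_of_ne hm]
      by_cases hm2 : m = k
      · rw [hm2, Function.update_self]; rfl
      · rw [Function.update_of_ne hm2]; exact hx0 m hm2 hm
  have e3 : Function.update (Function.update x k 0) l 1 = Pi.single l 1 := by
    funext m
    by_cases hm : m = l
    · rw [hm, Function.update_self, Pi.single_eq_same]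
    · rw [Function.update_of_ne hm, Pi.single_eq_of_ne hm]
      by_cases hm2 : m = k
      · rw [hm2, Function.update_self]
      · rw [Function.update_of_ne hm2]; exact hx0 m hm2 hm
  have e4 : Function.update (Function.update x k 1) l 0 = Pi.single k 1 := by
    funext m
    by_cases hm : m = k
    · rw [hm, Function.update_of_ne hkl, Function.update_self, Pi.single_eq_same]
    · rw [Pi.single_eq_of_ne hm]
      by_cases hm2 : m = l
      · rw [hm2, Function.update_self]
      · rw [Function.update_of_ne hm2, Function.update_of_ne hm]; exact hx0 m hm hm2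
  have e5 : Function.update (Function.update x k 1) l 1 =
      fun m => if m ∈ ({k, l} : Finset (Fin s)) then 1 else 0 := by
    funext m
    by_cases hm : m = l
    · rw [hm, Function.update_self]; simp
    · rw [Function.update_of_ne hm]
      by_cases hm2 : m = k
      · rw [hm2, Function.update_self]; simp
      · rw [Function.update_of_ne hm2, hx0 m hm2 hm]; simp [hm, hm2]
  rw [e1, e2, e3] at h2
  rw [e1, e4, e5] at h3
  rw [h2, h3] at h1
  rw [h1]
  ring

end Pool.Agent.B5.O4Q
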