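import Pool.Agent.Lib.MP_b5021c_nt.KO.H42.Cpm

/-!
# MP_b5021c_nt, all `θ`, K ODD, (O4), l = 3, pure beta, case (B): the points `1` and `-1`
-/

namespace Pool.Agent.B5.O4C

open Polynomial Complex Filter Topology

theorem pm_of_sq {s : ℤ} (hs : s ^ 2 = 1) : s = 1 ∨ s = -1 := by
  have h : (s - 1) * (s + 1) = 0 := by linear_combination hs
  rcases mul_eq_zero.mp h with h | h
  · left; linarith
  · right; linarith

/-- The face `{S_0, S_1, R}` at `z0 = 1` or `z0 = -1`. -/
theorem face_pm {q f fR : ℤ[X]} {s : ℤ} (hs : s ^ 2 = 1)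
    (hW : (q + X * fR).eval s = 0 ∨ (q + X * fR).eval s = 2 * (q + X * f).eval s)
    (hW1 : (q + X * fR).eval s = 0 → (derivative (q + X * fR)).eval s ≠ 0)
    (hc : ∀ z : ℂ, ‖z‖ = 1 → ∀ w : ℂ, ‖w‖ = 1 → 1 / 2 * ‖aeval z q + z * aeval z fR‖ ^ 2 ≤
      (((aeval z q + z * aeval z f) - z * aeval z f * (1 + w) ^ 2) *
        (starRingEnd ℂ) (aeval z q + z * aeval z fR)).re) : f.eval s = 0 := by
  have hsC : ((s : ℤ) : ℂ) ^ 2 = 1 := by exact_mod_cast hs
  have hs0 : s ≠ 0 := by intro h; rw [h] at hs; norm_num at hs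
  have hsn : ‖((s : ℤ) : ℂ)‖ = 1 := by
    have h1 : ‖((s : ℤ) : ℂ)‖ ^ 2 = 1 := by rw [← norm_pow, hsC, norm_one]
    nlinarith [norm_nonneg ((s : ℤ) : ℂ)]
  have hae : ∀ P : ℤ[X], (aeval ((s : ℤ) : ℂ) P : ℂ) = (((P.eval s : ℤ) : ℝ) : ℂ) := by
    intro P
    have h1 : ((s : ℤ) : ℂ) = algebraMap ℤ ℂ s := by simp
    rw [h1, aeval_algebraMap_apply]
    simp
  by_cases hWR : (q + X * fR).eval s = 0
  · -- simple zero of `W_R`
    have hW1 := hW1 hWR
    obtain ⟨W1, hW1e⟩ : (X - C s) ∣ q + X * fR := by rw [dvd_iff_isRoot]; exact hWR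
    have hW1v : W1.eval s ≠ 0 := by
      rw [hW1e, derivative_mul] at hW1
      simpa using hW1
    set zz : ℝ → ℂ := fun τ => s * exp (τ * I) with hzz
    have hzn : ∀ τ : ℝ, ‖zz τ‖ = 1 := by
      intro τ
      rw [hzz]
      simp only [norm_mul, norm_exp_ofReal_mul_I, hsn, mul_one]
    set U : ℝ → ℂ := fun τ => s * (I * exp ((τ / 2 : ℝ) * I)) * aeval (zz τ) W1 with hU
    have hWU : ∀ τ : ℝ, aeval (zz τ) q + zz τ * aeval (zz τ) fR =
        ((2 * Real.sin (τ / 2) : ℝ) : ℂ) * U τ := by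
      intro τ
      have h0 : aeval (zz τ) q + zz τ * aeval (zz τ) fR = (zz τ - s) * aeval (zz τ) W1 := by
        have := congrArg (fun P => (aeval (zz τ) P : ℂ)) hW1e
        simpa using this
      have h1 : exp (τ * I) - 1 = ((2 * Real.sin (τ / 2) : ℝ) : ℂ) *
          (I * exp ((τ / 2 : ℝ) * I)) := by
        have h2 : ((2 * Real.sin (τ / 2) : ℝ) : ℂ) = (exp (-((τ / 2 : ℝ) : ℂ) * I) -
            exp (((τ / 2 : ℝ) : ℂ) * I)) * I := by
          rw [← two_sin]; push_cast; ring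
        rw [h2]
        have h3 : exp (-((τ / 2 : ℝ) : ℂ) * I) * exp (((τ / 2 : ℝ) : ℂ) * I) = 1 := by
          rw [← exp_add]; simp
        have h4 : exp (((τ / 2 : ℝ) : ℂ) * I) * exp (((τ / 2 : ℝ) : ℂ) * I) = exp (τ * I) := by
          rw [← exp_add]; congr 1; push_cast; ring
        have h5 := I_mul_I
        linear_combination (-1 : ℂ) * h4 + (1 : ℂ) * h3 +
          (-(exp (-((τ / 2 : ℝ) : ℂ) * I) - exp (((τ / 2 : ℝ) : ℂ) * I)) *
            exp (((τ / 2 : ℝ) : ℂ) * I)) * h5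
      have h6 : zz τ - s = s * (exp (τ * I) - 1) := by rw [hzz]; ring
      rw [h0, h6, h1, hU]
      ring
    have key : ∀ w : ℂ, ‖w‖ = 1 → (((aeval (s : ℂ) q + s * aeval (s : ℂ) f) -
        s * aeval (s : ℂ) f * (1 + w) ^ 2) * (starRingEnd ℂ) (s * I * aeval (s : ℂ) W1)).re = 0 := by
      intro w hw
      set g : ℝ → ℝ := fun τ => (((aeval (zz τ) q + zz τ * aeval (zz τ) f) -
        zz τ * aeval (zz τ) f * (1 + w) ^ 2) * (starRingEnd ℂ) (U τ)).re with hg
      have hgc : Continuous g := by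
        have c1 : Continuous zz := by rw [hzz]; fun_prop
        have c0 : ∀ P : ℤ[X], Continuous fun τ => (aeval (zz τ) P : ℂ) := fun P =>
          (Polynomial.continuous_aeval P).comp c1
        have c2 : Continuous U := by
          rw [hU]
          exact (by fun_prop : Continuous fun τ : ℝ => s * (I * exp ((τ / 2 : ℝ) * I))).mul (c0 W1)
        exact continuous_re.comp ((((c0 q).add (c1.mul (c0 f))).sub
          ((c1.mul (c0 f)).mul continuous_const)).mul (continuous_conj.comp c2))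
      have hineq : ∀ τ : ℝ, 0 ≤ (2 * Real.sin (τ / 2)) * g τ := by
        intro τ
        have h1 := hc (zz τ) (hzn τ) w hw
        rw [hWU τ, map_mul, conj_ofReal] at h1
        have h2 : (((aeval (zz τ) q + zz τ * aeval (zz τ) f) - zz τ * aeval (zz τ) f *
            (1 + w) ^ 2) * (((2 * Real.sin (τ / 2) : ℝ) : ℂ) * (starRingEnd ℂ) (U τ))).re =
            (2 * Real.sin (τ / 2)) * g τ := by
          rw [hg]
          simp only
          rw [← re_ofReal_mul]
          congr 1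
          ring
        rw [h2] at h1
        have h3 : 0 ≤ 1 / 2 * ‖((2 * Real.sin (τ / 2) : ℝ) : ℂ) * U τ‖ ^ 2 := by positivity
        linarith
      have h0 : g 0 = (((aeval (s : ℂ) q + s * aeval (s : ℂ) f) -
        s * aeval (s : ℂ) f * (1 + w) ^ 2) * (starRingEnd ℂ) (s * I * aeval (s : ℂ) W1)).re := by
        rw [hg, hU, hzz]
        simp
      have hpos : 0 ≤ g 0 := by
        have ht : Tendsto g (𝓝[>] 0) (𝓝 (g 0)) :=
          hgc.continuousAt.tendsto.mono_left nhdsWithin_le_nhds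
        refine ge_of_tendsto ht ?_
        have : Set.Ioo (0 : ℝ) 1 ∈ 𝓝[>] (0 : ℝ) := Ioo_mem_nhdsGT one_pos
        filter_upwards [this] with τ hτ
        have hs : 0 < Real.sin (τ / 2) := by
          apply Real.sin_pos_of_pos_of_lt_pi
          · linarith [hτ.1]
          · have := Real.pi_gt_three; linarith [hτ.2]
        have := hineq τ
        exact nonneg_of_mul_nonneg_right this (by positivity)
      have hneg : g 0 ≤ 0 := by
        have ht : Tendsto g (𝓝[<] 0) (𝓝 (g 0)) :=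
          hgc.continuousAt.tendsto.mono_left nhdsWithin_le_nhds
        refine le_of_tendsto ht ?_
        have : Set.Ioo (-1 : ℝ) 0 ∈ 𝓝[<] (0 : ℝ) := Ioo_mem_nhdsLT (by norm_num)
        filter_upwards [this] with τ hτ
        have hs : 0 < Real.sin (-τ / 2) := by
          apply Real.sin_pos_of_pos_of_lt_pi
          · linarith [hτ.2]
          · have := Real.pi_gt_three; linarith [hτ.1]
        have h1 := hineq τ
        have h2 : Real.sin (τ / 2) = -Real.sin (-τ / 2) := by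
          rw [← Real.sin_neg]; congr 1; ring
        rw [h2] at h1
        by_contra h3
        push Not at h3
        nlinarith [mul_pos hs h3]
      linarith
    have k2 := key (-1) (by simp)
    have k3 := key I (by simp)
    have e1 : (starRingEnd ℂ) (s * I * aeval (s : ℂ) W1) =
        -I * (((s * W1.eval s : ℤ) : ℝ) : ℂ) := by
      rw [hae W1, map_mul, map_mul, conj_I, conj_ofReal]
      have : (starRingEnd ℂ) ((s : ℤ) : ℂ) = s := by simp
      rw [this]
      push_cast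
      ring
    rw [e1] at k2 k3
    have e2 : (s * aeval (s : ℂ) f * (1 + I) ^ 2 *
        (-I * (((s * W1.eval s : ℤ) : ℝ) : ℂ))).re = 0 := by
      have h1 : s * aeval (s : ℂ) f * (1 + I) ^ 2 * (-I * (((s * W1.eval s : ℤ) : ℝ) : ℂ)) =
          ((aeval (s : ℂ) q + s * aeval (s : ℂ) f) - s * aeval (s : ℂ) f * (1 + -1) ^ 2) *
            (-I * (((s * W1.eval s : ℤ) : ℝ) : ℂ)) -
          ((aeval (s : ℂ) q + s * aeval (s : ℂ) f) - s * aeval (s : ℂ) f * (1 + I) ^ 2) *
            (-I * (((s * W1.eval s : ℤ) : ℝ) : ℂ)) := by ring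
      rw [h1, sub_re, k2, k3, sub_self]
    rw [hae f] at e2
    have e3 : (s : ℂ) * (((f.eval s : ℤ) : ℝ) : ℂ) * (1 + I) ^ 2 *
        (-I * (((s * W1.eval s : ℤ) : ℝ) : ℂ)) =
        ((2 * ((f.eval s : ℤ) : ℝ) * ((W1.eval s : ℤ) : ℝ) : ℝ) : ℂ) := by
      have h5 := I_mul_I
      rw [ofReal_mul, ofReal_mul, ofReal_ofNat]
      push_cast
      linear_combination (-(((f.eval s : ℤ) : ℂ) * ((W1.eval s : ℤ) : ℂ)) * (s : ℂ) ^ 2 *
        (2 + I)) * h5 + (2 * ((f.eval s : ℤ) : ℂ) * ((W1.eval s : ℤ) : ℂ)) * hsC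
    rw [e3, ofReal_re] at e2
    have h4 : ((W1.eval s : ℤ) : ℝ) ≠ 0 := by exact_mod_cast hW1v
    have h5 : ((f.eval s : ℤ) : ℝ) = 0 := by
      rcases mul_eq_zero.mp e2 with h | h
      · linarith
      · exact absurd h h4
    exact_mod_cast h5
  · have hW2 : (q + X * fR).eval s = 2 * (q + X * f).eval s := by
      rcases hW with h | h
      · exact absurd h hWR
      · exact h
    simp only [eval_add, eval_mul, eval_X] at hW2 hWR
    set A : ℤ := f.eval s with hA
    set B : ℤ := q.eval s + s * A with hB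
    have hB0 : B ≠ 0 := by
      intro h0
      exact hWR (by rw [hW2, h0, mul_zero])
    have key : ∀ w : ℂ, ‖w‖ = 1 → 0 ≤ -((s : ℝ) * (A : ℝ) * (B : ℝ) * ((1 + w) ^ 2).re) := by
      intro w hw
      have h := hc s hsn w hw
      rw [hae q, hae fR, hae f, ← hA] at h
      have e2 : (((q.eval s : ℤ) : ℝ) : ℂ) + s * (((fR.eval s : ℤ) : ℝ) : ℂ) =
          ((2 * B : ℝ) : ℂ) := by
        have := congrArg (fun n : ℤ => (n : ℂ)) hW2
        push_cast at this ⊢
        exact this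
      have e2' : (((q.eval s : ℤ) : ℝ) : ℂ) + s * (((A : ℤ) : ℝ) : ℂ) = ((B : ℝ) : ℂ) := by
        rw [hB]; push_cast; ring
      have e3 : ((((q.eval s : ℤ) : ℝ) : ℂ) + s * (((A : ℤ) : ℝ) : ℂ) -
          s * (((A : ℤ) : ℝ) : ℂ) * (1 + w) ^ 2) * (starRingEnd ℂ) ((2 * B : ℝ) : ℂ) =
          ((2 * B ^ 2 : ℝ) : ℂ) + ((-(2 * (s * A * B)) : ℝ) : ℂ) * (1 + w) ^ 2 := by
        rw [e2', conj_ofReal]; push_cast; ring
      rw [e2, e3, norm_real, Real.norm_eq_abs, sq_abs, add_re, ofReal_re, re_ofReal_mul] at h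
      nlinarith
    have k1 := key 1 (by simp)
    have k2 := key (exp ((2 * Real.pi / 3 : ℝ) * I)) (by rw [norm_exp_ofReal_mul_I])
    have e4 : ((1 + exp ((2 * Real.pi / 3 : ℝ) * I)) ^ 2).re = -(1 / 2) := by
      have h1 : exp ((2 * Real.pi / 3 : ℝ) * I) = -(1 / 2) + (Real.sqrt 3 / 2 : ℝ) * I := by
        rw [exp_mul_I, ← ofReal_cos, ← ofReal_sin]
        have h2 : (2 * Real.pi / 3 : ℝ) = Real.pi - Real.pi / 3 := by ring
        rw [h2, Real.cos_pi_sub, Real.sin_pi_sub, Real.cos_pi_div_three, Real.sin_pi_div_three]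
        push_cast
        ring
      rw [h1]
      have h3 : (1 + (-(1 / 2) + ((Real.sqrt 3 / 2 : ℝ) : ℂ) * I)) ^ 2 =
          ((1 / 4 - (Real.sqrt 3 / 2) ^ 2 : ℝ) : ℂ) + ((Real.sqrt 3 / 2 : ℝ) : ℂ) * I := by
        push_cast
        have h5 := I_mul_I
        linear_combination ((Real.sqrt 3 / 2 : ℂ) ^ 2) * h5
      rw [h3, add_re, ofReal_re, re_ofReal_mul, I_re, mul_zero, add_zero, div_pow,
        Real.sq_sqrt (by norm_num)]
      norm_num
    rw [e4] at k2
    have e5 : ((1 + (1 : ℂ)) ^ 2).re = 4 := by norm_num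
    rw [e5] at k1
    have h6 : (s : ℝ) * (A : ℝ) * B = 0 := by linarith
    have h7 : s * A * B = 0 := by exact_mod_cast h6
    rcases mul_eq_zero.mp h7 with h8 | h8
    · rcases mul_eq_zero.mp h8 with h9 | h9
      · exact absurd h9 hs0
      · exact h9
    · exact absurd h8 hB0

/-- `V_2 = E - f - z f_R`, content `c`: `r = -1`, `k` even. -/
theorem pm_two {q f fR E c : ℤ[X]} {N k : ℕ} {t r : ℤ} (hE : f - q = X * E)
    (hf : (1 - X ^ 2) * f = c * (1 + C r * X ^ k))
    (hV : E - f - X * fR = c * (C (N : ℤ) + C t * X ^ k))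
    (nd1 : ∀ s : ℤ, s ^ 2 = 1 → (E - f - X * fR).eval s = 0 →
      (derivative (E - f - X * fR)).eval s ≠ 0)
    (nd2 : ∀ s : ℤ, s ^ 2 = 1 → (q + X * fR).eval s = 0 → (derivative (q + X * fR)).eval s ≠ 0)
    (hc : ∀ z : ℂ, ‖z‖ = 1 → ∀ w : ℂ, ‖w‖ = 1 → 1 / 2 * ‖aeval z q + z * aeval z fR‖ ^ 2 ≤
      (((aeval z q + z * aeval z f) - z * aeval z f * (1 + w) ^ 2) *
        (starRingEnd ℂ) (aeval z q + z * aeval z fR)).re) : r = -1 ∧ Even k := by
  have key : ∀ s : ℤ, s ^ 2 = 1 → c.eval s = 0 → f.eval s = 0 := by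
    intro s hs hcs
    have h1 : E.eval s - f.eval s - s * fR.eval s = 0 := by
      have := congrArg (fun P => P.eval s) hV
      simp only [eval_sub, eval_mul, eval_X, hcs, zero_mul] at this
      exact this
    have h2 : f.eval s - q.eval s = s * E.eval s := by
      have := congrArg (fun P => P.eval s) hE
      simpa using this
    refine face_pm hs ?_ (nd2 s hs) hc
    simp only [eval_add, eval_mul, eval_X]
    rcases (pm_of_sq hs) with h | h
    · left; subst h; linarith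
    · right; subst h; linarith
  refine cpm hf hV (nd1 1 (by norm_num)) (nd1 (-1) (by norm_num)) (key 1 (by norm_num))
    (key (-1) (by norm_num))

/-- `V_3 = E_R - (1 + z) f`, content `c`: `r = -1`, `k` even. -/
theorem pm_three {q f fR E c : ℤ[X]} {N k : ℕ} {t r : ℤ} (hE : fR - q = X * E)
    (hf : (1 - X ^ 2) * f = c * (1 + C r * X ^ k))
    (hV : E - (1 + X) * f = c * (C (N : ℤ) + C t * X ^ k))
    (nd1 : ∀ s : ℤ, s ^ 2 = 1 → (E - (1 + X) * f).eval s = 0 →
      (derivative (E - (1 + X) * f)).eval s ≠ 0)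
    (nd2 : ∀ s : ℤ, s ^ 2 = 1 → (q + X * fR).eval s = 0 → (derivative (q + X * fR)).eval s ≠ 0)
    (hc : ∀ z : ℂ, ‖z‖ = 1 → ∀ w : ℂ, ‖w‖ = 1 → 1 / 2 * ‖aeval z q + z * aeval z fR‖ ^ 2 ≤
      (((aeval z q + z * aeval z f) - z * aeval z f * (1 + w) ^ 2) *
        (starRingEnd ℂ) (aeval z q + z * aeval z fR)).re) : r = -1 ∧ Even k := by
  have key : ∀ s : ℤ, s ^ 2 = 1 → c.eval s = 0 → f.eval s = 0 := by
    intro s hs hcs
    have h1 : E.eval s - (1 + s) * f.eval s = 0 := by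
      have := congrArg (fun P => P.eval s) hV
      simp only [eval_sub, eval_mul, eval_add, eval_one, eval_X, hcs, zero_mul] at this
      exact this
    have h2 : fR.eval s - q.eval s = s * E.eval s := by
      have := congrArg (fun P => P.eval s) hE
      simpa using this
    refine face_pm hs ?_ (nd2 s hs) hc
    simp only [eval_add, eval_mul, eval_X]
    rcases (pm_of_sq hs) with h | h
    · right; subst h; linarith
    · left; subst h; linarith
  refine cpm hf hV (nd1 1 (by norm_num)) (nd1 (-1) (by norm_num)) (key 1 (by norm_num))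
    (key (-1) (by norm_num))

end Pool.Agent.B5.O4C
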