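import Pool.Agent.Lib.MP_b5021c_nt.KO.H39.Mulp
import Pool.Agent.Lib.MP_b5021c_nt.W.H80.Win

/-!
# MP_b5021c_nt, K ODD, PURE BETA, row POW'', part B: from the circle to the numbers
-/

namespace Pool.Agent.B5.O4P

open Polynomial Metric Complex Filter Topology
open Pool.Agent.B5.Nr.Sch (SP aeval_map_real circ aeval_re exists_quot)
open Pool.Agent.B5.H39.Cara (re_nonneg_of_circle)

/-- An inequality on the circle off a countable set. -/
theorem circle_le {φ ψ : ℂ → ℝ} (hφ : ContinuousOn φ (sphere 0 |1|))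
    (hψ : ContinuousOn ψ (sphere 0 |1|)) {T : Set ℂ} (hT : T.Countable)
    (h : ∀ z : ℂ, ‖z‖ = 1 → z ∉ T → φ z ≤ ψ z) {z : ℂ} (hz : ‖z‖ = 1) : φ z ≤ ψ z := by
  have hc : ∀ {g : ℂ → ℝ}, ContinuousOn g (sphere 0 |1|) →
      Continuous fun θ : ℝ => g (circleMap 0 1 θ) := fun hg =>
    hg.comp_continuous (continuous_circleMap 0 1) fun θ => circleMap_mem_sphere' 0 1 θ
  have hcl : IsClosed {θ : ℝ | φ (circleMap 0 1 θ) ≤ ψ (circleMap 0 1 θ)} :=
    isClosed_le (hc hφ) (hc hψ)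
  have hd : Dense (circleMap 0 1 ⁻¹' T)ᶜ :=
    (hT.preimage_circleMap 0 one_ne_zero).dense_compl ℝ
  have hsub : (circleMap 0 1 ⁻¹' T)ᶜ ⊆
      {θ : ℝ | φ (circleMap 0 1 θ) ≤ ψ (circleMap 0 1 θ)} := by
    intro θ hθ
    exact h _ (by simp) hθ
  have hall : ∀ θ : ℝ, φ (circleMap 0 1 θ) ≤ ψ (circleMap 0 1 θ) := fun θ =>
    hcl.closure_subset_iff.mpr hsub (hd θ)
  have hz1 : z = circleMap 0 1 (arg z) := by
    rw [circleMap, zero_add, ofReal_one, one_mul]
    have := norm_mul_exp_arg_mul_I z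
    rw [hz, ofReal_one, one_mul] at this
    exact this.symm
  rw [hz1]
  exact hall _

theorem aeval0 (P : ℝ[X]) : (aeval (0 : ℂ) P : ℂ) = ((P.coeff 0 : ℝ) : ℂ) := by
  have := aeval_re P 0
  rw [ofReal_zero] at this
  rw [this, coeff_zero_eq_eval_zero]

/-- **POW'', part B.** -/
theorem pwb {f E0 e : ℤ[X]} {N : ℕ} (hf : f.coeff 0 = 1) (h0 : E0.coeff 0 = N + 1)
    (hz : ∀ z : ℂ, ‖z‖ ≤ 1 → (aeval z E0 : ℂ) ≠ 0) {T : Set ℂ} (hT : T.Countable)
    (ha1 : ∀ z : ℂ, ‖z‖ = 1 → z ∉ T → (aeval z f : ℂ) ≠ 0 →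
      9 / 4 * ‖(aeval z f : ℂ)‖ ≤ ‖z * aeval z E0 - (1 - 3 / 4 * z) * aeval z f‖)
    (ha2 : ∀ z : ℂ, ‖z‖ = 1 → z ∉ T → (aeval z f : ℂ) ≠ 0 →
      ‖z * aeval z e / (z * aeval z E0 - (1 - 3 / 4 * z) * aeval z f)‖ ≤
        2 * Real.log (‖z * aeval z E0 - (1 - 3 / 4 * z) * aeval z f‖ /
          (9 / 4 * ‖(aeval z f : ℂ)‖))) :
    ∃ ζ : ℝ, 0 < ζ ∧ 9 * ζ / 4 ≤ 1 ∧ (e.coeff 0 : ℝ) * ζ ≤ 2 * Real.log (4 / (9 * ζ)) ∧
      ∀ b0 b1 D0 : ℝ, b0 = 9 * ζ / 4 → b1 = 9 / 4 * ((N + 7 / 4) * ζ + ζ ^ 2 - 1) →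
        D0 = 1 - b0 ^ 2 → 0 < D0 → |b1| ≤ D0 ∧ ∀ x : ℝ, ζ < x → x < 1 →
          0 < (aeval x f : ℝ) - x * aeval x E0 → ∃ β : ℝ, 3 * (x - ζ) < β * x * (1 - ζ * x) ∧
            β * ((D0 + x * b1) + b0 * x * (b1 + x * D0)) ≤
              b0 * (D0 + x * b1) + x * (b1 + x * D0) := by
  classical
  obtain ⟨fr, hfr⟩ : ∃ P : ℝ[X], P = f.map (Int.castRingHom ℝ) := ⟨_, rfl⟩
  obtain ⟨Er, hEr⟩ : ∃ P : ℝ[X], P = E0.map (Int.castRingHom ℝ) := ⟨_, rfl⟩
  have hfz : ∀ z : ℂ, (aeval z fr : ℂ) = aeval z f := fun z => by rw [hfr, aeval_map_real]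
  have hEz : ∀ z : ℂ, (aeval z Er : ℂ) = aeval z E0 := fun z => by rw [hEr, aeval_map_real]
  have hfx : ∀ x : ℝ, (aeval x f : ℝ) = fr.eval x := fun x => by
    rw [hfr, eval_map]; rfl
  have hEx : ∀ x : ℝ, (aeval x E0 : ℝ) = Er.eval x := fun x => by
    rw [hEr, eval_map]; rfl
  have cf0 : fr.coeff 0 = 1 := by rw [hfr, coeff_map, hf]; simp
  have cE0 : Er.coeff 0 = N + 1 := by rw [hEr, coeff_map, h0]; simp
  obtain ⟨U, hU⟩ : ∃ U : ℝ[X], U = X * Er - (1 - C (3 / 4) * X) * fr := ⟨_, rfl⟩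
  have hUz : ∀ z : ℂ, (aeval z U : ℂ) = z * aeval z E0 - (1 - 3 / 4 * z) * aeval z f := by
    intro z
    rw [hU, ← hfz, ← hEz]
    simp
  have hUx : ∀ x : ℝ, U.eval x = x * Er.eval x - (1 - 3 / 4 * x) * fr.eval x := by
    intro x
    rw [hU]; simp
  have hU' : U = X * Er - fr + C (3 / 4) * (X * fr) := by rw [hU]; ring
  have cU0 : U.coeff 0 = -1 := by
    rw [hU', coeff_add, coeff_sub, coeff_X_mul_zero, coeff_C_mul, coeff_X_mul_zero, cf0]; ring
  have cU1 : U.coeff 1 = N + 7 / 4 - fr.coeff 1 := by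
    rw [hU', coeff_add, coeff_sub, coeff_X_mul, coeff_C_mul, coeff_X_mul, cf0, cE0]; ring
  have hcont : ∀ P : ℤ[X], Continuous fun z : ℂ => (aeval z P : ℂ) := fun P =>
    (Polynomial.differentiable_aeval P).continuous
  have hcontr : ∀ P : ℝ[X], Continuous fun z : ℂ => (aeval z P : ℂ) := fun P =>
    (Polynomial.differentiable_aeval P).continuous
  -- (a1) everywhere on the circle
  have hall : ∀ z : ℂ, ‖z‖ = 1 → 9 / 4 * ‖(aeval z f : ℂ)‖ ≤ ‖(aeval z U : ℂ)‖ := by
    intro z hz1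
    refine circle_le (φ := fun z => 9 / 4 * ‖(aeval z f : ℂ)‖) (ψ := fun z => ‖(aeval z U : ℂ)‖)
      ((continuous_const.mul (hcont f).norm).continuousOn) ((hcontr U).norm.continuousOn) hT
      (fun z hz1 hzT => ?_) hz1
    by_cases h : (aeval z f : ℂ) = 0
    · simp only [h, norm_zero, mul_zero]; positivity
    · simp only [hUz]
      exact ha1 z hz1 hzT h
  have hU1 : ∀ z : ℂ, ‖z‖ = 1 → (aeval z U : ℂ) ≠ 0 := by
    intro z hz1 h
    have h1 := hall z hz1
    rw [h, norm_zero] at h1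
    have h2 : (aeval z f : ℂ) = 0 := by
      rw [← norm_eq_zero]
      have := norm_nonneg (aeval z f : ℂ)
      linarith
    rw [hUz, h2, mul_zero, sub_zero] at h
    have hz0 : z ≠ 0 := by intro h3; rw [h3] at hz1; simp at hz1
    exact (mul_ne_zero hz0 (hz z hz1.le)) h
  -- `E0 > 0` on `[0, 1]`
  have hE1 : 0 < Er.eval 1 := by
    by_contra hcon
    push Not at hcon
    have hmem : (0 : ℝ) ∈ Set.Icc (Er.eval 1) (Er.eval 0) := by
      refine ⟨hcon, ?_⟩
      rw [← coeff_zero_eq_eval_zero, cE0]; positivity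
    obtain ⟨t, ht, ht0⟩ := intermediate_value_Icc' (zero_le_one) (f := fun t => Er.eval t)
      (by fun_prop) hmem
    apply hz (t : ℂ) (by rw [norm_real, Real.norm_of_nonneg ht.1]; exact ht.2)
    rw [← hEz, aeval_re]
    simp only at ht0
    rw [ht0, ofReal_zero]
  have hU1p : 0 < U.eval 1 := by
    have h1 := hall 1 (by simp)
    have h2 : (aeval (1 : ℂ) f : ℂ) = ((fr.eval 1 : ℝ) : ℂ) := by
      rw [← hfz, ← aeval_re]; simp
    have h3 : (aeval (1 : ℂ) U : ℂ) = ((U.eval 1 : ℝ) : ℂ) := by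
      rw [← aeval_re]; simp
    rw [h2, h3, norm_real, norm_real, Real.norm_eq_abs, Real.norm_eq_abs] at h1
    have h4 := hUx 1
    by_contra hcon
    push Not at hcon
    rw [abs_of_nonpos hcon] at h1
    have h5 := le_abs_self (fr.eval 1)
    linarith
  -- the zero
  obtain ⟨ζ, hζ, hζ0⟩ : ∃ ζ ∈ Set.Icc (0 : ℝ) 1, U.eval ζ = 0 := by
    have hmem : (0 : ℝ) ∈ Set.Icc (U.eval 0) (U.eval 1) := by
      refine ⟨?_, hU1p.le⟩
      rw [← coeff_zero_eq_eval_zero, cU0]; norm_num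
    obtain ⟨t, ht, ht0⟩ := intermediate_value_Icc (zero_le_one) (f := fun t => U.eval t)
      (by fun_prop) hmem
    exact ⟨t, ht, ht0⟩
  have hζp : 0 < ζ := by
    rcases eq_or_lt_of_le hζ.1 with h | h
    · exfalso
      rw [← h, ← coeff_zero_eq_eval_zero, cU0] at hζ0
      norm_num at hζ0
    · exact h
  have hζ1 : ζ < 1 := by
    rcases eq_or_lt_of_le hζ.2 with h | h
    · exfalso
      rw [h] at hζ0
      exact hU1p.ne' hζ0
    · exact h
  obtain ⟨W, hW⟩ := dvd_iff_isRoot.mpr (show IsRoot U ζ from hζ0)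
  have cW0 : ζ * W.coeff 0 = 1 := by
    have h1 : U = X * W - C ζ * W := by rw [hW]; ring
    rw [h1, coeff_sub, coeff_X_mul_zero, coeff_C_mul] at cU0
    linarith
  have cW1 : W.coeff 0 - ζ * W.coeff 1 = N + 7 / 4 - fr.coeff 1 := by
    have h1 : U = X * W - C ζ * W := by rw [hW]; ring
    rw [h1, coeff_sub, coeff_X_mul, coeff_C_mul] at cU1
    exact cU1
  have hWz : ∀ z : ℂ, (aeval z U : ℂ) = (z - ζ) * aeval z W := by
    intro z
    rw [hW]; simp
  have hne1 : ∀ z : ℂ, ‖z‖ ≤ 1 → 1 - (ζ : ℂ) * z ≠ 0 := by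
    intro z hz1 h
    have h1 : ‖(ζ : ℂ) * z‖ = 1 := by rw [← sub_eq_zero.mp h, norm_one]
    rw [norm_mul, norm_real, Real.norm_of_nonneg hζp.le] at h1
    nlinarith [norm_nonneg z]
  -- `W` has no zero in the closed disc
  have hWne : ∀ z : ℂ, ‖z‖ ≤ 1 → (aeval z W : ℂ) ≠ 0 := by
    obtain ⟨h, hh⟩ : ∃ h : ℂ → ℂ, h = fun z : ℂ =>
        (aeval z W : ℂ) / ((1 - ζ * z) * aeval z E0) := ⟨_, rfl⟩
    have hhd : DifferentiableOn ℂ h (closedBall 0 1) := by
      rw [hh]
      refine DifferentiableOn.div ?_ ?_ ?_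
      · exact (Polynomial.differentiable_aeval W).differentiableOn
      · exact (DifferentiableOn.mul (by fun_prop)
          (Polynomial.differentiable_aeval E0).differentiableOn)
      · intro w hw
        rw [mem_closedBall_zero_iff] at hw
        exact mul_ne_zero (hne1 w hw) (hz w hw)
    have hpos : ∀ z : ℂ, ‖z‖ = 1 → 0 < (h z).re := by
      intro z hz1
      have hUne := hU1 z hz1
      have hEne := hz z hz1.le
      have hz0 : z ≠ 0 := by intro h3; rw [h3] at hz1; simp at hz1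
      have hzζ : z - ζ ≠ 0 := by
        intro h3
        apply hUne
        rw [hWz, h3, zero_mul]
      have hcz : (starRingEnd ℂ) z * z = 1 := by
        rw [← Complex.normSq_eq_conj_mul_self, Complex.normSq_eq_norm_sq, hz1]
        simp
      -- `v = z E0 / U`
      have h1 : ‖z * aeval z E0 / aeval z U - 1‖ ≤ 7 / 9 := by
        have h2 : z * aeval z E0 / aeval z U - 1 = (1 - 3 / 4 * z) * aeval z f / aeval z U := by
          field_simp
          rw [hUz]; ring
        rw [h2, norm_div, div_le_iff₀ (norm_pos_iff.mpr hUne), norm_mul]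
        have h3 : ‖1 - 3 / 4 * z‖ ≤ 7 / 4 := by
          calc ‖1 - 3 / 4 * z‖ ≤ ‖(1 : ℂ)‖ + ‖3 / 4 * z‖ := norm_sub_le _ _
            _ = 7 / 4 := by rw [norm_mul, hz1]; norm_num
        have h4 := hall z hz1
        have h5 : ‖1 - 3 / 4 * z‖ * ‖(aeval z f : ℂ)‖ ≤ 7 / 4 * ‖(aeval z f : ℂ)‖ :=
          mul_le_mul_of_nonneg_right h3 (norm_nonneg _)
        linarith
      have h2 : 2 / 9 ≤ (z * aeval z E0 / aeval z U).re := by
        have h3 := (abs_le.mp ((abs_re_le_norm _).trans h1)).1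
        rw [sub_re, one_re] at h3
        linarith
      have h3 : h z = (((‖z - ζ‖ ^ 2)⁻¹ : ℝ) : ℂ) * (z * aeval z E0 / aeval z U)⁻¹ := by
        have h4 : ((‖z - ζ‖ ^ 2 : ℝ) : ℂ) = (z - ζ) * ((starRingEnd ℂ) z - ζ) := by
          rw [← normSq_eq_norm_sq, ← mul_conj, map_sub, conj_ofReal]
        have h5 : (starRingEnd ℂ) z - ζ ≠ 0 := by
          intro h6
          apply hzζ
          have := congrArg (starRingEnd ℂ) h6
          simpa using this
        have h6 : 1 - (ζ : ℂ) * z = z * ((starRingEnd ℂ) z - ζ) := by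
          linear_combination -hcz
        have hWne : (aeval z W : ℂ) ≠ 0 := by
          intro h7
          apply hUne
          rw [hWz, h7, mul_zero]
        rw [ofReal_inv, h4, hh, hWz]
        simp only
        rw [h6]
        field_simp
      rw [h3, re_ofReal_mul]
      refine mul_pos ?_ ?_
      · have : 0 < ‖z - ζ‖ := norm_pos_iff.mpr hzζ
        positivity
      · rw [inv_re]
        refine div_pos (by linarith) ?_
        rw [normSq_pos]
        intro h4
        rw [h4] at h2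
        simp at h2
        linarith
    have hcl : closure (ball (0 : ℂ) 1) = closedBall 0 1 := closure_ball 0 one_ne_zero
    have hcs : ContinuousOn (fun z => (h z).re) (sphere 0 1) :=
      continuous_re.comp_continuousOn (hhd.continuousOn.mono sphere_subset_closedBall)
    obtain ⟨z0, hz0, hmin⟩ := (isCompact_sphere (0 : ℂ) 1).exists_isMinOn
      ⟨1, by simp⟩ hcs
    have hz01 : ‖z0‖ = 1 := by simpa using hz0
    obtain ⟨ε, hε⟩ : ∃ ε : ℝ, ε = (h z0).re := ⟨_, rfl⟩
    have hε0 : 0 < ε := by rw [hε]; exact hpos z0 hz01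
    have hd2 : DiffContOnCl ℂ (fun z => h z - (ε : ℂ)) (ball 0 1) := by
      refine DifferentiableOn.diffContOnCl ?_
      rw [hcl]
      exact hhd.sub_const _
    have h2 := re_nonneg_of_circle hd2 (fun z hz1 => by
      have h3 := hmin (show z ∈ sphere (0 : ℂ) 1 by simpa using hz1)
      simp only [Set.mem_ofPred_eq] at h3
      rw [sub_re, ofReal_re, hε]
      linarith)
    intro z hz1 hWz0
    rcases lt_or_eq_of_le hz1 with h3 | h3
    · have h4 := h2 z h3
      rw [sub_re, ofReal_re, hh] at h4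
      simp only [hWz0, zero_div, zero_re] at h4
      linarith
    · apply hU1 z h3
      rw [hWz, hWz0, mul_zero]
  -- the Schur pair
  obtain ⟨R, hR⟩ : ∃ R : ℝ[X], R = (1 - C ζ * X) * W := ⟨_, rfl⟩
  have hRz : ∀ z : ℂ, (aeval z R : ℂ) = (1 - ζ * z) * aeval z W := by
    intro z
    rw [hR]; simp
  have hRne : ∀ z : ℂ, ‖z‖ ≤ 1 → (aeval z R : ℂ) ≠ 0 := by
    intro z hz1
    rw [hRz]
    exact mul_ne_zero (hne1 z hz1) (hWne z hz1)
  have hRU : ∀ z : ℂ, ‖z‖ = 1 → ‖(aeval z R : ℂ)‖ = ‖(aeval z U : ℂ)‖ := by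
    intro z hz1
    rw [hRz, hWz, norm_mul, norm_mul, circ ζ z hz1]
  obtain ⟨F, hF⟩ : ∃ F : ℝ[X], F = C (9 / 4) * fr := ⟨_, rfl⟩
  have hFz : ∀ z : ℂ, (aeval z F : ℂ) = 9 / 4 * aeval z f := by
    intro z
    rw [hF, ← hfz]; simp
  have hFn : ∀ z : ℂ, ‖(aeval z F : ℂ)‖ = 9 / 4 * ‖(aeval z f : ℂ)‖ := by
    intro z
    rw [hFz, norm_mul]; norm_num
  have hSP : SP F R := SP.of_circle hRne fun z hz1 => by
    rw [hFn, hRU z hz1]; exact hall z hz1
  have cF0 : F.coeff 0 = 9 / 4 := by rw [hF, coeff_C_mul, cf0, mul_one]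
  have hR' : R = W - C ζ * (X * W) := by rw [hR]; ring
  have cR0 : R.coeff 0 = W.coeff 0 := by
    rw [hR', coeff_sub, coeff_C_mul, coeff_X_mul_zero, mul_zero, sub_zero]
  have cR1 : R.coeff 1 = W.coeff 1 - ζ * W.coeff 0 := by
    rw [hR', coeff_sub, coeff_C_mul, coeff_X_mul]
  have cF1 : F.coeff 1 = 9 / 4 * fr.coeff 1 := by rw [hF, coeff_C_mul]
  have hW0p : 0 < W.coeff 0 := by
    by_contra hcon
    push Not at hcon
    nlinarith
  have hb0 : 9 * ζ / 4 ≤ 1 := by
    have h1 := hSP.coeff_le.2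
    rw [cF0, cR0, abs_of_pos (by norm_num), abs_of_pos hW0p] at h1
    have h2 := mul_le_mul_of_nonneg_left h1 hζp.le
    rw [cW0] at h2
    linarith
  refine ⟨ζ, hζp, hb0, ?_, ?_⟩
  · -- the maximum principle
    obtain ⟨Ps, hPs⟩ : ∃ Ps : ℂ → ℂ, Ps = fun z => (aeval z F / aeval z R) ^ 2 *
        exp (aeval z e / aeval z R) := ⟨_, rfl⟩
    have hd : ∀ z : ℂ, ‖z‖ ≤ 1 → DifferentiableAt ℂ Ps z := by
      intro z hz1
      rw [hPs]
      have g1 := Polynomial.differentiable_aeval (𝕜 := ℂ) F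
      have g2 := Polynomial.differentiable_aeval (𝕜 := ℂ) R
      have g3 := Polynomial.differentiable_aeval (𝕜 := ℂ) e
      exact (((g1 z).div (g2 z) (hRne z hz1)).pow 2).mul
        (((g3 z).div (g2 z) (hRne z hz1)).cexp)
    have hdon : DifferentiableOn ℂ Ps (closedBall 0 1) := fun z hz1 =>
      (hd z (mem_closedBall_zero_iff.mp hz1)).differentiableWithinAt
    have hcirc : ∀ z : ℂ, ‖z‖ = 1 → ‖Ps z‖ ≤ 1 := by
      intro z hz1
      refine circle_le (φ := fun z => ‖Ps z‖) (ψ := fun _ => 1) ?_ continuousOn_const hT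
        (fun z hz1 hzT => ?_) hz1
      · refine (hdon.continuousOn.mono ?_).norm
        rw [abs_one]; exact sphere_subset_closedBall
      · by_cases hfz0 : (aeval z f : ℂ) = 0
        · rw [hPs]
          simp only [hFz, hfz0, mul_zero, zero_div]
          norm_num
        · have h1 := ha2 z hz1 hzT hfz0
          rw [← hUz, norm_div, norm_mul, hz1, one_mul, ← hRU z hz1] at h1
          rw [hPs]
          simp only
          rw [norm_mul, norm_pow, norm_div, norm_exp, hFn]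
          have hRp : 0 < ‖(aeval z R : ℂ)‖ := norm_pos_iff.mpr (hRne z hz1.le)
          have hfp : 0 < ‖(aeval z f : ℂ)‖ := norm_pos_iff.mpr hfz0
          have h2 : (aeval z e / aeval z R : ℂ).re ≤ 2 * Real.log (‖(aeval z R : ℂ)‖ /
              (9 / 4 * ‖(aeval z f : ℂ)‖)) := by
            refine (re_le_norm _).trans ?_
            rw [norm_div]; exact h1
          calc (9 / 4 * ‖(aeval z f : ℂ)‖ / ‖(aeval z R : ℂ)‖) ^ 2 *
              Real.exp (aeval z e / aeval z R : ℂ).re ≤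
              (9 / 4 * ‖(aeval z f : ℂ)‖ / ‖(aeval z R : ℂ)‖) ^ 2 *
                Real.exp (2 * Real.log (‖(aeval z R : ℂ)‖ / (9 / 4 * ‖(aeval z f : ℂ)‖))) :=
                mul_le_mul_of_nonneg_left (Real.exp_le_exp.mpr h2) (by positivity)
            _ = 1 := by
                rw [two_mul, Real.exp_add, Real.exp_log (by positivity)]
                field_simp
    have hmax : ‖Ps 0‖ ≤ 1 := by
      refine Complex.norm_le_of_forall_mem_frontier_norm_le (U := ball (0 : ℂ) 1)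
        isBounded_ball ?_ ?_ (by rw [closure_ball (0 : ℂ) one_ne_zero]; simp)
      · refine DifferentiableOn.diffContOnCl ?_
        rw [closure_ball (0 : ℂ) one_ne_zero]
        exact hdon
      · intro z hz1
        rw [frontier_ball (0 : ℂ) one_ne_zero, mem_sphere_zero_iff_norm] at hz1
        exact hcirc z hz1
    have eF : (aeval (0 : ℂ) F : ℂ) = ((9 / 4 : ℝ) : ℂ) := by rw [aeval0, cF0]
    have eR : (aeval (0 : ℂ) R : ℂ) = ((W.coeff 0 : ℝ) : ℂ) := by rw [aeval0, cR0]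
    have ee : (aeval (0 : ℂ) e : ℂ) = ((e.coeff 0 : ℝ) : ℂ) := by
      simp [Polynomial.aeval_def, Polynomial.eval₂_at_zero]
    rw [hPs] at hmax
    simp only at hmax
    rw [eF, eR, ee, ← ofReal_div, ← ofReal_div, norm_mul, norm_pow, norm_exp, norm_real,
      ofReal_re, Real.norm_of_nonneg (by positivity)] at hmax
    have hW0 : W.coeff 0 = ζ⁻¹ := by
      field_simp
      linarith
    rw [hW0] at hmax
    have e1 : (9 / 4 / ζ⁻¹ : ℝ) = 9 * ζ / 4 := by field_simp
    have e2 : ((e.coeff 0 : ℝ) / ζ⁻¹ : ℝ) = e.coeff 0 * ζ := by field_simp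
    rw [e1, e2] at hmax
    have h5 := Real.log_le_log (by positivity) hmax
    rw [Real.log_one, Real.log_mul (by positivity) (Real.exp_pos _).ne', Real.log_pow,
      Real.log_exp] at h5
    have h6 : Real.log (4 / (9 * ζ)) = -Real.log (9 * ζ / 4) := by
      rw [← Real.log_inv]
      congr 1
      field_simp
    rw [h6]
    push_cast at h5
    linarith
  · intro b0 b1 D0 eb0 eb1 eD0 hD0
    have hW0 : W.coeff 0 = ζ⁻¹ := by
      field_simp
      linarith
    have hg : |b0| < 1 := by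
      rw [← sq_lt_one_iff_abs_lt_one]
      linarith
    have hF0 : F.coeff 0 = b0 * R.coeff 0 := by
      rw [cF0, cR0, hW0, eb0]
      field_simp
    obtain ⟨F', hF'⟩ := exists_quot F R hF0
    have hst := hSP.step hg hF'
    have cF' : F'.coeff 0 = F.coeff 1 - b0 * R.coeff 1 := by
      have := congrArg (fun p => p.coeff 1) hF'
      simp only [coeff_X_mul, coeff_sub, coeff_C_mul] at this
      exact this
    have cR' : (R - C b0 * F).coeff 0 = R.coeff 0 - b0 * F.coeff 0 := by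
      rw [coeff_sub, coeff_C_mul]
    have eR' : (R - C b0 * F).coeff 0 = ζ⁻¹ * D0 := by
      rw [cR', cR0, cF0, hW0, eD0, eb0]
      field_simp
    have eW1 : W.coeff 1 = ζ⁻¹ * (ζ⁻¹ - (N + 7 / 4 - fr.coeff 1)) := by
      have h1 : ζ * W.coeff 1 = ζ⁻¹ - (N + 7 / 4 - fr.coeff 1) := by
        rw [hW0] at cW1; linarith
      field_simp
      field_simp at h1
      linarith
    have eF' : F'.coeff 0 = ζ⁻¹ * b1 := by
      rw [cF', cF1, cR1, eW1, hW0, eb1, eb0]
      field_simp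
      ring
    have hratio : F'.coeff 0 = (b1 / D0) * (R - C b0 * F).coeff 0 := by
      rw [eF', eR']
      field_simp
    refine ⟨?_, fun x hx hx1 hq => ?_⟩
    · have h1 := hst.coeff_le.2
      rw [eF', eR', abs_mul, abs_mul, abs_of_pos hD0] at h1
      exact le_of_mul_le_mul_left h1 (by positivity)
    · have hx0 : 0 < x := hζp.trans hx
      have hxa : |x| ≤ 1 := by rw [abs_of_pos hx0]; exact hx1.le
      have h1 := hst.pick hratio hx0.le hx1.le
      have hWx : 0 < W.eval x := by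
        have h2 : SP W W := ⟨hWne, fun z _ => le_rfl⟩
        have h3 := h2.sign hx0.le hx1.le
        rw [← coeff_zero_eq_eval_zero] at h3
        exact (mul_pos_iff_of_pos_left hW0p).mp h3
      have hRx : R.eval x = (1 - ζ * x) * W.eval x := by rw [hR]; simp
      have h1x : 0 < 1 - ζ * x := by nlinarith
      have hRp : 0 < R.eval x := by rw [hRx]; exact mul_pos h1x hWx
      have hFx : F.eval x = 9 / 4 * fr.eval x := by rw [hF]; simp
      have hUx2 : U.eval x = (x - ζ) * W.eval x := by rw [hW]; simp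
      obtain ⟨β, hβ⟩ : ∃ β : ℝ, β = F.eval x / R.eval x := ⟨_, rfl⟩
      have hβR : β * R.eval x = F.eval x := by rw [hβ]; field_simp
      have hβ1 : |β| ≤ 1 := by rw [hβ]; exact hSP.ratio hxa
      have hd : 0 < 1 - b0 * β := by
        have h3 : |b0 * β| < 1 := by
          rw [abs_mul]
          calc |b0| * |β| ≤ |b0| * 1 := mul_le_mul_of_nonneg_left hβ1 (abs_nonneg _)
            _ < 1 := by rw [mul_one]; exact hg
        linarith [(abs_lt.mp h3).2]
      refine ⟨β, ?_, ?_⟩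
      · -- the lower bound
        have h3 : 0 < fr.eval x - x * Er.eval x := by rw [← hfx, ← hEx]; exact hq
        have h4 := hUx x
        have h5 : (x - ζ) * W.eval x < 3 / 4 * x * fr.eval x := by
          rw [← hUx2, h4]; linarith
        have h6 : β * ((1 - ζ * x) * W.eval x) = 9 / 4 * fr.eval x := by
          rw [← hRx, hβR, hFx]
        have h7 : 3 * (x - ζ) * W.eval x < β * x * (1 - ζ * x) * W.eval x := by
          have : β * x * (1 - ζ * x) * W.eval x = x * (9 / 4 * fr.eval x) := by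
            rw [← h6]; ring
          rw [this]
          linarith
        exact lt_of_mul_lt_mul_right h7 hWx.le
      · -- the upper bound
        have hRxne : R.eval x ≠ 0 := hRp.ne'
        have hsv := SP.step_val hF' hRxne hx0.ne' (by rw [← hβ]; exact hd.ne')
        rw [← hβ] at hsv
        rw [hsv] at h1
        have h2 := (abs_le.mp h1).2
        have hp1 : 0 < x * (1 - b0 * β) := mul_pos hx0 hd
        -- multiply by `D0 * x * (1 - b0 β)`
        have h3 : ((β - b0) / (x * (1 - b0 * β))) * (D0 + x * b1) ≤ x * D0 + b1 := by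
          have h4 := mul_le_mul_of_nonneg_right h2 hD0.le
          have e3 : ((β - b0) / (x * (1 - b0 * β)) - b1 / D0) * D0 =
              ((β - b0) / (x * (1 - b0 * β))) * D0 - b1 := by
            rw [sub_mul, div_mul_cancel₀ _ hD0.ne']
          have e4 : x * (1 - b1 / D0 * ((β - b0) / (x * (1 - b0 * β)))) * D0 =
              x * D0 - x * b1 * ((β - b0) / (x * (1 - b0 * β))) := by
            have : x * (1 - b1 / D0 * ((β - b0) / (x * (1 - b0 * β)))) * D0 =
              x * (D0 - (b1 / D0 * D0) * ((β - b0) / (x * (1 - b0 * β)))) := by ring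
            rw [this, div_mul_cancel₀ _ hD0.ne']
            ring
          rw [e3, e4] at h4
          linarith
        rw [div_mul_eq_mul_div, div_le_iff₀ hp1] at h3
        linarith

end Pool.Agent.B5.O4P
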