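import Pool.Agent.Lib.MP_b5021c_nt.W.H80.Ser
import Pool.Agent.Lib.MP_b5021c_nt.W.H1.Car

/-!
# MP_b5021c_nt, all `θ`, K = 5: the Schur algorithm for functions in the open disc

`Sd k s A B`: `s` is holomorphic in the open disc, `|s| ≤ 1`, and `s B = A + O(z^(k+1))`.
-/

namespace Pool.Agent.B5.KO42

open Polynomial Metric Filter Topology
open Pool.Agent.B5.Nr.Sch (p5)
open Pool.Agent.B5.Nr.Car (Cara sp2)

/-- Schur functions with a truncated expansion. -/
structure Sd (k : ℕ) (s : ℂ → ℂ) (A B : ℝ[X]) : Prop where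
  d : DifferentiableOn ℂ s (ball 0 1)
  le : ∀ z : ℂ, ‖z‖ < 1 → ‖s z‖ ≤ 1
  ex : ∃ h : ℂ → ℂ, DifferentiableOn ℂ h (ball 0 1) ∧
    ∀ z : ℂ, ‖z‖ < 1 → s z * aeval z B = aeval z A + z ^ (k + 1) * h z

theorem aeval0 (p : ℝ[X]) : aeval (0 : ℂ) p = (p.coeff 0 : ℂ) := by
  rw [← coeff_zero_eq_aeval_zero']
  rfl

theorem Sd.eq0 {k : ℕ} {s : ℂ → ℂ} {A B : ℝ[X]} (h : Sd k s A B) :
    s 0 * (B.coeff 0 : ℂ) = (A.coeff 0 : ℂ) := by
  obtain ⟨g, -, hg⟩ := h.ex
  have := hg 0 (by simp)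
  rwa [aeval0, aeval0, zero_pow (Nat.succ_ne_zero k), zero_mul, add_zero] at this

theorem Sd.val0 {k : ℕ} {s : ℂ → ℂ} {A B : ℝ[X]} (h : Sd k s A B) (hB : B.coeff 0 ≠ 0) :
    s 0 = ((A.coeff 0 / B.coeff 0 : ℝ) : ℂ) := by
  have hB' : (B.coeff 0 : ℂ) ≠ 0 := by exact_mod_cast hB
  rw [Complex.ofReal_div, eq_div_iff hB']
  exact h.eq0

theorem Sd.bd {k : ℕ} {s : ℂ → ℂ} {A B : ℝ[X]} (h : Sd k s A B) : |A.coeff 0| ≤ |B.coeff 0| := by
  have h1 := congrArg norm h.eq0
  rw [norm_mul, Complex.norm_real, Complex.norm_real, Real.norm_eq_abs, Real.norm_eq_abs] at h1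
  rw [← h1]
  calc ‖s 0‖ * |B.coeff 0| ≤ 1 * |B.coeff 0| :=
        mul_le_mul_of_nonneg_right (h.le 0 (by simp)) (abs_nonneg _)
    _ = |B.coeff 0| := one_mul _

theorem Sd.trunc {k : ℕ} {s : ℂ → ℂ} {A B A' B' : ℝ[X]} (h : Sd k s A B)
    (hA : X ^ (k + 1) ∣ A - A') (hB : X ^ (k + 1) ∣ B - B') : Sd k s A' B' := by
  obtain ⟨g, hgd, hg⟩ := h.ex
  obtain ⟨U, hU⟩ := hA
  obtain ⟨V, hV⟩ := hB
  refine ⟨h.d, h.le, fun z => g z + aeval z U - s z * aeval z V, ?_, fun z hz => ?_⟩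
  · exact (hgd.add (Polynomial.differentiable_aeval _).differentiableOn).sub
      (h.d.mul (Polynomial.differentiable_aeval _).differentiableOn)
  · have e1 : aeval z A - aeval z A' = z ^ (k + 1) * aeval z U := by
      have := congrArg (fun p => aeval z p) hU
      simpa using this
    have e2 : aeval z B - aeval z B' = z ^ (k + 1) * aeval z V := by
      have := congrArg (fun p => aeval z p) hV
      simpa using this
    linear_combination hg z hz + e1 - s z * e2

/-- the Moebius function is bounded by one -/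
theorem mob_le {A : ℂ} {g : ℝ} (hg : |g| < 1) (h : ‖A‖ ≤ 1) :
    1 - (g : ℂ) * A ≠ 0 ∧ ‖(A - g) / (1 - g * A)‖ ≤ 1 := by
  have h1 : 1 - (g : ℂ) * A ≠ 0 := by
    intro h0
    have h2 : ‖(g : ℂ) * A‖ = 1 := by
      rw [← sub_eq_zero.mp h0, norm_one]
    rw [norm_mul, Complex.norm_real, Real.norm_eq_abs] at h2
    nlinarith [abs_nonneg g, norm_nonneg A]
  refine ⟨h1, ?_⟩
  rw [norm_div, div_le_one (norm_pos_iff.mpr h1)]
  have := Pool.Agent.B5.Nr.Sch.mob (A := A) (B := 1) (g := g) hg.le (by simpa using h)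
  simpa using this

/-- The Schur step. -/
theorem Sd.step {k : ℕ} {s : ℂ → ℂ} {A B A' B' : ℝ[X]} (h : Sd (k + 1) s A B)
    (hlt : |A.coeff 0| < |B.coeff 0|)
    (hA : X * A' = C (B.coeff 0) * A - C (A.coeff 0) * B)
    (hB : B' = C (B.coeff 0) * B - C (A.coeff 0) * A) :
    ∃ s' : ℂ → ℂ, Sd k s' A' B' ∧ ∀ x v : ℝ, 0 < x → x < 1 → s x = v →
      s' x = (((v - A.coeff 0 / B.coeff 0) / (x * (1 - A.coeff 0 / B.coeff 0 * v)) : ℝ) : ℂ) := by
  have hb : B.coeff 0 ≠ 0 := by
    intro h0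
    rw [h0, abs_zero] at hlt
    exact absurd hlt (not_lt.mpr (abs_nonneg _))
  set g : ℝ := A.coeff 0 / B.coeff 0 with hg
  have hg1 : |g| < 1 := by rw [hg, abs_div, div_lt_one (abs_pos.mpr hb)]; exact hlt
  have hs0 : s 0 = (g : ℂ) := h.val0 hb
  have hgb : (g : ℂ) * B.coeff 0 = A.coeff 0 := by
    have : g * B.coeff 0 = A.coeff 0 := by rw [hg]; field_simp
    exact_mod_cast this
  set κ : ℂ → ℂ := fun z => (s z - g) / (1 - g * s z) with hκ
  have hden : ∀ z : ℂ, ‖z‖ < 1 → 1 - (g : ℂ) * s z ≠ 0 := fun z hz => (mob_le hg1 (h.le z hz)).1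
  have hκd : DifferentiableOn ℂ κ (ball 0 1) := by
    apply DifferentiableOn.div
    · exact h.d.sub_const _
    · exact (h.d.const_mul _).const_sub _
    · intro z hz
      exact hden z (by simpa using hz)
  have hκ0 : κ 0 = 0 := by rw [hκ]; simp only; rw [hs0, sub_self, zero_div]
  have hmaps : Set.MapsTo κ (ball 0 1) (closedBall (κ 0) 1) := by
    intro z hz
    rw [hκ0, mem_closedBall_zero_iff]
    exact (mob_le hg1 (h.le z (by simpa using hz))).2
  set s' : ℂ → ℂ := dslope κ 0 with hs'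
  have hsd : DifferentiableOn ℂ s' (ball 0 1) :=
    (Complex.differentiableOn_dslope (isOpen_ball.mem_nhds (mem_ball_self one_pos))).mpr hκd
  have hsn : ∀ z : ℂ, ‖z‖ < 1 → ‖s' z‖ ≤ 1 := by
    intro z hz
    have := Complex.norm_dslope_le_div_of_mapsTo_ball hκd hmaps (z := z) (by simpa using hz)
    simpa using this
  have hval : ∀ z : ℂ, z ≠ 0 → s' z = κ z / z := by
    intro z hz
    rw [hs', dslope_of_ne _ hz, slope_def_module, hκ0, sub_zero, sub_zero, smul_eq_mul,
      inv_mul_eq_div]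
  obtain ⟨r, hrd, hr⟩ := h.ex
  have hne : ∀ z : ℂ, ‖z‖ < 1 → z ≠ 0 → s' z * aeval z B' = aeval z A' +
      z ^ (k + 1) * ((B.coeff 0 + A.coeff 0 * z * s' z) * r z) := by
    intro z hz hz0
    have e1 : z * s' z * (1 - g * s z) = s z - g := by
      have e0 : z * (κ z / z) = κ z := by field_simp
      rw [hval z hz0, e0, hκ]
      simp only
      rw [div_mul_cancel₀ _ (hden z hz)]
    have e2 : z * aeval z A' = B.coeff 0 * aeval z A - A.coeff 0 * aeval z B := by
      have := congrArg (fun p => aeval z p) hA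
      simpa using this
    have e3 : aeval z B' = B.coeff 0 * aeval z B - A.coeff 0 * aeval z A := by
      rw [hB]; simp
    have e4 := hr z hz
    have e5 : z * (s' z * aeval z B') = z * (aeval z A' +
        z ^ (k + 1) * ((B.coeff 0 + A.coeff 0 * z * s' z) * r z)) := by
      rw [mul_add, e2, e3]
      have e6 : z ^ (k + 1 + 1) = z * z ^ (k + 1) := by rw [pow_succ, mul_comm]
      rw [e6] at e4
      linear_combination (B.coeff 0 * aeval z B : ℂ) * e1 +
        (B.coeff 0 + A.coeff 0 * z * s' z : ℂ) * e4 + (aeval z B * (z * s' z * s z - 1)) * hgb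
    exact mul_left_cancel₀ hz0 e5
  refine ⟨s', ⟨hsd, hsn, fun z => (B.coeff 0 + A.coeff 0 * z * s' z) * r z, ?_, ?_⟩, ?_⟩
  · apply DifferentiableOn.mul _ hrd
    apply DifferentiableOn.const_add
    apply DifferentiableOn.mul _ hsd
    fun_prop
  · intro z hz
    rcases eq_or_ne z 0 with hz0 | hz0
    · subst hz0
      have hn : ball (0 : ℂ) 1 ∈ 𝓝 (0 : ℂ) := isOpen_ball.mem_nhds (mem_ball_self one_pos)
      have c1 : ContinuousAt s' 0 := (hsd.differentiableAt hn).continuousAt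
      have c2 : ContinuousAt r 0 := (hrd.differentiableAt hn).continuousAt
      have cB : ContinuousAt (fun z : ℂ => aeval z B') 0 :=
        (Polynomial.differentiable_aeval B').continuous.continuousAt
      have cA : ContinuousAt (fun z : ℂ => aeval z A') 0 :=
        (Polynomial.differentiable_aeval A').continuous.continuousAt
      have c3 : ContinuousAt (fun z : ℂ => s' z * aeval z B') 0 := c1.mul cB
      have c4 : ContinuousAt (fun z : ℂ => aeval z A' +
          z ^ (k + 1) * ((B.coeff 0 + A.coeff 0 * z * s' z) * r z)) 0 := by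
        refine cA.add (ContinuousAt.mul (by fun_prop) (ContinuousAt.mul ?_ c2))
        exact ContinuousAt.add (by fun_prop) (ContinuousAt.mul (by fun_prop) c1)
      refine tendsto_nhds_unique_of_eventuallyEq (l := 𝓝[≠] (0 : ℂ))
        (c3.tendsto.mono_left nhdsWithin_le_nhds) (c4.tendsto.mono_left nhdsWithin_le_nhds) ?_
      filter_upwards [self_mem_nhdsWithin, mem_nhdsWithin_of_mem_nhds hn] with w hw1 hw2
      exact hne w (by simpa using hw2) hw1
    · exact hne z hz hz0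
  · intro x v hx0 hx1 hv
    have hx : (x : ℂ) ≠ 0 := by exact_mod_cast hx0.ne'
    rw [hval x hx, hκ]
    simp only
    rw [hv]
    push_cast
    rw [div_div, mul_comm (x : ℂ)]

/-- One step with explicit coefficients. -/
theorem Sd.step5 {k : ℕ} {s : ℂ → ℂ} {a0 a1 a2 a3 a4 b0 b1 b2 b3 b4 : ℝ}
    (h : Sd (k + 1) s (p5 a0 a1 a2 a3 a4) (p5 b0 b1 b2 b3 b4)) (hlt : |a0| < |b0|) :
    ∃ s' : ℂ → ℂ, Sd k s'
      (p5 (b0 * a1 - a0 * b1) (b0 * a2 - a0 * b2) (b0 * a3 - a0 * b3) (b0 * a4 - a0 * b4) 0)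
      (p5 (b0 * b0 - a0 * a0) (b0 * b1 - a0 * a1) (b0 * b2 - a0 * a2) (b0 * b3 - a0 * a3)
        (b0 * b4 - a0 * a4)) ∧ ∀ x v : ℝ, 0 < x → x < 1 → s x = v →
      s' x = (((v - a0 / b0) / (x * (1 - a0 / b0 * v)) : ℝ) : ℂ) := by
  have h1 := h.step (A' := p5 (b0 * a1 - a0 * b1) (b0 * a2 - a0 * b2) (b0 * a3 - a0 * b3)
    (b0 * a4 - a0 * b4) 0) (B' := p5 (b0 * b0 - a0 * a0) (b0 * b1 - a0 * a1) (b0 * b2 - a0 * a2)
    (b0 * b3 - a0 * a3) (b0 * b4 - a0 * a4)) (by simpa using hlt) ?_ ?_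
  · simpa using h1
  · rw [Pool.Agent.B5.Nr.Sch.p5_coeff, Pool.Agent.B5.Nr.Sch.p5_coeff]
    unfold p5
    simp only [C_sub, C_mul, C_0]
    ring
  · rw [Pool.Agent.B5.Nr.Sch.p5_coeff, Pool.Agent.B5.Nr.Sch.p5_coeff]
    unfold p5
    simp only [C_sub, C_mul]
    ring

theorem Sd.le5 {k : ℕ} {s : ℂ → ℂ} {a0 a1 a2 a3 a4 b0 b1 b2 b3 b4 : ℝ}
    (h : Sd k s (p5 a0 a1 a2 a3 a4) (p5 b0 b1 b2 b3 b4)) : |a0| ≤ |b0| := by
  simpa using h.bd

theorem Sd.z5 {k : ℕ} {s : ℂ → ℂ} {a0 a1 a2 a3 a4 b0 b1 b2 b3 b4 : ℝ}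
    (h : Sd k s (p5 a0 a1 a2 a3 a4) (p5 b0 b1 b2 b3 b4)) (hb : b0 ≠ 0) :
    s 0 = ((a0 / b0 : ℝ) : ℂ) := by
  simpa using h.val0 (by simpa using hb)

/-- The start: a function with nonnegative real part. -/
theorem start {Cf : ℂ → ℂ} (h : Cara Cf) {c0 : ℝ} (hc0 : 0 < c0) (h0 : Cf 0 = c0) {N E : ℝ[X]}
    (hNE : ∀ z : ℂ, ‖z‖ < 1 → Cf z * aeval z E = aeval z N) :
    ∃ s : ℂ → ℂ, Sd 4 s
      (p5 (N.coeff 1 - c0 * E.coeff 1) (N.coeff 2 - c0 * E.coeff 2) (N.coeff 3 - c0 * E.coeff 3)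
        (N.coeff 4 - c0 * E.coeff 4) (N.coeff 5 - c0 * E.coeff 5))
      (p5 (N.coeff 0 + c0 * E.coeff 0) (N.coeff 1 + c0 * E.coeff 1) (N.coeff 2 + c0 * E.coeff 2)
        (N.coeff 3 + c0 * E.coeff 3) (N.coeff 4 + c0 * E.coeff 4)) ∧
      ∀ x v : ℝ, 0 < x → x < 1 → Cf x = v → s x = (((v - c0) / (x * (v + c0)) : ℝ) : ℂ) := by
  have hre : ∀ z : ℂ, ‖z‖ < 1 → Cf z + c0 ≠ 0 := by
    intro z hz h1
    have h2 := congrArg Complex.re h1
    simp only [Complex.add_re, Complex.ofReal_re, Complex.zero_re] at h2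
    linarith [h.re z hz]
  set κ : ℂ → ℂ := fun z => (Cf z - c0) / (Cf z + c0) with hκ
  have hκd : DifferentiableOn ℂ κ (ball 0 1) := by
    apply DifferentiableOn.div (h.d.sub_const _) (h.d.add_const _)
    intro z hz
    exact hre z (by simpa using hz)
  have hκ0 : κ 0 = 0 := by rw [hκ]; simp only; rw [h0, sub_self, zero_div]
  have hmaps : Set.MapsTo κ (ball 0 1) (closedBall (κ 0) 1) := by
    intro z hz
    have hz' : ‖z‖ < 1 := by simpa using hz
    have h1 := hre z hz'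
    have h2 : 0 < ‖Cf z + c0‖ := norm_pos_iff.mpr h1
    rw [hκ0, mem_closedBall_zero_iff, hκ]
    simp only
    rw [norm_div, div_le_one h2]
    apply le_of_sq_le_sq _ h2.le
    rw [Complex.sq_norm, Complex.sq_norm, Complex.normSq_apply, Complex.normSq_apply]
    simp only [Complex.sub_re, Complex.sub_im, Complex.add_re, Complex.add_im, Complex.ofReal_re,
      Complex.ofReal_im]
    nlinarith [mul_nonneg (h.re z hz') hc0.le]
  set s : ℂ → ℂ := dslope κ 0 with hs
  have hsd : DifferentiableOn ℂ s (ball 0 1) :=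
    (Complex.differentiableOn_dslope (isOpen_ball.mem_nhds (mem_ball_self one_pos))).mpr hκd
  have hsn : ∀ z : ℂ, ‖z‖ < 1 → ‖s z‖ ≤ 1 := by
    intro z hz
    have := Complex.norm_dslope_le_div_of_mapsTo_ball hκd hmaps (z := z) (by simpa using hz)
    simpa using this
  have hval : ∀ z : ℂ, z ≠ 0 → s z = κ z / z := by
    intro z hz
    rw [hs, dslope_of_ne _ hz, slope_def_module, hκ0, sub_zero, sub_zero, smul_eq_mul,
      inv_mul_eq_div]
  -- the relation
  have hN0 : N.coeff 0 = c0 * E.coeff 0 := by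
    have h1 := hNE 0 (by simp)
    rw [h0, aeval0, aeval0] at h1
    exact_mod_cast h1.symm
  obtain ⟨A, hA⟩ : ∃ A : ℝ[X], X * A = N - C c0 * E := by
    have h1 : (X : ℝ[X]) ∣ N - C c0 * E := by
      rw [X_dvd_iff, coeff_sub, coeff_C_mul, hN0, sub_self]
    obtain ⟨A, hA⟩ := h1
    exact ⟨A, hA.symm⟩
  have hrel : ∀ z : ℂ, ‖z‖ < 1 → s z * aeval z (N + C c0 * E) = aeval z A := by
    have e1 : ∀ z : ℂ, z * aeval z A = aeval z N - c0 * aeval z E := by
      intro z
      have := congrArg (fun p => aeval z p) hA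
      simpa using this
    have e2 : ∀ z : ℂ, aeval z (N + C c0 * E) = aeval z N + c0 * aeval z E := by
      intro z; simp
    have hne : ∀ z : ℂ, ‖z‖ < 1 → z ≠ 0 → s z * aeval z (N + C c0 * E) = aeval z A := by
      intro z hz hz0
      have e3 : z * (s z * aeval z (N + C c0 * E)) = z * aeval z A := by
        rw [hval z hz0, e1, e2, hκ, ← hNE z hz]
        simp only
        have := hre z hz
        field_simp
      exact mul_left_cancel₀ hz0 e3
    intro z hz
    rcases eq_or_ne z 0 with hz0 | hz0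
    · subst hz0
      have hn : ball (0 : ℂ) 1 ∈ 𝓝 (0 : ℂ) := isOpen_ball.mem_nhds (mem_ball_self one_pos)
      have c1 : ContinuousAt s 0 := (hsd.differentiableAt hn).continuousAt
      have cB : ContinuousAt (fun z : ℂ => aeval z (N + C c0 * E)) 0 :=
        (Polynomial.differentiable_aeval (N + C c0 * E)).continuous.continuousAt
      have cA : ContinuousAt (fun z : ℂ => aeval z A) 0 :=
        (Polynomial.differentiable_aeval A).continuous.continuousAt
      have c3 : ContinuousAt (fun z : ℂ => s z * aeval z (N + C c0 * E)) 0 := c1.mul cB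
      refine tendsto_nhds_unique_of_eventuallyEq (l := 𝓝[≠] (0 : ℂ))
        (c3.tendsto.mono_left nhdsWithin_le_nhds) (cA.tendsto.mono_left nhdsWithin_le_nhds) ?_
      filter_upwards [self_mem_nhdsWithin, mem_nhdsWithin_of_mem_nhds hn] with w hw1 hw2
      exact hne w (by simpa using hw2) hw1
    · exact hne z hz hz0
  have hfull : Sd 4 s A (N + C c0 * E) :=
    ⟨hsd, hsn, fun _ => 0, differentiableOn_const _, fun z hz => by
      rw [mul_zero, add_zero]; exact hrel z hz⟩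
  have hAc : ∀ i, A.coeff i = N.coeff (i + 1) - c0 * E.coeff (i + 1) := by
    intro i
    have := congrArg (fun p => p.coeff (i + 1)) hA
    simpa using this
  refine ⟨s, hfull.trunc ?_ ?_, ?_⟩
  · rw [X_pow_dvd_iff]
    intro d hd
    rw [coeff_sub, hAc]
    unfold p5
    rcases d with _ | _ | _ | _ | _ | d
    · simp
    · simp
    · simp [coeff_X_mul, coeff_C]
    · simp [coeff_X_mul, coeff_C]
    · simp [coeff_X_mul, coeff_C]
    · omega
  · rw [X_pow_dvd_iff]
    intro d hd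
    rw [coeff_sub, coeff_add, coeff_C_mul]
    unfold p5
    rcases d with _ | _ | _ | _ | _ | d
    · simp
    · simp
    · simp [coeff_X_mul, coeff_C]
    · simp [coeff_X_mul, coeff_C]
    · simp [coeff_X_mul, coeff_C]
    · omega
  · intro x v hx0 hx1 hv
    have hx : (x : ℂ) ≠ 0 := by exact_mod_cast hx0.ne'
    rw [hval x hx, hκ]
    simp only
    rw [hv]
    push_cast
    rw [div_div, mul_comm (x : ℂ)]

/-! ## Two points -/

/-- Schwarz-Pick between two real points `x < y` of a Schur function: the upper bound `al` at `x` and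
the lower bound `be` at `y` are not compatible. -/
theorem dead {k : ℕ} {s : ℂ → ℂ} {A B : ℝ[X]} (h : Sd k s A B) {x y u v al be : ℝ} (hx0 : 0 ≤ x)
    (hxy : x < y) (hy : y < 1) (hu : s x = u) (hv : s y = v) (hal : u ≤ al) (hbe : be ≤ v)
    (hc : (y - x) * (1 - al * be) < (be - al) * (1 - x * y)) : False := by
  have hx1 : |x| < 1 := by rw [abs_of_nonneg hx0]; linarith
  have hy1 : |y| < 1 := by rw [abs_of_nonneg (by linarith)]; exact hy
  have h1 := sp2 h.d h.le hx1 hy1 hu hv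
  have hp : 0 < 1 - x * y := by nlinarith
  rw [abs_of_pos (div_pos (by linarith) hp)] at h1
  have h2 := (abs_le.mp h1).2
  have hu1 : |u| ≤ 1 := by
    have := h.le x (by rw [Complex.norm_real, Real.norm_eq_abs]; exact hx1)
    rwa [hu, Complex.norm_real, Real.norm_eq_abs] at this
  have hv1 : |v| ≤ 1 := by
    have := h.le y (by rw [Complex.norm_real, Real.norm_eq_abs]; exact hy1)
    rwa [hv, Complex.norm_real, Real.norm_eq_abs] at this
  have h3 : (v - u) * (1 - x * y) ≤ (y - x) * (1 - u * v) := by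
    rw [div_mul_eq_mul_div, le_div_iff₀ hp] at h2
    exact h2
  have hu2 := abs_le.mp hu1
  have hv2 := abs_le.mp hv1
  have hyx : 0 < y - x := by linarith
  have hd : 0 < (1 - x * y) - (y - x) := by nlinarith
  -- first step: `v` to `be`
  have h4 : (be - u) * (1 - x * y) ≤ (y - x) * (1 - u * be) := by
    have h5 : 0 ≤ (v - be) * ((1 - x * y) + (y - x) * u) := by
      apply mul_nonneg (by linarith)
      nlinarith [hu2.1]
    nlinarith
  have h6 : (be - al) * (1 - x * y) ≤ (y - x) * (1 - al * be) := by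
    have h5 : 0 ≤ (al - u) * ((1 - x * y) - (y - x) * be) := by
      apply mul_nonneg (by linarith)
      nlinarith [hv2.2]
    nlinarith
  linarith

/-- The same with the lower bound at `x` and the upper bound at `y`. -/
theorem dead' {k : ℕ} {s : ℂ → ℂ} {A B : ℝ[X]} (h : Sd k s A B) {x y u v al be : ℝ} (hx0 : 0 ≤ x)
    (hxy : x < y) (hy : y < 1) (hu : s x = u) (hv : s y = v) (hbe : be ≤ u) (hal : v ≤ al)
    (hc : (y - x) * (1 - al * be) < (be - al) * (1 - x * y)) : False := by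
  have h1 : Sd k (fun z => -s z) (-A) B := by
    refine ⟨h.d.neg, fun z hz => by rw [norm_neg]; exact h.le z hz, ?_⟩
    obtain ⟨r, hr1, hr2⟩ := h.ex
    refine ⟨fun z => -r z, hr1.neg, fun z hz => ?_⟩
    rw [map_neg]
    linear_combination -hr2 z hz
  refine dead h1 (u := -u) (v := -v) (al := -be) (be := -al) hx0 hxy hy ?_ ?_ (by linarith)
    (by linarith) ?_
  · rw [hu]; push_cast; rfl
  · rw [hv]; push_cast; rfl
  · have e1 : -be * -al = al * be := by ring
    have e2 : -al - -be = be - al := by ring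
    rw [e1, e2]
    exact hc

end Pool.Agent.B5.KO42
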